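import Pool.Agent.Work.MP_308fa9_nt.BG.Defs

set_option autoImplicit false

/-!
Working definitions: monic polynomials, local classes, Hankel matrices, pairs of symmetric matrices.
-/

namespace Stoll308.BG

open Polynomial Finset Matrix

/-- The monic polynomial with integral coefficients `c`, over the ring `R`. -/
noncomputable abbrev FZ (R : Type*) [CommRing R] {n : ℕ} (c : Fin n → ℤ) : R[X] :=
  fpol (1 : R) (fun i => (c i : R))

/-- Local condition (monic form): a point `κ^(n-1) y² = F(κ x²)`, `y ≠ 0`, such that `κ x² - θ` is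
`δ` times a square. -/
def MLoc {n : ℕ} (κ : ℤ) (c : Fin n → ℤ) (δ : ℚ[X]) (K : Type*) [Field K] [Algebra ℚ K] : Prop :=
  ∃ (x y : K) (s : K[X]), y ≠ 0 ∧ (κ : K) ^ (n - 1) * y ^ 2 = (FZ K c).eval (κ * x ^ 2) ∧
    FZ K c ∣ (C (κ * x ^ 2) - X) - δ.map (algebraMap ℚ K) * s ^ 2

/-- The class of `δ` is trivial. -/
def Triv {n : ℕ} (c : Fin n → ℤ) (δ : ℚ[X]) : Prop := ∃ s : ℚ[X], FZ ℚ c ∣ δ - s ^ 2

/-- The matrix of the multiplication by `s` in `K[T]/(F)`: row `i` is `s θ^i`. -/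
noncomputable def mulMat {K : Type*} [CommRing K] (n : ℕ) (F s : K[X]) :
    Matrix (Fin n) (Fin n) K :=
  fun i j => ((s * X ^ (i : ℕ)) %ₘ F).coeff j

/-- The matrix of the form `(λ, μ) ↦ [θ^(n-1)](δ λ μ)` in the basis of the powers of `θ`. -/
noncomputable def Hank {K : Type*} [CommRing K] (n : ℕ) (F δ : K[X]) : Matrix (Fin n) (Fin n) K :=
  fun i j => ((δ * X ^ ((i : ℕ) + j)) %ₘ F).coeff (n - 1)

/-- The pair of integral matrices `(A, B)` is the pair of forms `[θ^(n-1)](δ λ μ)`,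
`[θ^(n-1)](θ δ λ μ)` in some basis. -/
def IsPair {n : ℕ} (c : Fin n → ℤ) (δ : ℚ[X]) (A B : Matrix (Fin n) (Fin n) ℤ) : Prop :=
  ∃ G : Matrix (Fin n) (Fin n) ℚ, G.det ≠ 0 ∧
    A.map (Int.cast : ℤ → ℚ) = G * Hank n (FZ ℚ c) δ * Gᵀ ∧
    B.map (Int.cast : ℤ → ℚ) = G * Hank n (FZ ℚ c) (X * δ) * Gᵀ

/-- The characteristic polynomial of the pair `(A, B)` is `det A · F`. -/
def HasChar {n : ℕ} (c : Fin n → ℤ) (A B : Matrix (Fin n) (Fin n) ℤ) : Prop :=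
  A.det ≠ 0 ∧ ((X : ℤ[X]) • A.map C - B.map C).det = C A.det * FZ ℤ c

/-- The index set of the entries of a symmetric matrix. -/
abbrev Ix (n : ℕ) := {p : Fin n × Fin n // p.1 ≤ p.2}

/-- The symmetric matrix with the entries `v`. -/
def symM {R : Type*} {n : ℕ} (v : Ix n → R) : Matrix (Fin n) (Fin n) R :=
  fun i j => v ⟨(min i j, max i j), min_le_max⟩

/-- The local condition at the prime `l` fails for the pair. -/
def Bad {n : ℕ} (κ : ℤ) (l : ℕ) (A B : Matrix (Fin n) (Fin n) ℤ) : Prop :=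
  (l : ℤ) ∣ B.det ∧ ¬ (l : ℤ) ^ 2 ∣ B.det ∧ ¬ (l : ℤ) ∣ (B.adjugate * A).trace ∧
    ∃ _h : Fact l.Prime, ∃ i, legendreSym l ((-1) ^ (n - 1) * B.adjugate i i * A.det * κ) = -1

/-- A reduced pair: `K` is a constant, `M` the size of the roots, `t` the lengths of the basis. -/
structure RPair {n : ℕ} (K M : ℝ) (c : Fin n → ℤ) (A B : Matrix (Fin n) (Fin n) ℤ)
    (t : Fin n → ℝ) : Prop where
  symA : A.IsSymm
  symB : B.IsSymm
  char : HasChar c A B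
  pos : ∀ i, 0 < t i
  hA : ∀ i j, |(A i j : ℝ)| ≤ t i * t j
  hB : ∀ i j, |(B i j : ℝ)| ≤ M * (t i * t j)
  mono : ∀ i j, i ≤ j → t i ≤ t j
  prod : ∏ i, t i ≤ K
  odd : Odd n → ∃ i j : Fin n, (i : ℕ) < n / 2 ∧ (j : ℕ) < n / 2 ∧ (A i j ≠ 0 ∨ B i j ≠ 0)
  even : Even n → ∃ i j : Fin n, (i : ℕ) < n / 2 ∧ (j : ℕ) < n / 2 ∧ A i j ≠ 0

end Stoll308.BG
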