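import Pool.Agent.Work.MP_308fa9_nt.BG.Basic

set_option autoImplicit false

/-!
Irreducibility: no large zero blocks, no unitriangular automorphisms.
-/

namespace Stoll308.BG

open Polynomial Finset Matrix

namespace Irr

theorem fpol_natDegree {R : Type*} [CommRing R] [Nontrivial R] {n : ℕ} (b : Fin n → R) :
    (fpol (1 : R) b).natDegree = n ∧ (fpol (1 : R) b).Monic := by
  have h : (∑ i : Fin n, C (b i) * X ^ (n - 1 - (i : ℕ)) : R[X]).degree < n := by
    refine lt_of_le_of_lt (degree_sum_le _ _) ?_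
    rw [Finset.sup_lt_iff (by exact WithBot.bot_lt_coe n)]
    intro i _
    refine lt_of_le_of_lt (degree_C_mul_X_pow_le _ _) ?_
    have := i.2
    exact_mod_cast (by omega : n - 1 - (i : ℕ) < n)
  have e : fpol (1 : R) b = X ^ n + ∑ i : Fin n, C (b i) * X ^ (n - 1 - (i : ℕ)) := by
    simp [fpol]
  rw [e]
  refine ⟨?_, monic_X_pow_add h⟩
  rw [natDegree_add_eq_left_of_degree_lt]
  · simp
  · rw [degree_X_pow]; exact h

/-- a matrix whose characteristic polynomial is irreducible has no invariant subspaces -/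
theorem invariant {n : ℕ} (M : Matrix (Fin n) (Fin n) ℚ) {F : ℚ[X]} (hF : Irreducible F)
    (hd : F.natDegree = n) (hM : aeval M F = 0) (S : Submodule ℚ (Fin n → ℚ))
    (hS : ∀ v ∈ S, M *ᵥ v ∈ S) {w : Fin n → ℚ} (hw : w ∈ S) (hw0 : w ≠ 0) : S = ⊤ := by
  have hpow : ∀ (i : ℕ), (M ^ i) *ᵥ w ∈ S := by
    intro i
    induction i with
    | zero => simpa using hw
    | succ i ih =>
      rw [pow_succ', ← Matrix.mulVec_mulVec]
      exact hS _ ih
  have hli : LinearIndependent ℚ (fun i : Fin n => (M ^ (i : ℕ)) *ᵥ w) := by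
    rw [Fintype.linearIndependent_iff]
    intro g hg
    by_contra hcon
    push Not at hcon
    obtain ⟨i0, hi0⟩ := hcon
    set p : ℚ[X] := ∑ i : Fin n, C (g i) * X ^ (i : ℕ) with hp
    have hcoef : p.coeff i0 = g i0 := by
      rw [hp, finsetSum_coeff]
      simp only [coeff_C_mul, coeff_X_pow]
      rw [Finset.sum_eq_single i0]
      · simp
      · intro b _ hb
        rw [if_neg]
        · simp
        · intro h
          exact hb (Fin.ext h.symm)
      · simp
    have hp0 : p ≠ 0 := by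
      intro h
      rw [h, coeff_zero] at hcoef
      exact hi0 hcoef.symm
    have hpd : p.degree < F.degree := by
      rw [degree_eq_natDegree hF.ne_zero, hd]
      refine lt_of_le_of_lt (degree_sum_le _ _) ?_
      rw [Finset.sup_lt_iff (by exact WithBot.bot_lt_coe n)]
      intro i _
      refine lt_of_le_of_lt (degree_C_mul_X_pow_le _ _) ?_
      exact_mod_cast i.2
    have hcop : IsCoprime F p := by
      rw [Irreducible.coprime_iff_not_dvd hF]
      intro h
      exact absurd (degree_le_of_dvd h hp0) (not_le.2 hpd)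
    have hpw : (aeval M p) *ᵥ w = 0 := by
      rw [hp, map_sum, Matrix.sum_mulVec]
      rw [← hg]
      refine Finset.sum_congr rfl (fun i _ => ?_)
      rw [map_mul, aeval_C, map_pow, aeval_X, ← Matrix.mulVec_mulVec]
      rw [Algebra.algebraMap_eq_smul_one, Matrix.smul_mulVec, Matrix.one_mulVec]
    obtain ⟨u, v, huv⟩ := hcop
    have h1 : (aeval M (u * F + v * p)) *ᵥ w = w := by
      rw [huv, map_one, Matrix.one_mulVec]
    rw [map_add, map_mul, map_mul, hM, mul_zero, zero_add, ← Matrix.mulVec_mulVec, hpw,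
      Matrix.mulVec_zero] at h1
    exact hw0 h1.symm
  have hspan := hli.span_eq_top_of_card_eq_finrank' (by simp)
  rw [eq_top_iff, ← hspan, Submodule.span_le]
  rintro _ ⟨i, rfl⟩
  exact hpow i

theorem setup {n : ℕ} (c : Fin n → ℤ) (A B : Matrix (Fin n) (Fin n) ℤ) (h : HasChar c A B) :
    ∃ M : Matrix (Fin n) (Fin n) ℚ, A.map (Int.cast : ℤ → ℚ) * M = B.map (Int.cast : ℤ → ℚ) ∧
      IsUnit (A.map (Int.cast : ℤ → ℚ)) ∧ aeval M (FZ ℚ c) = 0 := by
  obtain ⟨h0, h1⟩ := h
  set A' : Matrix (Fin n) (Fin n) ℚ := A.map (Int.cast : ℤ → ℚ) with hA'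
  set B' : Matrix (Fin n) (Fin n) ℚ := B.map (Int.cast : ℤ → ℚ) with hB'
  have hdet : A'.det = (A.det : ℚ) := by
    rw [hA']
    exact (RingHom.map_det (Int.castRingHom ℚ) A).symm
  have hdet0 : A'.det ≠ 0 := by
    rw [hdet]; exact_mod_cast h0
  have hu : IsUnit A'.det := isUnit_iff_ne_zero.2 hdet0
  refine ⟨A'⁻¹ * B', ?_, (Matrix.isUnit_iff_isUnit_det _).2 hu, ?_⟩
  · rw [← Matrix.mul_assoc, Matrix.mul_nonsing_inv _ hu, Matrix.one_mul]
  · have hchar : (A'⁻¹ * B').charpoly = FZ ℚ c := by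
      have h2 := congrArg (Polynomial.map (Int.castRingHom ℚ)) h1
      rw [Polynomial.map_mul, Polynomial.map_C] at h2
      have h3 : Polynomial.map (Int.castRingHom ℚ) (FZ ℤ c) = FZ ℚ c := by
        simp [FZ, fpol, Polynomial.map_sum]
      rw [h3] at h2
      have h4 : Polynomial.map (Int.castRingHom ℚ) ((X : ℤ[X]) • A.map C - B.map C).det =
          ((X : ℚ[X]) • A'.map C - B'.map C).det := by
        have := RingHom.map_det (Polynomial.mapRingHom (Int.castRingHom ℚ))
          ((X : ℤ[X]) • A.map C - B.map C)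
        rw [Polynomial.coe_mapRingHom] at this
        rw [this]
        congr 1
        ext i j
        simp [hA', hB']
      rw [h4] at h2
      have h5 : (X : ℚ[X]) • A'.map C - B'.map C =
          (A'.map C) * charmatrix (A'⁻¹ * B') := by
        rw [charmatrix, Matrix.mul_sub]
        congr 1
        · rw [Matrix.scalar_apply, ← Matrix.smul_one_eq_diagonal, Matrix.mul_smul, Matrix.mul_one]
        · have : (A' * (A'⁻¹ * B')).map (C : ℚ → ℚ[X]) = B'.map C := by
            rw [← Matrix.mul_assoc, Matrix.mul_nonsing_inv _ hu, Matrix.one_mul]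
          rw [← this]
          exact Matrix.map_mul (f := (C : ℚ →+* ℚ[X]))
      rw [h5, Matrix.det_mul] at h2
      have h6 : (A'.map (C : ℚ → ℚ[X])).det = C A'.det :=
        (RingHom.map_det (C : ℚ →+* ℚ[X]) A').symm
      rw [h6, hdet] at h2
      have h7 : (C ((Int.castRingHom ℚ) A.det) : ℚ[X]) ≠ 0 := by
        rw [Ne, C_eq_zero]
        simpa using h0
      exact mul_left_cancel₀ h7 h2
    rw [← hchar]
    exact Matrix.aeval_self_charpoly _

/-- vectors vanishing on a set of coordinates -/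
def Van {n : ℕ} (J : Set (Fin n)) : Submodule ℚ (Fin n → ℚ) where
  carrier := {v | ∀ j ∈ J, v j = 0}
  add_mem' := by
    intro a b ha hb j hj
    rw [Pi.add_apply, ha j hj, hb j hj, add_zero]
  zero_mem' := fun j _ => rfl
  smul_mem' := by
    intro t a ha j hj
    rw [Pi.smul_apply, ha j hj, smul_zero]

theorem mem_Van {n : ℕ} (J : Set (Fin n)) (v : Fin n → ℚ) : v ∈ Van J ↔ ∀ j ∈ J, v j = 0 :=
  Iff.rfl

theorem finrank_Van {n : ℕ} (J : Set (Fin n)) [DecidablePred (· ∈ J)] :
    Module.finrank ℚ (Van J) = Fintype.card {j : Fin n // j ∉ J} := by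
  classical
  let e : Van J ≃ₗ[ℚ] ({j : Fin n // j ∉ J} → ℚ) :=
    { toFun := fun v j => v.1 j.1
      map_add' := fun _ _ => rfl
      map_smul' := fun _ _ => rfl
      invFun := fun u => ⟨fun j => if h : j ∉ J then u ⟨j, h⟩ else 0, fun j hj => by
        simp [hj]⟩
      left_inv := by
        intro v
        apply Subtype.ext
        funext j
        by_cases h : j ∈ J
        · simp [h, v.2 j h]
        · simp [h]
      right_inv := by
        intro u
        funext j
        simp [j.2] }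
  rw [e.finrank_eq, Module.finrank_fintype_fun_eq_card]

end Irr

theorem block_ne {n : ℕ} (c : Fin n → ℤ) (hF : Irreducible (FZ ℚ c))
    (A B : Matrix (Fin n) (Fin n) ℤ) (h : HasChar c A B) (r : ℕ) (h1 : 1 ≤ r) (h2 : r < n) :
    ∃ i j : Fin n, (i : ℕ) < r ∧ (j : ℕ) < n - r ∧ (A i j ≠ 0 ∨ B i j ≠ 0) := by
  by_contra hcon
  push Not at hcon
  obtain ⟨M, hAM, hA, hM⟩ := Irr.setup c A B h
  set A' : Matrix (Fin n) (Fin n) ℚ := A.map (Int.cast : ℤ → ℚ) with hA'
  set B' : Matrix (Fin n) (Fin n) ℚ := B.map (Int.cast : ℤ → ℚ) with hB'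
  set J : Set (Fin n) := {j | n - r ≤ (j : ℕ)} with hJ
  set I : Set (Fin n) := {i | (i : ℕ) < r} with hI
  set S : Submodule ℚ (Fin n → ℚ) := Irr.Van J with hS
  set U : Submodule ℚ (Fin n → ℚ) := Irr.Van I with hU
  have hinj : Function.Injective A'.mulVecLin := by
    rw [Matrix.coe_mulVecLin]
    exact Matrix.mulVec_injective_iff_isUnit.2 hA
  have hzero : ∀ (P : Matrix (Fin n) (Fin n) ℚ), (∀ i j : Fin n, (i : ℕ) < r → (j : ℕ) < n - r →
      P i j = 0) → ∀ v ∈ S, P *ᵥ v ∈ U := by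
    intro P hP v hv
    rw [hU, Irr.mem_Van]
    intro i hi
    rw [Matrix.mulVec, dotProduct]
    refine Finset.sum_eq_zero (fun j _ => ?_)
    by_cases hj : (j : ℕ) < n - r
    · rw [hP i j hi hj, zero_mul]
    · rw [hS, Irr.mem_Van] at hv
      rw [hv j (not_lt.1 hj), mul_zero]
  have hAS : ∀ v ∈ S, A' *ᵥ v ∈ U := hzero A' (fun i j hi hj => by
    rw [hA', Matrix.map_apply, (hcon i j hi hj).1, Int.cast_zero])
  have hBS : ∀ v ∈ S, B' *ᵥ v ∈ U := hzero B' (fun i j hi hj => by
    rw [hB', Matrix.map_apply, (hcon i j hi hj).2, Int.cast_zero])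
  have hmap : S.map A'.mulVecLin = U := by
    refine Submodule.eq_of_le_of_finrank_eq ?_ ?_
    · rintro _ ⟨v, hv, rfl⟩
      exact hAS v hv
    · rw [← (Submodule.equivMapOfInjective A'.mulVecLin hinj S).finrank_eq, hS, hU,
        Irr.finrank_Van, Irr.finrank_Van]
      have e1 : Fintype.card {j : Fin n // j ∉ J} = n - r := by
        rw [Fintype.card_congr (Equiv.subtypeEquivRight (q := fun j : Fin n => (j : ℕ) < n - r)
          (fun j => by
            rw [hJ, Set.mem_ofPred_eq]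
            exact not_le))]
        rw [Fintype.card_subtype, Fin.card_filter_val_lt]
        omega
      have e2 : Fintype.card {i : Fin n // i ∉ I} = n - r := by
        have h3 := Fintype.card_subtype_compl (fun i : Fin n => (i : ℕ) < r)
        have h4 : Fintype.card {i : Fin n // (i : ℕ) < r} = r := by
          rw [Fintype.card_subtype, Fin.card_filter_val_lt]; omega
        rw [Fintype.card_fin, h4] at h3
        exact h3
      rw [e1, e2]
  have hSinv : ∀ v ∈ S, M *ᵥ v ∈ S := by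
    intro v hv
    have h3 : A' *ᵥ (M *ᵥ v) ∈ S.map A'.mulVecLin := by
      rw [hmap, Matrix.mulVec_mulVec, hAM]
      exact hBS v hv
    obtain ⟨u, hu, hu2⟩ := h3
    have : u = M *ᵥ v := hinj hu2
    rwa [← this]
  have hn : 0 < n := by omega
  have hw : (Pi.single (⟨0, hn⟩ : Fin n) (1 : ℚ)) ∈ S := by
    rw [hS, Irr.mem_Van]
    intro j hj
    rw [Pi.single_apply, if_neg]
    intro h3
    rw [hJ, Set.mem_ofPred_eq, h3] at hj
    simp only at hj
    omega
  have htop := Irr.invariant M hF (Irr.fpol_natDegree _).1 hM S hSinv hw (by simp)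
  have h5 : (Pi.single (⟨n - 1, by omega⟩ : Fin n) (1 : ℚ)) ∈ S := by
    rw [htop]; exact Submodule.mem_top
  rw [hS, Irr.mem_Van] at h5
  have h6 := h5 ⟨n - 1, by omega⟩ (by rw [hJ, Set.mem_ofPred_eq]; simp only; omega)
  rw [Pi.single_eq_same] at h6
  exact one_ne_zero h6

theorem stab {n : ℕ} (c : Fin n → ℤ) (hF : Irreducible (FZ ℚ c))
    (A B W : Matrix (Fin n) (Fin n) ℤ) (h : HasChar c A B) (hW1 : ∀ i, W i i = 1)
    (hW2 : ∀ i j, i < j → W i j = 0) (hA : W * A * Wᵀ = A) (hB : W * B * Wᵀ = B) : W = 1 := by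
  rcases Nat.eq_zero_or_pos n with hn | hn
  · subst hn
    exact Subsingleton.elim _ _
  obtain ⟨M, hAM, hAu, hM⟩ := Irr.setup c A B h
  set A' : Matrix (Fin n) (Fin n) ℚ := A.map (Int.cast : ℤ → ℚ) with hA'
  set B' : Matrix (Fin n) (Fin n) ℚ := B.map (Int.cast : ℤ → ℚ) with hB'
  set W' : Matrix (Fin n) (Fin n) ℚ := W.map (Int.cast : ℤ → ℚ) with hW'
  have cast_mul : ∀ P Q : Matrix (Fin n) (Fin n) ℤ, (P * Q).map (Int.cast : ℤ → ℚ) =
      P.map (Int.cast : ℤ → ℚ) * Q.map (Int.cast : ℤ → ℚ) := by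
    intro P Q
    exact Matrix.map_mul (f := Int.castRingHom ℚ)
  have hA2 : W' * A' * W'ᵀ = A' := by
    have := congrArg (fun P : Matrix (Fin n) (Fin n) ℤ => P.map (Int.cast : ℤ → ℚ)) hA
    simp only [cast_mul] at this
    exact this
  have hB2 : W' * B' * W'ᵀ = B' := by
    have := congrArg (fun P : Matrix (Fin n) (Fin n) ℤ => P.map (Int.cast : ℤ → ℚ)) hB
    simp only [cast_mul] at this
    exact this
  have hWu : IsUnit W' := by
    have h1 : IsUnit (W' * A' * W'ᵀ) := by rw [hA2]; exact hAu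
    rw [Matrix.isUnit_iff_isUnit_det] at h1 ⊢
    rw [Matrix.det_mul, Matrix.det_mul] at h1
    exact isUnit_of_mul_isUnit_left (isUnit_of_mul_isUnit_left h1)
  have hcomm : W'ᵀ * M = M * W'ᵀ := by
    have h1 : W' * (A' * (W'ᵀ * M)) = W' * (A' * (M * W'ᵀ)) := by
      rw [← Matrix.mul_assoc A' M, hAM, ← Matrix.mul_assoc A', ← Matrix.mul_assoc W',
        ← Matrix.mul_assoc W' A', hA2, hAM, ← Matrix.mul_assoc, hB2]
    exact hAu.mul_left_cancel (hWu.mul_left_cancel h1)
  let S : Submodule ℚ (Fin n → ℚ) := LinearMap.ker (W'ᵀ.mulVecLin - LinearMap.id)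
  have hSmem : ∀ v, v ∈ S ↔ W'ᵀ *ᵥ v = v := by
    intro v
    simp only [S, LinearMap.mem_ker, LinearMap.sub_apply, Matrix.mulVecLin_apply,
      LinearMap.id_coe, id_eq, sub_eq_zero]
  have hSinv : ∀ v ∈ S, M *ᵥ v ∈ S := by
    intro v hv
    rw [hSmem] at hv ⊢
    rw [Matrix.mulVec_mulVec, hcomm, ← Matrix.mulVec_mulVec, hv]
  have hw : (Pi.single (⟨0, hn⟩ : Fin n) (1 : ℚ)) ∈ S := by
    rw [hSmem, Matrix.mulVec_single_one]
    ext i
    rw [Matrix.col_apply, Matrix.transpose_apply, hW', Matrix.map_apply, Pi.single_apply]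
    by_cases hi : i = ⟨0, hn⟩
    · rw [if_pos hi, hi, hW1, Int.cast_one]
    · rw [if_neg hi, hW2, Int.cast_zero]
      rw [Fin.lt_def]
      have : (i : ℕ) ≠ 0 := fun h0 => hi (Fin.ext h0)
      simp only
      omega
  have htop := Irr.invariant M hF (Irr.fpol_natDegree _).1 hM S hSinv hw (by simp)
  have hW3 : W'ᵀ = 1 := by
    ext i j
    have h1 : (Pi.single j (1 : ℚ) : Fin n → ℚ) ∈ S := by rw [htop]; exact Submodule.mem_top
    rw [hSmem, Matrix.mulVec_single_one] at h1
    have h2 := congrFun h1 i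
    rw [Matrix.col_apply] at h2
    rw [h2, Matrix.one_apply, Pi.single_apply]
  ext i j
  have h1 := congrFun (congrFun hW3 j) i
  rw [Matrix.transpose_apply, hW', Matrix.map_apply, Matrix.one_apply] at h1
  rw [Matrix.one_apply]
  by_cases hij : i = j
  · rw [if_pos hij]
    rw [if_pos hij.symm] at h1
    exact_mod_cast h1
  · rw [if_neg hij]
    rw [if_neg (fun h => hij h.symm)] at h1
    exact_mod_cast h1

end Stoll308.BG
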