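import Pool.Agent.Work.MP_308fa9_nt.BG.PElsA

set_option autoImplicit false

/-!
Counting for general `ψ`.
-/

namespace Stoll308.BG.PEls

open Finset

/-- The interval of the coefficient of weight `j`, in the residue class `0`. -/
noncomputable def itvM (M X j : ℕ) : Finset ℤ := (Els.itv X j).filter fun x => (M : ℤ) ∣ x

/-- The constant coefficients. -/
noncomputable def dsetM (n M X : ℕ) (v : ℤ) : Finset ℤ :=
  (Ioc ((X : ℤ) ^ n / 2) ((X : ℤ) ^ n)).filter fun d => (M : ℤ) ∣ d - v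

lemma card_itvM_ge {M : ℕ} (hM : 0 < M) (X j : ℕ) :
    2 * (X : ℝ) ^ j / M - 1 ≤ ((itvM M X j).card : ℝ) := by
  have h1 := BE.ap_card_ge (-(X : ℤ) ^ j) ((X : ℤ) ^ j) M 0 (by exact_mod_cast hM)
  push_cast at h1
  have h2 : ((X : ℝ) ^ j - -(X : ℝ) ^ j) / M = 2 * X ^ j / M := by ring
  rw [h2] at h1
  refine h1.trans ?_
  have hsub : (Ioc (-(X : ℤ) ^ j) ((X : ℤ) ^ j)).filter (fun c => (M : ℤ) ∣ c - 0) ⊆
      itvM M X j := by
    intro c hc
    rw [mem_filter, mem_Ioc, sub_zero] at hc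
    rw [itvM, Els.itv, mem_filter, mem_Icc]
    exact ⟨⟨hc.1.1.le, hc.1.2⟩, hc.2⟩
  exact_mod_cast card_le_card hsub

lemma card_dsetM_ge {M : ℕ} (hM : 0 < M) (n X : ℕ) (v : ℤ) :
    (X : ℝ) ^ n / (2 * M) - 1 ≤ ((dsetM n M X v).card : ℝ) := by
  have h1 := BE.ap_card_ge ((X : ℤ) ^ n / 2) ((X : ℤ) ^ n) M v (by exact_mod_cast hM)
  refine le_trans ?_ h1
  have hM0 : (0 : ℝ) < M := by exact_mod_cast hM
  have h2 : 2 * ((((X : ℤ) ^ n / 2 : ℤ) : ℤ) : ℝ) ≤ (X : ℝ) ^ n := by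
    have : 2 * ((X : ℤ) ^ n / 2) ≤ (X : ℤ) ^ n := by omega
    exact_mod_cast this
  have h3 : (X : ℝ) ^ n / (2 * M) = ((X : ℝ) ^ n / 2) / M := by
    rw [div_div]
  rw [h3]
  have h4 : ((((X : ℤ) ^ n : ℤ) : ℤ) : ℝ) = (X : ℝ) ^ n := by push_cast; rfl
  rw [h4]
  have h5 : ((X : ℝ) ^ n / 2) / M ≤ ((X : ℝ) ^ n - (((X : ℤ) ^ n / 2 : ℤ) : ℝ)) / M := by
    apply div_le_div_of_nonneg_right _ hM0.le
    linarith
  have h6 : (((M : ℤ) : ℤ) : ℝ) = (M : ℝ) := by push_cast; rfl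
  rw [h6]
  linarith

/-- The family. -/
noncomputable def gset (n M X : ℕ) (v : ℤ) : Finset (Fin n → ℤ) :=
  Fintype.piFinset fun i : Fin n =>
    if (i : ℕ) + 1 = n then dsetM n M X v else itvM M X ((i : ℕ) + 1)

/-- The family of the first coefficients. -/
noncomputable def tset (n M X : ℕ) : Finset (Fin n → ℤ) :=
  Fintype.piFinset fun i : Fin n => if (i : ℕ) + 2 < n then itvM M X ((i : ℕ) + 1) else {0}

lemma card_gset (ν M X : ℕ) (v : ℤ) : (gset (ν + 2) M X v).card =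
    (tset (ν + 2) M X).card * ((itvM M X (ν + 1)).card * (dsetM (ν + 2) M X v).card) := by
  unfold gset tset
  rw [Fintype.card_piFinset, Fintype.card_piFinset, Fin.prod_univ_castSucc, Fin.prod_univ_castSucc,
    Fin.prod_univ_castSucc, Fin.prod_univ_castSucc]
  simp only [Fin.val_castSucc, Fin.val_last]
  rw [if_neg (by omega), if_pos trivial, if_neg (by omega), if_neg (by omega), card_singleton,
    mul_one, mul_one, mul_assoc]
  congr 1
  refine prod_congr rfl fun i _ => ?_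
  have hi := i.2
  rw [if_neg (by omega), if_pos (by omega)]

lemma card_tset_ge {M : ℕ} (hM : 0 < M) (ν X : ℕ) (hX : M ≤ X) :
    (X : ℝ) ^ (ν * (ν + 1) / 2) / M ^ ν ≤ ((tset (ν + 2) M X).card : ℝ) := by
  have hM0 : (0 : ℝ) < M := by exact_mod_cast hM
  have hX1 : (1 : ℝ) ≤ X := by
    have : 1 ≤ X := by omega
    exact_mod_cast this
  have hMX : (M : ℝ) ≤ X := by exact_mod_cast hX
  unfold tset
  rw [Fintype.card_piFinset, Fin.prod_univ_castSucc, Fin.prod_univ_castSucc]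
  simp only [Fin.val_castSucc, Fin.val_last]
  rw [if_neg (by omega), if_neg (by omega), card_singleton, mul_one, mul_one]
  push_cast
  have h1 : (X : ℝ) ^ (ν * (ν + 1) / 2) / M ^ ν = ∏ i : Fin ν, ((X : ℝ) ^ ((i : ℕ) + 1) / M) := by
    rw [prod_div_distrib, ← Els.prod_pow_succ,
      ← Fin.prod_univ_eq_prod_range (fun i => (X : ℝ) ^ (i + 1)) ν, prod_const, card_univ,
      Fintype.card_fin]
  rw [h1]
  apply prod_le_prod
  · intro i _
    positivity
  · intro i _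
    have hi := i.2
    rw [if_pos (by omega)]
    refine le_trans ?_ (card_itvM_ge hM X _)
    have h2 : (1 : ℝ) ≤ (X : ℝ) ^ ((i : ℕ) + 1) / M := by
      rw [le_div_iff₀ hM0, one_mul]
      calc (M : ℝ) ≤ X := hMX
        _ = (X : ℝ) ^ 1 := (pow_one _).symm
        _ ≤ (X : ℝ) ^ ((i : ℕ) + 1) := pow_le_pow_right₀ hX1 (by omega)
    have h3 : 2 * (X : ℝ) ^ ((i : ℕ) + 1) / M = 2 * ((X : ℝ) ^ ((i : ℕ) + 1) / M) := by ring
    rw [h3]
    linarith

lemma proj_mem {n M X : ℕ} {v : ℤ} {b : Fin n → ℤ} (hb : b ∈ gset n M X v) :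
    Els.proj b ∈ tset n M X := by
  unfold gset at hb
  unfold tset
  rw [Fintype.mem_piFinset] at hb ⊢
  intro i
  unfold Els.proj
  have h1 := hb i
  split_ifs with hi
  · rwa [if_neg (by omega)] at h1
  · exact mem_singleton_self _

open Classical in
/-- The bad vectors at `p`. -/
noncomputable def pbad (n : ℕ) (α : ℤ) (M X : ℕ) (v : ℤ) (p : ℕ) : Finset (Fin n → ℤ) :=
  (gset n M X v).filter fun b => ∃ _ : Fact p.Prime, SqK (AlgebraicClosure (ZMod p)) α b

open Classical in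
lemma card_pbad_le {n : ℕ} (hn : 3 ≤ n) {α : ℤ} {M X p : ℕ} {v : ℤ} (hM : 0 < M)
    (hp : p.Prime) (hp2 : p ≠ 2) (hα : ¬ (p : ℤ) ∣ α) (hpM : ¬ p ∣ M) :
    ((pbad n α M X v p).card : ℝ) ≤ ((tset n M X).card : ℝ) *
      ((2 * X ^ (n - 1) / (p * M) + 2) * (X ^ n / (p * M) + 1)) := by
  have hp0 : (0 : ℝ) < p := by exact_mod_cast hp.pos
  have hp1 : (1 : ℝ) ≤ p := by exact_mod_cast hp.one_lt.le
  have hM0 : (0 : ℝ) < M := by exact_mod_cast hM
  have hM1 : (1 : ℝ) ≤ M := by exact_mod_cast hM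
  have := Fact.mk hp
  have h2K : (2 : AlgebraicClosure (ZMod p)) ≠ 0 := by
    intro h0
    apply Els.two_ne (p := p) hp2
    apply (algebraMap (ZMod p) (AlgebraicClosure (ZMod p))).injective
    rw [map_ofNat, map_zero]
    exact h0
  have hαK : (α : AlgebraicClosure (ZMod p)) ≠ 0 := by
    intro h0
    exact hα ((cast_eq_zero (p := p) α).1 h0)
  apply Els.card_le_fiber _ _ Els.proj
  · intro b hb
    unfold pbad at hb
    rw [mem_filter] at hb
    exact proj_mem hb.1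
  · intro c _
    rcases ((pbad n α M X v p).filter fun b => Els.proj b = c).eq_empty_or_nonempty with
      h | ⟨b₀, hb₀⟩
    · rw [h]
      simp only [card_empty, Nat.cast_zero]
      positivity
    · unfold pbad at hb₀
      rw [mem_filter, mem_filter, gset, Fintype.mem_piFinset] at hb₀
      obtain ⟨⟨hb₀, ⟨hf₀, hbad₀⟩⟩, hc₀⟩ := hb₀
      set u : Fin n := ⟨n - 2, by omega⟩ with hu
      set w : Fin n := ⟨n - 1, by omega⟩ with hw
      have hcop : IsCoprime (p : ℤ) (M : ℤ) := by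
        rw [Nat.isCoprime_iff_coprime]
        exact (Nat.Prime.coprime_iff_not_dvd hp).2 hpM
      have hle : ((pbad n α M X v p).filter fun b => Els.proj b = c).card ≤
          (((Ioc (-(X : ℤ) ^ (n - 1) - 1) ((X : ℤ) ^ (n - 1))).filter
              fun x => ((p * M : ℕ) : ℤ) ∣ x - b₀ u) ×ˢ
            ((Ioc 0 ((X : ℤ) ^ n)).filter fun d => ((p * M : ℕ) : ℤ) ∣ d - b₀ w)).card := by
        apply card_le_card_of_injOn (fun b => (b u, b w))
        · intro b hb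
          rw [mem_coe, pbad, mem_filter, mem_filter, gset, Fintype.mem_piFinset] at hb
          obtain ⟨⟨hb, ⟨hf, hbad⟩⟩, hc⟩ := hb
          have huniq := sqK_uniq (p := p) hn h2K hαK hbad hbad₀
            (fun i hi => Els.proj_eq (hc.trans hc₀.symm) i hi)
          have h1 := hb u
          have h1' := hb₀ u
          have h2 := hb w
          have h3 := hb₀ w
          rw [if_neg (by simp only [hu]; omega), itvM, mem_filter, Els.itv, mem_Icc] at h1 h1'
          rw [if_pos (by simp only [hw]; omega), dsetM, mem_filter, mem_Ioc] at h2 h3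
          have hun : (u : ℕ) + 1 = n - 1 := by simp only [hu]; omega
          rw [hun] at h1
          rw [mem_coe, mem_product]
          constructor
          · rw [mem_filter, mem_Ioc]
            refine ⟨⟨by linarith [h1.1.1], h1.1.2⟩, ?_⟩
            push_cast
            exact hcop.mul_dvd (huniq u) (dvd_sub h1.2 h1'.2)
          · rw [mem_filter, mem_Ioc]
            refine ⟨⟨?_, h2.1.2⟩, ?_⟩
            · have h4 : (0 : ℤ) ≤ (X : ℤ) ^ n / 2 := by positivity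
              simp only
              linarith [h2.1.1]
            · push_cast
              apply hcop.mul_dvd (huniq w)
              have h4 := dvd_sub h2.2 h3.2
              have h5 : b w - v - (b₀ w - v) = b w - b₀ w := by ring
              rwa [h5] at h4
        · intro b hb b' hb' hbb
          rw [mem_coe, mem_filter] at hb hb'
          simp only [Prod.mk.injEq] at hbb
          funext i
          by_cases hi : (i : ℕ) + 2 < n
          · exact Els.proj_eq (hb.2.trans hb'.2.symm) i hi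
          · by_cases hi2 : (i : ℕ) = n - 2
            · have : i = u := Fin.ext hi2
              rw [this]
              exact hbb.1
            · have : i = w := Fin.ext (by simp only [hw]; have := i.2; omega)
              rw [this]
              exact hbb.2
      rw [card_product] at hle
      have hX0 : (0 : ℤ) ≤ (X : ℤ) ^ (n - 1) := by positivity
      have hpM0 : (0 : ℤ) < ((p * M : ℕ) : ℤ) := by exact_mod_cast Nat.mul_pos hp.pos hM
      have h1 := BE.ap_card_le (-(X : ℤ) ^ (n - 1) - 1) ((X : ℤ) ^ (n - 1)) ((p * M : ℕ) : ℤ)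
        (b₀ u) hpM0 (by linarith)
      have h2 := BE.ap_card_le 0 ((X : ℤ) ^ n) ((p * M : ℕ) : ℤ) (b₀ w) hpM0 (by positivity)
      have hle' : (((pbad n α M X v p).filter fun b => Els.proj b = c).card : ℝ) ≤
          (((Ioc (-(X : ℤ) ^ (n - 1) - 1) ((X : ℤ) ^ (n - 1))).filter
              fun x => ((p * M : ℕ) : ℤ) ∣ x - b₀ u).card : ℝ) *
            (((Ioc 0 ((X : ℤ) ^ n)).filter fun d => ((p * M : ℕ) : ℤ) ∣ d - b₀ w).card : ℝ) := by
        exact_mod_cast hle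
      refine hle'.trans ?_
      push_cast at h1 h2 ⊢
      rw [sub_zero] at h2
      apply mul_le_mul _ h2 (Nat.cast_nonneg _) (by positivity)
      refine h1.trans ?_
      have h3 : ((X : ℝ) ^ (n - 1) - (-(X : ℝ) ^ (n - 1) - 1)) / (p * M) =
        2 * X ^ (n - 1) / (p * M) + 1 / (p * M) := by ring
      have h4 : 1 / ((p : ℝ) * M) ≤ 1 := by
        rw [div_le_one (by positivity)]
        nlinarith
      linarith

open Classical in
/-- The vectors with `NN = 0`. -/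
noncomputable def eset (n : ℕ) (α : ℤ) (M X : ℕ) (v : ℤ) : Finset (Fin n → ℤ) :=
  (gset n M X v).filter fun b => Els.NN α b = 0

open Classical in
lemma card_eset_le {n : ℕ} (hn : 3 ≤ n) {α : ℤ} (hα : α ≠ 0) (M X : ℕ) (v : ℤ) :
    ((eset n α M X v).card : ℝ) ≤ ((tset n M X).card : ℝ) * (2 * X ^ (n - 1) + 1) := by
  apply Els.card_le_fiber _ _ Els.proj
  · intro b hb
    unfold eset at hb
    rw [mem_filter] at hb
    exact proj_mem hb.1
  · intro c _
    set u : Fin n := ⟨n - 2, by omega⟩ with hu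
    rw [← Els.card_itv X (n - 1)]
    have hle : ((eset n α M X v).filter fun b => Els.proj b = c).card ≤
        (Els.itv X (n - 1)).card := by
      apply card_le_card_of_injOn (fun b => b u)
      · intro b hb
        rw [mem_coe, eset, mem_filter, mem_filter, gset, Fintype.mem_piFinset] at hb
        have h1 := hb.1.1 u
        rw [if_neg (by simp only [hu]; omega), itvM, mem_filter] at h1
        have hun : (u : ℕ) + 1 = n - 1 := by simp only [hu]; omega
        rw [hun] at h1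
        exact h1.1
      · intro b hb b' hb' hbb
        rw [mem_coe, eset, mem_filter, mem_filter] at hb hb'
        simp only at hbb
        apply Els.NN_inj (by omega) hα hb.1.2 hb'.1.2
        intro i hi
        by_cases hi2 : (i : ℕ) + 2 < n
        · exact Els.proj_eq (hb.2.trans hb'.2.symm) i hi2
        · have : i = u := Fin.ext (by simp only [hu]; omega)
          rw [this]
          exact hbb
    exact_mod_cast hle

lemma sum_pbad_le {n : ℕ} (hn : 3 ≤ n) {α : ℤ} {M X Q A : ℕ} {v : ℤ} (hM : 0 < M)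
    (hX : 1 ≤ X) (hQ : 4 ≤ Q) (hA : 1 ≤ A) (hQX : Q ≤ A * X ^ n)
    (hQM : ∀ p : ℕ, p.Prime → Q < p → ¬ p ∣ M ∧ ¬ (p : ℤ) ∣ α) :
    ∑ p ∈ (Ioc Q (A * X ^ n)).filter Nat.Prime, ((pbad n α M X v p).card : ℝ) ≤
      ((tset n M X).card : ℝ) *
        (X ^ (2 * n - 1) / (2 * M ^ 2) + 6 * A * (A + n + 1) * X ^ (2 * n - 2)) := by
  have hX1 : (1 : ℝ) ≤ X := by exact_mod_cast hX
  have hM0 : (0 : ℝ) < M := by exact_mod_cast hM
  have hM1 : (1 : ℝ) ≤ M := by exact_mod_cast hM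
  have hA1 : (1 : ℝ) ≤ A := by exact_mod_cast hA
  have hQ4 : (4 : ℝ) ≤ Q := by exact_mod_cast hQ
  have hT : (0 : ℝ) ≤ ((tset n M X).card : ℝ) := Nat.cast_nonneg _
  have h1 : ∑ p ∈ (Ioc Q (A * X ^ n)).filter Nat.Prime, ((pbad n α M X v p).card : ℝ) ≤
      ∑ p ∈ (Ioc Q (A * X ^ n)).filter Nat.Prime, ((tset n M X).card : ℝ) *
        (2 * X ^ (2 * n - 1) / M ^ 2 * ((p : ℝ) ^ 2)⁻¹ + 6 * A * X ^ n * (p : ℝ)⁻¹) := by
    apply sum_le_sum
    intro p hp
    rw [mem_filter, mem_Ioc] at hp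
    have hp0 : (0 : ℝ) < p := by exact_mod_cast hp.2.pos
    have hpX : (p : ℝ) ≤ A * (X : ℝ) ^ n := by exact_mod_cast hp.1.2
    refine (card_pbad_le hn hM hp.2 (by omega) (hQM p hp.2 hp.1.1).2
      (hQM p hp.2 hp.1.1).1).trans ?_
    apply mul_le_mul_of_nonneg_left _ hT
    have e0 : (X : ℝ) ^ (n - 1) * X ^ n = X ^ (2 * n - 1) := by
      rw [← pow_add]
      congr 1
      omega
    calc (2 * (X : ℝ) ^ (n - 1) / (p * M) + 2) * (X ^ n / (p * M) + 1)
        = 2 * (X ^ (n - 1) * X ^ n) / M ^ 2 * ((p : ℝ) ^ 2)⁻¹ +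
          2 * (X ^ (n - 1) * (p : ℝ)⁻¹) * (M : ℝ)⁻¹ +
          2 * (X ^ n * (p : ℝ)⁻¹) * (M : ℝ)⁻¹ + 2 := by
          field_simp
          ring
      _ = 2 * X ^ (2 * n - 1) / M ^ 2 * ((p : ℝ) ^ 2)⁻¹ +
          2 * (X ^ (n - 1) * (p : ℝ)⁻¹) * (M : ℝ)⁻¹ +
          2 * (X ^ n * (p : ℝ)⁻¹) * (M : ℝ)⁻¹ + 2 := by rw [e0]
      _ ≤ 2 * X ^ (2 * n - 1) / M ^ 2 * ((p : ℝ) ^ 2)⁻¹ +
          2 * (X ^ n * (p : ℝ)⁻¹) * 1 +
          2 * (X ^ n * (p : ℝ)⁻¹) * 1 + 2 * (A * X ^ n * (p : ℝ)⁻¹) := by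
          have e1 : (X : ℝ) ^ (n - 1) ≤ X ^ n := pow_le_pow_right₀ hX1 (by omega)
          have e2 : (M : ℝ)⁻¹ ≤ 1 := inv_le_one_of_one_le₀ hM1
          have e3 : (1 : ℝ) ≤ A * X ^ n * (p : ℝ)⁻¹ := by
            rw [← div_eq_mul_inv, le_div_iff₀ hp0, one_mul]
            exact hpX
          have e5 : 2 * ((X : ℝ) ^ (n - 1) * (p : ℝ)⁻¹) * (M : ℝ)⁻¹ ≤
              2 * (X ^ n * (p : ℝ)⁻¹) * 1 := by gcongr
          have e6 : 2 * ((X : ℝ) ^ n * (p : ℝ)⁻¹) * (M : ℝ)⁻¹ ≤ 2 * (X ^ n * (p : ℝ)⁻¹) * 1 := by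
            gcongr
          linarith
      _ ≤ 2 * X ^ (2 * n - 1) / M ^ 2 * ((p : ℝ) ^ 2)⁻¹ + 6 * A * X ^ n * (p : ℝ)⁻¹ := by
          have e7 : (0 : ℝ) ≤ (X : ℝ) ^ n * (p : ℝ)⁻¹ := by positivity
          have e8 : 1 * ((X : ℝ) ^ n * (p : ℝ)⁻¹) ≤ A * ((X : ℝ) ^ n * (p : ℝ)⁻¹) := by gcongr
          linarith
  have h2 : ∑ p ∈ (Ioc Q (A * X ^ n)).filter Nat.Prime, ((tset n M X).card : ℝ) *
        (2 * X ^ (2 * n - 1) / M ^ 2 * ((p : ℝ) ^ 2)⁻¹ + 6 * A * X ^ n * (p : ℝ)⁻¹) ≤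
      ∑ p ∈ Ioc Q (A * X ^ n), ((tset n M X).card : ℝ) *
        (2 * X ^ (2 * n - 1) / M ^ 2 * ((p : ℝ) ^ 2)⁻¹ + 6 * A * X ^ n * (p : ℝ)⁻¹) := by
    apply sum_le_sum_of_subset_of_nonneg (filter_subset _ _)
    intro p _ _
    positivity
  have h3 : ∑ p ∈ Ioc Q (A * X ^ n), (((p : ℕ) : ℝ) ^ 2)⁻¹ ≤ 1 / 4 := by
    have h := sum_Ioc_inv_sq_le_sub (α := ℝ) (k := Q) (n := A * X ^ n) (by omega) hQX
    have h4 : (0 : ℝ) ≤ (((A * X ^ n : ℕ) : ℕ) : ℝ)⁻¹ := by positivity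
    have h5 : (Q : ℝ)⁻¹ ≤ 1 / 4 := by
      rw [one_div]
      exact inv_anti₀ (by norm_num) hQ4
    linarith
  have h4 : ∑ p ∈ Ioc Q (A * X ^ n), ((p : ℕ) : ℝ)⁻¹ ≤ (A + n + 1) * X := by
    have h5 : ∑ p ∈ Ioc Q (A * X ^ n), ((p : ℕ) : ℝ)⁻¹ ≤
        ∑ p ∈ Icc 1 (A * X ^ n), ((p : ℕ) : ℝ)⁻¹ := by
      apply sum_le_sum_of_subset_of_nonneg
      · intro p hp
        rw [mem_Ioc] at hp
        rw [mem_Icc]
        omega
      · intro p _ _
        positivity
    have h6 : ((harmonic (A * X ^ n) : ℚ) : ℝ) = ∑ p ∈ Icc 1 (A * X ^ n), ((p : ℕ) : ℝ)⁻¹ := by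
      rw [harmonic_eq_sum_Icc]
      push_cast
      rfl
    have h7 := harmonic_le_one_add_log (A * X ^ n)
    rw [h6] at h7
    have h8 : Real.log ((A * X ^ n : ℕ) : ℝ) = Real.log A + n * Real.log X := by
      push_cast
      rw [Real.log_mul (by positivity) (by positivity), Real.log_pow]
    rw [h8] at h7
    have h9 := Real.log_le_sub_one_of_pos (show (0 : ℝ) < X by linarith)
    have h10 := Real.log_le_sub_one_of_pos (show (0 : ℝ) < A by linarith)
    have hn0 : (0 : ℝ) ≤ n := Nat.cast_nonneg _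
    have h11 : (n : ℝ) * Real.log X ≤ n * (X - 1) := mul_le_mul_of_nonneg_left h9 hn0
    have h12 : (A : ℝ) * 1 ≤ A * X := by gcongr
    nlinarith
  refine h1.trans (h2.trans ?_)
  rw [← mul_sum, sum_add_distrib, ← mul_sum, ← mul_sum]
  apply mul_le_mul_of_nonneg_left _ hT
  calc 2 * (X : ℝ) ^ (2 * n - 1) / M ^ 2 * ∑ p ∈ Ioc Q (A * X ^ n), (((p : ℕ) : ℝ) ^ 2)⁻¹ +
        6 * A * X ^ n * ∑ p ∈ Ioc Q (A * X ^ n), ((p : ℕ) : ℝ)⁻¹
      ≤ 2 * (X : ℝ) ^ (2 * n - 1) / M ^ 2 * (1 / 4) + 6 * A * X ^ n * ((A + n + 1) * X) := by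
        gcongr
    _ = (X : ℝ) ^ (2 * n - 1) / (2 * M ^ 2) + 6 * A * (A + n + 1) * X ^ (n + 1) := by
        rw [pow_succ]
        field_simp
        ring
    _ ≤ (X : ℝ) ^ (2 * n - 1) / (2 * M ^ 2) + 6 * A * (A + n + 1) * X ^ (2 * n - 2) := by
        have : (X : ℝ) ^ (n + 1) ≤ X ^ (2 * n - 2) := pow_le_pow_right₀ hX1 (by omega)
        gcongr

/-- The value `f(s)` for the vectors of the family. -/
lemma value {n : ℕ} (hn : 1 ≤ n) {α s : ℤ} (hs : 0 ≤ s) {M X : ℕ} (hX : 1 ≤ X)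
    {b : Fin n → ℤ} (hb : b ∈ gset n M X (1 - α * s ^ n)) :
    (M : ℤ) ∣ (fpol α b).eval s - 1 ∧
      ((X : ℤ) ≥ 2 * (|α| + n) * (s + 1) ^ n → 0 < (fpol α b).eval s) := by
  rw [gset, Fintype.mem_piFinset] at hb
  set w : Fin n := ⟨n - 1, by omega⟩ with hw
  have hw1 : (w : ℕ) + 1 = n := by simp only [hw]; omega
  have hbw := hb w
  rw [if_pos hw1, dsetM, mem_filter, mem_Ioc] at hbw
  have heval : (fpol α b).eval s = α * s ^ n + (b w +
      ∑ i ∈ univ.erase w, b i * s ^ (n - 1 - (i : ℕ))) := by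
    rw [Els.gp_eval, ← add_sum_erase univ (fun i : Fin n => b i * s ^ (n - 1 - (i : ℕ)))
      (mem_univ w)]
    have : n - 1 - (w : ℕ) = 0 := by omega
    simp only [this, pow_zero, mul_one]
  have hother : ∀ i ∈ univ.erase w, (i : ℕ) + 1 < n ∧ |b i| ≤ (X : ℤ) ^ ((i : ℕ) + 1) ∧
      (M : ℤ) ∣ b i := by
    intro i hi
    rw [mem_erase] at hi
    have hi1 : (i : ℕ) + 1 ≠ n := by
      intro h0
      apply hi.1
      apply Fin.ext
      omega
    have h1 := hb i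
    rw [if_neg hi1, itvM, mem_filter, Els.itv, mem_Icc] at h1
    have := i.2
    exact ⟨by omega, abs_le.2 h1.1, h1.2⟩
  constructor
  · have h1 : (M : ℤ) ∣ ∑ i ∈ univ.erase w, b i * s ^ (n - 1 - (i : ℕ)) := by
      apply dvd_sum
      intro i hi
      exact dvd_mul_of_dvd_left (hother i hi).2.2 _
    have h2 := dvd_add hbw.2 h1
    have h3 : b w - (1 - α * s ^ n) + ∑ i ∈ univ.erase w, b i * s ^ (n - 1 - (i : ℕ)) =
        (fpol α b).eval s - 1 := by
      rw [heval]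
      ring
    rwa [h3] at h2
  · intro hXbig
    have hX0 : (1 : ℤ) ≤ X := by exact_mod_cast hX
    have hS : (1 : ℤ) ≤ s + 1 := by linarith
    have h1 : |∑ i ∈ univ.erase w, b i * s ^ (n - 1 - (i : ℕ))| ≤
        n * ((X : ℤ) ^ (n - 1) * (s + 1) ^ n) := by
      refine (abs_sum_le_sum_abs _ _).trans ?_
      have h2 : ∀ i ∈ univ.erase w, |b i * s ^ (n - 1 - (i : ℕ))| ≤
          (X : ℤ) ^ (n - 1) * (s + 1) ^ n := by
        intro i hi
        obtain ⟨h3, h4, -⟩ := hother i hi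
        rw [abs_mul, abs_pow, abs_of_nonneg hs]
        apply mul_le_mul (h4.trans (pow_le_pow_right₀ hX0 (by omega))) _ (by positivity)
          (by positivity)
        calc s ^ (n - 1 - (i : ℕ)) ≤ (s + 1) ^ (n - 1 - (i : ℕ)) :=
              pow_le_pow_left₀ hs (by linarith) _
          _ ≤ (s + 1) ^ n := pow_le_pow_right₀ hS (by omega)
      refine (sum_le_card_nsmul _ _ _ h2).trans ?_
      rw [nsmul_eq_mul]
      apply mul_le_mul_of_nonneg_right _ (by positivity)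
      have h5 : (univ.erase w).card ≤ n := by
        refine (card_le_card (erase_subset _ _)).trans ?_
        rw [card_univ, Fintype.card_fin]
      exact_mod_cast h5
    have h6 : |α * s ^ n| ≤ |α| * ((X : ℤ) ^ (n - 1) * (s + 1) ^ n) := by
      rw [abs_mul, abs_pow, abs_of_nonneg hs]
      apply mul_le_mul_of_nonneg_left _ (abs_nonneg _)
      calc s ^ n ≤ (s + 1) ^ n := pow_le_pow_left₀ hs (by linarith) _
        _ = 1 * (s + 1) ^ n := (one_mul _).symm
        _ ≤ (X : ℤ) ^ (n - 1) * (s + 1) ^ n := by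
            apply mul_le_mul_of_nonneg_right (one_le_pow₀ hX0) (by positivity)
    have h7 : (X : ℤ) ^ n = (X : ℤ) ^ (n - 1) * X := by
      rw [← pow_succ]
      congr 1
      omega
    have h8 : (X : ℤ) ^ (n - 1) * (2 * (|α| + n) * (s + 1) ^ n) ≤ (X : ℤ) ^ (n - 1) * X :=
      mul_le_mul_of_nonneg_left hXbig (by positivity)
    have h9 : (X : ℤ) ^ n + 1 ≤ 2 * b w := by
      have := hbw.1.1
      omega
    have h10 := (abs_le.1 h1).1
    have h11 := (abs_le.1 h6).1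
    rw [heval]
    nlinarith

end Stoll308.BG.PEls
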