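import Pool.Agent.Work.MP_308fa9_nt.BG.PDefs
import Pool.Agent.Work.MP_308fa9_nt.BG.PElsB

set_option autoImplicit false

/-!
A positive proportion of the curves is everywhere locally soluble (general `ψ`).
-/

namespace Stoll308.BG

open Polynomial Finset

theorem elsP_many (n : ℕ) (hn : 3 ≤ n) (α : ℤ) (hα : α ≠ 0) (ψ : ℤ[X]) (hψ : 1 ≤ ψ.natDegree) :
    ∃ c₀ : ℝ, 0 < c₀ ∧ ∃ X₀ : ℕ, ∀ X : ℕ, X₀ ≤ X →
      c₀ * X ^ (n * (n + 1) / 2) ≤ (cnt n (ELSP ψ α) X : ℝ) := by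
  classical
  have hψ0 : ψ ≠ 0 := by
    rintro rfl
    simp at hψ
  have hlc : ψ.leadingCoeff ≠ 0 := leadingCoeff_ne_zero.2 hψ0
  obtain ⟨A, hA1, hA⟩ := Els.NN_bound n (by omega) α
  set Q := (n * 2 * ψ.natDegree + 2) ^ 2 + α.natAbs + ψ.leadingCoeff.natAbs + 4 with hQ
  set M := 8 * Q.factorial with hMdef
  have hM : 0 < M := Nat.mul_pos (by norm_num) (Nat.factorial_pos _)
  have hM0 : (0 : ℝ) < M := by exact_mod_cast hM
  have hM1 : (1 : ℝ) ≤ M := by exact_mod_cast hM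
  have hQM : ∀ p : ℕ, p.Prime → Q < p → ¬ p ∣ M ∧ ¬ (p : ℤ) ∣ α := by
    intro p hp hQp
    constructor
    · intro h
      rw [hMdef] at h
      rcases (hp.dvd_mul).1 h with h | h
      · have h2 : p ∣ 2 ^ 3 := by norm_num; exact h
        have := Nat.le_of_dvd (by norm_num) (hp.dvd_of_dvd_pow h2)
        omega
      · have := (hp.dvd_factorial).1 h
        omega
    · intro h
      have h1 := Int.natAbs_dvd_natAbs.2 h
      rw [Int.natAbs_natCast] at h1
      have h2 := Nat.le_of_dvd (Int.natAbs_pos.2 hα) h1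
      omega
  obtain ⟨ν, rfl⟩ : ∃ ν, n = ν + 2 := ⟨n - 2, by omega⟩
  set n := ν + 2 with hnν
  set B : ℕ := 6 * A * (A + n + 1) with hB
  set s : ℤ := (ψ.coeff 0) ^ 2 with hs
  have hs0 : 0 ≤ s := sq_nonneg _
  set v : ℤ := 1 - α * s ^ n with hv
  set S : ℕ := (2 * (|α| + n) * (s + 1) ^ n).toNat with hS
  refine ⟨1 / (4 * M ^ (ν + 2)), by positivity, 4 * M ^ 2 * (B + 6) + Q + S + 2 * M, ?_⟩
  intro X hX
  have hMX : M ≤ X := by
    have : 0 ≤ 4 * M ^ 2 * (B + 6) := Nat.zero_le _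
    omega
  have h2MX : 2 * M ≤ X := by
    have : 0 ≤ 4 * M ^ 2 * (B + 6) := Nat.zero_le _
    omega
  have hX1 : 1 ≤ X := by omega
  have hX1' : (1 : ℝ) ≤ X := by exact_mod_cast hX1
  have hQX : Q ≤ A * X ^ n := by
    calc Q ≤ X := by omega
      _ ≤ X ^ n := Nat.le_self_pow (by omega) X
      _ ≤ A * X ^ n := Nat.le_mul_of_pos_left _ hA1
  have hXM : 4 * (M : ℝ) ^ 2 * ((B : ℝ) + 6) ≤ X := by
    have : 4 * M ^ 2 * (B + 6) ≤ X := by omega
    exact_mod_cast this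
  have hXS : (X : ℤ) ≥ 2 * (|α| + n) * (s + 1) ^ n := by
    have h1 : S ≤ X := by omega
    have h2 : 2 * (|α| + n) * (s + 1) ^ n ≤ (S : ℤ) := Int.self_le_toNat _
    have h3 : (S : ℤ) ≤ X := by exact_mod_cast h1
    linarith
  set u : Fin n := ⟨n - 1, by omega⟩ with hu
  have hu1 : (u : ℕ) + 1 = n := by simp only [hu]; omega
  set bad := ((Ioc Q (A * X ^ n)).filter Nat.Prime).biUnion fun p => PEls.pbad n α M X v p
    with hbad
  have hbox : ∀ b ∈ PEls.gset n M X v, (∀ i : Fin n, |b i| ≤ (X : ℤ) ^ ((i : ℕ) + 1)) := by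
    intro b hb
    rw [PEls.gset, Fintype.mem_piFinset] at hb
    intro i
    have h1 := hb i
    split_ifs at h1 with hi
    · rw [PEls.dsetM, mem_filter, mem_Ioc] at h1
      have h2 : (0 : ℤ) ≤ (X : ℤ) ^ n / 2 := by positivity
      rw [hi, abs_of_pos (by linarith [h1.1.1])]
      exact h1.1.2
    · rw [PEls.itvM, mem_filter, Els.itv, mem_Icc] at h1
      exact abs_le.2 h1.1
  have hsub : PEls.gset n M X v \ (bad ∪ PEls.eset n α M X v) ⊆
      ((Fintype.piFinset fun i : Fin n =>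
        Icc (-(X : ℤ) ^ ((i : ℕ) + 1)) ((X : ℤ) ^ ((i : ℕ) + 1))).filter (ELSP ψ α)) := by
    intro b hb
    rw [mem_sdiff, mem_union, not_or] at hb
    obtain ⟨hb1, hb2, hb3⟩ := hb
    have h1 := hbox b hb1
    obtain ⟨h2, h3⟩ := PEls.value (by omega) hs0 hX1 hb1
    rw [mem_filter, Fintype.mem_piFinset]
    refine ⟨fun i => mem_Icc.2 (abs_le.1 (h1 i)), ?_, PEls.point_real (h3 hXS)⟩
    intro p hp
    have hpp : p.Prime := hp.out
    by_cases hpQ : p ≤ Q
    · apply PEls.point_small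
      refine dvd_trans ?_ h2
      rw [Int.natCast_dvd_natCast, hMdef]
      exact Nat.mul_dvd_mul_left 8 (Nat.dvd_factorial hpp.pos hpQ)
    · push Not at hpQ
      have hα0 : (α : ZMod p) ≠ 0 := by
        intro h0
        rw [ZMod.intCast_zmod_eq_zero_iff_dvd] at h0
        exact (hQM p hpp hpQ).2 h0
      have hψp : (ψ.leadingCoeff : ZMod p) ≠ 0 := by
        intro h0
        rw [ZMod.intCast_zmod_eq_zero_iff_dvd] at h0
        have h1 := Int.natAbs_dvd_natAbs.2 h0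
        rw [Int.natAbs_natCast] at h1
        have h2 := Nat.le_of_dvd (Int.natAbs_pos.2 hlc) h1
        omega
      apply PEls.point_good (by omega) hψ hα0 hψp (by omega)
      intro hcon
      apply hb2
      have h2K : (2 : AlgebraicClosure (ZMod p)) ≠ 0 := by
        intro h0
        apply Els.two_ne (p := p) (by omega)
        apply (algebraMap (ZMod p) (AlgebraicClosure (ZMod p))).injective
        rw [map_ofNat, map_zero]
        exact h0
      have hαK : (α : AlgebraicClosure (ZMod p)) ≠ 0 := by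
        intro h0
        exact (hQM p hpp hpQ).2 ((PEls.cast_eq_zero (p := p) α).1 h0)
      have hdvd := PEls.sqK_dvd (p := p) (by omega) h2K hαK hcon
      have hNN : Els.NN α b ≠ 0 := by
        intro h0
        apply hb3
        rw [PEls.eset, mem_filter]
        exact ⟨hb1, h0⟩
      rw [hbad, mem_biUnion]
      refine ⟨p, ?_, ?_⟩
      · rw [mem_filter, mem_Ioc]
        refine ⟨⟨hpQ, ?_⟩, hpp⟩
        have h4 := Int.natAbs_dvd_natAbs.2 hdvd
        rw [Int.natAbs_natCast] at h4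
        exact (Nat.le_of_dvd (Int.natAbs_pos.2 hNN) h4).trans (hA X hX1 b h1)
      · rw [PEls.pbad, mem_filter]
        exact ⟨hb1, hp, hcon⟩
  have hcnt : ((PEls.gset n M X v \ (bad ∪ PEls.eset n α M X v)).card : ℝ) ≤
      (cnt n (ELSP ψ α) X : ℝ) := by
    unfold cnt
    exact_mod_cast card_le_card hsub
  set T : ℝ := ((PEls.tset n M X).card : ℝ) with hT
  have hT0 : 0 ≤ T := Nat.cast_nonneg _
  have hTge : (X : ℝ) ^ (ν * (ν + 1) / 2) / M ^ ν ≤ T := PEls.card_tset_ge hM ν X hMX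
  have hXj : ∀ j : ℕ, 1 ≤ j → (2 * M : ℝ) ≤ (X : ℝ) ^ j := by
    intro j hj
    have h1 : (2 * M : ℝ) ≤ X := by exact_mod_cast h2MX
    calc (2 * M : ℝ) ≤ X := h1
      _ = (X : ℝ) ^ 1 := (pow_one _).symm
      _ ≤ (X : ℝ) ^ j := pow_le_pow_right₀ hX1' hj
  have hb1 : T * ((2 * X ^ (n - 1) / M - 1) * (X ^ n / (2 * M) - 1)) ≤
      ((PEls.gset n M X v).card : ℝ) := by
    rw [PEls.card_gset]
    push_cast
    have h1 := PEls.card_dsetM_ge hM n X v
    have h2 := PEls.card_itvM_ge hM X (n - 1)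
    apply mul_le_mul_of_nonneg_left _ hT0
    rw [show n - 1 = ν + 1 by omega] at h2 ⊢
    apply mul_le_mul h2 h1 _ (Nat.cast_nonneg _)
    rw [sub_nonneg, le_div_iff₀ (by positivity), one_mul]
    exact hXj n (by omega)
  have hb2 : (bad.card : ℝ) ≤ T * (X ^ (2 * n - 1) / (2 * M ^ 2) + B * X ^ (2 * n - 2)) := by
    have h1 := card_biUnion_le (s := (Ioc Q (A * X ^ n)).filter Nat.Prime)
      (t := fun p => PEls.pbad n α M X v p)
    have h2 : (bad.card : ℝ) ≤ ∑ p ∈ (Ioc Q (A * X ^ n)).filter Nat.Prime,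
        ((PEls.pbad n α M X v p).card : ℝ) := by exact_mod_cast h1
    refine h2.trans ((PEls.sum_pbad_le hn hM hX1 (by omega) hA1 hQX hQM).trans (le_of_eq ?_))
    rw [hB]
    push_cast
    ring
  have hb4 := PEls.card_eset_le (n := n) hn hα M X v
  have hb3 : ((PEls.gset n M X v).card : ℝ) ≤
      ((PEls.gset n M X v \ (bad ∪ PEls.eset n α M X v)).card : ℝ) +
        ((bad.card : ℝ) + ((PEls.eset n α M X v).card : ℝ)) := by
    have h1 : PEls.gset n M X v ⊆ (PEls.gset n M X v \ (bad ∪ PEls.eset n α M X v)) ∪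
        (bad ∪ PEls.eset n α M X v) := by
      intro t ht
      rw [mem_union, mem_sdiff]
      by_cases h : t ∈ (bad ∪ PEls.eset n α M X v)
      · exact Or.inr h
      · exact Or.inl ⟨ht, h⟩
    have h2 := (card_le_card h1).trans ((card_union_le _ _).trans
      (Nat.add_le_add_left (card_union_le _ _) _))
    exact_mod_cast h2
  have hp1 : (X : ℝ) ^ (n - 1) * X ^ n = X ^ (2 * n - 1) := by
    rw [← pow_add]
    congr 1
    omega
  have hp2 : (X : ℝ) ^ (n - 1) ≤ X ^ (2 * n - 2) := pow_le_pow_right₀ hX1' (by omega)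
  have hp2' : (X : ℝ) ^ n ≤ X ^ (2 * n - 2) := pow_le_pow_right₀ hX1' (by omega)
  have hp3 : (X : ℝ) ^ (2 * n - 2) * X = X ^ (2 * n - 1) := by
    rw [← pow_succ, show 2 * n - 2 + 1 = 2 * n - 1 by omega]
  have hp4 : (1 : ℝ) ≤ X ^ (2 * n - 2) := one_le_pow₀ hX1'
  -- the main inequality
  have hmain : 1 / (4 * (M : ℝ) ^ 2) * X ^ (2 * n - 1) ≤
      (2 * X ^ (n - 1) / M - 1) * (X ^ n / (2 * M) - 1) -
        (X ^ (2 * n - 1) / (2 * M ^ 2) + B * X ^ (2 * n - 2)) - (2 * X ^ (n - 1) + 1) := by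
    have e1 : (2 * (X : ℝ) ^ (n - 1) / M - 1) * (X ^ n / (2 * M) - 1) =
        X ^ (2 * n - 1) / M ^ 2 - 2 * (X ^ (n - 1) / M) - (1 / 2) * (X ^ n / M) + 1 := by
      rw [← hp1]
      field_simp
      ring
    have e2 : (X : ℝ) ^ (2 * n - 1) / (2 * M ^ 2) = (1 / 2) * (X ^ (2 * n - 1) / M ^ 2) := by
      field_simp
    have e3 : 1 / (4 * (M : ℝ) ^ 2) * X ^ (2 * n - 1) = (1 / 4) * (X ^ (2 * n - 1) / M ^ 2) := by
      field_simp
    have e4 : ((B : ℝ) + 6) * X ^ (2 * n - 2) ≤ (1 / 4) * (X ^ (2 * n - 1) / M ^ 2) := by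
      have h5 : 4 * ((B : ℝ) + 6) * M ^ 2 ≤ X := by linarith
      have h6 : 4 * (((B : ℝ) + 6) * X ^ (2 * n - 2)) ≤ X ^ (2 * n - 1) / M ^ 2 := by
        rw [le_div_iff₀ (by positivity), ← hp3]
        calc 4 * (((B : ℝ) + 6) * X ^ (2 * n - 2)) * M ^ 2 =
              (X : ℝ) ^ (2 * n - 2) * (4 * ((B : ℝ) + 6) * M ^ 2) := by ring
          _ ≤ (X : ℝ) ^ (2 * n - 2) * X := by gcongr
      linarith
    have e5 : (X : ℝ) ^ (n - 1) / M ≤ X ^ (2 * n - 2) :=
      (div_le_self (by positivity) hM1).trans hp2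
    have e6 : (X : ℝ) ^ n / M ≤ X ^ (2 * n - 2) :=
      (div_le_self (by positivity) hM1).trans hp2'
    rw [e1, e2, e3]
    linarith
  have hfin : T * (1 / (4 * (M : ℝ) ^ 2) * X ^ (2 * n - 1)) ≤ (cnt n (ELSP ψ α) X : ℝ) := by
    have h1 := mul_le_mul_of_nonneg_left hmain hT0
    have h2 : T * ((2 * X ^ (n - 1) / M - 1) * (X ^ n / (2 * M) - 1) -
        (X ^ (2 * n - 1) / (2 * M ^ 2) + B * X ^ (2 * n - 2)) - (2 * X ^ (n - 1) + 1)) =
        T * ((2 * X ^ (n - 1) / M - 1) * (X ^ n / (2 * M) - 1)) -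
        T * (X ^ (2 * n - 1) / (2 * M ^ 2) + B * X ^ (2 * n - 2)) -
        T * (2 * X ^ (n - 1) + 1) := by ring
    rw [h2] at h1
    linarith
  refine le_trans ?_ hfin
  have hexp : n * (n + 1) / 2 = ν * (ν + 1) / 2 + (2 * n - 1) := by
    have : n * (n + 1) = ν * (ν + 1) + 2 * (2 * n - 1) := by
      rw [hnν, show 2 * (ν + 2) - 1 = 2 * ν + 3 by omega]
      ring
    rw [this, Nat.add_mul_div_left _ _ two_pos]
  rw [hexp, pow_add (X : ℝ)]
  calc 1 / (4 * (M : ℝ) ^ (ν + 2)) * (X ^ (ν * (ν + 1) / 2) * X ^ (2 * n - 1))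
      = X ^ (ν * (ν + 1) / 2) / M ^ ν * (1 / (4 * (M : ℝ) ^ 2) * X ^ (2 * n - 1)) := by
        rw [pow_add]
        field_simp
    _ ≤ T * (1 / (4 * (M : ℝ) ^ 2) * X ^ (2 * n - 1)) := by gcongr

end Stoll308.BG
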