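import Pool.Agent.Work.MP_308fa9_nt.BG.ElsL
import Pool.Agent.Work.MP_308fa9_nt.BE.ElsC

set_option autoImplicit false

/-!
A positive proportion of the curves is everywhere locally soluble.
-/

namespace Stoll308.BG.Els

open Finset

/-- The interval of the coefficient of weight `j`. -/
noncomputable def itv (X j : ℕ) : Finset ℤ := Icc (-(X : ℤ) ^ j) ((X : ℤ) ^ j)

lemma card_itv (X j : ℕ) : (((itv X j).card : ℕ) : ℝ) = 2 * X ^ j + 1 := by
  unfold itv
  rw [Int.card_Icc]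
  have : ((X : ℤ) ^ j + 1 - -(X : ℤ) ^ j).toNat = 2 * X ^ j + 1 := by
    have h : ((X : ℤ) ^ j + 1 - -(X : ℤ) ^ j) = ((2 * X ^ j + 1 : ℕ) : ℤ) := by push_cast; ring
    rw [h, Int.toNat_natCast]
  rw [this]
  push_cast
  ring

/-- The constant coefficients. -/
noncomputable def dset (n M X : ℕ) : Finset ℤ := (Ioc 0 ((X : ℤ) ^ n)).filter fun d => (M : ℤ) ∣ d - 1

lemma card_dset_ge {M : ℕ} (hM : 0 < M) (n X : ℕ) :
    (X : ℝ) ^ n / M - 1 ≤ ((dset n M X).card : ℝ) := by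
  have h1 := BE.ap_card_ge 0 ((X : ℤ) ^ n) M 1 (by exact_mod_cast hM)
  push_cast at h1
  rw [sub_zero] at h1
  exact h1

/-- The family. -/
noncomputable def gset (n M X : ℕ) : Finset (Fin n → ℤ) :=
  Fintype.piFinset fun i : Fin n => if (i : ℕ) + 1 = n then dset n M X else itv X ((i : ℕ) + 1)

/-- The family of the first coefficients. -/
noncomputable def tset (n X : ℕ) : Finset (Fin n → ℤ) :=
  Fintype.piFinset fun i : Fin n => if (i : ℕ) + 2 < n then itv X ((i : ℕ) + 1) else {0}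

/-- The first coefficients. -/
def proj {n : ℕ} (b : Fin n → ℤ) : Fin n → ℤ := fun i => if (i : ℕ) + 2 < n then b i else 0

lemma card_gset (ν M X : ℕ) : (gset (ν + 2) M X).card =
    (tset (ν + 2) X).card * ((itv X (ν + 1)).card * (dset (ν + 2) M X).card) := by
  unfold gset tset
  rw [Fintype.card_piFinset, Fintype.card_piFinset, Fin.prod_univ_castSucc, Fin.prod_univ_castSucc,
    Fin.prod_univ_castSucc, Fin.prod_univ_castSucc]
  simp only [Fin.val_castSucc, Fin.val_last]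
  rw [if_neg (by omega), if_pos trivial, if_neg (by omega), if_neg (by omega), card_singleton,
    mul_one, mul_one, mul_assoc]
  congr 1
  refine prod_congr rfl fun i _ => ?_
  have hi := i.2
  rw [if_neg (by omega), if_pos (by omega)]

lemma prod_pow_succ {x : ℝ} (ν : ℕ) : ∏ i ∈ range ν, x ^ (i + 1) = x ^ (ν * (ν + 1) / 2) := by
  induction ν with
  | zero => simp
  | succ ν ih =>
    rw [prod_range_succ, ih, ← pow_add]
    congr 1
    have : (ν + 1) * (ν + 1 + 1) = ν * (ν + 1) + 2 * (ν + 1) := by ring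
    rw [this, Nat.add_mul_div_left _ _ two_pos]

lemma card_tset_ge (ν X : ℕ) : (X : ℝ) ^ (ν * (ν + 1) / 2) ≤ ((tset (ν + 2) X).card : ℝ) := by
  unfold tset
  rw [Fintype.card_piFinset, Fin.prod_univ_castSucc, Fin.prod_univ_castSucc]
  simp only [Fin.val_castSucc, Fin.val_last]
  rw [if_neg (by omega), if_neg (by omega), card_singleton, mul_one, mul_one]
  push_cast
  rw [← prod_pow_succ, ← Fin.prod_univ_eq_prod_range (fun i => (X : ℝ) ^ (i + 1)) ν]
  apply prod_le_prod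
  · intro i _
    positivity
  · intro i _
    have hi := i.2
    rw [if_pos (by omega), card_itv]
    have : (0 : ℝ) ≤ (X : ℝ) ^ ((i : ℕ) + 1) := by positivity
    linarith

lemma proj_mem {n M X : ℕ} {b : Fin n → ℤ} (hb : b ∈ gset n M X) : proj b ∈ tset n X := by
  unfold gset at hb
  unfold tset
  rw [Fintype.mem_piFinset] at hb ⊢
  intro i
  unfold proj
  have h1 := hb i
  split_ifs with hi
  · rwa [if_neg (by omega)] at h1
  · exact mem_singleton_self _

lemma proj_eq {n : ℕ} {b b' : Fin n → ℤ} (h : proj b = proj b') (i : Fin n) (hi : (i : ℕ) + 2 < n) :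
    b i = b' i := by
  have h1 := congrFun h i
  unfold proj at h1
  rwa [if_pos hi, if_pos hi] at h1

lemma card_le_fiber {β γ : Type*} [DecidableEq γ] (S : Finset β) (T : Finset γ) (f : β → γ)
    (hf : ∀ b ∈ S, f b ∈ T) (F : ℝ) (h : ∀ c ∈ T, ((S.filter fun b => f b = c).card : ℝ) ≤ F) :
    (S.card : ℝ) ≤ T.card * F := by
  rw [card_eq_sum_card_fiberwise hf]
  push_cast
  refine (sum_le_sum h).trans ?_
  rw [sum_const, nsmul_eq_mul]

open Classical in
/-- The bad vectors at `p`. -/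
noncomputable def pbad (k n : ℕ) (α : ℤ) (M X p : ℕ) : Finset (Fin n → ℤ) :=
  (gset n M X).filter fun b => SqRed k α b p

open Classical in
lemma card_pbad_le {k n : ℕ} (hk : 1 ≤ k) (hn : 3 ≤ n) {α : ℤ} {M X p : ℕ} (hM : 0 < M)
    (hp : p.Prime) (hp2 : p ≠ 2) (hα : ¬ (p : ℤ) ∣ α) (hpM : ¬ p ∣ M) :
    ((pbad k n α M X p).card : ℝ) ≤ ((tset n X).card : ℝ) *
      ((2 * X ^ (n - 1) / p + 2) * (X ^ n / (p * M) + 1)) := by
  have hp0 : (0 : ℝ) < p := by exact_mod_cast hp.pos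
  have hp1 : (1 : ℝ) ≤ p := by exact_mod_cast hp.one_lt.le
  have hM0 : (0 : ℝ) < M := by exact_mod_cast hM
  have := Fact.mk hp
  have hαp : (α : ZMod p) ≠ 0 := by
    intro h0
    rw [ZMod.intCast_zmod_eq_zero_iff_dvd] at h0
    exact hα h0
  apply card_le_fiber _ _ proj
  · intro b hb
    unfold pbad at hb
    rw [mem_filter] at hb
    exact proj_mem hb.1
  · intro c _
    rcases ((pbad k n α M X p).filter fun b => proj b = c).eq_empty_or_nonempty with h | ⟨b₀, hb₀⟩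
    · rw [h]
      simp only [card_empty, Nat.cast_zero]
      positivity
    · unfold pbad at hb₀
      rw [mem_filter, mem_filter, gset, Fintype.mem_piFinset] at hb₀
      obtain ⟨⟨hb₀, hbad₀⟩, hc₀⟩ := hb₀
      set u : Fin n := ⟨n - 2, by omega⟩ with hu
      set v : Fin n := ⟨n - 1, by omega⟩ with hv
      have hcop : IsCoprime (p : ℤ) (M : ℤ) := by
        rw [Nat.isCoprime_iff_coprime]
        exact (Nat.Prime.coprime_iff_not_dvd hp).2 hpM
      have hle : ((pbad k n α M X p).filter fun b => proj b = c).card ≤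
          (((Ioc (-(X : ℤ) ^ (n - 1) - 1) ((X : ℤ) ^ (n - 1))).filter
              fun x => (p : ℤ) ∣ x - b₀ u) ×ˢ
            ((Ioc 0 ((X : ℤ) ^ n)).filter fun d => ((p * M : ℕ) : ℤ) ∣ d - b₀ v)).card := by
        apply card_le_card_of_injOn (fun b => (b u, b v))
        · intro b hb
          rw [mem_coe, pbad, mem_filter, mem_filter, gset, Fintype.mem_piFinset] at hb
          obtain ⟨⟨hb, hbad⟩, hc⟩ := hb
          have huniq := bad_uniq hk hn hp2 hαp hbad hbad₀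
            (fun i hi => proj_eq (hc.trans hc₀.symm) i hi)
          have h1 := hb u
          have h2 := hb v
          have h3 := hb₀ v
          rw [if_neg (by simp only [hu]; omega), itv, mem_Icc] at h1
          rw [if_pos (by simp only [hv]; omega), dset, mem_filter] at h2 h3
          have hun : (u : ℕ) + 1 = n - 1 := by simp only [hu]; omega
          rw [hun] at h1
          rw [mem_coe, mem_product]
          constructor
          · rw [mem_filter, mem_Ioc]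
            exact ⟨⟨by linarith [h1.1], h1.2⟩, huniq u⟩
          · rw [mem_filter]
            refine ⟨h2.1, ?_⟩
            push_cast
            apply hcop.mul_dvd (huniq v)
            have h4 := dvd_sub h2.2 h3.2
            have h5 : b v - 1 - (b₀ v - 1) = b v - b₀ v := by ring
            rwa [h5] at h4
        · intro b hb b' hb' hbb
          rw [mem_coe, mem_filter] at hb hb'
          simp only [Prod.mk.injEq] at hbb
          funext i
          by_cases hi : (i : ℕ) + 2 < n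
          · exact proj_eq (hb.2.trans hb'.2.symm) i hi
          · by_cases hi2 : (i : ℕ) = n - 2
            · have : i = u := Fin.ext hi2
              rw [this]
              exact hbb.1
            · have : i = v := Fin.ext (by simp only [hv]; have := i.2; omega)
              rw [this]
              exact hbb.2
      rw [card_product] at hle
      have hX0 : (0 : ℤ) ≤ (X : ℤ) ^ (n - 1) := by positivity
      have h1 := BE.ap_card_le (-(X : ℤ) ^ (n - 1) - 1) ((X : ℤ) ^ (n - 1)) p (b₀ u)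
        (by exact_mod_cast hp.pos) (by linarith)
      have h2 := BE.ap_card_le 0 ((X : ℤ) ^ n) ((p * M : ℕ) : ℤ) (b₀ v)
        (by exact_mod_cast Nat.mul_pos hp.pos hM) (by positivity)
      have hle' : (((pbad k n α M X p).filter fun b => proj b = c).card : ℝ) ≤
          (((Ioc (-(X : ℤ) ^ (n - 1) - 1) ((X : ℤ) ^ (n - 1))).filter
              fun x => (p : ℤ) ∣ x - b₀ u).card : ℝ) *
            (((Ioc 0 ((X : ℤ) ^ n)).filter fun d => ((p * M : ℕ) : ℤ) ∣ d - b₀ v).card : ℝ) := by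
        exact_mod_cast hle
      refine hle'.trans ?_
      push_cast at h1 h2 ⊢
      rw [sub_zero] at h2
      apply mul_le_mul _ h2 (Nat.cast_nonneg _) (by positivity)
      refine h1.trans ?_
      have h3 : ((X : ℝ) ^ (n - 1) - (-(X : ℝ) ^ (n - 1) - 1)) / p =
        2 * X ^ (n - 1) / p + 1 / p := by ring
      have h4 : 1 / (p : ℝ) ≤ 1 := by
        rw [div_le_one hp0]
        exact hp1
      linarith

open Classical in
/-- The vectors with `NN = 0`. -/
noncomputable def eset (n : ℕ) (α : ℤ) (M X : ℕ) : Finset (Fin n → ℤ) :=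
  (gset n M X).filter fun b => NN α b = 0

open Classical in
lemma card_eset_le {n : ℕ} (hn : 3 ≤ n) {α : ℤ} (hα : α ≠ 0) (M X : ℕ) :
    ((eset n α M X).card : ℝ) ≤ ((tset n X).card : ℝ) * (2 * X ^ (n - 1) + 1) := by
  apply card_le_fiber _ _ proj
  · intro b hb
    unfold eset at hb
    rw [mem_filter] at hb
    exact proj_mem hb.1
  · intro c _
    set u : Fin n := ⟨n - 2, by omega⟩ with hu
    rw [← card_itv X (n - 1)]
    have hle : ((eset n α M X).filter fun b => proj b = c).card ≤ (itv X (n - 1)).card := by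
      apply card_le_card_of_injOn (fun b => b u)
      · intro b hb
        rw [mem_coe, eset, mem_filter, mem_filter, gset, Fintype.mem_piFinset] at hb
        have h1 := hb.1.1 u
        rw [if_neg (by simp only [hu]; omega)] at h1
        have hun : (u : ℕ) + 1 = n - 1 := by simp only [hu]; omega
        rw [hun] at h1
        exact h1
      · intro b hb b' hb' hbb
        rw [mem_coe, eset, mem_filter, mem_filter] at hb hb'
        simp only at hbb
        apply NN_inj (by omega) hα hb.1.2 hb'.1.2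
        intro i hi
        by_cases hi2 : (i : ℕ) + 2 < n
        · exact proj_eq (hb.2.trans hb'.2.symm) i hi2
        · have : i = u := Fin.ext (by simp only [hu]; omega)
          rw [this]
          exact hbb
    exact_mod_cast hle

lemma sum_pbad_le {k n : ℕ} (hk : 1 ≤ k) (hn : 3 ≤ n) {α : ℤ} {M X Q A : ℕ} (hM : 0 < M)
    (hX : 1 ≤ X) (hQ : 4 ≤ Q) (hA : 1 ≤ A) (hQX : Q ≤ A * X ^ n)
    (hQM : ∀ p : ℕ, p.Prime → Q < p → ¬ p ∣ M ∧ ¬ (p : ℤ) ∣ α) :
    ∑ p ∈ (Ioc Q (A * X ^ n)).filter Nat.Prime, ((pbad k n α M X p).card : ℝ) ≤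
      ((tset n X).card : ℝ) *
        (X ^ (2 * n - 1) / (2 * M) + 6 * A * (A + n + 1) * X ^ (2 * n - 2)) := by
  have hX1 : (1 : ℝ) ≤ X := by exact_mod_cast hX
  have hM0 : (0 : ℝ) < M := by exact_mod_cast hM
  have hM1 : (1 : ℝ) ≤ M := by exact_mod_cast hM
  have hA1 : (1 : ℝ) ≤ A := by exact_mod_cast hA
  have hQ4 : (4 : ℝ) ≤ Q := by exact_mod_cast hQ
  have hT : (0 : ℝ) ≤ ((tset n X).card : ℝ) := Nat.cast_nonneg _
  have h1 : ∑ p ∈ (Ioc Q (A * X ^ n)).filter Nat.Prime, ((pbad k n α M X p).card : ℝ) ≤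
      ∑ p ∈ (Ioc Q (A * X ^ n)).filter Nat.Prime, ((tset n X).card : ℝ) *
        (2 * X ^ (2 * n - 1) / M * ((p : ℝ) ^ 2)⁻¹ + 6 * A * X ^ n * (p : ℝ)⁻¹) := by
    apply sum_le_sum
    intro p hp
    rw [mem_filter, mem_Ioc] at hp
    have hp0 : (0 : ℝ) < p := by exact_mod_cast hp.2.pos
    have hpX : (p : ℝ) ≤ A * (X : ℝ) ^ n := by exact_mod_cast hp.1.2
    refine (card_pbad_le hk hn hM hp.2 (by omega) (hQM p hp.2 hp.1.1).2
      (hQM p hp.2 hp.1.1).1).trans ?_
    apply mul_le_mul_of_nonneg_left _ hT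
    have e0 : (X : ℝ) ^ (n - 1) * X ^ n = X ^ (2 * n - 1) := by
      rw [← pow_add]
      congr 1
      omega
    calc (2 * (X : ℝ) ^ (n - 1) / p + 2) * (X ^ n / (p * M) + 1)
        = 2 * (X ^ (n - 1) * X ^ n) / M * ((p : ℝ) ^ 2)⁻¹ + 2 * X ^ (n - 1) * (p : ℝ)⁻¹ +
          2 * (X ^ n * (p : ℝ)⁻¹) * (M : ℝ)⁻¹ + 2 := by
          field_simp
          ring
      _ = 2 * X ^ (2 * n - 1) / M * ((p : ℝ) ^ 2)⁻¹ + 2 * X ^ (n - 1) * (p : ℝ)⁻¹ +
          2 * (X ^ n * (p : ℝ)⁻¹) * (M : ℝ)⁻¹ + 2 := by rw [e0]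
      _ ≤ 2 * X ^ (2 * n - 1) / M * ((p : ℝ) ^ 2)⁻¹ + 2 * X ^ n * (p : ℝ)⁻¹ +
          2 * (X ^ n * (p : ℝ)⁻¹) * 1 + 2 * (A * X ^ n * (p : ℝ)⁻¹) := by
          have e1 : (X : ℝ) ^ (n - 1) ≤ X ^ n := pow_le_pow_right₀ hX1 (by omega)
          have e2 : (M : ℝ)⁻¹ ≤ 1 := inv_le_one_of_one_le₀ hM1
          have e3 : (1 : ℝ) ≤ A * X ^ n * (p : ℝ)⁻¹ := by
            rw [← div_eq_mul_inv, le_div_iff₀ hp0, one_mul]
            exact hpX
          have e5 : 2 * (X : ℝ) ^ (n - 1) * (p : ℝ)⁻¹ ≤ 2 * X ^ n * (p : ℝ)⁻¹ := by gcongr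
          have e6 : 2 * ((X : ℝ) ^ n * (p : ℝ)⁻¹) * (M : ℝ)⁻¹ ≤ 2 * (X ^ n * (p : ℝ)⁻¹) * 1 := by
            gcongr
          linarith
      _ ≤ 2 * X ^ (2 * n - 1) / M * ((p : ℝ) ^ 2)⁻¹ + 6 * A * X ^ n * (p : ℝ)⁻¹ := by
          have e7 : (0 : ℝ) ≤ (X : ℝ) ^ n * (p : ℝ)⁻¹ := by positivity
          have e8 : 1 * ((X : ℝ) ^ n * (p : ℝ)⁻¹) ≤ A * ((X : ℝ) ^ n * (p : ℝ)⁻¹) := by gcongr
          linarith
  have h2 : ∑ p ∈ (Ioc Q (A * X ^ n)).filter Nat.Prime, ((tset n X).card : ℝ) *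
        (2 * X ^ (2 * n - 1) / M * ((p : ℝ) ^ 2)⁻¹ + 6 * A * X ^ n * (p : ℝ)⁻¹) ≤
      ∑ p ∈ Ioc Q (A * X ^ n), ((tset n X).card : ℝ) *
        (2 * X ^ (2 * n - 1) / M * ((p : ℝ) ^ 2)⁻¹ + 6 * A * X ^ n * (p : ℝ)⁻¹) := by
    apply sum_le_sum_of_subset_of_nonneg (filter_subset _ _)
    intro p _ _
    positivity
  have h3 : ∑ p ∈ Ioc Q (A * X ^ n), (((p : ℕ) : ℝ) ^ 2)⁻¹ ≤ 1 / 4 := by
    have h := sum_Ioc_inv_sq_le_sub (α := ℝ) (k := Q) (n := A * X ^ n) (by omega) hQX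
    have h4 : (0 : ℝ) ≤ (((A * X ^ n : ℕ) : ℕ) : ℝ)⁻¹ := by positivity
    have h5 : (Q : ℝ)⁻¹ ≤ 1 / 4 := by
      rw [one_div]
      exact inv_anti₀ (by norm_num) hQ4
    linarith
  have h4 : ∑ p ∈ Ioc Q (A * X ^ n), ((p : ℕ) : ℝ)⁻¹ ≤ (A + n + 1) * X := by
    have h5 : ∑ p ∈ Ioc Q (A * X ^ n), ((p : ℕ) : ℝ)⁻¹ ≤
        ∑ p ∈ Icc 1 (A * X ^ n), ((p : ℕ) : ℝ)⁻¹ := by
      apply sum_le_sum_of_subset_of_nonneg
      · intro p hp
        rw [mem_Ioc] at hp
        rw [mem_Icc]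
        omega
      · intro p _ _
        positivity
    have h6 : ((harmonic (A * X ^ n) : ℚ) : ℝ) = ∑ p ∈ Icc 1 (A * X ^ n), ((p : ℕ) : ℝ)⁻¹ := by
      rw [harmonic_eq_sum_Icc]
      push_cast
      rfl
    have h7 := harmonic_le_one_add_log (A * X ^ n)
    rw [h6] at h7
    have h8 : Real.log ((A * X ^ n : ℕ) : ℝ) = Real.log A + n * Real.log X := by
      push_cast
      rw [Real.log_mul (by positivity) (by positivity), Real.log_pow]
    rw [h8] at h7
    have h9 := Real.log_le_sub_one_of_pos (show (0 : ℝ) < X by linarith)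
    have h10 := Real.log_le_sub_one_of_pos (show (0 : ℝ) < A by linarith)
    have hn0 : (0 : ℝ) ≤ n := Nat.cast_nonneg _
    have h11 : (n : ℝ) * Real.log X ≤ n * (X - 1) := mul_le_mul_of_nonneg_left h9 hn0
    have h12 : (A : ℝ) * 1 ≤ A * X := by gcongr
    nlinarith
  refine h1.trans (h2.trans ?_)
  rw [← mul_sum, sum_add_distrib, ← mul_sum, ← mul_sum]
  apply mul_le_mul_of_nonneg_left _ hT
  calc 2 * (X : ℝ) ^ (2 * n - 1) / M * ∑ p ∈ Ioc Q (A * X ^ n), (((p : ℕ) : ℝ) ^ 2)⁻¹ +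
        6 * A * X ^ n * ∑ p ∈ Ioc Q (A * X ^ n), ((p : ℕ) : ℝ)⁻¹
      ≤ 2 * X ^ (2 * n - 1) / M * (1 / 4) + 6 * A * X ^ n * ((A + n + 1) * X) := by gcongr
    _ = X ^ (2 * n - 1) / (2 * M) + 6 * A * (A + n + 1) * X ^ (n + 1) := by
        rw [pow_succ]
        field_simp
        ring
    _ ≤ X ^ (2 * n - 1) / (2 * M) + 6 * A * (A + n + 1) * X ^ (2 * n - 2) := by
        have : (X : ℝ) ^ (n + 1) ≤ X ^ (2 * n - 2) := pow_le_pow_right₀ hX1 (by omega)
        gcongr

end Stoll308.BG.Els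

namespace Stoll308.BG

open Finset

theorem els_many (n : ℕ) (hn : 3 ≤ n) (α : ℤ) (hα : α ≠ 0) (k : ℕ) (hk : 1 ≤ k) :
    ∃ c₀ : ℝ, 0 < c₀ ∧ ∃ X₀ : ℕ, ∀ X : ℕ, X₀ ≤ X →
      c₀ * X ^ (n * (n + 1) / 2) ≤ (cnt n (ELS k α) X : ℝ) := by
  classical
  obtain ⟨P₀, hP₀⟩ := point_large n (by omega) α hα k hk
  obtain ⟨A, hA1, hA⟩ := Els.NN_bound n (by omega) α
  set Q := P₀ + α.natAbs + 4 with hQ
  set M := 8 * Q.factorial with hMdef
  have hM : 0 < M := Nat.mul_pos (by norm_num) (Nat.factorial_pos _)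
  have hM0 : (0 : ℝ) < M := by exact_mod_cast hM
  have hQM : ∀ p : ℕ, p.Prime → Q < p → ¬ p ∣ M ∧ ¬ (p : ℤ) ∣ α := by
    intro p hp hQp
    constructor
    · intro h
      rw [hMdef] at h
      rcases (hp.dvd_mul).1 h with h | h
      · have h2 : p ∣ 2 ^ 3 := by norm_num; exact h
        have := Nat.le_of_dvd (by norm_num) (hp.dvd_of_dvd_pow h2)
        omega
      · have := (hp.dvd_factorial).1 h
        omega
    · intro h
      have h1 := Int.natAbs_dvd_natAbs.2 h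
      rw [Int.natAbs_natCast] at h1
      have h2 := Nat.le_of_dvd (Int.natAbs_pos.2 hα) h1
      omega
  obtain ⟨ν, rfl⟩ : ∃ ν, n = ν + 2 := ⟨n - 2, by omega⟩
  set n := ν + 2 with hnν
  set B : ℕ := 6 * A * (A + n + 1) with hB
  refine ⟨1 / (2 * M), by positivity, 2 * M * (B + 5) + Q, ?_⟩
  intro X hX
  have hX1 : 1 ≤ X := by
    have : 1 ≤ M * (B + 5) := Nat.mul_pos hM (by omega)
    nlinarith
  have hX1' : (1 : ℝ) ≤ X := by exact_mod_cast hX1
  have hQX : Q ≤ A * X ^ n := by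
    calc Q ≤ X := by omega
      _ ≤ X ^ n := Nat.le_self_pow (by omega) X
      _ ≤ A * X ^ n := Nat.le_mul_of_pos_left _ hA1
  have hXM : 2 * M * ((B : ℝ) + 5) ≤ X := by
    have : 2 * M * (B + 5) ≤ X := by omega
    exact_mod_cast this
  set u : Fin n := ⟨n - 1, by omega⟩ with hu
  have hu1 : (u : ℕ) + 1 = n := by simp only [hu]; omega
  set bad := ((Ioc Q (A * X ^ n)).filter Nat.Prime).biUnion fun p => Els.pbad k n α M X p with hbad
  have hbox : ∀ b ∈ Els.gset n M X, (∀ i : Fin n, |b i| ≤ (X : ℤ) ^ ((i : ℕ) + 1)) ∧ 0 < b u ∧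
      (M : ℤ) ∣ b u - 1 := by
    intro b hb
    rw [Els.gset, Fintype.mem_piFinset] at hb
    refine ⟨?_, ?_⟩
    · intro i
      have h1 := hb i
      split_ifs at h1 with hi
      · rw [Els.dset, mem_filter, mem_Ioc] at h1
        rw [hi, abs_of_pos h1.1.1]
        exact h1.1.2
      · rw [Els.itv, mem_Icc] at h1
        exact abs_le.2 h1
    · have h1 := hb u
      rw [if_pos hu1, Els.dset, mem_filter, mem_Ioc] at h1
      exact ⟨h1.1.1, h1.2⟩
  have hsub : Els.gset n M X \ (bad ∪ Els.eset n α M X) ⊆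
      ((Fintype.piFinset fun i : Fin n =>
        Icc (-(X : ℤ) ^ ((i : ℕ) + 1)) ((X : ℤ) ^ ((i : ℕ) + 1))).filter (ELS k α)) := by
    intro b hb
    rw [mem_sdiff, mem_union, not_or] at hb
    obtain ⟨hb1, hb2, hb3⟩ := hb
    obtain ⟨h1, h2, h3⟩ := hbox b hb1
    rw [mem_filter, Fintype.mem_piFinset]
    refine ⟨fun i => mem_Icc.2 (abs_le.1 (h1 i)), ?_, point_real α b k hk u hu1 h2⟩
    intro p hp
    have hpp : p.Prime := hp.out
    by_cases hpQ : p ≤ Q
    · apply point_small α b k hk u hu1 p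
      refine dvd_trans ?_ h3
      rw [Int.natCast_dvd_natCast, hMdef]
      exact Nat.mul_dvd_mul_left 8 (Nat.dvd_factorial hpp.pos hpQ)
    · push Not at hpQ
      apply hP₀ p (by omega)
      intro hcon
      apply hb2
      have hα0 : (α : ZMod p) ≠ 0 := by
        intro h0
        rw [ZMod.intCast_zmod_eq_zero_iff_dvd] at h0
        exact (hQM p hpp hpQ).2 h0
      have hdvd := Els.bad_dvd hk (by omega) (by omega) hα0 hcon
      have hNN : Els.NN α b ≠ 0 := by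
        intro h0
        apply hb3
        rw [Els.eset, mem_filter]
        exact ⟨hb1, h0⟩
      rw [hbad, mem_biUnion]
      refine ⟨p, ?_, ?_⟩
      · rw [mem_filter, mem_Ioc]
        refine ⟨⟨hpQ, ?_⟩, hpp⟩
        have h4 := Int.natAbs_dvd_natAbs.2 hdvd
        rw [Int.natAbs_natCast] at h4
        exact (Nat.le_of_dvd (Int.natAbs_pos.2 hNN) h4).trans (hA X hX1 b h1)
      · rw [Els.pbad, mem_filter]
        exact ⟨hb1, hcon⟩
  have hcnt : ((Els.gset n M X \ (bad ∪ Els.eset n α M X)).card : ℝ) ≤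
      (cnt n (ELS k α) X : ℝ) := by
    unfold cnt
    exact_mod_cast card_le_card hsub
  set T : ℝ := ((Els.tset n X).card : ℝ) with hT
  have hT0 : 0 ≤ T := Nat.cast_nonneg _
  have hTge : (X : ℝ) ^ (ν * (ν + 1) / 2) ≤ T := Els.card_tset_ge ν X
  have hb1 : T * (2 * X ^ (n - 1) * (X ^ n / M - 1)) ≤ ((Els.gset n M X).card : ℝ) := by
    rw [Els.card_gset]
    push_cast
    rw [Els.card_itv]
    have h1 := Els.card_dset_ge hM n X
    have h0 : (0 : ℝ) ≤ ((Els.dset n M X).card : ℝ) := Nat.cast_nonneg _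
    apply mul_le_mul_of_nonneg_left _ hT0
    calc 2 * (X : ℝ) ^ (n - 1) * (X ^ n / M - 1)
        ≤ 2 * X ^ (n - 1) * ((Els.dset n M X).card : ℝ) := by gcongr
      _ ≤ (2 * X ^ (ν + 1) + 1) * ((Els.dset n M X).card : ℝ) := by
          apply mul_le_mul_of_nonneg_right _ h0
          rw [show n - 1 = ν + 1 by omega]
          linarith
  have hb2 : (bad.card : ℝ) ≤ T * (X ^ (2 * n - 1) / (2 * M) + B * X ^ (2 * n - 2)) := by
    have h1 := card_biUnion_le (s := (Ioc Q (A * X ^ n)).filter Nat.Prime)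
      (t := fun p => Els.pbad k n α M X p)
    have h2 : (bad.card : ℝ) ≤ ∑ p ∈ (Ioc Q (A * X ^ n)).filter Nat.Prime,
        ((Els.pbad k n α M X p).card : ℝ) := by exact_mod_cast h1
    refine h2.trans ((Els.sum_pbad_le hk hn hM hX1 (by omega) hA1 hQX hQM).trans (le_of_eq ?_))
    rw [hB]
    push_cast
    ring
  have hb4 := Els.card_eset_le (n := n) hn hα M X
  have hb3 : ((Els.gset n M X).card : ℝ) ≤
      ((Els.gset n M X \ (bad ∪ Els.eset n α M X)).card : ℝ) +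
        ((bad.card : ℝ) + ((Els.eset n α M X).card : ℝ)) := by
    have h1 : Els.gset n M X ⊆ (Els.gset n M X \ (bad ∪ Els.eset n α M X)) ∪
        (bad ∪ Els.eset n α M X) := by
      intro t ht
      rw [mem_union, mem_sdiff]
      by_cases h : t ∈ (bad ∪ Els.eset n α M X)
      · exact Or.inr h
      · exact Or.inl ⟨ht, h⟩
    have h2 := (card_le_card h1).trans ((card_union_le _ _).trans
      (Nat.add_le_add_left (card_union_le _ _) _))
    exact_mod_cast h2
  have hp1 : (X : ℝ) ^ (n - 1) * X ^ n = X ^ (2 * n - 1) := by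
    rw [← pow_add]
    congr 1
    omega
  have hp2 : (X : ℝ) ^ (n - 1) ≤ X ^ (2 * n - 2) := pow_le_pow_right₀ hX1' (by omega)
  have hp3 : (X : ℝ) ^ (2 * n - 2) * X = X ^ (2 * n - 1) := by
    rw [← pow_succ, show 2 * n - 2 + 1 = 2 * n - 1 by omega]
  have hp4 : (1 : ℝ) ≤ X ^ (2 * n - 2) := one_le_pow₀ hX1'
  -- the main inequality
  have hmain : 1 / (2 * (M : ℝ)) * X ^ (2 * n - 1) ≤
      2 * X ^ (n - 1) * (X ^ n / M - 1) - (X ^ (2 * n - 1) / (2 * M) + B * X ^ (2 * n - 2)) -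
        (2 * X ^ (n - 1) + 1) := by
    have e1 : 2 * (X : ℝ) ^ (n - 1) * (X ^ n / M - 1) =
        2 * (X ^ (2 * n - 1) / M) - 2 * X ^ (n - 1) := by
      rw [← hp1]
      ring
    have e2 : (X : ℝ) ^ (2 * n - 1) / (2 * M) = (1 / 2) * (X ^ (2 * n - 1) / M) := by
      field_simp
    have e3 : 1 / (2 * (M : ℝ)) * X ^ (2 * n - 1) = (1 / 2) * (X ^ (2 * n - 1) / M) := by
      field_simp
    have e4 : ((B : ℝ) + 5) * X ^ (2 * n - 2) ≤ X ^ (2 * n - 1) / M := by
      rw [le_div_iff₀ hM0, ← hp3]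
      have h5 : ((B : ℝ) + 5) * M ≤ X := by nlinarith
      calc ((B : ℝ) + 5) * X ^ (2 * n - 2) * M = X ^ (2 * n - 2) * (((B : ℝ) + 5) * M) := by ring
        _ ≤ X ^ (2 * n - 2) * X := by gcongr
    rw [e1, e2, e3]
    linarith
  have hfin : T * (1 / (2 * (M : ℝ)) * X ^ (2 * n - 1)) ≤ (cnt n (ELS k α) X : ℝ) := by
    have h1 := mul_le_mul_of_nonneg_left hmain hT0
    have h2 : T * (2 * X ^ (n - 1) * (X ^ n / M - 1) -
        (X ^ (2 * n - 1) / (2 * M) + B * X ^ (2 * n - 2)) - (2 * X ^ (n - 1) + 1)) =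
        T * (2 * X ^ (n - 1) * (X ^ n / M - 1)) -
        T * (X ^ (2 * n - 1) / (2 * M) + B * X ^ (2 * n - 2)) - T * (2 * X ^ (n - 1) + 1) := by ring
    rw [h2] at h1
    linarith
  refine le_trans ?_ hfin
  have hexp : n * (n + 1) / 2 = ν * (ν + 1) / 2 + (2 * n - 1) := by
    have : n * (n + 1) = ν * (ν + 1) + 2 * (2 * n - 1) := by
      rw [hnν, show 2 * (ν + 2) - 1 = 2 * ν + 3 by omega]
      ring
    rw [this, Nat.add_mul_div_left _ _ two_pos]
  rw [hexp, pow_add]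
  calc 1 / (2 * (M : ℝ)) * (X ^ (ν * (ν + 1) / 2) * X ^ (2 * n - 1))
      = X ^ (ν * (ν + 1) / 2) * (1 / (2 * (M : ℝ)) * X ^ (2 * n - 1)) := by ring
    _ ≤ T * (1 / (2 * (M : ℝ)) * X ^ (2 * n - 1)) := by gcongr

end Stoll308.BG
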