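import Pool.Agent.Work.MP_308fa9_nt.BG.PDefs
import Pool.Agent.Work.MP_308fa9_nt.BG.ElsC

set_option autoImplicit false

/-!
Composition with a polynomial: `F(ψ)` is a constant times a square only if `F` is.
Local points of `y² = f(ψ(x)²)`.
-/

namespace Stoll308.BG.PEls

open Polynomial Finset PadicInt

section closed

variable {K : Type*} [Field K] [IsAlgClosed K]

lemma unit_sq {a d : K[X]} (h : Associated (d ^ 2) a) : ∃ e : K[X], a = e ^ 2 := by
  obtain ⟨u, hu⟩ := h
  obtain ⟨c, hc, hcu⟩ := Polynomial.isUnit_iff.1 u.isUnit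
  obtain ⟨z, hz⟩ := IsAlgClosed.exists_pow_nat_eq c two_pos
  refine ⟨d * C z, ?_⟩
  rw [← hu, ← hcu, mul_pow, ← C_pow, hz]

omit [IsAlgClosed K] in
lemma natDegree_le_of_sq_sub {ψ a b : K[X]} {w v : K} (h2 : (2 : K) ≠ 0) (hwv : w ≠ v)
    (ha : ψ - C w = a ^ 2) (hb : ψ - C v = b ^ 2) : ψ.natDegree = 0 := by
  have h1 : (a - b) * (a + b) = C (v - w) := by
    have : a ^ 2 - b ^ 2 = C (v - w) := by
      rw [← ha, ← hb, C_sub]
      ring
    rw [← this]
    ring
  have hu : IsUnit (C (v - w)) := isUnit_C.2 (isUnit_iff_ne_zero.2 (sub_ne_zero.2 hwv.symm))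
  rw [← h1] at hu
  have hu1 := natDegree_eq_zero_of_isUnit (isUnit_of_mul_isUnit_left hu)
  have hu2 := natDegree_eq_zero_of_isUnit (isUnit_of_mul_isUnit_right hu)
  have h3 : (2 * a).natDegree = 0 := by
    have e : 2 * a = (a - b) + (a + b) := by ring
    have := natDegree_add_le (a - b) (a + b)
    rw [hu1, hu2, ← e] at this
    simpa using this
  have h4 : a.natDegree = 0 := by
    have e : (2 : K[X]) * a = C 2 * a := by
      rw [C_ofNat]
    rw [e, natDegree_C_mul h2] at h3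
    exact h3
  have h5 : ψ = a ^ 2 + C w := by rw [← ha]; ring
  rw [h5, natDegree_add_C, natDegree_pow, h4]

/-- If `F(ψ)` is a constant times a square and `deg F` is even, `F` is a constant times a
square. -/
lemma comp_sq (h2 : (2 : K) ≠ 0) {F ψ s : K[X]} {c : K} (hF : F ≠ 0) (hev : Even F.natDegree)
    (hψ : 1 ≤ ψ.natDegree) (h : F.comp ψ = C c * s ^ 2) : ∃ (c' : K) (t : K[X]), F = C c' * t ^ 2 := by
  obtain ⟨g, t, hsf, hFg⟩ := BE.exists_squarefree_part F hF
  have hg0 : g ≠ 0 := by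
    rintro rfl
    rw [zero_mul] at hFg
    exact hF hFg
  have ht0 : t ≠ 0 := by
    rintro rfl
    rw [zero_pow two_ne_zero, mul_zero] at hFg
    exact hF hFg
  have hgev : Even g.natDegree := by
    have h1 : F.natDegree = g.natDegree + 2 * t.natDegree := by
      rw [hFg, natDegree_mul hg0 (pow_ne_zero _ ht0), natDegree_pow]
    rw [h1] at hev
    exact (Nat.even_add.1 hev).2 ⟨t.natDegree, by ring⟩
  by_cases hgd : g.natDegree = 0
  · obtain ⟨c', hc'⟩ := natDegree_eq_zero.1 hgd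
    exact ⟨c', t, by rw [hc']; exact hFg⟩
  exfalso
  -- two distinct roots
  have hψ0 : ∀ q : K[X], q ≠ 0 → q.comp ψ ≠ 0 := by
    intro q hq h0
    rw [comp_eq_zero_iff] at h0
    rcases h0 with h0 | ⟨-, h0⟩
    · exact hq h0
    · rw [h0, natDegree_C] at hψ
      omega
  obtain ⟨r, hr⟩ : ∃ r : K[X], g.comp ψ = r ^ 2 := by
    obtain ⟨z, hz⟩ := IsAlgClosed.exists_pow_nat_eq c two_pos
    have h1 : g.comp ψ * (t.comp ψ) ^ 2 = (C z * s) ^ 2 := by
      rw [mul_pow, ← C_pow, hz, ← h, hFg, mul_comp, pow_comp]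
    have h3 : t.comp ψ ∣ C z * s := by
      rw [← IsIntegrallyClosed.pow_dvd_pow_iff two_ne_zero, ← h1]
      exact dvd_mul_left _ _
    obtain ⟨r, hr⟩ := h3
    refine ⟨r, ?_⟩
    rw [hr, mul_pow, mul_comm] at h1
    exact mul_left_cancel₀ (pow_ne_zero 2 (hψ0 t ht0)) h1
  have hdeg : g.degree ≠ 0 := by
    intro h0
    exact hgd (natDegree_eq_of_degree_eq_some h0)
  obtain ⟨w, hw⟩ := IsAlgClosed.exists_root g hdeg
  obtain ⟨g₁, hg₁⟩ := dvd_iff_isRoot.2 hw
  have hg₁0 : g₁ ≠ 0 := by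
    rintro rfl
    rw [mul_zero] at hg₁
    exact hg0 hg₁
  have hg₁d : g₁.natDegree ≠ 0 := by
    intro h0
    have h1 : g.natDegree = 1 + g₁.natDegree := by
      rw [hg₁, natDegree_mul (X_sub_C_ne_zero w) hg₁0, natDegree_X_sub_C]
    rw [h0] at h1
    rw [h1] at hgev
    exact absurd hgev (by decide)
  have hdeg₁ : g₁.degree ≠ 0 := by
    intro h0
    exact hg₁d (natDegree_eq_of_degree_eq_some h0)
  obtain ⟨v, hv⟩ := IsAlgClosed.exists_root g₁ hdeg₁
  obtain ⟨g₂, hg₂⟩ := dvd_iff_isRoot.2 hv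
  -- `X - w` is coprime to the cofactor
  have hcop : ∀ (x : K) (q : K[X]), g = (X - C x) * q → IsCoprime (X - C x) q := by
    intro x q hq
    rw [(irreducible_X_sub_C x).coprime_iff_not_dvd]
    intro hdvd
    obtain ⟨q', hq'⟩ := hdvd
    have := hsf (X - C x) ⟨q', by rw [hq, hq']; ring⟩
    exact (irreducible_X_sub_C x).not_isUnit this
  have hwv : w ≠ v := by
    intro h0
    have := hsf (X - C w) ⟨g₂, by rw [hg₁, hg₂, h0]; ring⟩
    exact (irreducible_X_sub_C w).not_isUnit this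
  have hsq : ∀ (x : K) (q : K[X]), g = (X - C x) * q → ∃ a : K[X], ψ - C x = a ^ 2 := by
    intro x q hq
    have h1 := (hcop x q hq).map (compRingHom ψ)
    simp only [coe_compRingHom_apply, sub_comp, X_comp, C_comp] at h1
    have h3 : (ψ - C x) * q.comp ψ = r ^ 2 := by
      rw [← hr, hq, mul_comp, sub_comp, X_comp, C_comp]
    obtain ⟨d, hd⟩ := exists_associated_pow_of_mul_eq_pow' h1 h3
    exact unit_sq hd
  obtain ⟨a, ha⟩ := hsq w g₁ hg₁
  obtain ⟨b, hb⟩ := hsq v ((X - C w) * g₂) (by rw [hg₁, hg₂]; ring)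
  have := natDegree_le_of_sq_sub h2 hwv ha hb
  omega

end closed

/-- `f(T²)` is a constant times a square over `K`. -/
def SqK {n : ℕ} (K : Type*) [Field K] (α : ℤ) (b : Fin n → ℤ) : Prop :=
  ∃ (c : K) (s : K[X]), expand K (2 * 1) (fpol (α : K) (fun i => (b i : K))) = C c * s ^ 2

section char

variable {K : Type*} [Field K] {p : ℕ} [CharP K p]

lemma cast_eq_zero (m : ℤ) : (m : K) = 0 ↔ (p : ℤ) ∣ m := CharP.intCast_eq_zero_iff K p m

lemma sqK_dvd {n : ℕ} (hn : 1 ≤ n) (h2 : (2 : K) ≠ 0) {α : ℤ} (hα : (α : K) ≠ 0)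
    {b : Fin n → ℤ} (h : SqK K α b) : (p : ℤ) ∣ Els.NN α b := by
  obtain ⟨c, s, h⟩ := h
  rw [← cast_eq_zero (K := K)]
  have hd := Els.gp_natDegree hα (fun i => (b i : K))
  have hbn : ((Els.bet b n : ℤ) : K) = (b ⟨n - 1, by omega⟩ : K) := by
    unfold Els.bet
    rw [dif_pos (by omega)]
  unfold Els.NN
  split_ifs with h2n
  · obtain ⟨m, rfl⟩ := h2n
    have hm : 1 ≤ m := by omega
    obtain ⟨t, ht, htd, hg⟩ := Els.even_struct h2 le_rfl hm hd h
    have hl : (fpol (α : K) (fun i => (b i : K))).leadingCoeff = α := by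
      rw [leadingCoeff, hd, Els.gp_coeff_top]
    rw [hl] at hg
    have hr := Els.even_rel hm ht htd hg
    rw [Els.gp_coeff_zero (by omega)] at hr
    rw [Nat.mul_div_cancel_left m two_pos]
    push_cast
    rw [hbn, hr, sub_eq_zero]
    congr 1
    have h3 := Els.U_map (Int.castRingHom K) α (Els.bet b) m
    rw [eq_intCast, eq_intCast] at h3
    rw [h3]
    apply Els.U_congr
    intro i hi1 him
    rw [Els.gp_coeff_lt _ _ (by omega : 2 * m - i < 2 * m), eq_intCast]
    obtain ⟨i, rfl⟩ : ∃ j, i = j + 1 := ⟨i - 1, by omega⟩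
    have h4 := Els.bet_eq b ⟨i, by omega⟩
    simp only at h4
    rw [h4]
    congr 2
    apply Fin.ext
    simp only
    omega
  · rw [hbn, ← Els.gp_coeff_zero (by omega) (α : K) (fun i => (b i : K))]
    exact Els.odd_struct h2 le_rfl h2n hd h

lemma sqK_uniq {n : ℕ} (hn : 3 ≤ n) (h2 : (2 : K) ≠ 0) {α : ℤ} (hα : (α : K) ≠ 0)
    {b b' : Fin n → ℤ} (h : SqK K α b) (h' : SqK K α b')
    (hbb : ∀ i : Fin n, (i : ℕ) + 2 < n → b i = b' i) (i : Fin n) :
    (p : ℤ) ∣ b i - b' i := by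
  obtain ⟨c, s, h⟩ := h
  obtain ⟨c', s', h'⟩ := h'
  have hd := Els.gp_natDegree hα (fun i => (b i : K))
  have hd' := Els.gp_natDegree hα (fun i => (b' i : K))
  have hl : (fpol (α : K) (fun i => (b i : K))).leadingCoeff = α := by
    rw [leadingCoeff, hd, Els.gp_coeff_top]
  have hl' : (fpol (α : K) (fun i => (b' i : K))).leadingCoeff = α := by
    rw [leadingCoeff, hd', Els.gp_coeff_top]
  have key := Els.uniq_sq h2 le_rfl hn hd hd' (by rw [hl, hl']) (by
    rw [natDegree_le_iff_coeff_eq_zero]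
    intro N hN
    rw [coeff_sub, sub_eq_zero]
    rcases lt_trichotomy N n with hlt | rfl | hgt
    · rw [Els.gp_coeff_lt _ _ hlt, Els.gp_coeff_lt _ _ hlt]
      congr 1
      apply hbb
      simp only
      omega
    · rw [Els.gp_coeff_top, Els.gp_coeff_top]
    · rw [Els.gp_coeff_gt _ _ hgt, Els.gp_coeff_gt _ _ hgt]) h h'
  have h3 : (fpol (α : K) (fun i => (b i : K))).coeff (n - 1 - i) =
    (fpol (α : K) (fun i => (b' i : K))).coeff (n - 1 - i) := by rw [key]
  have hi := i.2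
  rw [Els.gp_coeff_lt _ _ (by omega : n - 1 - (i : ℕ) < n),
    Els.gp_coeff_lt _ _ (by omega : n - 1 - (i : ℕ) < n)] at h3
  have hidx : (⟨n - 1 - (n - 1 - (i : ℕ)), by omega⟩ : Fin n) = i := by
    apply Fin.ext
    simp only
    omega
  rw [hidx] at h3
  rw [← cast_eq_zero (K := K)]
  push_cast
  rw [h3, sub_self]

end char

section

variable {p : ℕ} [hp : Fact p.Prime]

/-- Points at a large good prime. -/
lemma point_good {n : ℕ} (hn : 1 ≤ n) {α : ℤ} {ψ : ℤ[X]} (hψ : 1 ≤ ψ.natDegree)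
    (hα : (α : ZMod p) ≠ 0) (hψp : (ψ.leadingCoeff : ZMod p) ≠ 0)
    (hbig : (n * 2 * ψ.natDegree + 2) ^ 2 ≤ p) {b : Fin n → ℤ}
    (h : ¬ SqK (AlgebraicClosure (ZMod p)) α b) : HasPointP ψ α b ℚ_[p] := by
  have hp2 : p ≠ 2 := by
    rintro rfl
    have : (1 * 2 * 1 + 2) ^ 2 ≤ (n * 2 * ψ.natDegree + 2) ^ 2 := by gcongr
    omega
  set ψp : (ZMod p)[X] := ψ.map (Int.castRingHom (ZMod p)) with hψpdef
  have hψd : ψp.natDegree = ψ.natDegree :=
    natDegree_map_of_leadingCoeff_ne_zero _ (by rw [eq_intCast]; exact hψp)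
  set g := fpol (α : ZMod p) (fun i => (b i : ZMod p)) with hg
  have hd : g.natDegree = n := Els.gp_natDegree hα _
  have hg0 : g ≠ 0 := by
    intro h0
    rw [h0] at hd
    simp at hd
    omega
  have hPd : (g.comp (ψp ^ 2)).natDegree = n * 2 * ψ.natDegree := by
    rw [natDegree_comp, natDegree_pow, hd, hψd]
    ring
  obtain ⟨x, y, hy, hxy⟩ := BE.exists_sq_value hp2 (g.comp (ψp ^ 2))
    (by
      intro h0
      rw [h0] at hPd
      simp at hPd
      omega) (by rw [hPd]; exact hbig) (by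
      intro e s hes
      apply h
      set φ := algebraMap (ZMod p) (AlgebraicClosure (ZMod p)) with hφ
      have h2 : (2 : AlgebraicClosure (ZMod p)) ≠ 0 := by
        have := Els.two_ne (p := p) hp2
        intro h0
        apply this
        apply φ.injective
        rw [map_ofNat, map_zero]
        exact h0
      have hα' : (α : AlgebraicClosure (ZMod p)) ≠ 0 := by
        intro h0
        apply hα
        apply φ.injective
        rw [map_intCast, map_zero]
        exact h0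
      have hgm : g.map φ = fpol (α : AlgebraicClosure (ZMod p))
          (fun i => (b i : AlgebraicClosure (ZMod p))) := by
        rw [hg, Els.gp_map, map_intCast]
        simp only [map_intCast]
      have h3 : (expand (AlgebraicClosure (ZMod p)) (2 * 1) (g.map φ)).comp (ψp.map φ) =
          C (φ e) * (s.map φ) ^ 2 := by
        have h4 := congrArg (Polynomial.map φ) hes
        rw [Polynomial.map_comp, Polynomial.map_pow, Polynomial.map_mul, map_C,
          Polynomial.map_pow] at h4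
        rw [← h4, expand_eq_comp_X_pow, comp_assoc, pow_comp, X_comp]
      rw [hgm] at h3
      have hnd : (fpol (α : AlgebraicClosure (ZMod p))
          (fun i => (b i : AlgebraicClosure (ZMod p)))).natDegree = n := Els.gp_natDegree hα' _
      exact comp_sq h2 ((expand_ne_zero (by norm_num)).2 (by
        intro h0
        rw [h0] at hnd
        simp at hnd
        omega)) (by rw [natDegree_expand, hnd]; exact ⟨n, by ring⟩) (by
        rw [natDegree_map]
        rw [hψd]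
        exact hψ) h3)
  rw [eval_comp, eval_pow, hg, Els.gp_eval] at hxy
  obtain ⟨a, ha⟩ := ZMod.ringHom_surjective (toZMod : ℤ_[p] →+* ZMod p) x
  set z : ℤ_[p] := aeval a ψ with hz
  have hzm : toZMod z = ψp.eval x := by
    rw [hz, aeval_def, hom_eval₂, ha, hψpdef, eval_map]
    congr 1
    exact RingHom.ext_int _ _
  have hzc : ((z : ℤ_[p]) : ℚ_[p]) = aeval (a : ℚ_[p]) ψ := by
    have h1 := hom_eval₂ ψ (algebraMap ℤ ℤ_[p]) (PadicInt.Coe.ringHom (p := p)) a
    rw [hz, aeval_def, aeval_def]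
    have h2 : (PadicInt.Coe.ringHom (p := p)).comp (algebraMap ℤ ℤ_[p]) = algebraMap ℤ ℚ_[p] :=
      RingHom.ext_int _ _
    rw [h2] at h1
    exact h1
  set V : ℤ_[p] := α * (z ^ 2) ^ n +
      ∑ i : Fin n, (b i : ℤ_[p]) * (z ^ 2) ^ (n - 1 - (i : ℕ)) with hV
  have hVm : toZMod V = y ^ 2 := by
    rw [hV, hxy]
    simp only [map_add, map_mul, map_pow, map_intCast, hzm, map_sum]
  have hVu : ‖V‖ = 1 := norm_eq_one_iff_toZMod.2 (by rw [hVm]; exact pow_ne_zero _ hy)
  obtain ⟨w, -, hw⟩ := sq_of_residue hp2 hVu (by rw [hVm]; exact ⟨y, sq y⟩)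
  left
  refine ⟨a, w, ?_⟩
  have h1 : ((w ^ 2 : ℤ_[p]) : ℚ_[p]) = (V : ℚ_[p]) := by rw [hw]
  rw [hV] at h1
  push_cast [PadicInt.coe_sum] at h1
  rw [Els.gp_eval, ← hzc]
  exact h1

lemma point_small {n : ℕ} {α : ℤ} {ψ : ℤ[X]} {b : Fin n → ℤ}
    (hd : ((8 * p : ℕ) : ℤ) ∣ (fpol α b).eval ((ψ.coeff 0) ^ 2) - 1) :
    HasPointP ψ α b ℚ_[p] := by
  obtain ⟨w, hw⟩ := Els.isSquare_padic (p := p) hd
  left
  refine ⟨0, w, ?_⟩
  rw [hw, ← coeff_zero_eq_aeval_zero', Els.gp_eval, Els.gp_eval]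
  simp

end

lemma point_real {n : ℕ} {α : ℤ} {ψ : ℤ[X]} {b : Fin n → ℤ}
    (hd : 0 < (fpol α b).eval ((ψ.coeff 0) ^ 2)) : HasPointP ψ α b ℝ := by
  left
  refine ⟨0, Real.sqrt ((fpol α b).eval ((ψ.coeff 0) ^ 2) : ℤ), ?_⟩
  rw [Real.sq_sqrt (by exact_mod_cast hd.le), ← coeff_zero_eq_aeval_zero', Els.gp_eval,
    Els.gp_eval]
  simp

end Stoll308.BG.PEls
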