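import Pool.Agent.Work.MP_308fa9_nt.BG.LCond1

set_option autoImplicit false

namespace Stoll308.BG.LCond

open Polynomial Finset Matrix

/-- A unit of `ℤ_l` close to `1` is a square, `l` odd. -/
lemma one_unit_sq (l : ℕ) [hl : Fact l.Prime] (h2 : l ≠ 2) (u : ℤ_[l]) (hu : ‖u - 1‖ < 1) :
    ∃ z : ℤ_[l], z ^ 2 = u := by
  have h3 : ‖(2 : ℤ_[l])‖ = 1 := by
    have h4 : ‖((2 : ℤ) : ℤ_[l])‖ = 1 := by
      rw [PadicInt.norm_intCast_eq_one_iff]
      have : IsCoprime (2 : ℤ) ((l : ℕ) : ℤ) := by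
        rw [Int.isCoprime_iff_gcd_eq_one]
        have h5 : Nat.Coprime 2 l := by
          rw [Nat.coprime_primes Nat.prime_two hl.out]
          exact fun h => h2 h.symm
        exact_mod_cast h5
      exact this
    exact_mod_cast h4
  have hd : (derivative (X ^ 2 - C u)).aeval (1 : ℤ_[l]) = 2 := by
    simp [derivative_pow]
  obtain ⟨z, hz, -⟩ := hensels_lemma (F := (X ^ 2 - C u : ℤ_[l][X])) (a := (1 : ℤ_[l])) (by
    rw [hd, h3]
    simp only [map_sub, map_pow, aeval_X, aeval_C, one_pow, Algebra.algebraMap_self,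
      RingHom.id_apply]
    rw [← norm_neg, neg_sub]
    exact hu)
  refine ⟨z, ?_⟩
  simp only [map_sub, map_pow, aeval_X, aeval_C, Algebra.algebraMap_self, RingHom.id_apply] at hz
  exact sub_eq_zero.mp hz

/-- The integral element is a square of an integral element. -/
lemma int_root (l : ℕ) [hl : Fact l.Prime] (e : ℤ_[l]) (h : IsSquare (e : ℚ_[l])) :
    IsSquare e := by
  obtain ⟨r, hr⟩ := h
  have h1 : ‖r‖ ≤ 1 := by
    have h2 : ‖r‖ * ‖r‖ ≤ 1 := by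
      rw [← norm_mul, ← hr]
      exact e.2
    by_contra h3
    push Not at h3
    nlinarith
  refine ⟨⟨r, h1⟩, ?_⟩
  apply Subtype.ext
  exact hr

/-- An integer which is a square in `ℚ_l` is not a non-residue. -/
lemma not_neg_one (l : ℕ) [hl : Fact l.Prime] (a : ℤ) (e : ℤ_[l]) (h : IsSquare (e : ℚ_[l]))
    (he : PadicInt.toZMod e = (a : ZMod l)) : legendreSym l a ≠ -1 := by
  intro h1
  rw [legendreSym.eq_neg_one_iff] at h1
  apply h1
  obtain ⟨r, hr⟩ := int_root l e h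
  refine ⟨PadicInt.toZMod r, ?_⟩
  rw [← he, hr, map_mul]

lemma local_core {n : ℕ} (κ : ℤ) (c : Fin n → ℤ) (δ : ℚ[X]) (l : ℕ)
    [hl : Fact l.Prime] (h2 : l ≠ 2) (hκ : ¬ (l : ℤ) ∣ κ) (hloc : MLoc κ c δ ℚ_[l])
    (h1 : (l : ℤ) ∣ (FZ ℤ c).eval 0) (h3 : ¬ (l : ℤ) ^ 2 ∣ (FZ ℤ c).eval 0)
    (h4 : ¬ (l : ℤ) ∣ (derivative (FZ ℤ c)).eval 0) :
    ∃ θ : ℤ_[l], ‖θ‖ < 1 ∧ (FZ ℚ_[l] c).eval (θ : ℚ_[l]) = 0 ∧
      (derivative (FZ ℚ_[l] c)).eval (θ : ℚ_[l]) ≠ 0 ∧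
      ∃ w : ℚ_[l], w ≠ 0 ∧
        (κ : ℚ_[l]) * (δ.map (algebraMap ℚ ℚ_[l])).eval (θ : ℚ_[l]) = w ^ 2 := by
  have hp0 : (0 : ℝ) < l := by exact_mod_cast hl.out.pos
  have hp1 : (1 : ℝ) < l := by exact_mod_cast hl.out.one_lt
  have hκn : ‖(κ : ℚ_[l])‖ = 1 := by
    have h5 := PadicInt.norm_int_lt_one_iff_dvd (p := l) κ
    have h6 : ¬ ‖(κ : ℤ_[l])‖ < 1 := fun h => hκ (h5.mp h)
    have h7 := (κ : ℤ_[l]).norm_le_one
    rw [PadicInt.norm_intCast_eq_padic_norm] at h6 h7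
    linarith [not_lt.mp h6]
  set F := FZ ℤ_[l] c with hF
  have hFm : F = (FZ ℤ c).map (Int.castRingHom ℤ_[l]) := (FZ_map _ c).symm
  have hFq : FZ ℚ_[l] c = F.map (PadicInt.Coe.ringHom (p := l)) := (FZ_map _ c).symm
  have hF0 : F.eval 0 = (((FZ ℤ c).eval 0 : ℤ) : ℤ_[l]) := by
    rw [hFm, eval_map, ← map_zero (Int.castRingHom ℤ_[l]), eval₂_at_apply]
    simp
  have hF1 : (derivative F).eval 0 = (((derivative (FZ ℤ c)).eval 0 : ℤ) : ℤ_[l]) := by
    rw [hFm, derivative_map, eval_map, ← map_zero (Int.castRingHom ℤ_[l]), eval₂_at_apply]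
    simp
  have hn0 : ‖F.eval 0‖ < 1 := by
    rw [hF0]
    exact (PadicInt.norm_int_lt_one_iff_dvd _).mpr h1
  have hn1 : ‖(derivative F).eval 0‖ = 1 := by
    rw [hF1]
    have h5 : ¬ ‖(((derivative (FZ ℤ c)).eval 0 : ℤ) : ℤ_[l])‖ < 1 := fun h =>
      h4 ((PadicInt.norm_int_lt_one_iff_dvd _).mp h)
    have h7 := (((derivative (FZ ℤ c)).eval 0 : ℤ) : ℤ_[l]).norm_le_one
    linarith [not_lt.mp h5]
  obtain ⟨θ, hθ, hθn, hθd, -⟩ := hensels_lemma (F := F) (a := (0 : ℤ_[l])) (by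
    simp only [coe_aeval_eq_eval]
    rw [hn1]
    simpa using hn0)
  simp only [coe_aeval_eq_eval] at hθ hθn hθd
  rw [hn1, sub_zero] at hθn
  rw [hn1] at hθd
  have hcoe : ∀ (P : ℤ_[l][X]) (a : ℤ_[l]), (P.map (PadicInt.Coe.ringHom (p := l))).eval
      (a : ℚ_[l]) = ((P.eval a : ℤ_[l]) : ℚ_[l]) := by
    intro P a
    have h5 : (a : ℚ_[l]) = PadicInt.Coe.ringHom (p := l) a := rfl
    rw [h5, eval_map, eval₂_at_apply]
    rfl
  have hroot : (FZ ℚ_[l] c).eval (θ : ℚ_[l]) = 0 := by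
    rw [hFq, hcoe, hθ]
    rfl
  refine ⟨θ, hθn, hroot, ?_, ?_⟩
  · rw [hFq, derivative_map, hcoe]
    intro h0
    have h5 : (derivative F).eval θ = 0 := by
      apply Subtype.ext
      exact h0
    rw [h5, norm_zero] at hθd
    exact zero_ne_one hθd
  · obtain ⟨x, y, s, hy, hxy, hdvd⟩ := hloc
    have hyn : ‖y‖ ^ 2 = ‖(FZ ℚ_[l] c).eval (κ * x ^ 2)‖ := by
      rw [← hxy, norm_mul, norm_pow, hκn, one_pow, one_mul, norm_pow]
    have hx1 : 1 ≤ ‖x‖ := by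
      by_contra hx
      push Not at hx
      obtain ⟨t, ht⟩ : (l : ℤ_[l]) ∣ (⟨x, hx.le⟩ : ℤ_[l]) :=
        (PadicInt.norm_lt_one_iff_dvd _).mp hx
      have hxt : x = ((l : ℤ_[l]) * t : ℤ_[l]) := by rw [← ht]
      set a : ℤ_[l] := κ * ((l : ℤ_[l]) * t) ^ 2 with ha
      have hxa : (κ : ℚ_[l]) * x ^ 2 = (a : ℚ_[l]) := by
        rw [hxt, ha]
        push_cast
        ring
      rw [hxa, hFq, hcoe] at hyn
      obtain ⟨r, hr⟩ := sub_dvd_eval_sub a 0 F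
      have hl2 : ‖(l : ℤ_[l]) ^ 2‖ = (l : ℝ) ^ (-(2 : ℕ) : ℤ) := by
        rw [norm_pow, PadicInt.norm_p]
        rw [_root_.zpow_neg, zpow_natCast, inv_pow]
      have h5 : ‖F.eval a - F.eval 0‖ ≤ (l : ℝ) ^ (-(2 : ℕ) : ℤ) := by
        rw [hr, sub_zero, ha, mul_pow]
        have h6 : (κ : ℤ_[l]) * ((l : ℤ_[l]) ^ 2 * t ^ 2) * r =
          (l : ℤ_[l]) ^ 2 * (κ * t ^ 2 * r) := by ring
        rw [h6, norm_mul, hl2]
        have h7 := (κ * t ^ 2 * r : ℤ_[l]).norm_le_one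
        have h8 : (0 : ℝ) < (l : ℝ) ^ (-(2 : ℕ) : ℤ) := by positivity
        nlinarith
      have hlt : (l : ℝ) ^ (-(2 : ℕ) : ℤ) < 1 := by
        rw [_root_.zpow_neg, zpow_natCast]
        apply inv_lt_one_of_one_lt₀
        nlinarith
      have h9 : ‖y‖ ^ 2 < 1 := by
        rw [hyn, ← PadicInt.norm_def]
        have h10 : F.eval a = (F.eval a - F.eval 0) + F.eval 0 := by ring
        rw [h10]
        refine lt_of_le_of_lt (PadicInt.nonarchimedean _ _) ?_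
        exact max_lt (lt_of_le_of_lt h5 hlt) hn0
      have h11 : ‖y‖ ^ 2 ≤ (l : ℝ) ^ (-(2 : ℕ) : ℤ) := by
        have h12 : ‖y‖ < 1 := by
          by_contra h13
          push Not at h13
          nlinarith
        obtain ⟨q, hq⟩ : (l : ℤ_[l]) ∣ (⟨y, h12.le⟩ : ℤ_[l]) :=
          (PadicInt.norm_lt_one_iff_dvd _).mp h12
        have h14 : ‖y‖ = ‖(l : ℤ_[l]) * q‖ := by
          rw [← hq]
          rfl
        rw [h14, ← norm_pow, mul_pow, norm_mul, hl2]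
        have h7 := (q ^ 2 : ℤ_[l]).norm_le_one
        have h8 : (0 : ℝ) < (l : ℝ) ^ (-(2 : ℕ) : ℤ) := by positivity
        nlinarith
      apply h3
      have h15 : ‖F.eval 0‖ ≤ (l : ℝ) ^ (-(2 : ℕ) : ℤ) := by
        have h10 : F.eval 0 = F.eval a + -(F.eval a - F.eval 0) := by ring
        rw [h10]
        refine le_trans (PadicInt.nonarchimedean _ _) ?_
        rw [norm_neg]
        refine max_le ?_ h5
        rw [PadicInt.norm_def, ← hyn]
        exact h11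
      rw [hF0] at h15
      exact PadicInt.norm_int_le_pow_iff_dvd.mp h15
    have hx0 : x ≠ 0 := by
      intro h0
      rw [h0, norm_zero] at hx1
      linarith
    have hκ0 : (κ : ℚ_[l]) ≠ 0 := by
      intro h0
      rw [h0, norm_zero] at hκn
      exact zero_ne_one hκn
    set u : ℚ_[l] := 1 - θ / (κ * x ^ 2) with hu
    have hu1 : ‖u - 1‖ < 1 := by
      have h5 : u - 1 = -(θ / (κ * x ^ 2)) := by rw [hu]; ring
      rw [h5, norm_neg, norm_div, norm_mul, hκn, one_mul, norm_pow]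
      have h6 : ‖(θ : ℚ_[l])‖ < 1 := hθn
      have h7 : 1 ≤ ‖x‖ ^ 2 := by nlinarith
      rw [div_lt_one (by linarith)]
      linarith
    have hu2 : ‖u‖ ≤ 1 := by
      have h5 : u = (u - 1) + 1 := by ring
      rw [h5]
      refine le_trans (Padic.nonarchimedean _ _) ?_
      rw [norm_one]
      exact max_le hu1.le le_rfl
    obtain ⟨z, hz⟩ := one_unit_sq l h2 ⟨u, hu2⟩ hu1
    have hz' : (z : ℚ_[l]) ^ 2 = u := by
      have h5 := congrArg (fun q : ℤ_[l] => (q : ℚ_[l])) hz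
      simpa using h5
    have hu0 : u ≠ 0 := by
      intro h0
      rw [h0, zero_sub, norm_neg, norm_one] at hu1
      exact lt_irrefl _ hu1
    have hz0 : (z : ℚ_[l]) ≠ 0 := by
      intro h0
      apply hu0
      rw [← hz', h0]
      ring
    have hkey : (κ : ℚ_[l]) * (x * z) ^ 2 =
        (δ.map (algebraMap ℚ ℚ_[l])).eval (θ : ℚ_[l]) * (s.eval (θ : ℚ_[l])) ^ 2 := by
      obtain ⟨r, hr⟩ := hdvd
      have h5 := congrArg (Polynomial.eval (θ : ℚ_[l])) hr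
      rw [eval_mul, hroot, zero_mul] at h5
      simp only [eval_sub, eval_C, eval_X, eval_mul, eval_pow] at h5
      rw [mul_pow, hz', hu]
      have h6 : (κ : ℚ_[l]) * (x ^ 2 * (1 - θ / (κ * x ^ 2))) = κ * x ^ 2 - θ := by
        field_simp
      rw [h6]
      linear_combination h5
    have hs0 : s.eval (θ : ℚ_[l]) ≠ 0 := by
      intro h0
      rw [h0] at hkey
      have h5 : (κ : ℚ_[l]) * (x * z) ^ 2 ≠ 0 :=
        mul_ne_zero hκ0 (pow_ne_zero _ (mul_ne_zero hx0 hz0))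
      apply h5
      rw [hkey]
      ring
    refine ⟨κ * x * z / s.eval (θ : ℚ_[l]), ?_, ?_⟩
    · exact div_ne_zero (mul_ne_zero (mul_ne_zero hκ0 hx0) hz0) hs0
    · rw [div_pow, eq_div_iff (pow_ne_zero _ hs0)]
      linear_combination (-(κ : ℚ_[l])) * hkey

lemma FZ_coeff {n : ℕ} (c : Fin n → ℤ) (i : Fin n) : (FZ ℤ c).coeff (n - 1 - (i : ℕ)) = c i := by
  have hi := i.isLt
  have h1 : (FZ ℤ c) = C 1 * X ^ n + ∑ i : Fin n, C (c i) * X ^ (n - 1 - (i : ℕ)) := by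
    simp [fpol]
  rw [h1, coeff_add, finsetSum_coeff, coeff_C_mul, coeff_X_pow, if_neg (by omega), mul_zero,
    zero_add, Finset.sum_eq_single i]
  · rw [coeff_C_mul, coeff_X_pow, if_pos rfl, mul_one]
  · intro j _ hj
    rw [coeff_C_mul, coeff_X_pow, if_neg, mul_zero]
    intro h2
    apply hj
    apply Fin.ext
    have := j.isLt
    omega
  · intro h2
    exact absurd (Finset.mem_univ i) h2

end Stoll308.BG.LCond
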