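import Pool.Agent.Work.MP_308fa9_nt.BG.Cube

set_option autoImplicit false

/-!
Few polynomials come from reduced pairs without a short vector which satisfy all local conditions.
-/

namespace Stoll308.BG

open Polynomial Finset Matrix

lemma fpol_coeff {R : Type*} [CommRing R] {n : ℕ} (a : R) (b : Fin n → R) (i : Fin n) :
    (fpol a b).coeff (n - 1 - (i : ℕ)) = b i := by
  unfold fpol
  rw [coeff_add, finsetSum_coeff, coeff_C_mul, coeff_X_pow, if_neg (by omega), mul_zero, zero_add,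
    Finset.sum_eq_single i]
  · rw [coeff_C_mul, coeff_X_pow, if_pos rfl, mul_one]
  · intro j _ hj
    rw [coeff_C_mul, coeff_X_pow, if_neg, mul_zero]
    intro h
    apply hj
    ext
    omega
  · intro h
    exact absurd (mem_univ i) h

lemma fpol_inj {R : Type*} [CommRing R] {n : ℕ} {a : R} {b b' : Fin n → R}
    (h : fpol a b = fpol a b') : b = b' := by
  funext i
  rw [← fpol_coeff a b i, ← fpol_coeff a b' i, h]

/-- The pair determines the polynomial. -/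
lemma HasChar.inj {n : ℕ} {c c' : Fin n → ℤ} {A B : Matrix (Fin n) (Fin n) ℤ}
    (h : HasChar c A B) (h' : HasChar c' A B) : c = c' := by
  have h1 : C A.det * FZ ℤ c = C A.det * FZ ℤ c' := by rw [← h.2, ← h'.2]
  have h2 : (C A.det : ℤ[X]) ≠ 0 := C_ne_zero.2 h.1
  have h3 := mul_left_cancel₀ h2 h1
  simpa using fpol_inj h3

lemma symM_of_isSymm {n : ℕ} {R : Type*} (B : Matrix (Fin n) (Fin n) R) (h : B.IsSymm) :
    symM (fun p : Ix n => B p.1.1 p.1.2) = B := by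
  ext i j
  simp only [symM]
  rcases le_total i j with h1 | h1
  · rw [min_eq_left h1, max_eq_right h1]
  · rw [min_eq_right h1, max_eq_left h1]
    exact h.apply i j

open Classical in
theorem large_t {n : ℕ} (hn : 3 ≤ n) (κ : ℤ) (hκ : κ ≠ 0) (K τ₀ : ℝ) (hτ : 0 < τ₀) (ε : ℝ)
    (hε : 0 < ε) : ∃ M₀ : ℝ, ∀ M : ℝ, M₀ ≤ M → ∀ T : Finset (Fin n → ℤ),
      (∀ c ∈ T, ∃ (A B : Matrix (Fin n) (Fin n) ℤ) (t : Fin n → ℝ), RPair K M c A B t ∧
        (∀ i, τ₀ < t i) ∧ A.det ∣ κ ^ (n - 1) ∧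
        ∀ l : ℕ, l ≠ 2 → ¬ (l : ℤ) ∣ κ → ¬ Bad κ l A B) →
      (T.card : ℝ) ≤ ε * M ^ (n * (n + 1) / 2) := by
  set N := n * (n + 1) / 2 with hN
  set R : ℝ := max 1 (K / τ₀ ^ (n - 1)) with hR
  have hR1 : 1 ≤ R := le_max_left _ _
  -- all lengths are at most `R`
  have hlen : ∀ (M : ℝ) (c : Fin n → ℤ) (A B : Matrix (Fin n) (Fin n) ℤ) (t : Fin n → ℝ),
      RPair K M c A B t → (∀ i, τ₀ < t i) → ∀ i, t i ≤ R := by
    intro M c A B t h ht i
    refine le_trans ?_ (le_max_right _ _)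
    rw [le_div_iff₀ (by positivity)]
    have h1 := h.prod
    rw [← Finset.mul_prod_erase univ t (mem_univ i)] at h1
    refine le_trans ?_ h1
    have h3 : (univ.erase i : Finset (Fin n)).card = n - 1 := by
      rw [card_erase_of_mem (mem_univ i), card_univ, Fintype.card_fin]
    have h2 : ∏ _j ∈ univ.erase i, τ₀ ≤ ∏ j ∈ univ.erase i, t j :=
      Finset.prod_le_prod (fun _ _ => hτ.le) (fun j _ => (ht j).le)
    rw [Finset.prod_const, h3] at h2
    exact mul_le_mul_of_nonneg_left h2 (h.pos i).le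
  set 𝒜 : Finset (Matrix (Fin n) (Fin n) ℤ) :=
    ((Fintype.piFinset fun _ : Fin n => Fintype.piFinset fun _ : Fin n =>
      Icc (-⌊R ^ 2⌋) ⌊R ^ 2⌋).image
      (fun f : Fin n → Fin n → ℤ => (Matrix.of f : Matrix (Fin n) (Fin n) ℤ))).filter
      (fun A : Matrix (Fin n) (Fin n) ℤ => A.IsSymm ∧ A.det ≠ 0) with h𝒜
  set W : ℝ := (𝒜.card + 1) * (R ^ 2) ^ N with hW
  have hW0 : 0 < W := by positivity
  have hex : ∀ A : Matrix (Fin n) (Fin n) ℤ, ∃ (z : ℕ) (D₀ : ℝ), A ∈ 𝒜 → ∀ D : ℝ, D₀ ≤ D →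
      (((Fintype.piFinset fun _ : Ix n => Icc (-⌊D⌋) ⌊D⌋).filter
        fun v => ∀ l ∈ Icc 5 z, l.Prime → ¬ (l : ℤ) ∣ κ → ¬ Bad κ l A (symM v)).card : ℝ) ≤
        ε / W * D ^ N := by
    intro A
    by_cases hA : A ∈ 𝒜
    · rw [h𝒜, mem_filter] at hA
      obtain ⟨z, D₀, h⟩ := cube_small (by omega) κ hκ A hA.2.1 hA.2.2 (ε / W) (by positivity)
      exact ⟨z, D₀, fun _ => h⟩
    · exact ⟨0, 0, fun h => absurd h hA⟩
  choose z D₀ hz using hex
  refine ⟨max 1 (∑ A ∈ 𝒜, |D₀ A|), ?_⟩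
  intro M hM T hT
  have hM1 : 1 ≤ M := (le_max_left _ _).trans hM
  have hMD : ∀ A ∈ 𝒜, D₀ A ≤ M * R ^ 2 := by
    intro A hA
    calc D₀ A ≤ |D₀ A| := le_abs_self _
      _ ≤ ∑ A ∈ 𝒜, |D₀ A| := Finset.single_le_sum (f := fun A => |D₀ A|)
          (fun _ _ => abs_nonneg _) hA
      _ ≤ M := (le_max_right _ _).trans hM
      _ ≤ M * R ^ 2 := le_mul_of_one_le_right (by linarith) (one_le_pow₀ hR1)
  set Q : Matrix (Fin n) (Fin n) ℤ → Finset (Ix n → ℤ) := fun A =>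
    ((Fintype.piFinset fun _ : Ix n => Icc (-⌊M * R ^ 2⌋) ⌊M * R ^ 2⌋).filter
        fun v => ∀ l ∈ Icc 5 (z A), l.Prime → ¬ (l : ℤ) ∣ κ → ¬ Bad κ l A (symM v)) with hQ
  -- the map from the polynomials to the pairs
  have hch : ∀ c : Fin n → ℤ, ∃ q : Matrix (Fin n) (Fin n) ℤ × (Ix n → ℤ), c ∈ T →
      q.1 ∈ 𝒜 ∧ q.2 ∈ Q q.1 ∧ HasChar c q.1 (symM q.2) := by
    intro c
    by_cases hc : c ∈ T
    swap
    · exact ⟨(0, 0), fun h => absurd h hc⟩
    obtain ⟨A, B, t, hP, ht, _, hl⟩ := hT c hc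
    have hR0 : ∀ i, t i ≤ R := hlen M c A B t hP ht
    have htt : ∀ i j, t i * t j ≤ R ^ 2 := by
      intro i j
      rw [sq]
      exact mul_le_mul (hR0 i) (hR0 j) (hP.pos j).le (by linarith)
    refine ⟨(A, fun p => B p.1.1 p.1.2), fun _ => ⟨?_, ?_, ?_⟩⟩
    · rw [h𝒜]
      rw [mem_filter, mem_image]
      refine ⟨⟨fun i j => A i j, ?_, rfl⟩, hP.symA, hP.char.1⟩
      rw [Fintype.mem_piFinset]
      intro i
      rw [Fintype.mem_piFinset]
      intro j
      rw [mem_Icc]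
      have h1 := abs_le.1 ((hP.hA i j).trans (htt i j))
      constructor
      · have : -(A i j) ≤ ⌊R ^ 2⌋ := by
          rw [Int.le_floor]; push_cast; linarith
        linarith
      · rw [Int.le_floor]; exact h1.2
    · rw [hQ]
      simp only [mem_filter, Fintype.mem_piFinset, mem_Icc]
      constructor
      · intro p
        have h1 := abs_le.1 ((hP.hB p.1.1 p.1.2).trans
          (mul_le_mul_of_nonneg_left (htt p.1.1 p.1.2) (by linarith)))
        constructor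
        · have : -(B p.1.1 p.1.2) ≤ ⌊M * R ^ 2⌋ := by
            rw [Int.le_floor]; push_cast; linarith
          linarith
        · rw [Int.le_floor]; exact h1.2
      · intro l hl5 hlp hlκ
        rw [symM_of_isSymm B hP.symB]
        exact hl l (by omega) hlκ
    · show HasChar c A (symM fun p : Ix n => B p.1.1 p.1.2)
      rw [symM_of_isSymm B hP.symB]
      exact hP.char
  choose q hq using hch
  have hinj : Set.InjOn q T := by
    intro c hc c' hc' h
    have h1 := (hq c hc).2.2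
    have h2 := (hq c' hc').2.2
    rw [h] at h1
    exact h1.inj h2
  have hcard : T.card ≤ ∑ A ∈ 𝒜, (Q A).card := by
    rw [← Finset.card_sigma]
    rw [← Finset.card_image_of_injOn hinj]
    have hsub : (T.image q) ⊆ (𝒜.sigma Q).image (fun x => (x.1, x.2)) := by
      intro y hy
      rw [mem_image] at hy
      obtain ⟨c, hc, rfl⟩ := hy
      rw [mem_image]
      exact ⟨⟨(q c).1, (q c).2⟩, mem_sigma.2 ⟨(hq c hc).1, (hq c hc).2.1⟩, rfl⟩
    exact (card_le_card hsub).trans card_image_le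
  calc (T.card : ℝ) ≤ ((∑ A ∈ 𝒜, (Q A).card : ℕ) : ℝ) := by exact_mod_cast hcard
    _ = ∑ A ∈ 𝒜, ((Q A).card : ℝ) := by push_cast; rfl
    _ ≤ ∑ A ∈ 𝒜, ε / W * (M * R ^ 2) ^ N := Finset.sum_le_sum fun A hA =>
        hz A hA (M * R ^ 2) (hMD A hA)
    _ = 𝒜.card * (ε / W * (M * R ^ 2) ^ N) := by rw [Finset.sum_const, nsmul_eq_mul]
    _ ≤ (𝒜.card + 1) * (ε / W * (M * R ^ 2) ^ N) := by
        have : 0 ≤ ε / W * (M * R ^ 2) ^ N := by positivity
        nlinarith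
    _ = ε * M ^ N := by
        rw [hW, mul_pow]
        have hA1 : ((𝒜.card : ℝ) + 1) ≠ 0 := by positivity
        have hRN : (R ^ 2) ^ N ≠ 0 := by positivity
        field_simp

end Stoll308.BG
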