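import Pool.Agent.Work.MP_308fa9_nt.BG.Basic

set_option autoImplicit false

/-!
Hankel matrices: multiplication, determinants, characteristic polynomial.
-/

namespace Stoll308.BG

open Polynomial Finset Matrix

namespace HankL

section ring

variable {K : Type*} [CommRing K] {n : ℕ}

/-- the coefficient of `θ^(n-1)` as a linear form -/
noncomputable def tau (n : ℕ) (F : K[X]) : K[X] →ₗ[K] K :=
  (lcoeff K (n - 1)).comp (modByMonicHom F)

lemma tau_apply (F p : K[X]) : tau n F p = (p %ₘ F).coeff (n - 1) := rfl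

lemma hank_apply (F δ : K[X]) (i j : Fin n) :
    Hank n F δ i j = tau n F (δ * X ^ ((i : ℕ) + j)) := rfl

lemma mul_mod_left (F p q : K[X]) (hF : F.Monic) : ((p %ₘ F) * q) %ₘ F = (p * q) %ₘ F := by
  apply modByMonic_eq_of_dvd_sub hF
  have h := modByMonic_add_div p F
  refine ⟨-(p /ₘ F) * q, ?_⟩
  linear_combination q * h

lemma tau_mul_left (F p q : K[X]) (hF : F.Monic) : tau n F ((p %ₘ F) * q) = tau n F (p * q) := by
  rw [tau_apply, tau_apply, mul_mod_left F p q hF]

/-- expansion of a residue -/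
lemma mod_eq_sum [Nontrivial K] (F p : K[X]) (hF : F.Monic) (hn : F.natDegree = n) :
    p %ₘ F = ∑ k : Fin n, C ((p %ₘ F).coeff k) * X ^ (k : ℕ) := by
  have hd : (p %ₘ F).degree < n := by
    have h1 := degree_modByMonic_lt p hF
    rwa [degree_eq_natDegree hF.ne_zero, hn] at h1
  ext m
  rw [finsetSum_coeff]
  by_cases hm : m < n
  · rw [Finset.sum_eq_single (⟨m, hm⟩ : Fin n)]
    · simp
    · intro b _ hb
      rw [coeff_C_mul, coeff_X_pow, if_neg, mul_zero]
      intro h
      exact hb (Fin.ext h.symm)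
    · intro h
      exact absurd (Finset.mem_univ _) h
  · rw [coeff_eq_zero_of_degree_lt (hd.trans_le (by exact_mod_cast (not_lt.1 hm)))]
    symm
    apply Finset.sum_eq_zero
    intro b _
    rw [coeff_C_mul, coeff_X_pow, if_neg, mul_zero]
    intro h
    exact hm (h ▸ b.2)

/-- multiplication in the Hankel matrix -/
lemma hank_mul [Nontrivial K] (F δ s : K[X]) (hF : F.Monic) (hn : F.natDegree = n) :
    Hank n F (δ * s) = mulMat n F s * Hank n F δ := by
  ext i j
  rw [Matrix.mul_apply, hank_apply]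
  have h1 : δ * s * X ^ ((i : ℕ) + j) = (s * X ^ (i : ℕ)) * (δ * X ^ (j : ℕ)) := by ring
  rw [h1, ← tau_mul_left F _ _ hF, mod_eq_sum F (s * X ^ (i : ℕ)) hF hn, Finset.sum_mul, map_sum]
  refine Finset.sum_congr rfl fun k _ => ?_
  rw [hank_apply, show C (((s * X ^ (i : ℕ)) %ₘ F).coeff (k : ℕ)) * X ^ (k : ℕ) *
    (δ * X ^ (j : ℕ)) = ((s * X ^ (i : ℕ)) %ₘ F).coeff (k : ℕ) • (δ * X ^ ((k : ℕ) + j)) by
      rw [smul_eq_C_mul]; ring, map_smul, smul_eq_mul]
  rfl

lemma mulMat_mul [Nontrivial K] (F s t : K[X]) (hF : F.Monic) (hn : F.natDegree = n) :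
    mulMat n F (s * t) = mulMat n F s * mulMat n F t := by
  ext i j
  rw [Matrix.mul_apply]
  have h1 : s * t * X ^ (i : ℕ) = (s * X ^ (i : ℕ)) * t := by ring
  have h2 : mulMat n F (s * t) i j = ((s * t * X ^ (i : ℕ)) %ₘ F).coeff j := rfl
  rw [h2, h1, ← mul_mod_left F _ _ hF, mod_eq_sum F (s * X ^ (i : ℕ)) hF hn, Finset.sum_mul]
  have h3 : (∑ k : Fin n, C (((s * X ^ (i : ℕ)) %ₘ F).coeff (k : ℕ)) * X ^ (k : ℕ) * t) %ₘ F =
      ∑ k : Fin n, C (((s * X ^ (i : ℕ)) %ₘ F).coeff (k : ℕ)) * ((t * X ^ (k : ℕ)) %ₘ F) := by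
    have h4 := map_sum (modByMonicHom F) (fun k : Fin n =>
      C (((s * X ^ (i : ℕ)) %ₘ F).coeff (k : ℕ)) * X ^ (k : ℕ) * t) Finset.univ
    refine h4.trans (Finset.sum_congr rfl fun k _ => ?_)
    rw [show C (((s * X ^ (i : ℕ)) %ₘ F).coeff (k : ℕ)) * X ^ (k : ℕ) * t =
      ((s * X ^ (i : ℕ)) %ₘ F).coeff (k : ℕ) • (t * X ^ (k : ℕ)) by
        rw [smul_eq_C_mul]; ring, map_smul, smul_eq_C_mul]
    rfl
  rw [h3, finsetSum_coeff]
  refine Finset.sum_congr rfl fun k _ => ?_
  rw [coeff_C_mul]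
  rfl

lemma mulMat_congr (F s t : K[X]) (hF : F.Monic) (h : F ∣ s - t) :
    mulMat n F s = mulMat n F t := by
  ext i j
  have h1 : (s * X ^ (i : ℕ)) %ₘ F = (t * X ^ (i : ℕ)) %ₘ F := by
    apply modByMonic_eq_of_dvd_sub hF
    rw [← sub_mul]
    exact Dvd.dvd.mul_right h _
  exact congrArg (fun p : K[X] => p.coeff (j : ℕ)) h1

lemma mod_X_pow [Nontrivial K] (F : K[X]) (hF : F.Monic) (hn : F.natDegree = n) {m : ℕ}
    (hm : m < n) : (X ^ m : K[X]) %ₘ F = X ^ m := by
  apply (modByMonic_eq_self_iff hF).2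
  rw [degree_X_pow, degree_eq_natDegree hF.ne_zero, hn]
  exact_mod_cast hm

lemma mulMat_one [Nontrivial K] (F : K[X]) (hF : F.Monic) (hn : F.natDegree = n) :
    mulMat n F 1 = 1 := by
  ext i j
  have h1 : mulMat n F 1 i j = ((1 * X ^ (i : ℕ)) %ₘ F).coeff (j : ℕ) := rfl
  rw [h1, one_mul, mod_X_pow F hF hn i.2, coeff_X_pow, Matrix.one_apply]
  by_cases h : i = j
  · rw [if_pos h, if_pos (by rw [h])]
  · rw [if_neg h, if_neg (fun h' => h (Fin.ext h'.symm))]

/-- anti-triangular determinants -/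
lemma det_anti (a : K) : ∀ (n : ℕ) (H : Matrix (Fin n) (Fin n) K),
    (∀ i j : Fin n, (i : ℕ) + j + 1 < n → H i j = 0) →
    (∀ i j : Fin n, (i : ℕ) + j + 1 = n → H i j = a) →
    H.det = (-1) ^ (n * (n - 1) / 2) * a ^ n := by
  intro n
  induction n with
  | zero =>
    intro H _ _
    rw [Matrix.det_isEmpty]
    simp
  | succ n ih =>
    intro H h0 h1
    rw [Matrix.det_succ_row_zero, Finset.sum_eq_single (Fin.last n)]
    · rw [ih, h1 0 (Fin.last n) (by simp), Nat.triangle_succ, pow_add, pow_succ a n, Fin.val_last]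
      · ring
      · intro i j hij
        rw [Matrix.submatrix_apply, Fin.succAbove_last]
        apply h0
        rw [Fin.val_succ, Fin.val_castSucc]
        omega
      · intro i j hij
        rw [Matrix.submatrix_apply, Fin.succAbove_last]
        apply h1
        rw [Fin.val_succ, Fin.val_castSucc]
        omega
    · intro b _ hb
      rw [h0 0 b, mul_zero, zero_mul]
      have hb' : (b : ℕ) ≠ n := fun h => hb (Fin.ext (by rw [Fin.val_last]; exact h))
      have := b.2
      rw [Fin.val_zero]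
      omega
    · intro h
      exact absurd (Finset.mem_univ _) h

lemma hank_one_det [Nontrivial K] (F : K[X]) (hF : F.Monic) (hn : F.natDegree = n) :
    (Hank n F 1).det = (-1) ^ (n * (n - 1) / 2) := by
  have h := det_anti (1 : K) n (Hank n F 1) ?_ ?_
  · rw [h, one_pow, mul_one]
  · intro i j hij
    rw [hank_apply, tau_apply, one_mul, mod_X_pow F hF hn (by omega), coeff_X_pow, if_neg]
    omega
  · intro i j hij
    rw [hank_apply, tau_apply, one_mul, mod_X_pow F hF hn (by omega), coeff_X_pow, if_pos]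
    omega

/-- rows of the matrix of the multiplication by `ξ - θ` -/
lemma mulMat_lin_apply [Nontrivial K] (F : K[X]) (hF : F.Monic) (hn : F.natDegree = n) (ξ : K)
    (i j : Fin n) (hi : (i : ℕ) + 1 < n) : mulMat n F (C ξ - X) i j =
      (if (j : ℕ) = i then ξ else 0) - (if (j : ℕ) = i + 1 then 1 else 0) := by
  have h1 : mulMat n F (C ξ - X) i j = (((C ξ - X) * X ^ (i : ℕ)) %ₘ F).coeff (j : ℕ) := rfl
  have h2 : (C ξ - X) * X ^ (i : ℕ) = ξ • X ^ (i : ℕ) - X ^ ((i : ℕ) + 1) := by
    rw [smul_eq_C_mul]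
    ring
  have h3 : ((C ξ - X) * X ^ (i : ℕ)) %ₘ F = (C ξ - X) * X ^ (i : ℕ) := by
    apply (modByMonic_eq_self_iff hF).2
    rw [h2]
    refine (degree_sub_le _ _).trans_lt ?_
    rw [degree_eq_natDegree hF.ne_zero, hn]
    refine max_lt ?_ ?_
    · refine (degree_smul_le _ _).trans_lt ?_
      rw [degree_X_pow]
      exact_mod_cast i.2
    · rw [degree_X_pow]
      exact_mod_cast hi
  rw [h1, h3, h2, coeff_sub, coeff_smul, coeff_X_pow, coeff_X_pow, smul_eq_mul]
  split_ifs <;> simp

/-- values of the rows at `ξ` -/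
lemma mulMat_lin_sum [Nontrivial K] (F : K[X]) (hF : F.Monic) (hn : F.natDegree = n) (ξ : K)
    (i : Fin n) : ∑ j : Fin n, mulMat n F (C ξ - X) i j * ξ ^ (j : ℕ) =
      if (i : ℕ) + 1 = n then F.eval ξ else 0 := by
  have h1 := mod_eq_sum F ((C ξ - X) * X ^ (i : ℕ)) hF hn
  have h2 : ∑ j : Fin n, mulMat n F (C ξ - X) i j * ξ ^ (j : ℕ) =
      (((C ξ - X) * X ^ (i : ℕ)) %ₘ F).eval ξ := by
    conv_rhs => rw [h1]
    rw [eval_finsetSum]
    refine Finset.sum_congr rfl fun k _ => ?_
    rw [eval_mul, eval_C, eval_pow, eval_X]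
    rfl
  rw [h2]
  have hi := i.2
  have hnd : ((C ξ - X) * X ^ (i : ℕ) : K[X]).degree = ((i : ℕ) + 1 : ℕ) := by
    have e : (C ξ - X) * X ^ (i : ℕ) = -((X - C ξ) * X ^ (i : ℕ)) := by ring
    have hm : ((X - C ξ) * X ^ (i : ℕ)).Monic := (monic_X_sub_C ξ).mul (monic_X_pow _)
    rw [e, degree_neg, degree_eq_natDegree hm.ne_zero, (monic_X_sub_C ξ).natDegree_mul
      (monic_X_pow _), natDegree_X_sub_C, natDegree_X_pow, add_comm]
  split_ifs with h
  · -- the last row
    have e : ((C ξ - X) * X ^ (i : ℕ)) %ₘ F = (C ξ - X) * X ^ (i : ℕ) + F := by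
      have h3 : ((C ξ - X) * X ^ (i : ℕ)) %ₘ F = ((C ξ - X) * X ^ (i : ℕ) + F) %ₘ F := by
        apply modByMonic_eq_of_dvd_sub hF
        refine ⟨-1, ?_⟩
        ring
      rw [h3]
      apply (modByMonic_eq_self_iff hF).2
      have e2 : (C ξ - X) * X ^ (i : ℕ) + F = F - ((X - C ξ) * X ^ (i : ℕ)) := by ring
      have hm : ((X - C ξ) * X ^ (i : ℕ)).Monic := (monic_X_sub_C ξ).mul (monic_X_pow _)
      rw [e2]
      apply degree_sub_lt_left
      · rw [degree_eq_natDegree hF.ne_zero, hn, degree_eq_natDegree hm.ne_zero,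
          (monic_X_sub_C ξ).natDegree_mul (monic_X_pow _), natDegree_X_sub_C, natDegree_X_pow,
          add_comm, h]
      · exact hF.ne_zero
      · rw [hF.leadingCoeff, hm.leadingCoeff]
    rw [e]
    simp
  · have e : ((C ξ - X) * X ^ (i : ℕ)) %ₘ F = (C ξ - X) * X ^ (i : ℕ) := by
      apply (modByMonic_eq_self_iff hF).2
      rw [hnd, degree_eq_natDegree hF.ne_zero, hn]
      have : (i : ℕ) + 1 < n := by omega
      exact_mod_cast this
    rw [e]
    simp

/-- the determinant of the multiplication by `ξ - θ` -/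
lemma mulMat_lin_det [Nontrivial K] (F : K[X]) (hF : F.Monic) (hn : F.natDegree = n) (ξ : K) :
    (mulMat n F (C ξ - X)).det = F.eval ξ := by
  obtain _ | m := n
  · have h1 : F = 1 := by
      exact hF.natDegree_eq_zero.1 hn
    rw [Matrix.det_isEmpty, h1, eval_one]
  · set M := mulMat (m + 1) F (C ξ - X) with hM
    set U : Matrix (Fin (m + 1)) (Fin (m + 1)) K :=
      fun i j => if j = 0 then ξ ^ (i : ℕ) else if i = j then 1 else 0 with hU
    have hUdet : U.det = 1 := by
      rw [Matrix.det_of_isLowerTriangular U]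
      · apply Finset.prod_eq_one
        intro i _
        simp only [hU]
        by_cases hi : i = 0
        · rw [if_pos hi, hi]; simp
        · rw [if_neg hi, if_pos True.intro]
      · intro i j hij
        have hij' : i < j := hij
        simp only [hU]
        rw [if_neg (by intro h; rw [h] at hij'; exact absurd hij' (by simp)), if_neg hij'.ne]
    have h1 : (M * U).det = M.det := by rw [Matrix.det_mul, hUdet, mul_one]
    rw [← h1, Matrix.det_succ_column_zero, Finset.sum_eq_single (Fin.last m)]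
    · have e1 : (M * U) (Fin.last m) 0 = F.eval ξ := by
        rw [Matrix.mul_apply]
        have := mulMat_lin_sum F hF hn ξ (Fin.last m)
        rw [if_pos (by rw [Fin.val_last])] at this
        rw [← this]
        refine Finset.sum_congr rfl fun k _ => ?_
        simp only [hU, if_true]
        rfl
      have e2 : ((M * U).submatrix (Fin.last m).succAbove Fin.succ).det = (-1) ^ m := by
        have e3 : ∀ (i j : Fin m), (M * U) (Fin.castSucc i) (Fin.succ j) =
            (if ((j : ℕ) + 1) = i then ξ else 0) - (if (j : ℕ) = i then 1 else 0) := by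
          intro i j
          rw [Matrix.mul_apply, Finset.sum_eq_single (Fin.succ j)]
          · simp only [hU]
            rw [if_neg (Fin.succ_ne_zero j), if_pos True.intro, mul_one, hM,
              mulMat_lin_apply F hF hn ξ _ _ (by rw [Fin.val_castSucc]; omega), Fin.val_succ,
              Fin.val_castSucc]
            simp only [Nat.add_right_cancel_iff]
          · intro b _ hb
            simp only [hU]
            rw [if_neg (Fin.succ_ne_zero j), if_neg hb, mul_zero]
          · intro h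
            exact absurd (Finset.mem_univ _) h
        rw [Matrix.det_of_isLowerTriangular]
        · rw [Finset.prod_congr rfl (g := fun _ => (-1 : K))]
          · simp
          · intro i _
            rw [Matrix.submatrix_apply, Fin.succAbove_last, e3, if_neg (by omega), if_pos rfl]
            ring
        · intro i j hij
          have hij' : i < j := hij
          have : (i : ℕ) < j := hij'
          rw [Matrix.submatrix_apply, Fin.succAbove_last, e3, if_neg (by omega),
            if_neg (by omega), sub_zero]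
      rw [e1, e2, Fin.val_last]
      have : ((-1 : K)) ^ m * (-1) ^ m = 1 := by
        rw [← mul_pow]
        simp
      linear_combination (F.eval ξ) * this
    · intro b _ hb
      have e1 : (M * U) b 0 = 0 := by
        rw [Matrix.mul_apply]
        have := mulMat_lin_sum F hF hn ξ b
        have hb' : (b : ℕ) + 1 ≠ m + 1 := fun h => hb (Fin.ext (by rw [Fin.val_last]; omega))
        rw [if_neg hb'] at this
        rw [← this]
        refine Finset.sum_congr rfl fun k _ => ?_
        simp only [hU, if_true]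
        rfl
      rw [e1, mul_zero, zero_mul]
    · intro h
      exact absurd (Finset.mem_univ _) h

lemma mulMat_map {L : Type*} [CommRing L] (f : K →+* L) (F s : K[X]) (hF : F.Monic) :
    mulMat n (F.map f) (s.map f) = (mulMat n F s).map f := by
  ext i j
  have h1 : mulMat n (F.map f) (s.map f) i j =
    ((s.map f * X ^ (i : ℕ)) %ₘ (F.map f)).coeff (j : ℕ) := rfl
  have h2 : (s.map f * X ^ (i : ℕ)) = (s * X ^ (i : ℕ)).map f := by
    rw [Polynomial.map_mul, Polynomial.map_pow, map_X]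
  rw [h1, h2, ← map_modByMonic f hF, coeff_map]
  rfl

end ring

end HankL

section ring

variable {K : Type*} [CommRing K] {n : ℕ}

lemma hank_isSymm (F δ : K[X]) : (Hank n F δ).IsSymm := by
  ext i j
  rw [Matrix.transpose_apply, HankL.hank_apply, HankL.hank_apply, add_comm (i : ℕ)]

lemma hank_congr (F δ δ' : K[X]) (hF : F.Monic) (h : F ∣ δ - δ') : Hank n F δ = Hank n F δ' := by
  ext i j
  have h1 : (δ * X ^ ((i : ℕ) + j)) %ₘ F = (δ' * X ^ ((i : ℕ) + j)) %ₘ F := by
    apply modByMonic_eq_of_dvd_sub hF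
    rw [← sub_mul]
    exact Dvd.dvd.mul_right h _
  exact congrArg (fun p : K[X] => p.coeff (n - 1)) h1

lemma hank_mul_sq [Nontrivial K] (F δ s : K[X]) (hF : F.Monic) (hn : F.natDegree = n) :
    Hank n F (δ * s ^ 2) = mulMat n F s * Hank n F δ * (mulMat n F s)ᵀ := by
  have e : δ * s ^ 2 = (δ * s) * s := by ring
  have h := (hank_isSymm (n := n) F (δ * s)).eq
  rw [e, HankL.hank_mul F (δ * s) s hF hn, ← h, HankL.hank_mul F δ s hF hn, Matrix.transpose_mul,
    (hank_isSymm (n := n) F δ).eq, Matrix.mul_assoc]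

lemma hank_map {L : Type*} [CommRing L] (f : K →+* L) (F δ : K[X]) (hF : F.Monic) :
    Hank n (F.map f) (δ.map f) = (Hank n F δ).map f := by
  ext i j
  have h1 : Hank n (F.map f) (δ.map f) i j =
    ((δ.map f * X ^ ((i : ℕ) + j)) %ₘ (F.map f)).coeff (n - 1) := rfl
  have h2 : (δ.map f * X ^ ((i : ℕ) + j)) = (δ * X ^ ((i : ℕ) + j)).map f := by
    rw [Polynomial.map_mul, Polynomial.map_pow, map_X]
  rw [h1, h2, ← map_modByMonic f hF, coeff_map]
  rfl

lemma hank_lin_det [Nontrivial K] (F : K[X]) (hF : F.Monic) (hn : F.natDegree = n) (ξ : K) :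
    (Hank n F (C ξ - X)).det = (-1) ^ (n * (n - 1) / 2) * F.eval ξ := by
  have h := HankL.hank_mul F 1 (C ξ - X) hF hn
  rw [one_mul] at h
  rw [h, Matrix.det_mul, HankL.mulMat_lin_det F hF hn, HankL.hank_one_det F hF hn, mul_comm]

/-- The characteristic polynomial of the pair. -/
lemma hank_char [Nontrivial K] (F δ : K[X]) (hF : F.Monic) (hn : F.natDegree = n) :
    ((X : K[X]) • (Hank n F δ).map C - (Hank n F (X * δ)).map C).det =
      C (Hank n F δ).det * F := by
  have h1 : Hank n F (X * δ) = mulMat n F X * Hank n F δ := by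
    rw [mul_comm X δ]
    exact HankL.hank_mul F δ X hF hn
  have hFm : (F.map (C : K →+* K[X])).Monic := hF.map _
  have hFn : (F.map (C : K →+* K[X])).natDegree = n := by rw [hF.natDegree_map, hn]
  have h2 := HankL.mulMat_lin_det (F.map (C : K →+* K[X])) hFm hFn (X : K[X])
  rw [eval_map, eval₂_C_X] at h2
  have h3 : mulMat n (F.map (C : K →+* K[X])) (C (X : K[X]) - X) =
      (X : K[X]) • (1 : Matrix (Fin n) (Fin n) K[X]) - (mulMat n F X).map C := by
    have h4 := HankL.mulMat_map (n := n) (C : K →+* K[X]) F X hF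
    rw [map_X] at h4
    rw [← h4]
    ext i j : 2
    have h5 : mulMat n (F.map (C : K →+* K[X])) (C (X : K[X]) - X) i j =
      (((C (X : K[X]) - X) * X ^ (i : ℕ)) %ₘ (F.map (C : K →+* K[X]))).coeff (j : ℕ) := rfl
    have h6 : mulMat n (F.map (C : K →+* K[X])) X i j =
      ((X * X ^ (i : ℕ)) %ₘ (F.map (C : K →+* K[X]))).coeff (j : ℕ) := rfl
    have h7 := congrFun (congrFun (HankL.mulMat_one _ hFm hFn) i) j
    have h8 : mulMat n (F.map (C : K →+* K[X])) 1 i j =
      ((1 * X ^ (i : ℕ)) %ₘ (F.map (C : K →+* K[X]))).coeff (j : ℕ) := rfl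
    rw [h8, one_mul] at h7
    rw [Matrix.sub_apply, Matrix.smul_apply, h5, h6, ← h7, sub_mul, sub_modByMonic, coeff_sub,
      ← smul_eq_C_mul, smul_modByMonic, coeff_smul]
  rw [h3] at h2
  have h9 : (X : K[X]) • (Hank n F δ).map C - (Hank n F (X * δ)).map C =
      ((X : K[X]) • (1 : Matrix (Fin n) (Fin n) K[X]) - (mulMat n F X).map C) *
        (Hank n F δ).map C := by
    rw [h1, Matrix.sub_mul, Matrix.smul_mul, Matrix.one_mul, Matrix.map_mul]
  have h10 : ((Hank n F δ).map (C : K →+* K[X])).det = C (Hank n F δ).det := by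
    rw [RingHom.map_det]
    rfl
  rw [h9, Matrix.det_mul, h2, h10, mul_comm]

end ring

section field

variable {K : Type*} [Field K] {n : ℕ}

lemma mulMat_det_ne_zero (F s : K[X]) (hF : F.Monic) (hn : F.natDegree = n) (hs : IsCoprime s F) :
    (mulMat n F s).det ≠ 0 := by
  obtain ⟨a, b, hab⟩ := hs
  have h1 : mulMat n F (a * s) = 1 := by
    rw [← HankL.mulMat_one F hF hn]
    apply HankL.mulMat_congr F _ _ hF
    exact ⟨-b, by linear_combination hab⟩
  rw [HankL.mulMat_mul F a s hF hn] at h1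
  have h2 := congrArg Matrix.det h1
  rw [Matrix.det_mul, Matrix.det_one] at h2
  exact right_ne_zero_of_mul_eq_one h2

lemma hank_det_ne_zero (F δ : K[X]) (hF : F.Monic) (hn : F.natDegree = n)
    (hδ : IsCoprime δ F) : (Hank n F δ).det ≠ 0 := by
  have h := HankL.hank_mul F 1 δ hF hn
  rw [one_mul] at h
  rw [h, Matrix.det_mul, HankL.hank_one_det F hF hn]
  exact mul_ne_zero (mulMat_det_ne_zero F δ hF hn hδ) (pow_ne_zero _ (by simp))

end field

section pair

variable {n : ℕ}

lemma HankL.degree_sum {R : Type*} [CommRing R] (c : Fin n → R) :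
    (∑ i : Fin n, C (c i) * X ^ (n - 1 - (i : ℕ)) : R[X]).degree < n := by
  rcases Nat.eq_zero_or_pos n with h0 | hpos
  · subst h0
    rw [Finset.univ_eq_empty, Finset.sum_empty, degree_zero]
    exact WithBot.bot_lt_coe _
  · refine (degree_sum_le _ _).trans_lt ?_
    rw [Finset.sup_lt_iff (WithBot.bot_lt_coe _)]
    intro i _
    refine (degree_C_mul_X_pow_le _ _).trans_lt ?_
    have := i.2
    have h : n - 1 - (i : ℕ) < n := by omega
    exact_mod_cast h

lemma FZ_monic {R : Type*} [CommRing R] (c : Fin n → ℤ) : (FZ R c).Monic := by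
  unfold FZ fpol
  rw [C_1, one_mul]
  exact monic_X_pow_add (HankL.degree_sum _)

lemma FZ_natDegree {R : Type*} [CommRing R] [Nontrivial R] (c : Fin n → ℤ) :
    (FZ R c).natDegree = n := by
  unfold FZ fpol
  rw [C_1, one_mul]
  apply natDegree_eq_of_degree_eq_some
  rw [degree_add_eq_left_of_degree_lt, degree_X_pow]
  rw [degree_X_pow]
  exact HankL.degree_sum _

lemma FZ_map {R S : Type*} [CommRing R] [CommRing S] (f : R →+* S) (c : Fin n → ℤ) :
    (FZ R c).map f = FZ S c := by
  unfold FZ fpol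
  rw [Polynomial.map_add, Polynomial.map_mul, Polynomial.map_pow, map_X, map_C, map_one,
    Polynomial.map_sum]
  congr 1
  refine Finset.sum_congr rfl fun i _ => ?_
  rw [Polynomial.map_mul, Polynomial.map_pow, map_X, map_C, map_intCast]

lemma HankL.map_symm {A : Matrix (Fin n) (Fin n) ℤ}
    (h : (A.map (Int.cast : ℤ → ℚ)).IsSymm) : A.IsSymm := by
  ext i j
  have h1 := congrFun (congrFun h.eq i) j
  rw [Matrix.transpose_apply, Matrix.map_apply, Matrix.map_apply] at h1
  rw [Matrix.transpose_apply]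
  exact_mod_cast h1

lemma HankL.conj_symm {K : Type*} [CommRing K] {G H : Matrix (Fin n) (Fin n) K} (h : H.IsSymm) :
    (G * H * Gᵀ).IsSymm := by
  unfold Matrix.IsSymm
  rw [Matrix.transpose_mul, Matrix.transpose_mul, Matrix.transpose_transpose, h.eq,
    Matrix.mul_assoc]

lemma IsPair.symmA {c : Fin n → ℤ} {δ : ℚ[X]} {A B : Matrix (Fin n) (Fin n) ℤ}
    (h : IsPair c δ A B) : A.IsSymm := by
  obtain ⟨G, _, h1, _⟩ := h
  apply HankL.map_symm
  rw [h1]
  exact HankL.conj_symm (hank_isSymm _ _)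

lemma IsPair.symmB {c : Fin n → ℤ} {δ : ℚ[X]} {A B : Matrix (Fin n) (Fin n) ℤ}
    (h : IsPair c δ A B) : B.IsSymm := by
  obtain ⟨G, _, _, h1⟩ := h
  apply HankL.map_symm
  rw [h1]
  exact HankL.conj_symm (hank_isSymm _ _)

lemma HankL.det_cast (A : Matrix (Fin n) (Fin n) ℤ) :
    (A.map (Int.cast : ℤ → ℚ)).det = ((A.det : ℤ) : ℚ) := by
  have h := (Int.castRingHom ℚ).map_det A
  exact h.symm

lemma IsPair.hasChar {c : Fin n → ℤ} {δ : ℚ[X]} {A B : Matrix (Fin n) (Fin n) ℤ}
    (h : IsPair c δ A B) (hδ : IsCoprime δ (FZ ℚ c)) : HasChar c A B := by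
  obtain ⟨G, hG, hA, hB⟩ := h
  have hFm : (FZ ℚ c).Monic := FZ_monic c
  have hFn : (FZ ℚ c).natDegree = n := FZ_natDegree c
  have hH := hank_det_ne_zero (FZ ℚ c) δ hFm hFn hδ
  have hdet : ((A.det : ℤ) : ℚ) = G.det * (Hank n (FZ ℚ c) δ).det * G.det := by
    rw [← HankL.det_cast, hA, Matrix.det_mul, Matrix.det_mul, Matrix.det_transpose]
  refine ⟨?_, ?_⟩
  · intro h0
    rw [h0, Int.cast_zero] at hdet
    exact mul_ne_zero (mul_ne_zero hG hH) hG hdet.symm
  · apply Polynomial.map_injective (Int.castRingHom ℚ) Int.cast_injective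
    rw [Polynomial.map_mul, map_C, FZ_map, ← coe_mapRingHom, RingHom.map_det]
    have e1 : (mapRingHom (Int.castRingHom ℚ)).mapMatrix
        ((X : ℤ[X]) • A.map C - B.map C) =
        G.map C * ((X : ℚ[X]) • (Hank n (FZ ℚ c) δ).map C - (Hank n (FZ ℚ c) (X * δ)).map C) *
          (G.map C)ᵀ := by
      have e2 : (mapRingHom (Int.castRingHom ℚ)).mapMatrix ((X : ℤ[X]) • A.map C - B.map C) =
          (X : ℚ[X]) • (A.map (Int.cast : ℤ → ℚ)).map C - (B.map (Int.cast : ℤ → ℚ)).map C := by
        ext i j : 2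
        rw [RingHom.mapMatrix_apply, Matrix.map_apply, Matrix.sub_apply, Matrix.smul_apply,
          Matrix.map_apply, Matrix.map_apply, Matrix.sub_apply, Matrix.smul_apply,
          Matrix.map_apply, Matrix.map_apply, Matrix.map_apply, Matrix.map_apply, smul_eq_mul,
          smul_eq_mul, map_sub, map_mul, coe_mapRingHom, map_X, map_C, map_C]
        rfl
      rw [e2, hA, hB, Matrix.mul_sub, Matrix.sub_mul, Matrix.mul_smul, Matrix.smul_mul,
        Matrix.map_mul, Matrix.map_mul, Matrix.map_mul, Matrix.map_mul, Matrix.transpose_map]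
    have e3 : ((G.map (C : ℚ →+* ℚ[X]))).det = C G.det := by
      rw [RingHom.map_det]
      rfl
    rw [e1, Matrix.det_mul, Matrix.det_mul, Matrix.det_transpose, e3,
      hank_char (FZ ℚ c) δ hFm hFn]
    have e4 : (C ((Int.castRingHom ℚ) A.det) : ℚ[X]) =
        C G.det * C (Hank n (FZ ℚ c) δ).det * C G.det := by
      rw [← C_mul, ← C_mul, ← hdet]
      rfl
    rw [e4]
    ring

lemma IsPair.conj {c : Fin n → ℤ} {δ : ℚ[X]} {A B U : Matrix (Fin n) (Fin n) ℤ}
    (h : IsPair c δ A B) (hU : IsUnit U.det) : IsPair c δ (U * A * Uᵀ) (U * B * Uᵀ) := by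
  obtain ⟨G, hG, hA, hB⟩ := h
  have key : ∀ M : Matrix (Fin n) (Fin n) ℤ, (U * M * Uᵀ).map (Int.cast : ℤ → ℚ) =
      U.map (Int.cast : ℤ → ℚ) * M.map (Int.cast : ℤ → ℚ) * (U.map (Int.cast : ℤ → ℚ))ᵀ := by
    intro M
    have e := (Int.castRingHom ℚ).mapMatrix.map_mul (U * M) Uᵀ
    have e2 := (Int.castRingHom ℚ).mapMatrix.map_mul U M
    rw [e2] at e
    exact e
  refine ⟨U.map (Int.cast : ℤ → ℚ) * G, ?_, ?_, ?_⟩
  · rw [Matrix.det_mul, HankL.det_cast]
    refine mul_ne_zero ?_ hG
    exact_mod_cast hU.ne_zero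
  · rw [key, hA, Matrix.transpose_mul]
    simp only [Matrix.mul_assoc]
  · rw [key, hB, Matrix.transpose_mul]
    simp only [Matrix.mul_assoc]

end pair

end Stoll308.BG
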