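import Pool.Agent.Work.MP_308fa9_nt.BG.HankL

set_option autoImplicit false

/-!
The local lattice.
-/

namespace Stoll308.BG

open Polynomial Finset Matrix

namespace LocLat

section gram

variable {K : Type*} [CommRing K] {n : ℕ}

/-- The polynomial with the coefficients in row `i` of `G`. -/
noncomputable def rowP (G : Matrix (Fin n) (Fin n) K) (i : Fin n) : K[X] :=
  ∑ k : Fin n, C (G i k) * X ^ (k : ℕ)

/-- The functional `μ ↦ [θ^(n-1)] μ`. -/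
noncomputable def tau (n : ℕ) (F : K[X]) : K[X] →ₗ[K] K :=
  (lcoeff K (n - 1)).comp (modByMonicHom F)

lemma tau_apply (F μ : K[X]) : tau n F μ = (μ %ₘ F).coeff (n - 1) := rfl

lemma gram (F μ : K[X]) (G : Matrix (Fin n) (Fin n) K) (i j : Fin n) :
    (G * Hank n F μ * Gᵀ) i j = tau n F (μ * rowP G i * rowP G j) := by
  have h1 : μ * rowP G i * rowP G j =
      ∑ l : Fin n, ∑ k : Fin n, (G i k * G j l) • (μ * X ^ ((k : ℕ) + l)) := by
    unfold rowP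
    rw [Finset.mul_sum]
    refine Finset.sum_congr rfl fun l _ => ?_
    rw [Finset.mul_sum, Finset.sum_mul]
    refine Finset.sum_congr rfl fun k _ => ?_
    rw [smul_eq_C_mul, C_mul, pow_add]
    ring
  rw [h1, map_sum, Matrix.mul_apply]
  refine Finset.sum_congr rfl fun l _ => ?_
  rw [map_sum, Matrix.mul_apply, Finset.sum_mul]
  refine Finset.sum_congr rfl fun k _ => ?_
  rw [map_smul, smul_eq_mul, tau_apply, Matrix.transpose_apply]
  unfold Hank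
  ring

end gram

section padic

variable {p : ℕ} [Fact p.Prime]

/-- Polynomials with integral coefficients. -/
def IntP (a : ℚ_[p][X]) : Prop := ∃ b : ℤ_[p][X], b.map (algebraMap ℤ_[p] ℚ_[p]) = a

lemma IntP.mul {a b : ℚ_[p][X]} (ha : IntP a) (hb : IntP b) : IntP (a * b) := by
  obtain ⟨a', rfl⟩ := ha
  obtain ⟨b', rfl⟩ := hb
  exact ⟨a' * b', Polynomial.map_mul _⟩

lemma IntP.sub {a b : ℚ_[p][X]} (ha : IntP a) (hb : IntP b) : IntP (a - b) := by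
  obtain ⟨a', rfl⟩ := ha
  obtain ⟨b', rfl⟩ := hb
  exact ⟨a' - b', Polynomial.map_sub _⟩

lemma intP_X_pow (m : ℕ) : IntP (X ^ m : ℚ_[p][X]) := ⟨X ^ m, by simp⟩

lemma intP_X : IntP (X : ℚ_[p][X]) := ⟨X, by simp⟩

lemma intP_C {a : ℚ_[p]} (ha : ‖a‖ ≤ 1) : IntP (C a) := by
  obtain ⟨a', rfl⟩ : ∃ a' : ℤ_[p], (a' : ℚ_[p]) = a := ⟨⟨a, ha⟩, rfl⟩
  exact ⟨C a', by rw [map_C]; rfl⟩

lemma tau_le {n : ℕ} (c : Fin n → ℤ) {a : ℚ_[p][X]} (ha : IntP a) :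
    ‖tau n (FZ ℚ_[p] c) a‖ ≤ 1 := by
  obtain ⟨b, rfl⟩ := ha
  rw [tau_apply, ← FZ_map (algebraMap ℤ_[p] ℚ_[p]) c, ← Polynomial.map_modByMonic _ (FZ_monic c),
    coeff_map]
  exact PadicInt.norm_le_one _

/-- Scalar matrices. -/
lemma tau_scalar {n : ℕ} (F μ : ℚ_[p][X]) (ρ : ℚ_[p]) (i j : Fin n) :
    ((ρ • (1 : Matrix (Fin n) (Fin n) ℚ_[p])) * Hank n F μ *
      (ρ • (1 : Matrix (Fin n) (Fin n) ℚ_[p]))ᵀ) i j =
      tau n F (C (ρ ^ 2) * μ * X ^ ((i : ℕ) + j)) := by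
  have h1 : (C (ρ ^ 2) * μ * X ^ ((i : ℕ) + j) : ℚ_[p][X]) = ρ ^ 2 • (μ * X ^ ((i : ℕ) + j)) := by
    rw [smul_eq_C_mul, mul_assoc]
  rw [h1, map_smul, tau_apply]
  simp only [Matrix.transpose_smul, Matrix.transpose_one, Matrix.smul_mul, Matrix.mul_smul,
    Matrix.one_mul, Matrix.mul_one, Matrix.smul_apply, smul_eq_mul]
  unfold Hank
  ring

lemma norm_int_le (m : ℤ) : ‖(m : ℚ_[p])‖ ≤ 1 := Padic.norm_int_le_one m

/-- `F(ξ)` has the absolute value `|ξ|^n` if `|ξ| > 1`. -/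
lemma norm_eval {n : ℕ} (hn : 1 ≤ n) (c : Fin n → ℤ) (ξ : ℚ_[p]) (hξ : 1 < ‖ξ‖) :
    ‖(FZ ℚ_[p] c).eval ξ‖ = ‖ξ‖ ^ n := by
  have h0 : (0 : ℝ) ≤ ‖ξ‖ := norm_nonneg _
  have h1 : (FZ ℚ_[p] c).eval ξ = ξ ^ n + ∑ i : Fin n, (c i : ℚ_[p]) * ξ ^ (n - 1 - (i : ℕ)) := by
    simp [FZ, fpol, eval_finsetSum]
  have h2 : ‖∑ i : Fin n, (c i : ℚ_[p]) * ξ ^ (n - 1 - (i : ℕ))‖ ≤ ‖ξ‖ ^ (n - 1) := by
    refine IsUltrametricDist.norm_sum_le_of_forall_le_of_nonneg (by positivity) fun i _ => ?_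
    rw [norm_mul, norm_pow]
    calc ‖(c i : ℚ_[p])‖ * ‖ξ‖ ^ (n - 1 - (i : ℕ)) ≤ 1 * ‖ξ‖ ^ (n - 1) :=
          mul_le_mul (norm_int_le _) (pow_le_pow_right₀ hξ.le (by omega)) (by positivity)
            (by norm_num)
      _ = ‖ξ‖ ^ (n - 1) := one_mul _
  have h3 : ‖ξ‖ ^ (n - 1) < ‖ξ ^ n‖ := by
    rw [norm_pow]
    exact pow_lt_pow_right₀ hξ (by omega)
  rw [h1, IsUltrametricDist.norm_add_eq_max_of_norm_ne_norm (lt_of_le_of_lt h2 h3).ne', norm_pow,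
    max_eq_left]
  rw [← norm_pow]
  exact (lt_of_le_of_lt h2 h3).le

/-- The quotient of `F - F(ξ)` by `T - ξ`. -/
lemma exists_quot {n : ℕ} (hn : 1 ≤ n) (c : Fin n → ℤ) (ξ : ℤ_[p]) :
    ∃ g : ℤ_[p][X], g.Monic ∧ g.natDegree = n - 1 ∧
      (C ξ - X) * g = C ((FZ ℤ_[p] c).eval ξ) - FZ ℤ_[p] c := by
  have h1 := modByMonic_add_div (FZ ℤ_[p] c) (X - C ξ)
  rw [modByMonic_X_sub_C_eq_C_eval] at h1
  set g := FZ ℤ_[p] c /ₘ (X - C ξ) with hg
  have h2 : g.natDegree = n - 1 := by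
    rw [hg, natDegree_divByMonic _ (monic_X_sub_C ξ), FZ_natDegree, natDegree_X_sub_C]
  refine ⟨g, ?_, h2, by linear_combination -h1⟩
  have h3 : (X - C ξ) * g = FZ ℤ_[p] c - C ((FZ ℤ_[p] c).eval ξ) := by
    linear_combination h1
  refine (monic_X_sub_C ξ).of_mul_monic_left ?_
  rw [h3]
  refine (FZ_monic c).sub_of_left ?_
  refine degree_C_le.trans_lt ?_
  rw [degree_eq_natDegree (FZ_monic c).ne_zero, FZ_natDegree]
  exact_mod_cast (by omega : 0 < n)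

lemma tau_sub_mul {n : ℕ} (c : Fin n → ℤ) (a q : ℚ_[p][X]) :
    tau n (FZ ℚ_[p] c) (a - FZ ℚ_[p] c * q) = tau n (FZ ℚ_[p] c) a := by
  rw [map_sub, tau_apply _ (FZ ℚ_[p] c * q),
    (modByMonic_eq_zero_iff_dvd (FZ_monic c)).mpr (dvd_mul_right _ _), coeff_zero, sub_zero]

lemma core {n : ℕ} (hn : 2 ≤ n) (κ : ℤ) (hκ : κ ≠ 0) (c : Fin n → ℤ) (x y : ℚ_[p]) (hy : y ≠ 0)
    (hxy : (κ : ℚ_[p]) ^ (n - 1) * y ^ 2 = (FZ ℚ_[p] c).eval (κ * x ^ 2)) :
    ∃ G : Matrix (Fin n) (Fin n) ℚ_[p], G.det ≠ 0 ∧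
      (∀ i j, ‖(G * Hank n (FZ ℚ_[p] c) (C (κ * x ^ 2) - X) * Gᵀ) i j‖ ≤ 1) ∧
      (∀ i j, ‖(G * Hank n (FZ ℚ_[p] c) (X * (C (κ * x ^ 2) - X)) * Gᵀ) i j‖ ≤ 1) ∧
      ‖((κ : ℚ_[p]) ^ (n - 1))‖ ≤
        ‖(G * Hank n (FZ ℚ_[p] c) (C (κ * x ^ 2) - X) * Gᵀ).det‖ := by
  have hκ' : (κ : ℚ_[p]) ≠ 0 := by exact_mod_cast hκ
  have hκ0 : 0 < ‖(κ : ℚ_[p])‖ := norm_pos_iff.mpr hκ'
  have hy0 : 0 < ‖y‖ := norm_pos_iff.mpr hy
  have hdet : (Hank n (FZ ℚ_[p] c) (C (κ * x ^ 2) - X)).det =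
      (-1) ^ (n * (n - 1) / 2) * ((κ : ℚ_[p]) ^ (n - 1) * y ^ 2) := by
    rw [hank_lin_det _ (FZ_monic c) (FZ_natDegree c), hxy]
  set ξ : ℚ_[p] := κ * x ^ 2 with hξd
  have hnd : ‖(Hank n (FZ ℚ_[p] c) (C ξ - X)).det‖ = ‖(κ : ℚ_[p]) ^ (n - 1)‖ * ‖y‖ ^ 2 := by
    rw [hdet, norm_mul, norm_mul, norm_pow (-1 : ℚ_[p]), norm_neg, norm_one, one_pow, one_mul,
      norm_pow y]
  rcases le_or_gt ‖ξ‖ 1 with hξ | hξ
  · rcases le_or_gt 1 ‖y‖ with hy1 | hy1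
    · -- standard basis
      refine ⟨(1 : ℚ_[p]) • 1, by simp, fun i j => ?_, fun i j => ?_, ?_⟩
      · rw [tau_scalar]
        exact tau_le c (((intP_C (by simp)).mul ((intP_C hξ).sub intP_X)).mul (intP_X_pow _))
      · rw [tau_scalar]
        exact tau_le c (((intP_C (by simp)).mul (intP_X.mul ((intP_C hξ).sub intP_X))).mul
          (intP_X_pow _))
      · simp only [one_smul, Matrix.transpose_one, Matrix.one_mul, Matrix.mul_one]
        rw [hnd]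
        exact le_mul_of_one_le_right (norm_nonneg _) (one_le_pow₀ hy1)
    · -- the basis `1, θ, ..., θ^(n-2), g(θ)/y`
      obtain ⟨ξ', hξ'⟩ : ∃ a : ℤ_[p], algebraMap ℤ_[p] ℚ_[p] a = ξ := ⟨⟨ξ, hξ⟩, rfl⟩
      obtain ⟨g', hg1, hg2, hg3⟩ := exists_quot (by omega : 1 ≤ n) c ξ'
      set g : ℚ_[p][X] := g'.map (algebraMap ℤ_[p] ℚ_[p]) with hgd
      have hgi : IntP g := ⟨g', rfl⟩
      have hgm : g.Monic := hg1.map _
      have hgn : g.natDegree = n - 1 := by rw [hgd, hg1.natDegree_map, hg2]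
      have hgF : (C ξ - X) * g =
          C ((κ : ℚ_[p]) ^ (n - 1) * y ^ 2) - FZ ℚ_[p] c := by
        have h1 := congrArg (Polynomial.map (algebraMap ℤ_[p] ℚ_[p])) hg3
        rw [Polynomial.map_mul, Polynomial.map_sub, Polynomial.map_sub, map_C, map_C, map_X,
          FZ_map, ← hgd, hξ'] at h1
        have h2 : algebraMap ℤ_[p] ℚ_[p] ((FZ ℤ_[p] c).eval ξ') =
            (κ : ℚ_[p]) ^ (n - 1) * y ^ 2 := by
          rw [← eval_map_apply, FZ_map, hξ', ← hxy]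
        rw [h2] at h1
        exact h1
      set β : ℚ_[p] := (κ : ℚ_[p]) ^ (n - 1) with hβ
      have hβi : ‖β‖ ≤ 1 := by
        rw [hβ, norm_pow]
        exact pow_le_one₀ (norm_nonneg _) (norm_int_le _)
      have hβy : ‖β * y‖ ≤ 1 := by
        rw [norm_mul]
        exact mul_le_one₀ hβi (norm_nonneg _) hy1.le
      have hyy : (C y⁻¹ : ℚ_[p][X]) * C y = 1 := by
        rw [← C_mul, inv_mul_cancel₀ hy, C_1]
      set G : Matrix (Fin n) (Fin n) ℚ_[p] := fun i j =>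
        if (i : ℕ) < n - 1 then (if i = j then 1 else 0) else y⁻¹ * g.coeff j with hG
      have hr1 : ∀ i : Fin n, (i : ℕ) < n - 1 → rowP G i = X ^ (i : ℕ) := by
        intro i hi
        unfold rowP
        rw [Finset.sum_eq_single i]
        · simp [hG, hi]
        · intro b _ hb
          simp [hG, hi, hb.symm]
        · simp
      have hr2 : ∀ i : Fin n, ¬ (i : ℕ) < n - 1 → rowP G i = C y⁻¹ * g := by
        intro i hi
        unfold rowP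
        have h1 : g = ∑ k : Fin n, C (g.coeff k) * X ^ (k : ℕ) := by
          conv_lhs => rw [g.as_sum_range_C_mul_X_pow' (show g.natDegree < n by omega)]
          exact (Fin.sum_univ_eq_sum_range (fun k => C (g.coeff k) * X ^ k) n).symm
        conv_rhs => rw [h1]
        rw [Finset.mul_sum]
        refine Finset.sum_congr rfl fun k _ => ?_
        simp only [hG, if_neg hi, C_mul]
        ring
      have hGdet : G.det = y⁻¹ := by
        have hlt : n - 1 < n := by omega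
        have htri : G.BlockTriangular OrderDual.toDual := by
          intro i j hij
          have hij' : i < j := hij
          have hij2 : (i : ℕ) < j := hij'
          have hj := j.isLt
          have hi : (i : ℕ) < n - 1 := by omega
          simp only [hG, if_pos hi, if_neg hij'.ne]
        rw [Matrix.det_of_isLowerTriangular G htri,
          Finset.prod_eq_single (⟨n - 1, hlt⟩ : Fin n)]
        · simp only [hG, lt_irrefl, if_false]
          have h1 : g.coeff (n - 1) = 1 := by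
            rw [← hgn]
            exact hgm.coeff_natDegree
          rw [h1, mul_one]
        · intro i _ hi
          have hi2 := i.isLt
          have hi3 : (i : ℕ) ≠ n - 1 := fun h => hi (Fin.ext h)
          have hi4 : (i : ℕ) < n - 1 := by omega
          simp only [hG, if_pos hi4, if_true]
        · simp
      refine ⟨G, by rw [hGdet]; exact inv_ne_zero hy, fun i j => ?_, fun i j => ?_, ?_⟩
      · rw [gram]
        by_cases hi : (i : ℕ) < n - 1 <;> by_cases hj : (j : ℕ) < n - 1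
        · rw [hr1 i hi, hr1 j hj]
          exact tau_le c ((((intP_C hξ).sub intP_X).mul (intP_X_pow _)).mul (intP_X_pow _))
        · rw [hr1 i hi, hr2 j hj]
          have h1 : (C ξ - X) * X ^ (i : ℕ) * (C y⁻¹ * g) =
              C (β * y) * X ^ (i : ℕ) - FZ ℚ_[p] c * (C y⁻¹ * X ^ (i : ℕ)) := by
            simp only [C_mul, C_pow] at hgF ⊢
            linear_combination (X ^ (i : ℕ) * C y⁻¹) * hgF + C β * C y * X ^ (i : ℕ) * hyy
          rw [h1, tau_sub_mul]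
          exact tau_le c ((intP_C hβy).mul (intP_X_pow _))
        · rw [hr2 i hi, hr1 j hj]
          have h1 : (C ξ - X) * (C y⁻¹ * g) * X ^ (j : ℕ) =
              C (β * y) * X ^ (j : ℕ) - FZ ℚ_[p] c * (C y⁻¹ * X ^ (j : ℕ)) := by
            simp only [C_mul, C_pow] at hgF ⊢
            linear_combination (X ^ (j : ℕ) * C y⁻¹) * hgF + C β * C y * X ^ (j : ℕ) * hyy
          rw [h1, tau_sub_mul]
          exact tau_le c ((intP_C hβy).mul (intP_X_pow _))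
        · rw [hr2 i hi, hr2 j hj]
          have h1 : (C ξ - X) * (C y⁻¹ * g) * (C y⁻¹ * g) =
              C β * g - FZ ℚ_[p] c * (C y⁻¹ ^ 2 * g) := by
            simp only [C_mul, C_pow] at hgF ⊢
            linear_combination (g * C y⁻¹ ^ 2) * hgF +
              C β * g * (C y⁻¹ * C y + 1) * hyy
          rw [h1, tau_sub_mul]
          exact tau_le c ((intP_C hβi).mul hgi)
      · rw [gram]
        by_cases hi : (i : ℕ) < n - 1 <;> by_cases hj : (j : ℕ) < n - 1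
        · rw [hr1 i hi, hr1 j hj]
          exact tau_le c ((((intP_X).mul ((intP_C hξ).sub intP_X)).mul (intP_X_pow _)).mul
            (intP_X_pow _))
        · rw [hr1 i hi, hr2 j hj]
          have h1 : X * (C ξ - X) * X ^ (i : ℕ) * (C y⁻¹ * g) =
              C (β * y) * X ^ ((i : ℕ) + 1) - FZ ℚ_[p] c * (C y⁻¹ * X ^ ((i : ℕ) + 1)) := by
            simp only [C_mul, C_pow] at hgF ⊢
            linear_combination (X ^ ((i : ℕ) + 1) * C y⁻¹) * hgF +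
              C β * C y * X ^ ((i : ℕ) + 1) * hyy
          rw [h1, tau_sub_mul]
          exact tau_le c ((intP_C hβy).mul (intP_X_pow _))
        · rw [hr2 i hi, hr1 j hj]
          have h1 : X * (C ξ - X) * (C y⁻¹ * g) * X ^ (j : ℕ) =
              C (β * y) * X ^ ((j : ℕ) + 1) - FZ ℚ_[p] c * (C y⁻¹ * X ^ ((j : ℕ) + 1)) := by
            simp only [C_mul, C_pow] at hgF ⊢
            linear_combination (X ^ ((j : ℕ) + 1) * C y⁻¹) * hgF +
              C β * C y * X ^ ((j : ℕ) + 1) * hyy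
          rw [h1, tau_sub_mul]
          exact tau_le c ((intP_C hβy).mul (intP_X_pow _))
        · rw [hr2 i hi, hr2 j hj]
          have h1 : X * (C ξ - X) * (C y⁻¹ * g) * (C y⁻¹ * g) =
              C β * (X * g) - FZ ℚ_[p] c * (X * (C y⁻¹ ^ 2 * g)) := by
            simp only [C_mul, C_pow] at hgF ⊢
            linear_combination (X * g * C y⁻¹ ^ 2) * hgF +
              C β * X * g * (C y⁻¹ * C y + 1) * hyy
          rw [h1, tau_sub_mul]
          exact tau_le c ((intP_C hβi).mul (intP_X.mul hgi))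
      · rw [Matrix.det_mul, Matrix.det_mul, Matrix.det_transpose, hGdet, norm_mul, norm_mul, hnd,
          norm_inv]
        have : ‖y‖⁻¹ * (‖β‖ * ‖y‖ ^ 2) * ‖y‖⁻¹ = ‖β‖ := by
          field_simp
        rw [this]
  · -- `ξ` is not integral
    have hx : x ≠ 0 := by
      rintro rfl
      rw [hξd] at hξ
      norm_num at hξ
    have hx0 : 0 < ‖x‖ := norm_pos_iff.mpr hx
    have hn1 := norm_eval (by omega : 1 ≤ n) c ξ hξ
    rw [← hxy, norm_mul, norm_pow, norm_pow y] at hn1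
    have hξn : ‖ξ‖ = ‖(κ : ℚ_[p])‖ * ‖x‖ ^ 2 := by rw [hξd, norm_mul, norm_pow x]
    set a := ‖(κ : ℚ_[p])‖ with ha
    set X0 := ‖x‖ with hX0
    set Y0 := ‖y‖ with hY0
    -- `a = Y0² / X0^(2n)`
    have h1 : a * X0 ^ (2 * n) = Y0 ^ 2 := by
      rw [hξn, mul_pow, ← pow_mul] at hn1
      obtain ⟨m, rfl⟩ : ∃ m, n = m + 1 := ⟨n - 1, by omega⟩
      rw [Nat.add_sub_cancel] at hn1
      have h2 : a ^ m ≠ 0 := (pow_pos hκ0 m).ne'
      have h3 : a ^ m * Y0 ^ 2 = a ^ m * (a * X0 ^ (2 * (m + 1))) := by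
        rw [hn1, pow_succ a m]
        ring
      exact (mul_left_cancel₀ h2 h3).symm
    set ρ : ℚ_[p] := x ^ n / (y * x) with hρ
    have hρ0 : ρ ≠ 0 := div_ne_zero (pow_ne_zero _ hx) (mul_ne_zero hy hx)
    have h4 : ‖ρ‖ ^ 2 * ‖ξ‖ = 1 := by
      rw [hρ, norm_div, norm_mul, norm_pow, hξn, ← hX0, ← hY0, div_pow, mul_pow, ← pow_mul]
      rw [div_mul_eq_mul_div, div_eq_one_iff_eq (by positivity)]
      rw [← h1, mul_comm n 2]
      ring
    have h5 : ‖ρ ^ 2 * ξ‖ ≤ 1 := by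
      rw [norm_mul, norm_pow, h4]
    have h6 : ‖ρ ^ 2‖ ≤ 1 := by
      rw [norm_pow]
      nlinarith [sq_nonneg ‖ρ‖]
    have hC : (C (ρ ^ 2 * ξ) : ℚ_[p][X]) = C (ρ ^ 2) * C ξ := C_mul
    refine ⟨ρ • 1, ?_, fun i j => ?_, fun i j => ?_, ?_⟩
    · rw [Matrix.det_smul, Matrix.det_one, mul_one]
      exact pow_ne_zero _ hρ0
    · rw [tau_scalar]
      have h7 : C (ρ ^ 2) * (C ξ - X) * X ^ ((i : ℕ) + j) =
          (C (ρ ^ 2 * ξ) - C (ρ ^ 2) * X) * X ^ ((i : ℕ) + j) := by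
        rw [hC]
        ring
      rw [h7]
      exact tau_le c (((intP_C h5).sub ((intP_C h6).mul intP_X)).mul (intP_X_pow _))
    · rw [tau_scalar]
      have h7 : C (ρ ^ 2) * (X * (C ξ - X)) * X ^ ((i : ℕ) + j) =
          (C (ρ ^ 2 * ξ) - C (ρ ^ 2) * X) * X * X ^ ((i : ℕ) + j) := by
        rw [hC]
        ring
      rw [h7]
      exact tau_le c ((((intP_C h5).sub ((intP_C h6).mul intP_X)).mul intP_X).mul (intP_X_pow _))
    · have h8 : ‖((ρ • (1 : Matrix (Fin n) (Fin n) ℚ_[p])) * Hank n (FZ ℚ_[p] c) (C ξ - X) *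
          (ρ • (1 : Matrix (Fin n) (Fin n) ℚ_[p]))ᵀ).det‖ = 1 := by
        rw [Matrix.det_mul, Matrix.det_mul, Matrix.det_transpose, Matrix.det_smul, Matrix.det_one,
          mul_one, Fintype.card_fin, norm_mul, norm_mul, hnd, norm_pow, norm_pow, ← ha]
        have h9 : ‖ρ‖ ^ n * (a ^ (n - 1) * Y0 ^ 2) * ‖ρ‖ ^ n = (‖ρ‖ ^ 2 * ‖ξ‖) ^ n := by
          rw [hn1, mul_pow, ← pow_mul]
          ring
        rw [h9, h4, one_pow]
      rw [h8, norm_pow]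
      exact pow_le_one₀ (norm_nonneg _) (norm_int_le _)

end padic

end LocLat

theorem loc_lattice {n : ℕ} (hn : 2 ≤ n) (κ : ℤ) (hκ : κ ≠ 0) (c : Fin n → ℤ) (δ : ℚ[X])
    (p : ℕ) [Fact p.Prime] (h : MLoc κ c δ ℚ_[p]) :
    ∃ G : Matrix (Fin n) (Fin n) ℚ_[p], G.det ≠ 0 ∧
      (∀ i j, ‖(G * Hank n (FZ ℚ_[p] c) (δ.map (algebraMap ℚ ℚ_[p])) * Gᵀ) i j‖ ≤ 1) ∧
      (∀ i j, ‖(G * Hank n (FZ ℚ_[p] c) (X * δ.map (algebraMap ℚ ℚ_[p])) * Gᵀ) i j‖ ≤ 1) ∧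
      ‖((κ : ℚ_[p]) ^ (n - 1))‖ ≤
        ‖(G * Hank n (FZ ℚ_[p] c) (δ.map (algebraMap ℚ ℚ_[p])) * Gᵀ).det‖ := by
  obtain ⟨x, y, s, hy, hxy, hs⟩ := h
  have hκ' : (κ : ℚ_[p]) ≠ 0 := by exact_mod_cast hκ
  have hFm : (FZ ℚ_[p] c).Monic := FZ_monic c
  have hFn : (FZ ℚ_[p] c).natDegree = n := FZ_natDegree c
  set D : ℚ_[p][X] := δ.map (algebraMap ℚ ℚ_[p]) with hD
  obtain ⟨G, h1, h2, h3, h4⟩ := LocLat.core hn κ hκ c x y hy hxy
  have hsF : IsCoprime s (FZ ℚ_[p] c) := by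
    have h0 : (FZ ℚ_[p] c).eval (κ * x ^ 2) ≠ 0 := by
      rw [← hxy]
      exact mul_ne_zero (pow_ne_zero _ hκ') (pow_ne_zero _ hy)
    obtain ⟨q, hq⟩ := X_sub_C_dvd_sub_C_eval (a := (κ : ℚ_[p]) * x ^ 2) (p := FZ ℚ_[p] c)
    obtain ⟨t, ht⟩ := hs
    set e := (FZ ℚ_[p] c).eval (κ * x ^ 2) with he
    have hee : (C e⁻¹ : ℚ_[p][X]) * C e = 1 := by
      rw [← C_mul, inv_mul_cancel₀ h0, C_1]
    refine ⟨C e⁻¹ * q * D * s, C e⁻¹ * (1 + q * t), ?_⟩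
    linear_combination (C e⁻¹) * hq - C e⁻¹ * q * ht + hee
  have hsdet := mulMat_det_ne_zero (n := n) _ s hFm hFn hsF
  have e1 : Hank n (FZ ℚ_[p] c) (C (κ * x ^ 2) - X) =
      mulMat n (FZ ℚ_[p] c) s * Hank n (FZ ℚ_[p] c) D * (mulMat n (FZ ℚ_[p] c) s)ᵀ := by
    rw [← hank_mul_sq _ _ _ hFm hFn]
    exact hank_congr _ _ _ hFm hs
  have e2 : Hank n (FZ ℚ_[p] c) (X * (C (κ * x ^ 2) - X)) =
      mulMat n (FZ ℚ_[p] c) s * Hank n (FZ ℚ_[p] c) (X * D) * (mulMat n (FZ ℚ_[p] c) s)ᵀ := by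
    rw [← hank_mul_sq _ _ _ hFm hFn]
    refine hank_congr _ _ _ hFm ?_
    have : X * (C (κ * x ^ 2) - X) - X * D * s ^ 2 = X * ((C (κ * x ^ 2) - X) - D * s ^ 2) := by
      ring
    rw [this]
    exact hs.mul_left X
  have e3 : ∀ H : Matrix (Fin n) (Fin n) ℚ_[p],
      G * mulMat n (FZ ℚ_[p] c) s * H * (G * mulMat n (FZ ℚ_[p] c) s)ᵀ =
        G * (mulMat n (FZ ℚ_[p] c) s * H * (mulMat n (FZ ℚ_[p] c) s)ᵀ) * Gᵀ := by
    intro H
    rw [Matrix.transpose_mul]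
    simp only [Matrix.mul_assoc]
  refine ⟨G * mulMat n (FZ ℚ_[p] c) s, ?_, ?_, ?_, ?_⟩
  · rw [Matrix.det_mul]
    exact mul_ne_zero h1 hsdet
  · rw [e3, ← e1]
    exact h2
  · rw [e3, ← e2]
    exact h3
  · rw [e3, ← e1]
    exact h4

end Stoll308.BG
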