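import Pool.Agent.Work.MP_308fa9_nt.BG.Defs

set_option autoImplicit false

/-!
A positive proportion of the polynomials of degree `n` over `ℤ/l` is irreducible.
-/

namespace Stoll308.BG.IrrDens

open Polynomial Finset

/-- A monic polynomial is determined by its lower coefficients. -/
lemma monic_eq {R : Type*} [CommRing R] {f : R[X]} (hf : f.Monic) :
    f = fpol 1 (fun i : Fin f.natDegree => f.coeff (f.natDegree - 1 - (i : ℕ))) := by
  conv_lhs => rw [hf.as_sum]
  unfold fpol
  rw [C_1, one_mul]
  congr 1
  rw [Fin.sum_univ_eq_sum_range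
    (fun i => C (f.coeff (f.natDegree - 1 - i)) * X ^ (f.natDegree - 1 - i))]
  exact (Finset.sum_range_reflect (fun i => C (f.coeff i) * X ^ i) f.natDegree).symm

lemma fpol_natDegree {R : Type*} [CommRing R] [Nontrivial R] {n : ℕ} (b : Fin n → R) :
    (fpol (1 : R) b).natDegree = n ∧ (fpol (1 : R) b).Monic := by
  have h : (∑ i : Fin n, C (b i) * X ^ (n - 1 - (i : ℕ)) : R[X]).degree < n := by
    refine lt_of_le_of_lt (degree_sum_le _ _) ?_
    rw [Finset.sup_lt_iff (by exact WithBot.bot_lt_coe n)]
    intro i _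
    refine lt_of_le_of_lt (degree_C_mul_X_pow_le _ _) ?_
    have := i.2
    exact_mod_cast (by omega : n - 1 - (i : ℕ) < n)
  have e : fpol (1 : R) b = X ^ n + ∑ i : Fin n, C (b i) * X ^ (n - 1 - (i : ℕ)) := by
    simp [fpol]
  rw [e]
  refine ⟨?_, monic_X_pow_add h⟩
  rw [natDegree_add_eq_left_of_degree_lt]
  · simp
  · rw [degree_X_pow]; exact h

variable (l : ℕ) [Fact l.Prime] (n : ℕ)

/-- The elements of `K` which are roots of a given monic polynomial. -/
noncomputable def rts (K : Type*) [Field K] [Algebra (ZMod l) K] [DecidableEq K] {d : ℕ}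
    (b : Fin d → ZMod l) : Finset K :=
  ((fpol 1 b).map (algebraMap (ZMod l) K)).roots.toFinset

lemma card_rts (K : Type*) [Field K] [Algebra (ZMod l) K] [DecidableEq K] {d : ℕ}
    (b : Fin d → ZMod l) : (rts l K b).card ≤ d := by
  unfold rts
  refine (Multiset.toFinset_card_le _).trans ((card_roots' _).trans ?_)
  refine natDegree_map_le.trans ?_
  rw [(fpol_natDegree b).1]

lemma mem_rts (K : Type*) [Field K] [Algebra (ZMod l) K] [DecidableEq K] {d : ℕ}
    (b : Fin d → ZMod l) (α : K) : α ∈ rts l K b ↔ aeval α (fpol 1 b) = 0 := by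
  unfold rts
  rw [Multiset.mem_toFinset, mem_roots, IsRoot.def, eval_map_algebraMap]
  exact (fpol_natDegree b).2.map (algebraMap (ZMod l) K) |>.ne_zero

/-- The number of generators of the field with `l^n` elements. -/
lemma gen_count (K : Type*) [Field K] [Algebra (ZMod l) K] [Fintype K] [DecidableEq K]
    (hn : 2 ≤ n) (hl : n ^ 2 ≤ l)
    (hK : Module.finrank (ZMod l) K = n) :
    l ^ n ≤ 2 * (univ.filter fun α : K => (minpoly (ZMod l) α).natDegree = n).card := by
  classical
  have hlp : l.Prime := Fact.out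
  have hfin : FiniteDimensional (ZMod l) K := Module.finite_of_finrank_pos (by omega)
  have hcard : Fintype.card K = l ^ n := by
    rw [Module.card_eq_pow_finrank (K := ZMod l) (V := K), ZMod.card, hK]
  have hint : ∀ α : K, IsIntegral (ZMod l) α := fun α => IsIntegral.of_finite _ _
  have hsub : (univ.filter fun α : K => ¬ (minpoly (ZMod l) α).natDegree = n) ⊆
      (Icc 1 (n / 2)).biUnion fun d => (univ : Finset (Fin d → ZMod l)).biUnion fun b =>
        rts l K b := by
    intro α hα
    rw [mem_filter] at hα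
    have h1 : (minpoly (ZMod l) α).natDegree ∣ n := by
      rw [← hK]; exact minpoly.degree_dvd (hint α)
    have h2 : 0 < (minpoly (ZMod l) α).natDegree := minpoly.natDegree_pos (hint α)
    obtain ⟨k, hk⟩ := h1
    have hk2 : 2 ≤ k := by
      rcases k with _ | _ | k
      · omega
      · exact absurd (by omega) hα.2
      · omega
    rw [mem_biUnion]
    refine ⟨(minpoly (ZMod l) α).natDegree, ?_, ?_⟩
    · rw [mem_Icc]
      refine ⟨h2, ?_⟩
      rw [Nat.le_div_iff_mul_le two_pos]
      calc (minpoly (ZMod l) α).natDegree * 2 ≤ (minpoly (ZMod l) α).natDegree * k :=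
            Nat.mul_le_mul_left _ hk2
        _ = n := hk.symm
    · rw [mem_biUnion]
      refine ⟨_, mem_univ (fun i : Fin (minpoly (ZMod l) α).natDegree =>
        (minpoly (ZMod l) α).coeff ((minpoly (ZMod l) α).natDegree - 1 - (i : ℕ))), ?_⟩
      rw [mem_rts, ← monic_eq (minpoly.monic (hint α)), minpoly.aeval]
  have hbad : (univ.filter fun α : K => ¬ (minpoly (ZMod l) α).natDegree = n).card ≤
      (n / 2) * (l ^ (n / 2) * (n / 2)) := by
    refine (card_le_card hsub).trans ?_
    refine card_biUnion_le.trans ?_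
    calc ∑ d ∈ Icc 1 (n / 2), ((univ : Finset (Fin d → ZMod l)).biUnion fun b =>
          rts l K b).card ≤ ∑ _d ∈ Icc 1 (n / 2), l ^ (n / 2) * (n / 2) := by
          refine Finset.sum_le_sum fun d hd => ?_
          rw [mem_Icc] at hd
          refine card_biUnion_le.trans ?_
          calc ∑ b : Fin d → ZMod l, (rts l K b).card ≤ ∑ _b : Fin d → ZMod l, d :=
                Finset.sum_le_sum fun b _ => card_rts l K b
            _ = l ^ d * d := by
                rw [Finset.sum_const, Finset.card_univ, Fintype.card_fun, ZMod.card,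
                  Fintype.card_fin, smul_eq_mul]
            _ ≤ l ^ (n / 2) * (n / 2) :=
                Nat.mul_le_mul (Nat.pow_le_pow_right hlp.pos hd.2) hd.2
      _ = _ := by rw [Finset.sum_const, Nat.card_Icc, smul_eq_mul, Nat.add_sub_cancel]
  have hsplit := Finset.card_filter_add_card_filter_not
    (s := (univ : Finset K)) (fun α : K => (minpoly (ZMod l) α).natDegree = n)
  rw [Finset.card_univ, hcard] at hsplit
  have h4 : 2 * ((n / 2) * (l ^ (n / 2) * (n / 2))) ≤ l ^ n := by
    have h5 : (n / 2) * (n / 2) * 4 ≤ n ^ 2 := by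
      have h0 : n / 2 * 2 ≤ n := Nat.div_mul_le_self n 2
      calc (n / 2) * (n / 2) * 4 = (n / 2 * 2) * (n / 2 * 2) := by ring
        _ ≤ n * n := Nat.mul_le_mul h0 h0
        _ = n ^ 2 := (pow_two n).symm
    have h6 : l ^ n = l ^ (n / 2) * l ^ (n - n / 2) := by
      rw [← pow_add]; congr 1; omega
    have h7 : l ≤ l ^ (n - n / 2) := Nat.le_self_pow (by omega) l
    rw [h6]
    calc 2 * ((n / 2) * (l ^ (n / 2) * (n / 2))) = l ^ (n / 2) * (2 * ((n / 2) * (n / 2))) := by
          ring
      _ ≤ l ^ (n / 2) * l ^ (n - n / 2) := Nat.mul_le_mul_left _ (by omega)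
  omega

/-- The monic polynomials. -/
lemma irr_count (hn : 2 ≤ n) (hl : n ^ 2 ≤ l) [DecidablePred fun b : Fin n → ZMod l =>
    Irreducible (fpol 1 b)] :
    l ^ n ≤ 2 * n * (univ.filter fun b : Fin n → ZMod l => Irreducible (fpol 1 b)).card := by
  classical
  have : Fintype (GaloisField l n) := Fintype.ofFinite _
  have hK := GaloisField.finrank l (n := n) (by omega)
  have h1 := gen_count l n (GaloisField l n) hn hl hK
  have hfin : FiniteDimensional (ZMod l) (GaloisField l n) :=
    Module.finite_of_finrank_pos (by omega)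
  have hint : ∀ α : GaloisField l n, IsIntegral (ZMod l) α := fun α => IsIntegral.of_finite _ _
  have h2 : (univ.filter fun α : GaloisField l n => (minpoly (ZMod l) α).natDegree = n) ⊆
      (univ.filter fun b : Fin n → ZMod l => Irreducible (fpol 1 b)).biUnion fun b =>
        rts l (GaloisField l n) b := by
    intro α hα
    rw [mem_filter] at hα
    rw [mem_biUnion]
    have h3 := monic_eq (minpoly.monic (hint α))
    have h4 := minpoly.irreducible (hint α)
    have h5 := minpoly.aeval (ZMod l) α
    revert h3 h4 h5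
    generalize minpoly (ZMod l) α = f at hα ⊢
    obtain ⟨-, rfl⟩ := hα
    intro h3 h4 h5
    refine ⟨fun i => f.coeff (f.natDegree - 1 - (i : ℕ)), ?_, ?_⟩
    · rw [mem_filter]
      refine ⟨mem_univ _, ?_⟩
      rw [← h3]; exact h4
    · rw [mem_rts, ← h3]; exact h5
  have h3 := (card_le_card h2).trans card_biUnion_le
  have h4 : ∑ b ∈ (univ.filter fun b : Fin n → ZMod l => Irreducible (fpol 1 b)),
      (rts l (GaloisField l n) b).card ≤
      (univ.filter fun b : Fin n → ZMod l => Irreducible (fpol 1 b)).card * n := by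
    refine (Finset.sum_le_card_nsmul _ _ n fun b _ => card_rts l _ b).trans ?_
    rw [smul_eq_mul]
  nlinarith

end Stoll308.BG.IrrDens
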