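import Pool.Agent.Work.MP_308fa9_nt.BE.Sieve
import Pool.Agent.Work.MP_308fa9_nt.BG.Basic
import Pool.Agent.Work.MP_308fa9_nt.BG.IrrDens

set_option autoImplicit false

/-!
Few of the polynomials are reducible; the size of the roots.
-/

namespace Stoll308.BG

open Polynomial Finset

namespace Redu

/-- counting a property which implies membership in a finite set -/
lemma cnt_le (n : ℕ) (P : (Fin n → ℤ) → Prop) (X : ℕ) (Q : Finset (Fin n → ℤ))
    (h : ∀ b : Fin n → ℤ,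
      (∀ i : Fin n, -(X : ℤ) ^ ((i : ℕ) + 1) ≤ b i ∧ b i ≤ (X : ℤ) ^ ((i : ℕ) + 1)) →
      P b → b ∈ Q) :
    cnt n P X ≤ Q.card := by
  classical
  unfold cnt
  apply Finset.card_le_card
  intro a ha
  rw [Finset.mem_filter, Fintype.mem_piFinset] at ha
  exact h a (fun i => Finset.mem_Icc.1 (ha.1 i)) ha.2

lemma map_FZ {R : Type*} [CommRing R] {n : ℕ} (c : Fin n → ℤ) :
    (FZ ℤ c).map (Int.castRingHom R) = FZ R c := by
  simp [FZ, fpol, Polynomial.map_sum]

/-- Irreducibility modulo a prime. -/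
lemma irr_of_mod {n : ℕ} (c : Fin n → ℤ) (l : ℕ) [Fact l.Prime]
    (h : Irreducible (FZ (ZMod l) c)) : Irreducible (FZ ℚ c) := by
  have hmon : (FZ ℤ c).Monic := (IrrDens.fpol_natDegree _).2
  have h1 : Irreducible (FZ ℤ c) := by
    refine hmon.irreducible_of_irreducible_map (Int.castRingHom (ZMod l)) _ ?_
    rw [map_FZ]
    exact h
  have h2 := (IsPrimitive.Int.irreducible_iff_irreducible_map_cast hmon.isPrimitive).1 h1
  rwa [map_FZ] at h2

lemma prod_pow_box (n : ℕ) (X : ℝ) :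
    ∏ i : Fin n, X ^ ((i : ℕ) + 1) = X ^ (n * (n + 1) / 2) := by
  rw [prod_pow_eq_pow_sum]
  congr 1
  rw [Fin.sum_univ_eq_sum_range (fun i => i + 1) n]
  have h := Finset.sum_range_id_mul_two (n + 1)
  rw [Finset.sum_range_succ', add_zero, Nat.add_sub_cancel] at h
  rw [Nat.mul_comm n (n + 1)]
  omega

/-- the geometric sum in the bound for the roots -/
lemma geom {q r : ℝ} (hq : 0 ≤ q) (hr : 2 * q ≤ r) (n : ℕ) :
    ∑ i ∈ range n, q ^ (i + 1) * r ^ (n - 1 - i) + q ^ n ≤ r ^ n := by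
  induction n with
  | zero => simp
  | succ n ih =>
    have h1 : ∑ i ∈ range (n + 1), q ^ (i + 1) * r ^ (n + 1 - 1 - i) =
        r * (∑ i ∈ range n, q ^ (i + 1) * r ^ (n - 1 - i)) + q ^ (n + 1) := by
      rw [Finset.sum_range_succ, Finset.mul_sum]
      congr 1
      · refine Finset.sum_congr rfl fun i hi => ?_
        rw [mem_range] at hi
        have : n + 1 - 1 - i = (n - 1 - i) + 1 := by omega
        rw [this, pow_succ]
        ring
      · rw [show n + 1 - 1 - n = 0 by omega, pow_zero, mul_one]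
    rw [h1]
    have hr0 : 0 ≤ r := by linarith
    have h2 := mul_le_mul_of_nonneg_left ih hr0
    have h3 : 0 ≤ q ^ n * (r - 2 * q) := mul_nonneg (pow_nonneg hq _) (by linarith)
    rw [mul_add] at h2
    have h4 : r * r ^ n = r ^ (n + 1) := by ring
    have h5 : q ^ (n + 1) = q ^ n * q := pow_succ q n
    nlinarith

end Redu

open Redu in
theorem reducible_small (n : ℕ) (hn : 2 ≤ n) (α : ℤ) (hα : α ≠ 0) (ε : ℝ) (hε : 0 < ε) :
    ∃ X₀ : ℕ, ∀ X : ℕ, X₀ ≤ X →
      (cnt n (fun b => ¬ Irreducible (FZ ℚ fun i => α ^ (i : ℕ) * b i)) X : ℝ) ≤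
        ε * X ^ (n * (n + 1) / 2) := by
  classical
  obtain ⟨r, hr⟩ : ∃ r : ℝ, r = 1 - 1 / (2 * n) := ⟨_, rfl⟩
  have hn0 : (0 : ℝ) < n := by exact_mod_cast (by omega : 0 < n)
  have hr1 : r < 1 := by
    rw [hr]
    have : 0 < 1 / (2 * (n : ℝ)) := by positivity
    linarith
  have hr0 : 0 ≤ r := by
    rw [hr]
    have h1 : (1 : ℝ) ≤ 2 * n := by
      have : (1 : ℝ) ≤ n := by exact_mod_cast (by omega : 1 ≤ n)
      linarith
    have : 1 / (2 * (n : ℝ)) ≤ 1 := (div_le_one (by positivity)).2 h1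
    linarith
  obtain ⟨k, hk⟩ : ∃ k : ℕ, r ^ k < ε / 4 ^ n :=
    exists_pow_lt_of_lt_one (by positivity) hr1
  -- a set of `k` primes
  have hinf : {p : ℕ | p.Prime ∧ n ^ 2 ≤ p ∧ α.natAbs < p}.Infinite := by
    have h1 := Nat.infinite_setOfPred_prime.sdiff (Set.finite_lt_nat (max (n ^ 2) (α.natAbs + 1)))
    refine h1.mono ?_
    intro p hp
    have h2 : max (n ^ 2) (α.natAbs + 1) ≤ p := not_lt.1 hp.2
    exact ⟨hp.1, (le_max_left _ _).trans h2, (le_max_right _ _).trans h2⟩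
  obtain ⟨S, hSsub, hScard⟩ := hinf.exists_subset_card_eq k
  have hSp : ∀ l ∈ S, l.Prime ∧ n ^ 2 ≤ l ∧ α.natAbs < l := fun l hl => hSsub hl
  have hαl : ∀ l ∈ S, ((α : ℤ) : ZMod l) ≠ 0 := by
    intro l hl h
    rw [ZMod.intCast_zmod_eq_zero_iff_dvd] at h
    have h1 := Int.natAbs_dvd_natAbs.2 h
    rw [Int.natAbs_natCast] at h1
    have h2 := Nat.le_of_dvd (Int.natAbs_pos.2 hα) h1
    have h3 := (hSp l hl).2.2
    omega
  obtain ⟨A, hA⟩ : ∃ A : ℕ → (Fin n → ℤ) → Prop,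
      ∀ l b, A l b ↔ Irreducible (FZ (ZMod l) (fun i => α ^ (i : ℕ) * b i)) :=
    ⟨fun l b => Irreducible (FZ (ZMod l) (fun i => α ^ (i : ℕ) * b i)), fun _ _ => Iff.rfl⟩
  obtain ⟨M, hM⟩ : ∃ M : ℕ, M = ∏ l ∈ S, l := ⟨_, rfl⟩
  refine ⟨M + 1, fun X hX => ?_⟩
  have hbox := BE.sieve_box (n := n) S (fun l => l) (fun l hl => (hSp l hl).1.pos)
    (fun l hl l' hl' hne => (Nat.coprime_primes (hSp l hl).1 (hSp l' hl').1).2 hne) A
    (by
      intro l hl t t' htt
      have h1 : ∀ i, ((t i : ℤ) : ZMod l) = ((t' i : ℤ) : ZMod l) := by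
        intro i
        rw [ZMod.intCast_eq_intCast_iff_dvd_sub]
        have := htt i
        rwa [← dvd_neg, neg_sub] at this
      rw [hA, hA]
      have h2 : FZ (ZMod l) (fun i => α ^ (i : ℕ) * t i) =
          FZ (ZMod l) (fun i => α ^ (i : ℕ) * t' i) := by
        unfold FZ
        congr 1
        funext i
        push_cast
        rw [h1 i]
      rw [h2])
    (fun _ => 1 / (2 * n)) (by
      intro l _
      rw [← sub_nonneg, ← hr]
      exact hr0) (by
      intro l hl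
      have : Fact l.Prime := ⟨(hSp l hl).1⟩
      have h1 := IrrDens.irr_count l n hn (hSp l hl).2.1
      have h2 : (univ.filter fun b : Fin n → ZMod l => Irreducible (fpol 1 b)).card ≤
          (univ.filter fun t : Fin n → Fin l => A l (fun i => ((t i : ℕ) : ℤ))).card := by
        refine Finset.card_le_card_of_injOn
          (fun b i => ⟨(((α : ℤ) : ZMod l)⁻¹ ^ (i : ℕ) * b i).val, ZMod.val_lt _⟩) ?_ ?_
        · intro b hb
          rw [mem_coe, mem_filter] at hb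
          rw [mem_coe, mem_filter]
          refine ⟨mem_univ _, ?_⟩
          rw [hA]
          have e : (fun i : Fin n => ((α ^ (i : ℕ) *
              (((((α : ℤ) : ZMod l)⁻¹ ^ (i : ℕ) * b i).val : ℕ) : ℤ) : ℤ) : ZMod l)) = b := by
            funext i
            push_cast
            rw [ZMod.natCast_zmod_val, ← mul_assoc, ← mul_pow, mul_inv_cancel₀ (hαl l hl),
              one_pow, one_mul]
          show Irreducible (fpol 1 fun i : Fin n => ((α ^ (i : ℕ) *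
              (((((α : ℤ) : ZMod l)⁻¹ ^ (i : ℕ) * b i).val : ℕ) : ℤ) : ℤ) : ZMod l))
          rw [e]
          exact hb.2
        · intro b _ b' _ he
          funext i
          have h3 := congrArg Fin.val (congrFun he i)
          have h4 := ZMod.val_injective l h3
          exact mul_left_cancel₀ (pow_ne_zero _ (inv_ne_zero (hαl l hl))) h4
      have h3 : (l : ℝ) ^ n ≤ 2 * n * ((univ.filter fun t : Fin n → Fin l =>
            A l (fun i => ((t i : ℕ) : ℤ))).card : ℝ) := by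
        exact_mod_cast h1.trans (Nat.mul_le_mul_left _ h2)
      rw [div_mul_eq_mul_div, one_mul, div_le_iff₀ (by positivity)]
      linarith)
    (fun i => -(X : ℤ) ^ ((i : ℕ) + 1)) (fun i => 2 * X ^ ((i : ℕ) + 1) + 1)
  have hsub : cnt n (fun b => ¬ Irreducible (FZ ℚ fun i => α ^ (i : ℕ) * b i)) X ≤
      ((Fintype.piFinset fun i : Fin n => Ico (-(X : ℤ) ^ ((i : ℕ) + 1))
        (-(X : ℤ) ^ ((i : ℕ) + 1) + (2 * X ^ ((i : ℕ) + 1) + 1 : ℕ))).filter
        fun t => ∀ l ∈ S, ¬ A l t).card := by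
    refine cnt_le n _ X _ fun b hb hP => ?_
    rw [mem_filter, Fintype.mem_piFinset]
    refine ⟨fun i => ?_, fun l hl hAl => ?_⟩
    · have := hb i
      rw [mem_Ico]
      push_cast
      constructor
      · exact this.1
      · linarith [this.2]
    · have : Fact l.Prime := ⟨(hSp l hl).1⟩
      rw [hA] at hAl
      exact hP (irr_of_mod _ l hAl)
  have hMR : ∏ l ∈ S, ((l : ℕ) : ℝ) = (M : ℝ) := by rw [hM]; push_cast; rfl
  simp only [hMR, Finset.prod_const, hScard, ← hr] at hbox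
  have hX1 : (M : ℝ) + 1 ≤ X := by exact_mod_cast hX
  have hM0 : (0 : ℝ) ≤ M := Nat.cast_nonneg _
  have hXX : (1 : ℝ) ≤ X := by linarith
  calc (cnt n (fun b => ¬ Irreducible (FZ ℚ fun i => α ^ (i : ℕ) * b i)) X : ℝ)
      ≤ (∏ i : Fin n, (((2 * X ^ ((i : ℕ) + 1) + 1 : ℕ) : ℝ) + M)) * r ^ k :=
        le_trans (by exact_mod_cast hsub) hbox
    _ ≤ (4 ^ n * (X : ℝ) ^ (n * (n + 1) / 2)) * (ε / 4 ^ n) := by
        refine mul_le_mul ?_ hk.le (pow_nonneg hr0 _) (by positivity)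
        rw [← prod_pow_box]
        calc ∏ i : Fin n, (((2 * X ^ ((i : ℕ) + 1) + 1 : ℕ) : ℝ) + M)
            ≤ ∏ i : Fin n, (4 * (X : ℝ) ^ ((i : ℕ) + 1)) := by
              refine prod_le_prod (fun i _ => by positivity) fun i _ => ?_
              have h1 : (X : ℝ) ≤ (X : ℝ) ^ ((i : ℕ) + 1) := le_self_pow₀ hXX (by omega)
              push_cast
              linarith
          _ = _ := by rw [prod_mul_distrib, prod_const, card_univ, Fintype.card_fin]
    _ = ε * X ^ (n * (n + 1) / 2) := by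
        field_simp

open Redu in
lemma root_bound {n : ℕ} (α : ℤ) (hα : α ≠ 0) (b : Fin n → ℤ) (X : ℕ) (hX : 1 ≤ X)
    (hb : ∀ i, |b i| ≤ (X : ℤ) ^ ((i : ℕ) + 1)) (θ : ℂ)
    (hθ : (FZ ℂ fun i => α ^ (i : ℕ) * b i).eval θ = 0) : ‖θ‖ ≤ 2 * |(α : ℝ)| * X := by
  by_contra hcon
  push Not at hcon
  obtain ⟨q, hq⟩ : ∃ q : ℝ, q = |(α : ℝ)| * X := ⟨_, rfl⟩
  have hα1 : (1 : ℝ) ≤ |(α : ℝ)| := by
    have := Int.one_le_abs hα
    exact_mod_cast this
  have hX1 : (1 : ℝ) ≤ X := by exact_mod_cast hX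
  have hq0 : 0 < q := by rw [hq]; positivity
  have h1 := geom hq0.le (r := ‖θ‖) (by rw [hq]; linarith) n
  have h2 : θ ^ n = -∑ i : Fin n, (((α ^ (i : ℕ) * b i : ℤ)) : ℂ) * θ ^ (n - 1 - (i : ℕ)) := by
    simp only [FZ, fpol, eval_add, eval_mul, eval_C, eval_pow, eval_X, one_mul,
      eval_finsetSum] at hθ
    rw [eq_neg_iff_add_eq_zero]
    exact hθ
  have h3 : ‖θ‖ ^ n ≤ ∑ i ∈ range n, q ^ (i + 1) * ‖θ‖ ^ (n - 1 - i) := by
    rw [← norm_pow, h2, norm_neg, ← Fin.sum_univ_eq_sum_range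
      (fun i => q ^ (i + 1) * ‖θ‖ ^ (n - 1 - i)) n]
    refine (norm_sum_le _ _).trans (Finset.sum_le_sum fun i _ => ?_)
    rw [norm_mul, norm_pow]
    refine mul_le_mul_of_nonneg_right ?_ (by positivity)
    have h4 : ‖(((α ^ (i : ℕ) * b i : ℤ)) : ℂ)‖ = |(α : ℝ)| ^ (i : ℕ) * |(b i : ℝ)| := by
      rw [Complex.norm_intCast]
      push_cast
      rw [abs_mul, abs_pow]
    have h5 : |(b i : ℝ)| ≤ (X : ℝ) ^ ((i : ℕ) + 1) := by
      have := hb i
      have h6 : ((|b i| : ℤ) : ℝ) ≤ (((X : ℤ) ^ ((i : ℕ) + 1) : ℤ) : ℝ) := by exact_mod_cast this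
      push_cast at h6
      exact h6
    rw [h4, hq, mul_pow]
    refine mul_le_mul (pow_le_pow_right₀ hα1 (by omega)) h5 (abs_nonneg _) (by positivity)
  have h4 : 0 < q ^ n := by positivity
  linarith

end Stoll308.BG
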