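import Pool.Agent.Work.MP_308fa9_nt.BG.PDefs
import Pool.Agent.Work.MP_308fa9_nt.BG.Redu
import Pool.Agent.Work.MP_308fa9_nt.BG.Transfer

set_option autoImplicit false

/-!
Few of the curves are singular (general `ψ`).
-/

namespace Stoll308.BG

open Polynomial Finset

namespace PSmooth

/-- a multiple factor of `f(ψ²)` comes from a critical point of `ψ` -/
lemma crit {f ψ : ℚ[X]} (hf : Irreducible f) (hd : 2 ≤ f.natDegree)
    (hns : ¬ Squarefree (f.comp (ψ ^ 2))) :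
    ∃ x : ℂ, aeval x (derivative ψ) = 0 ∧ aeval ((aeval x ψ) ^ 2) f = 0 := by
  have h1 : ¬ (f.comp (ψ ^ 2)).Separable := fun h => hns h.squarefree
  rw [separable_def, isCoprime_iff_aeval_ne_zero_of_isAlgClosed ℚ ℂ] at h1
  push Not at h1
  obtain ⟨x, hx1, hx2⟩ := h1
  rw [aeval_comp, map_pow] at hx1
  rw [derivative_comp, map_mul, aeval_comp, derivative_sq, map_pow, map_mul, map_mul] at hx2
  refine ⟨x, ?_, hx1⟩
  have hsep := hf.separable
  rw [separable_def, isCoprime_iff_aeval_ne_zero_of_isAlgClosed ℚ ℂ] at hsep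
  have h2 : aeval ((aeval x ψ) ^ 2) (derivative f) ≠ 0 := by
    rcases hsep ((aeval x ψ) ^ 2) with h | h
    · exact absurd hx1 h
    · exact h
  have h3 : aeval x ψ ≠ 0 := by
    intro h
    rw [h, zero_pow two_ne_zero] at hx1
    have h4 : f.IsRoot 0 := by
      have h5 : aeval (algebraMap ℚ ℂ 0) f = 0 := by rwa [map_zero]
      rw [aeval_algebraMap_apply, map_eq_zero] at h5
      rwa [IsRoot.def, ← coe_aeval_eq_eval]
    have h6 := degree_eq_one_of_irreducible_of_root hf h4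
    have h7 : f.natDegree = 1 := natDegree_eq_of_degree_eq_some h6
    omega
  have h8 := (mul_eq_zero.1 hx2).resolve_right h2
  rcases mul_eq_zero.1 h8 with h9 | h9
  · rcases mul_eq_zero.1 h9 with h10 | h10
    · simp at h10
    · exact absurd h10 h3
  · exact h9

/-- the critical points of `ψ` -/
noncomputable def CP (ψ : ℤ[X]) : Finset ℂ := ((derivative ψ).map (Int.castRingHom ℂ)).roots.toFinset

lemma mem_CP {ψ : ℤ[X]} (hψ : 1 ≤ ψ.natDegree) {x : ℂ}
    (hx : aeval x (derivative (ψ.map (Int.castRingHom ℚ))) = 0) : x ∈ CP ψ := by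
  unfold CP
  rw [Multiset.mem_toFinset, mem_roots]
  · rw [IsRoot.def]
    rw [derivative_map, aeval_def, eval₂_map] at hx
    have e : (algebraMap ℚ ℂ).comp (Int.castRingHom ℚ) = Int.castRingHom ℂ := RingHom.ext_int _ _
    rw [e] at hx
    rw [eval_map]
    exact hx
  · intro h
    have h1 : derivative ψ = 0 := by
      have hinj : Function.Injective (Polynomial.map (Int.castRingHom ℂ)) :=
        map_injective _ (RingHom.injective_int _)
      exact hinj (by rw [h, Polynomial.map_zero])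
    have h2 := derivative_eq_zero.1 h1
    omega

lemma cnt_le_add (n : ℕ) (P Q : (Fin n → ℤ) → Prop) {ι : Type*} (S : Finset ι)
    (R : ι → (Fin n → ℤ) → Prop) (X : ℕ) (h : ∀ a, P a → Q a ∨ ∃ x ∈ S, R x a) :
    cnt n P X ≤ cnt n Q X + ∑ x ∈ S, cnt n (R x) X := by
  classical
  unfold cnt
  refine le_trans (Finset.card_le_card (t := _ ∪ S.biUnion fun x =>
    ((Fintype.piFinset fun i : Fin n =>
      Icc (-(X : ℤ) ^ ((i : ℕ) + 1)) ((X : ℤ) ^ ((i : ℕ) + 1))).filter (R x))) ?_)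
    (le_trans (Finset.card_union_le _ _) (Nat.add_le_add_left Finset.card_biUnion_le _))
  intro a ha
  have ha' := Finset.mem_filter.1 ha
  rcases h a ha'.2 with h1 | ⟨x, hx, h1⟩
  · exact Finset.mem_union_left _ (Finset.mem_filter.2 ⟨ha'.1, h1⟩)
  · exact Finset.mem_union_right _ (Finset.mem_biUnion.2 ⟨x, hx, Finset.mem_filter.2 ⟨ha'.1, h1⟩⟩)

/-- few polynomials have a given root -/
lemma cnt_root (m : ℕ) (α : ℤ) (ξ : ℂ) (X : ℕ) :
    cnt (m + 1) (fun b => aeval ξ (fpol (α : ℚ) (fun i => (b i : ℚ))) = 0) X ≤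
      ∏ i : Fin m, (2 * X ^ ((i : ℕ) + 1) + 1) := by
  classical
  have hc : (Fintype.piFinset fun i : Fin m =>
      Icc (-(X : ℤ) ^ ((i : ℕ) + 1)) ((X : ℤ) ^ ((i : ℕ) + 1))).card =
      ∏ i : Fin m, (2 * X ^ ((i : ℕ) + 1) + 1) := by
    rw [Fintype.card_piFinset]
    refine Finset.prod_congr rfl fun i _ => ?_
    rw [Int.card_Icc]
    have : (X : ℤ) ^ ((i : ℕ) + 1) = ((X ^ ((i : ℕ) + 1) : ℕ) : ℤ) := by push_cast; rfl
    rw [this]
    omega
  rw [← hc]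
  unfold cnt
  refine Finset.card_le_card_of_injOn (fun b i => b i.castSucc) ?_ ?_
  · intro b hb
    have hb' := (Finset.mem_filter.1 (Finset.mem_coe.1 hb)).1
    rw [Fintype.mem_piFinset] at hb'
    rw [Finset.mem_coe, Fintype.mem_piFinset]
    intro i
    have := hb' i.castSucc
    rwa [Fin.val_castSucc] at this
  · intro b hb b' hb' hbb
    have h1 := (Finset.mem_filter.1 (Finset.mem_coe.1 hb)).2
    have h2 := (Finset.mem_filter.1 (Finset.mem_coe.1 hb')).2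
    have e : ∀ c : Fin (m + 1) → ℤ, aeval ξ (fpol (α : ℚ) (fun i => (c i : ℚ))) =
        (α : ℂ) * ξ ^ (m + 1) + (∑ i : Fin m, (c i.castSucc : ℂ) * ξ ^ (m - (i : ℕ)) +
          (c (Fin.last m) : ℂ)) := by
      intro c
      unfold fpol
      rw [map_add, map_mul, aeval_C, map_pow, aeval_X, map_sum, Fin.sum_univ_castSucc]
      simp
    rw [e] at h1 h2
    have h3 : ∀ i : Fin m, b i.castSucc = b' i.castSucc := fun i => congrFun hbb i
    have h4 : ∑ i : Fin m, (b i.castSucc : ℂ) * ξ ^ (m - (i : ℕ)) =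
        ∑ i : Fin m, (b' i.castSucc : ℂ) * ξ ^ (m - (i : ℕ)) :=
      Finset.sum_congr rfl fun i _ => by rw [h3 i]
    have h5 : (b (Fin.last m) : ℂ) = (b' (Fin.last m) : ℂ) := by
      have h6 := h1.trans h2.symm
      rw [h4] at h6
      linear_combination h6
    have h7 : b (Fin.last m) = b' (Fin.last m) := by exact_mod_cast h5
    funext i
    refine Fin.lastCases h7 (fun j => h3 j) i

lemma irr_fpol {n : ℕ} (hn : 1 ≤ n) (α : ℤ) (hα : α ≠ 0) (b : Fin n → ℤ)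
    (h : Irreducible (FZ ℚ fun i => α ^ (i : ℕ) * b i)) :
    Irreducible (fpol (α : ℚ) (fun i => (b i : ℚ))) ∧
      (fpol (α : ℚ) (fun i => (b i : ℚ))).natDegree = n := by
  have hα' : (α : ℚ) ≠ 0 := by exact_mod_cast hα
  have h1 := Transfer.comp_fpol hn (α : ℚ) (fun i => (b i : ℚ)) hα'
  rw [← Transfer.FZ_cast] at h1
  have hu : IsUnit (C (((α : ℚ) ^ (n - 1))⁻¹) : ℚ[X]) :=
    isUnit_C.2 (IsUnit.mk0 _ (inv_ne_zero (pow_ne_zero _ hα')))
  have h2 : Irreducible ((fpol (α : ℚ) (fun i => (b i : ℚ))).comp (C (α : ℚ)⁻¹ * X)) := by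
    rw [h1]
    exact (irreducible_isUnit_mul hu).2 h
  refine ⟨?_, ?_⟩
  · refine ⟨fun hun => h2.1 ?_, fun p q hpq => ?_⟩
    · obtain ⟨c, hc, hc'⟩ := Polynomial.isUnit_iff.1 hun
      rw [← hc', C_comp]
      exact isUnit_C.2 hc
    · have h3 : ∀ p : ℚ[X], IsUnit (p.comp (C (α : ℚ)⁻¹ * X)) → IsUnit p := by
        intro p hp
        obtain ⟨c, hc, hc'⟩ := Polynomial.isUnit_iff.1 hp
        have h4 : (p.comp (C (α : ℚ)⁻¹ * X)).comp (C (α : ℚ) * X) = p := by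
          rw [comp_assoc]
          have : (C (α : ℚ)⁻¹ * X : ℚ[X]).comp (C (α : ℚ) * X) = X := by
            rw [mul_comp, C_comp, X_comp, ← mul_assoc, ← C_mul, inv_mul_cancel₀ hα', C_1, one_mul]
          rw [this, comp_X]
        rw [← h4, ← hc', C_comp]
        exact isUnit_C.2 hc
      have h5 : (fpol (α : ℚ) (fun i => (b i : ℚ))).comp (C (α : ℚ)⁻¹ * X) =
          p.comp (C (α : ℚ)⁻¹ * X) * q.comp (C (α : ℚ)⁻¹ * X) := by
        rw [hpq, mul_comp]
      rcases h2.2 h5 with h6 | h6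
      · exact Or.inl (h3 p h6)
      · exact Or.inr (h3 q h6)
  · have h3 := congrArg natDegree h1
    rw [natDegree_comp, natDegree_C_mul_X _ (inv_ne_zero hα'), mul_one,
      natDegree_C_mul (inv_ne_zero (pow_ne_zero _ hα')), (IrrDens.fpol_natDegree _).1] at h3
    exact h3

end PSmooth

open PSmooth in
theorem singular_small (n : ℕ) (hn : 2 ≤ n) (α : ℤ) (hα : α ≠ 0) (ψ : ℤ[X])
    (hψ : 1 ≤ ψ.natDegree) (ε : ℝ) (hε : 0 < ε) :
    ∃ X₀ : ℕ, ∀ X : ℕ, X₀ ≤ X →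
      (cnt n (fun b => ¬ SmoothP ψ α b) X : ℝ) ≤ ε * X ^ (n * (n + 1) / 2) := by
  obtain ⟨X₁, h₁⟩ := reducible_small n hn α hα (ε / 2) (half_pos hε)
  obtain ⟨m, rfl⟩ : ∃ m, n = m + 1 := ⟨n - 1, by omega⟩
  obtain ⟨X₂, h₂⟩ := exists_nat_ge (2 * ((CP ψ).card * 3 ^ m) / ε)
  refine ⟨max X₁ (X₂ + 1), fun X hX => ?_⟩
  have hX1 := h₁ X ((le_max_left _ _).trans hX)
  have hX2 : X₂ + 1 ≤ X := (le_max_right _ _).trans hX
  have hX3 : (1 : ℝ) ≤ X := by exact_mod_cast (by omega : 1 ≤ X)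
  have hX4 : 2 * ((CP ψ).card * 3 ^ m) / ε ≤ X := h₂.trans (by exact_mod_cast (by omega : X₂ ≤ X))
  have h3 := cnt_le_add (m + 1) (fun b => ¬ SmoothP ψ α b)
    (fun b => ¬ Irreducible (FZ ℚ fun i => α ^ (i : ℕ) * b i)) (CP ψ)
    (fun x b => aeval ((aeval x (ψ.map (Int.castRingHom ℚ))) ^ 2)
      (fpol (α : ℚ) (fun i => (b i : ℚ))) = 0) X (by
      intro b hb
      by_cases hirr : Irreducible (FZ ℚ fun i => α ^ (i : ℕ) * b i)
      · right
        obtain ⟨h4, h5⟩ := irr_fpol (by omega) α hα b hirr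
        obtain ⟨x, hx1, hx2⟩ := crit h4 (by omega) hb
        exact ⟨x, mem_CP hψ hx1, hx2⟩
      · exact Or.inl hirr)
  have h4 : ∑ x ∈ CP ψ, cnt (m + 1) (fun b => aeval ((aeval x (ψ.map (Int.castRingHom ℚ))) ^ 2)
      (fpol (α : ℚ) (fun i => (b i : ℚ))) = 0) X ≤
      (CP ψ).card * ∏ i : Fin m, (2 * X ^ ((i : ℕ) + 1) + 1) := by
    rw [← smul_eq_mul]
    exact Finset.sum_le_card_nsmul _ _ _ fun x _ => cnt_root m α _ X
  have h5 : ((∏ i : Fin m, (2 * X ^ ((i : ℕ) + 1) + 1) : ℕ) : ℝ) ≤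
      3 ^ m * (X : ℝ) ^ (m * (m + 1) / 2) := by
    push_cast
    calc ∏ i : Fin m, (2 * (X : ℝ) ^ ((i : ℕ) + 1) + 1) ≤ ∏ i : Fin m, (3 * (X : ℝ) ^ ((i : ℕ) + 1)) := by
          refine Finset.prod_le_prod (fun i _ => by positivity) fun i _ => ?_
          have := one_le_pow₀ hX3 (n := (i : ℕ) + 1)
          linarith
      _ = _ := by
          rw [Finset.prod_mul_distrib, Redu.prod_pow_box, Finset.prod_const, Finset.card_univ,
            Fintype.card_fin]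
  have h6 : (X : ℝ) ^ (m * (m + 1) / 2) * X ≤ (X : ℝ) ^ ((m + 1) * (m + 1 + 1) / 2) := by
    rw [← pow_succ]
    refine pow_le_pow_right₀ hX3 ?_
    have : (m + 1) * (m + 1 + 1) = m * (m + 1) + 2 * (m + 1) := by ring
    rw [this, Nat.add_mul_div_left _ _ (by norm_num)]
    omega
  have h7 : (cnt (m + 1) (fun b => ¬ SmoothP ψ α b) X : ℝ) ≤
      (cnt (m + 1) (fun b => ¬ Irreducible (FZ ℚ fun i => α ^ (i : ℕ) * b i)) X : ℝ) +
        (CP ψ).card * ((∏ i : Fin m, (2 * X ^ ((i : ℕ) + 1) + 1) : ℕ) : ℝ) := by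
    exact_mod_cast h3.trans (Nat.add_le_add_left h4 _)
  have h8 : ((CP ψ).card : ℝ) * ((∏ i : Fin m, (2 * X ^ ((i : ℕ) + 1) + 1) : ℕ) : ℝ) ≤
      ε / 2 * (X : ℝ) ^ ((m + 1) * (m + 1 + 1) / 2) := by
    rw [div_le_iff₀ hε] at hX4
    calc ((CP ψ).card : ℝ) * ((∏ i : Fin m, (2 * X ^ ((i : ℕ) + 1) + 1) : ℕ) : ℝ)
        ≤ (CP ψ).card * (3 ^ m * (X : ℝ) ^ (m * (m + 1) / 2)) := by gcongr
      _ = ((CP ψ).card * 3 ^ m) * (X : ℝ) ^ (m * (m + 1) / 2) := by ring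
      _ ≤ (ε / 2 * X) * (X : ℝ) ^ (m * (m + 1) / 2) := by
          refine mul_le_mul_of_nonneg_right ?_ (by positivity)
          linarith
      _ = ε / 2 * ((X : ℝ) ^ (m * (m + 1) / 2) * X) := by ring
      _ ≤ _ := by gcongr
  linarith

end Stoll308.BG
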