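import Mathlib

set_option autoImplicit false

/-!
A rational matrix with prescribed classes modulo `GL_n(ℤ_p)`.
-/

namespace Stoll308.BG

open Matrix

namespace Glue

variable {n : ℕ}

/-- integral entries and unit determinant -/
def UP (p : ℕ) [Fact p.Prime] (M : Matrix (Fin n) (Fin n) ℚ_[p]) : Prop :=
  (∀ i j, ‖M i j‖ ≤ 1) ∧ ‖M.det‖ = 1

/-- base change -/
noncomputable abbrev bc (p : ℕ) [Fact p.Prime] (T : Matrix (Fin n) (Fin n) ℚ) :
    Matrix (Fin n) (Fin n) ℚ_[p] := T.map (algebraMap ℚ ℚ_[p])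

lemma bc_mul (p : ℕ) [Fact p.Prime] (S T : Matrix (Fin n) (Fin n) ℚ) :
    bc p (S * T) = bc p S * bc p T := Matrix.map_mul

lemma bc_one (p : ℕ) [Fact p.Prime] : bc p (1 : Matrix (Fin n) (Fin n) ℚ) = 1 :=
  Matrix.map_one _ (map_zero _) (map_one _)

lemma bc_det (p : ℕ) [Fact p.Prime] (T : Matrix (Fin n) (Fin n) ℚ) :
    (bc p T).det = algebraMap ℚ ℚ_[p] T.det := (RingHom.map_det (algebraMap ℚ ℚ_[p]) T).symm

section

variable {p : ℕ} [hp : Fact p.Prime]

lemma norm_add_le_one {x y : ℚ_[p]} (hx : ‖x‖ ≤ 1) (hy : ‖y‖ ≤ 1) : ‖x + y‖ ≤ 1 :=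
  (Padic.nonarchimedean x y).trans (max_le hx hy)

lemma norm_sum_le_one {ι : Type*} (s : Finset ι) (f : ι → ℚ_[p]) (h : ∀ i ∈ s, ‖f i‖ ≤ 1) :
    ‖∑ i ∈ s, f i‖ ≤ 1 := by
  classical
  induction s using Finset.induction_on with
  | empty => simp
  | insert a s ha ih =>
    rw [Finset.sum_insert ha]
    exact norm_add_le_one (h a (Finset.mem_insert_self a s))
      (ih fun i hi => h i (Finset.mem_insert_of_mem hi))

lemma norm_mul_le_one {x y : ℚ_[p]} (hx : ‖x‖ ≤ 1) (hy : ‖y‖ ≤ 1) : ‖x * y‖ ≤ 1 := by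
  rw [norm_mul]; exact mul_le_one₀ hx (norm_nonneg _) hy

lemma int_mul {M N : Matrix (Fin n) (Fin n) ℚ_[p]} (hM : ∀ i j, ‖M i j‖ ≤ 1)
    (hN : ∀ i j, ‖N i j‖ ≤ 1) (i j : Fin n) : ‖(M * N) i j‖ ≤ 1 := by
  rw [Matrix.mul_apply]
  exact norm_sum_le_one _ _ fun k _ => norm_mul_le_one (hM i k) (hN k j)

lemma UP.mul {M N : Matrix (Fin n) (Fin n) ℚ_[p]} (hM : UP p M) (hN : UP p N) : UP p (M * N) :=
  ⟨int_mul hM.1 hN.1, by rw [det_mul, norm_mul, hM.2, hN.2, one_mul]⟩

lemma UP.one : UP p (1 : Matrix (Fin n) (Fin n) ℚ_[p]) := by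
  refine ⟨fun i j => ?_, by simp⟩
  rw [Matrix.one_apply]
  split_ifs <;> simp

lemma UP.diag {d : Fin n → ℚ_[p]} (hd : ∀ i, ‖d i‖ = 1) : UP p (diagonal d) := by
  refine ⟨fun i j => ?_, ?_⟩
  · rw [Matrix.diagonal_apply]
    split_ifs
    · exact (hd i).le
    · simp
  · rw [det_diagonal, norm_prod, Finset.prod_congr rfl fun i _ => hd i, Finset.prod_const_one]

lemma UP.transvection {i j : Fin n} (hij : i ≠ j) {c : ℚ_[p]} (hc : ‖c‖ ≤ 1) :
    UP p (Matrix.transvection i j c) := by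
  refine ⟨fun a b => ?_, by rw [det_transvection_of_ne _ _ hij, norm_one]⟩
  rw [Matrix.transvection, Matrix.add_apply]
  refine norm_add_le_one (UP.one.1 a b) ?_
  rw [Matrix.single_apply]
  split_ifs
  · exact hc
  · simp

lemma map_transvection {R S : Type*} [CommRing R] [CommRing S] (f : R →+* S) (i j : Fin n) (c : R) :
    (Matrix.transvection i j c).map f = Matrix.transvection i j (f c) := by
  ext a b
  rw [Matrix.map_apply, Matrix.transvection, Matrix.transvection, Matrix.add_apply,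
    Matrix.add_apply, map_add, Matrix.one_apply, Matrix.one_apply, Matrix.single_apply,
    Matrix.single_apply]
  split_ifs <;> simp

lemma exists_approx (c : ℚ_[p]) {ε : ℝ} (hε : 0 < ε) :
    ∃ c' : ℚ, ‖algebraMap ℚ ℚ_[p] c' - c‖ ≤ ε ∧
      ∀ (q : ℕ) [Fact q.Prime], q ≠ p → ‖algebraMap ℚ ℚ_[q] c'‖ ≤ 1 := by
  have hp1 : (1 : ℝ) < p := by exact_mod_cast hp.out.one_lt
  have hp0 : (0 : ℝ) < p := by linarith
  obtain ⟨k, hk⟩ : ∃ k : ℕ, ‖c‖ ≤ (p : ℝ) ^ k := by
    obtain ⟨k, hk⟩ := pow_unbounded_of_one_lt ‖c‖ hp1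
    exact ⟨k, hk.le⟩
  have hnp : ‖((p : ℚ_[p]) ^ k)‖ = ((p : ℝ) ^ k)⁻¹ := by
    rw [norm_pow, Padic.norm_p, inv_pow]
  have hx : ‖(p : ℚ_[p]) ^ k * c‖ ≤ 1 := by
    rw [norm_mul, hnp, inv_mul_le_iff₀ (by positivity), mul_one]
    exact hk
  set x : ℤ_[p] := ⟨(p : ℚ_[p]) ^ k * c, hx⟩ with hxdef
  obtain ⟨m, hm⟩ := (PadicInt.denseRange_natCast (p := p)).exists_dist_lt x
    (ε := ε * ((p : ℝ) ^ k)⁻¹) (by positivity)
  refine ⟨(m : ℚ) / (p : ℚ) ^ k, ?_, ?_⟩
  · have hp' : ((p : ℚ_[p]) ^ k) ≠ 0 := pow_ne_zero _ (by exact_mod_cast hp.out.ne_zero)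
    have h1 : algebraMap ℚ ℚ_[p] ((m : ℚ) / (p : ℚ) ^ k) - c =
        -((((x : ℤ_[p]) : ℚ_[p])) - (m : ℚ_[p])) / (p : ℚ_[p]) ^ k := by
      rw [map_div₀, map_pow, map_natCast, map_natCast, hxdef]
      field_simp
      ring
    rw [h1, norm_div, norm_neg, hnp, div_inv_eq_mul]
    have h2 : dist x (m : ℤ_[p]) = ‖((x : ℤ_[p]) : ℚ_[p]) - (m : ℚ_[p])‖ := by
      rw [dist_eq_norm]
      rfl
    rw [h2] at hm
    calc ‖((x : ℤ_[p]) : ℚ_[p]) - (m : ℚ_[p])‖ * (p : ℝ) ^ k
        ≤ (ε * ((p : ℝ) ^ k)⁻¹) * (p : ℝ) ^ k := by gcongr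
      _ = ε := by field_simp
  · intro q hq hqp
    rw [map_div₀, map_pow, map_natCast, map_natCast, norm_div, norm_pow]
    have h1 : ‖(p : ℚ_[q])‖ = 1 := by
      rw [Padic.norm_natCast_eq_one_iff]
      exact (Nat.coprime_primes hq.out hp.out).2 hqp
    rw [h1, one_pow, div_one]
    exact_mod_cast Padic.norm_int_le_one (p := q) (m : ℤ)

/-- `T` is invertible away from `p` -/
def Away (p : ℕ) (T : Matrix (Fin n) (Fin n) ℚ) : Prop :=
  ∀ (q : ℕ) [Fact q.Prime], q ≠ p → UP q (bc q T)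

/-- `h` is equivalent to a matrix which is invertible away from `p`. -/
def HH (p : ℕ) [Fact p.Prime] (h : Matrix (Fin n) (Fin n) ℚ_[p]) : Prop :=
  ∃ T : Matrix (Fin n) (Fin n) ℚ, Away p T ∧ UP p (bc p T * h⁻¹)

lemma HH.transvec {h : Matrix (Fin n) (Fin n) ℚ_[p]} (hdet : h.det ≠ 0) (hh : HH p h)
    (t : TransvectionStruct (Fin n) ℚ_[p]) : HH p (h * t.toMatrix) := by
  obtain ⟨T, hT1, hT2⟩ := hh
  obtain ⟨i, j, hij, c⟩ := t
  rw [TransvectionStruct.toMatrix_mk]
  set Tp := bc p T with hTp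
  have hTdet : Tp.det ≠ 0 := by
    intro h0
    have := hT2.2
    rw [det_mul, h0, zero_mul, norm_zero] at this
    exact zero_ne_one this
  have hTu : IsUnit Tp.det := isUnit_iff_ne_zero.2 hTdet
  set R : ℝ := ∑ a, ∑ b, ‖Tp a b‖ with hR
  set R' : ℝ := ∑ a, ∑ b, ‖Tp⁻¹ a b‖ with hR'
  have hRa : ∀ a b, ‖Tp a b‖ ≤ R := fun a b =>
    (Finset.single_le_sum (f := fun b => ‖Tp a b‖) (fun _ _ => norm_nonneg _)
      (Finset.mem_univ b)).trans
    (Finset.single_le_sum (f := fun a => ∑ b, ‖Tp a b‖)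
      (fun _ _ => Finset.sum_nonneg fun _ _ => norm_nonneg _) (Finset.mem_univ a))
  have hRa' : ∀ a b, ‖Tp⁻¹ a b‖ ≤ R' := fun a b =>
    (Finset.single_le_sum (f := fun b => ‖Tp⁻¹ a b‖) (fun _ _ => norm_nonneg _)
      (Finset.mem_univ b)).trans
    (Finset.single_le_sum (f := fun a => ∑ b, ‖Tp⁻¹ a b‖)
      (fun _ _ => Finset.sum_nonneg fun _ _ => norm_nonneg _) (Finset.mem_univ a))
  have hR0 : 0 ≤ R := Finset.sum_nonneg fun _ _ => Finset.sum_nonneg fun _ _ => norm_nonneg _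
  have hR0' : 0 ≤ R' := Finset.sum_nonneg fun _ _ => Finset.sum_nonneg fun _ _ => norm_nonneg _
  obtain ⟨c', hc1, hc2⟩ := exists_approx c (ε := ((R + 1) * (R' + 1))⁻¹) (by positivity)
  refine ⟨T * Matrix.transvection i j c', ?_, ?_⟩
  · intro q _ hqp
    rw [bc_mul]
    refine (hT1 q hqp).mul ?_
    unfold bc
    rw [map_transvection]
    exact UP.transvection hij (hc2 q hqp)
  · set e := algebraMap ℚ ℚ_[p] c' - c with he
    set M := Tp * Matrix.transvection i j e * Tp⁻¹ with hM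
    have hMU : UP p M := by
      refine ⟨fun a b => ?_, ?_⟩
      · have h1 : M = 1 + Tp * Matrix.single i j e * Tp⁻¹ := by
          rw [hM, Matrix.transvection, Matrix.mul_add, Matrix.mul_one, Matrix.add_mul,
            Matrix.mul_nonsing_inv _ hTu]
        rw [h1, Matrix.add_apply]
        refine norm_add_le_one (UP.one.1 a b) ?_
        have h2 : (Tp * Matrix.single i j e * Tp⁻¹) a b = Tp a i * e * Tp⁻¹ j b := by
          rw [Matrix.mul_apply, Finset.sum_eq_single j]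
          · rw [Matrix.mul_single_apply_same]
          · intro k _ hk
            rw [Matrix.mul_single_apply_of_ne _ _ _ _ _ hk, zero_mul]
          · intro h; exact absurd (Finset.mem_univ j) h
        rw [h2, norm_mul, norm_mul]
        calc ‖Tp a i‖ * ‖e‖ * ‖Tp⁻¹ j b‖ ≤ (R + 1) * ((R + 1) * (R' + 1))⁻¹ * (R' + 1) := by
              gcongr
              · exact (hRa a i).trans (by linarith)
              · exact (hRa' j b).trans (by linarith)
          _ = 1 := by field_simp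
      · rw [hM, det_mul, det_mul, det_transvection_of_ne _ _ hij, mul_one, ← det_mul,
          Matrix.mul_nonsing_inv _ hTu, det_one, norm_one]
    have hEdet : (h * Matrix.transvection i j c).det ≠ 0 := by
      rw [det_mul, det_transvection_of_ne _ _ hij, mul_one]; exact hdet
    have hEu : IsUnit (h * Matrix.transvection i j c).det := isUnit_iff_ne_zero.2 hEdet
    have hhu : IsUnit h.det := isUnit_iff_ne_zero.2 hdet
    have h3 : M * (Tp * h⁻¹) * (h * Matrix.transvection i j c) =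
        bc p (T * Matrix.transvection i j c') := by
      have h4 : M * (Tp * h⁻¹) * (h * Matrix.transvection i j c) =
          Tp * Matrix.transvection i j e * (Tp⁻¹ * Tp) * (h⁻¹ * h) *
            Matrix.transvection i j c := by
        rw [hM]; simp only [Matrix.mul_assoc]
      rw [h4, Matrix.nonsing_inv_mul _ hTu, Matrix.nonsing_inv_mul _ hhu, Matrix.mul_one,
        Matrix.mul_one, Matrix.mul_assoc, Matrix.transvection_mul_transvection_same _ _ hij,
        bc_mul]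
      unfold bc
      rw [map_transvection, he, sub_add_cancel]
    rw [← h3, Matrix.mul_assoc, Matrix.mul_nonsing_inv _ hEu, Matrix.mul_one]
    exact hMU.mul hT2

lemma HH.list {h : Matrix (Fin n) (Fin n) ℚ_[p]} (hdet : h.det ≠ 0) (hh : HH p h)
    (L : List (TransvectionStruct (Fin n) ℚ_[p])) :
    HH p (h * (L.map TransvectionStruct.toMatrix).prod) := by
  induction L generalizing h with
  | nil => simpa using hh
  | cons t L ih =>
    rw [List.map_cons, List.prod_cons, ← Matrix.mul_assoc]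
    exact ih (by rw [det_mul, TransvectionStruct.det, mul_one]; exact hdet) (hh.transvec hdet t)

lemma HH.diagPow {h : Matrix (Fin n) (Fin n) ℚ_[p]} (hh : HH p h)
    (v : Fin n → ℤ) : HH p (h * diagonal fun i => (p : ℚ_[p]) ^ v i) := by
  obtain ⟨T, hT1, hT2⟩ := hh
  have hmap : ∀ (q : ℕ) [Fact q.Prime], bc q (diagonal fun i => (p : ℚ) ^ v i) =
      diagonal fun i => (p : ℚ_[q]) ^ v i := by
    intro q _
    unfold bc
    rw [Matrix.diagonal_map (map_zero _)]
    congr 1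
    funext i
    simp only [map_zpow₀, map_natCast]
  refine ⟨T * diagonal fun i => (p : ℚ) ^ v i, ?_, ?_⟩
  · intro q hq hqp
    rw [bc_mul, hmap]
    refine (hT1 q hqp).mul (UP.diag fun i => ?_)
    have h1 : ‖(p : ℚ_[q])‖ = 1 := by
      rw [Padic.norm_natCast_eq_one_iff]
      exact (Nat.coprime_primes hq.out hp.out).2 hqp
    rw [norm_zpow, h1, _root_.one_zpow]
  · have hp' : (p : ℚ_[p]) ≠ 0 := by exact_mod_cast hp.out.ne_zero
    have hD : IsUnit (diagonal fun i => (p : ℚ_[p]) ^ v i).det := by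
      rw [det_diagonal, isUnit_iff_ne_zero]
      exact Finset.prod_ne_zero_iff.2 fun i _ => zpow_ne_zero _ hp'
    rw [bc_mul, hmap, Matrix.mul_inv_rev, Matrix.mul_assoc, ← Matrix.mul_assoc (diagonal _),
      Matrix.mul_nonsing_inv _ hD, Matrix.one_mul]
    exact hT2

lemma HH.ofUnits {u : Fin n → ℚ_[p]} (hu : ∀ i, ‖u i‖ = 1) : HH p (diagonal u) := by
  refine ⟨1, fun q _ _ => by rw [bc_one]; exact UP.one, ?_⟩
  have hu0 : ∀ i, u i ≠ 0 := fun i h => by
    have := hu i; rw [h, norm_zero] at this; exact zero_ne_one this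
  have hD : IsUnit (diagonal u).det := by
    rw [det_diagonal, isUnit_iff_ne_zero]
    exact Finset.prod_ne_zero_iff.2 fun i _ => hu0 i
  have h1 : (diagonal u)⁻¹ = diagonal fun i => (u i)⁻¹ := by
    apply Matrix.inv_eq_right_inv
    rw [Matrix.diagonal_mul_diagonal, ← Matrix.diagonal_one]
    congr 1
    funext i
    exact mul_inv_cancel₀ (hu0 i)
  rw [bc_one, Matrix.one_mul, h1]
  exact UP.diag fun i => by rw [norm_inv, hu i, inv_one]

/-- a unit diagonal matrix can be moved to the left of transvections -/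
lemma list_mul_diag {u : Fin n → ℚ_[p]} (hu : ∀ i, u i ≠ 0)
    (L : List (TransvectionStruct (Fin n) ℚ_[p])) :
    ∃ L' : List (TransvectionStruct (Fin n) ℚ_[p]),
      (L.map TransvectionStruct.toMatrix).prod * diagonal u =
        diagonal u * (L'.map TransvectionStruct.toMatrix).prod := by
  induction L with
  | nil => exact ⟨[], by simp⟩
  | cons t L ih =>
    obtain ⟨L', hL'⟩ := ih
    obtain ⟨i, j, hij, c⟩ := t
    refine ⟨⟨i, j, hij, (u i)⁻¹ * c * u j⟩ :: L', ?_⟩
    rw [List.map_cons, List.prod_cons, List.map_cons, List.prod_cons, Matrix.mul_assoc, hL',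
      ← Matrix.mul_assoc, ← Matrix.mul_assoc, TransvectionStruct.toMatrix_mk,
      TransvectionStruct.toMatrix_mk]
    congr 1
    ext a b
    rw [Matrix.mul_diagonal, Matrix.diagonal_mul, Matrix.transvection, Matrix.transvection,
      Matrix.add_apply, Matrix.add_apply, Matrix.one_apply, Matrix.single_apply,
      Matrix.single_apply]
    by_cases hab : a = b
    · subst hab
      by_cases h1 : i = a ∧ j = a
      · exact absurd (h1.1.trans h1.2.symm) hij
      · simp [h1]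
    · by_cases h1 : i = a ∧ j = b
      · obtain ⟨rfl, rfl⟩ := h1
        simp only [hab, if_false, if_true, and_self, zero_mul, zero_add, mul_zero]
        field_simp [hu i]
      · simp [h1, hab]

lemma HH.all {h : Matrix (Fin n) (Fin n) ℚ_[p]} (hdet : h.det ≠ 0) : HH p h := by
  obtain ⟨L, L', D, hL⟩ := Matrix.Pivot.exists_list_transvec_mul_diagonal_mul_list_transvec h
  have hD : ∀ i, D i ≠ 0 := by
    intro i hi
    apply hdet
    rw [hL, det_mul, det_mul, det_diagonal, Finset.prod_eq_zero (Finset.mem_univ i) hi, mul_zero,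
      zero_mul]
  have hp' : (p : ℚ_[p]) ≠ 0 := by exact_mod_cast hp.out.ne_zero
  set v : Fin n → ℤ := fun i => (D i).valuation with hv
  set u : Fin n → ℚ_[p] := fun i => D i / (p : ℚ_[p]) ^ v i with hu
  have hu1 : ∀ i, ‖u i‖ = 1 := by
    intro i
    simp only [hu, hv]
    rw [norm_div, Padic.norm_eq_zpow_neg_valuation (hD i), norm_zpow, Padic.norm_p, _root_.inv_zpow,
      _root_.zpow_neg, div_self]
    exact inv_ne_zero (zpow_ne_zero _ (by exact_mod_cast hp.out.ne_zero))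
  have hu0 : ∀ i, u i ≠ 0 := fun i => div_ne_zero (hD i) (zpow_ne_zero _ hp')
  have hDu : diagonal D = diagonal u * diagonal fun i => (p : ℚ_[p]) ^ v i := by
    rw [Matrix.diagonal_mul_diagonal]
    congr 1
    funext i
    simp only [hu]
    rw [div_mul_cancel₀ _ (zpow_ne_zero _ hp')]
  obtain ⟨L'', hL''⟩ := list_mul_diag hu0 L
  have h1 : h = diagonal u * (L''.map TransvectionStruct.toMatrix).prod *
      (diagonal fun i => (p : ℚ_[p]) ^ v i) * (L'.map TransvectionStruct.toMatrix).prod := by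
    rw [hL, hDu, ← Matrix.mul_assoc, hL'']
  have hdu : (diagonal u).det ≠ 0 := by
    rw [det_diagonal]; exact Finset.prod_ne_zero_iff.2 fun i _ => hu0 i
  rw [h1]
  refine HH.list ?_ (HH.diagPow (HH.list hdu (HH.ofUnits hu1) L'') v) L'
  rw [det_mul, det_mul, TransvectionStruct.det_toMatrix_prod, mul_one, det_diagonal (d := fun i => (p : ℚ_[p]) ^ v i)]
  exact mul_ne_zero hdu (Finset.prod_ne_zero_iff.2 fun i _ => zpow_ne_zero _ hp')

end

end Glue

open Glue in
theorem glue {n : ℕ} (S : Finset ℕ)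
    (g : ∀ (p : ℕ) [Fact p.Prime], Matrix (Fin n) (Fin n) ℚ_[p])
    (hg : ∀ (p : ℕ) [Fact p.Prime], p ∈ S → (g p).det ≠ 0) :
    ∃ G : Matrix (Fin n) (Fin n) ℚ, G.det ≠ 0 ∧
      (∀ (p : ℕ) [Fact p.Prime], p ∈ S →
        (∀ i j, ‖(G.map (algebraMap ℚ ℚ_[p]) * (g p)⁻¹) i j‖ ≤ 1) ∧
        ‖(G.map (algebraMap ℚ ℚ_[p]) * (g p)⁻¹).det‖ = 1) ∧
      (∀ (p : ℕ) [Fact p.Prime], p ∉ S →
        (∀ i j, ‖(G.map (algebraMap ℚ ℚ_[p])) i j‖ ≤ 1) ∧
        ‖(G.map (algebraMap ℚ ℚ_[p])).det‖ = 1) := by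
  classical
  change ∃ G : Matrix (Fin n) (Fin n) ℚ, G.det ≠ 0 ∧
      (∀ (p : ℕ) [Fact p.Prime], p ∈ S → UP p (bc p G * (g p)⁻¹)) ∧
      (∀ (p : ℕ) [Fact p.Prime], p ∉ S → UP p (bc p G))
  induction S using Finset.induction_on with
  | empty =>
    refine ⟨1, by simp, fun p _ hp => absurd hp (Finset.notMem_empty p), fun p _ _ => ?_⟩
    rw [bc_one]; exact UP.one
  | insert a S ha ih =>
    obtain ⟨G, hG0, hG1, hG2⟩ := ih (fun p _ hp => hg p (Finset.mem_insert_of_mem hp))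
    by_cases hprime : a.Prime
    · have : Fact a.Prime := ⟨hprime⟩
      have hGa : (bc a G).det ≠ 0 := by
        rw [bc_det]
        exact (map_ne_zero_iff _ (algebraMap ℚ ℚ_[a]).injective).2 hG0
      have hGu : IsUnit (bc a G).det := isUnit_iff_ne_zero.2 hGa
      have hga := hg a (Finset.mem_insert_self a S)
      have hdet : (g a * (bc a G)⁻¹).det ≠ 0 := by
        rw [det_mul, Matrix.det_nonsing_inv, Ring.inverse_eq_inv']
        exact mul_ne_zero hga (inv_ne_zero hGa)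
      obtain ⟨T, hT1, hT2⟩ := HH.all hdet
      have hinv : (g a * (bc a G)⁻¹)⁻¹ = bc a G * (g a)⁻¹ := by
        rw [Matrix.mul_inv_rev, Matrix.nonsing_inv_nonsing_inv _ hGu]
      rw [hinv] at hT2
      have hTdet : T.det ≠ 0 := by
        intro h0
        have h1 := hT2.2
        rw [det_mul, bc_det, h0, map_zero, zero_mul, norm_zero] at h1
        exact zero_ne_one h1
      refine ⟨T * G, by rw [det_mul]; exact mul_ne_zero hTdet hG0, ?_, ?_⟩
      · intro p _ hp
        rw [bc_mul, Matrix.mul_assoc]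
        by_cases hpa : p = a
        · subst hpa; exact hT2
        · exact (hT1 p hpa).mul (hG1 p ((Finset.mem_insert.1 hp).resolve_left hpa))
      · intro p _ hp
        rw [Finset.mem_insert, not_or] at hp
        rw [bc_mul]
        exact (hT1 p hp.1).mul (hG2 p hp.2)
    · refine ⟨G, hG0, ?_, ?_⟩
      · intro p hpp hp
        refine hG1 p ((Finset.mem_insert.1 hp).resolve_left ?_)
        rintro rfl; exact hprime hpp.out
      · intro p _ hp
        rw [Finset.mem_insert, not_or] at hp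
        exact hG2 p hp.2

end Stoll308.BG
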