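import Mathlib

set_option autoImplicit false

/-!
Reduction of positive definite real quadratic forms by integral unimodular matrices (Hermite).
-/

namespace Stoll308.BG

open Finset Matrix

/-- The value of the form `P` at an integral vector. -/
noncomputable def qv {n : ℕ} (P : Matrix (Fin n) (Fin n) ℝ) (v : Fin n → ℤ) : ℝ :=
  (fun i => (v i : ℝ)) ⬝ᵥ P.mulVec (fun i => (v i : ℝ))

/-- The form `P` in the basis given by the rows of `U`. -/
noncomputable def act {n : ℕ} (U : Matrix (Fin n) (Fin n) ℤ) (P : Matrix (Fin n) (Fin n) ℝ) :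
    Matrix (Fin n) (Fin n) ℝ :=
  U.map (Int.castRingHom ℝ) * P * (U.map (Int.castRingHom ℝ))ᵀ

lemma act_act {n : ℕ} (U W : Matrix (Fin n) (Fin n) ℤ) (P : Matrix (Fin n) (Fin n) ℝ) :
    act W (act U P) = act (W * U) P := by
  unfold act
  rw [Matrix.map_mul, Matrix.transpose_mul]
  simp only [Matrix.mul_assoc]

lemma act_diag {n : ℕ} (U : Matrix (Fin n) (Fin n) ℤ) (P : Matrix (Fin n) (Fin n) ℝ) (i : Fin n) :
    act U P i i = qv P (U i) := by
  unfold act qv
  rw [Matrix.mul_assoc, Matrix.mul_apply_eq_vecMul, ← Matrix.vecMul_vecMul, Matrix.vecMul_vecMul]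
  simp [Matrix.mul_apply, dotProduct, Matrix.mulVec, Matrix.vecMul]

lemma exists_lower {n : ℕ} (P : Matrix (Fin (n + 1)) (Fin (n + 1)) ℝ)
    (hpos : ∀ x : Fin (n + 1) → ℝ, x ≠ 0 → 0 < x ⬝ᵥ P.mulVec x) :
    ∃ c : ℝ, 0 < c ∧ ∀ x : Fin (n + 1) → ℝ, c * ‖x‖ ^ 2 ≤ x ⬝ᵥ P.mulVec x := by
  have hc : IsCompact (Metric.sphere (0 : Fin (n + 1) → ℝ) 1) := isCompact_sphere _ _
  have hne : (Metric.sphere (0 : Fin (n + 1) → ℝ) 1).Nonempty := by
    refine ⟨Pi.single 0 1, ?_⟩
    rw [mem_sphere_zero_iff_norm, Pi.norm_single]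
    exact norm_one
  have hcont : Continuous fun x : Fin (n + 1) → ℝ => x ⬝ᵥ P.mulVec x := by
    unfold dotProduct Matrix.mulVec dotProduct
    fun_prop
  obtain ⟨x0, hx0, hmin⟩ := hc.exists_isMinOn hne hcont.continuousOn
  have hx0n : x0 ≠ 0 := by
    intro h; rw [h] at hx0; simp at hx0
  refine ⟨x0 ⬝ᵥ P.mulVec x0, hpos x0 hx0n, fun x => ?_⟩
  by_cases hx : x = 0
  · subst hx; simp
  have hxn : ‖x‖ ≠ 0 := norm_ne_zero_iff.2 hx
  have h1 : (‖x‖⁻¹ • x) ∈ Metric.sphere (0 : Fin (n + 1) → ℝ) 1 := by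
    simp [norm_smul, hxn]
  have h2 : x0 ⬝ᵥ P.mulVec x0 ≤ (‖x‖⁻¹ • x) ⬝ᵥ P.mulVec (‖x‖⁻¹ • x) := hmin h1
  rw [Matrix.mulVec_smul, smul_dotProduct, dotProduct_smul, smul_eq_mul, smul_eq_mul] at h2
  have h3 : 0 < ‖x‖ ^ 2 := by positivity
  calc x0 ⬝ᵥ P.mulVec x0 * ‖x‖ ^ 2
      ≤ (‖x‖⁻¹ * (‖x‖⁻¹ * x ⬝ᵥ P.mulVec x)) * ‖x‖ ^ 2 :=
        mul_le_mul_of_nonneg_right h2 h3.le
    _ = x ⬝ᵥ P.mulVec x := by field_simp

lemma exists_min_row {n : ℕ} (P : Matrix (Fin (n + 1)) (Fin (n + 1)) ℝ)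
    (hpos : ∀ x : Fin (n + 1) → ℝ, x ≠ 0 → 0 < x ⬝ᵥ P.mulVec x) :
    ∃ U : Matrix (Fin (n + 1)) (Fin (n + 1)) ℤ, IsUnit U.det ∧
      ∀ W : Matrix (Fin (n + 1)) (Fin (n + 1)) ℤ, IsUnit W.det → qv P (U 0) ≤ qv P (W 0) := by
  obtain ⟨c, hc, hlow⟩ := exists_lower P hpos
  set V : Set (Fin (n + 1) → ℤ) := {v | qv P v ≤ qv P ((1 : Matrix (Fin (n + 1)) (Fin (n + 1)) ℤ) 0) ∧
    ∃ U : Matrix (Fin (n + 1)) (Fin (n + 1)) ℤ, IsUnit U.det ∧ U 0 = v} with hV
  have hfin : V.Finite := by
    set M : ℝ := qv P ((1 : Matrix (Fin (n + 1)) (Fin (n + 1)) ℤ) 0) / c with hM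
    have hsub : V ⊆ Set.Icc (fun _ => -(⌊M⌋ + 1)) (fun _ => ⌊M⌋ + 1) := by
      intro v hv
      have h1 := hlow (fun i => (v i : ℝ))
      have h2 : ‖(fun i => (v i : ℝ))‖ ^ 2 ≤ M := by
        rw [hM, le_div_iff₀ hc, mul_comm]
        exact h1.trans hv.1
      have h3 : ∀ i, |v i| ≤ ⌊M⌋ + 1 := by
        intro i
        have h4 : ‖(v i : ℝ)‖ ≤ ‖(fun i => (v i : ℝ))‖ := norm_le_pi_norm (fun i => (v i : ℝ)) i
        have h5 : ((v i : ℝ)) ^ 2 ≤ M := by
          have : ‖(v i : ℝ)‖ ^ 2 ≤ ‖(fun i => (v i : ℝ))‖ ^ 2 :=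
            pow_le_pow_left₀ (norm_nonneg _) h4 2
          rw [Real.norm_eq_abs, sq_abs] at this
          exact this.trans h2
        have h6 : (v i) ^ 2 ≤ ⌊M⌋ := by
          rw [Int.le_floor]; push_cast; exact h5
        have h7 : |v i| ≤ (v i) ^ 2 := by
          rw [← sq_abs]
          rcases eq_or_ne (v i) 0 with h0 | h0
          · simp [h0]
          · have : 1 ≤ |v i| := Int.one_le_abs h0
            nlinarith
        linarith
      exact ⟨fun i => (abs_le.1 (h3 i)).1, fun i => (abs_le.1 (h3 i)).2⟩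
    exact (Set.finite_Icc _ _).subset hsub
  have hne : V.Nonempty := ⟨(1 : Matrix (Fin (n + 1)) (Fin (n + 1)) ℤ) 0, le_rfl, 1, by simp, rfl⟩
  obtain ⟨v, hv, hmin⟩ := Set.exists_min_image V (qv P) hfin hne
  obtain ⟨hv1, U, hU, hUv⟩ := hv
  refine ⟨U, hU, fun W hW => ?_⟩
  rw [hUv]
  by_cases h : qv P (W 0) ≤ qv P ((1 : Matrix (Fin (n + 1)) (Fin (n + 1)) ℤ) 0)
  · exact hmin _ ⟨h, W, hW, rfl⟩
  · exact hv1.trans (le_of_lt (not_le.1 h))

/-- Hermite reduction. -/
theorem red_basis_aux (n : ℕ) : ∃ K : ℝ, 0 < K ∧ ∀ P : Matrix (Fin n) (Fin n) ℝ,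
    (∀ i j, P i j = P j i) → (∀ x : Fin n → ℝ, x ≠ 0 → 0 < x ⬝ᵥ P.mulVec x) →
    ∃ U : Matrix (Fin n) (Fin n) ℤ, IsUnit U.det ∧ ∏ i, act U P i i ≤ K * P.det := by
  induction n with
  | zero =>
    refine ⟨1, one_pos, fun P _ _ => ⟨1, by simp, ?_⟩⟩
    simp
  | succ n ih =>
    obtain ⟨K, hK, hKP⟩ := ih
    refine ⟨(4 / 3) ^ n * K, by positivity, fun P0 hs0 hpos0 => ?_⟩
    obtain ⟨U1, hU1, hmin⟩ := exists_min_row P0 hpos0
    set P := act U1 P0 with hP
    have hs : ∀ i j, P i j = P j i := by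
      have h1 : P0ᵀ = P0 := by ext i j; exact hs0 j i
      have h2 : Pᵀ = P := by
        rw [hP]; unfold act
        rw [Matrix.transpose_mul, Matrix.transpose_mul, Matrix.transpose_transpose, h1,
          Matrix.mul_assoc]
      intro i j
      conv_lhs => rw [← h2]
      rfl
    have hpos : ∀ x : Fin (n + 1) → ℝ, x ≠ 0 → 0 < x ⬝ᵥ P.mulVec x := by
      intro x hx
      have h1 : x ⬝ᵥ P.mulVec x = ((U1.map (Int.castRingHom ℝ))ᵀ.mulVec x) ⬝ᵥ
          P0.mulVec ((U1.map (Int.castRingHom ℝ))ᵀ.mulVec x) := by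
        rw [hP]; unfold act
        rw [← Matrix.mulVec_mulVec, ← Matrix.mulVec_mulVec, Matrix.dotProduct_mulVec x,
          Matrix.mulVec_transpose]
      rw [h1]
      apply hpos0
      intro h0
      apply hx
      have hdet : IsUnit ((U1.map (Int.castRingHom ℝ))ᵀ).det := by
        rw [Matrix.det_transpose]
        have : (U1.map (Int.castRingHom ℝ)).det = Int.castRingHom ℝ U1.det :=
          ((Int.castRingHom ℝ).map_det U1).symm
        rw [this]
        exact hU1.map _
      have h2 := congrArg (fun y => ((U1.map (Int.castRingHom ℝ))ᵀ)⁻¹.mulVec y) h0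
      simpa only [Matrix.mulVec_mulVec, Matrix.nonsing_inv_mul _ hdet, Matrix.one_mulVec,
        Matrix.mulVec_zero] using h2
    have hdetP : P.det = P0.det := by
      rw [hP]; unfold act
      have : (U1.map (Int.castRingHom ℝ)).det = Int.castRingHom ℝ U1.det :=
        ((Int.castRingHom ℝ).map_det U1).symm
      rw [Matrix.det_mul, Matrix.det_mul, Matrix.det_transpose, this]
      rcases Int.isUnit_iff.1 hU1 with h | h <;> rw [h] <;> simp
    set a := P 0 0 with ha
    have hmina : ∀ W : Matrix (Fin (n + 1)) (Fin (n + 1)) ℤ, IsUnit W.det → a ≤ act W P 0 0 := by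
      intro W hW
      rw [ha, hP, act_act, act_diag, act_diag]
      apply hmin
      rw [Matrix.det_mul]
      exact hW.mul hU1
    have ha0 : 0 < a := by
      have h1 := hpos (Pi.single 0 1) (by simp)
      simpa [Matrix.mulVec_single, dotProduct_comm] using h1
    -- Schur complement
    set D : Matrix (Fin n) (Fin n) ℝ :=
      Matrix.of fun i j => P i.succ j.succ - P i.succ 0 * P 0 j.succ / a with hD
    have hDs : ∀ i j, D i j = D j i := by
      intro i j
      simp only [hD, Matrix.of_apply]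
      rw [hs i.succ j.succ, hs i.succ 0, hs 0 j.succ]; ring
    -- completing the square
    have hsq : ∀ (t : ℝ) (x : Fin n → ℝ),
        (Fin.cons t x : Fin (n + 1) → ℝ) ⬝ᵥ P.mulVec (Fin.cons t x) =
          a * (t + (∑ j, P 0 j.succ * x j) / a) ^ 2 + x ⬝ᵥ D.mulVec x := by
      intro t x
      have e1 : (Fin.cons t x : Fin (n + 1) → ℝ) ⬝ᵥ P.mulVec (Fin.cons t x) =
          t * (a * t + ∑ j, P 0 j.succ * x j) +
            ∑ i, x i * (P 0 i.succ * t + ∑ j, P i.succ j.succ * x j) := by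
        simp only [dotProduct, Matrix.mulVec, Fin.sum_univ_succ, Fin.cons_zero, Fin.cons_succ, ha]
        congr 1
        refine Finset.sum_congr rfl fun i _ => ?_
        rw [hs i.succ 0]
      have e2 : x ⬝ᵥ D.mulVec x = (∑ i, x i * ∑ j, P i.succ j.succ * x j) -
          (∑ j, P 0 j.succ * x j) ^ 2 / a := by
        simp only [dotProduct, Matrix.mulVec, hD, Matrix.of_apply]
        rw [pow_two, Finset.sum_mul_sum, Finset.sum_div, ← Finset.sum_sub_distrib]
        refine Finset.sum_congr rfl fun i _ => ?_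
        rw [Finset.mul_sum, Finset.mul_sum, Finset.sum_div, ← Finset.sum_sub_distrib]
        refine Finset.sum_congr rfl fun j _ => ?_
        rw [hs i.succ 0]; ring
      have e3 : ∑ i, x i * (P 0 i.succ * t + ∑ j, P i.succ j.succ * x j) =
          t * (∑ j, P 0 j.succ * x j) + ∑ i, x i * ∑ j, P i.succ j.succ * x j := by
        rw [Finset.mul_sum, ← Finset.sum_add_distrib]
        refine Finset.sum_congr rfl fun i _ => ?_
        ring
      rw [e1, e2, e3]
      field_simp
      ring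
    have hDpos : ∀ x : Fin n → ℝ, x ≠ 0 → 0 < x ⬝ᵥ D.mulVec x := by
      intro x hx
      have h1 := hpos (Fin.cons (-((∑ j, P 0 j.succ * x j) / a)) x) (by
        intro h0
        apply hx
        ext i
        have := congrFun h0 i.succ
        simpa using this)
      rw [hsq] at h1
      simpa using h1
    have hdetD : P.det = a * D.det := by
      have h1 : P.det = (Matrix.of (Fin.cons (P 0)
          (fun i : Fin n => Fin.cons 0 (D i))) : Matrix (Fin (n + 1)) (Fin (n + 1)) ℝ).det := by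
        refine Matrix.det_eq_of_forall_row_eq_smul_add_const
          (Fin.cons 0 (fun i : Fin n => P i.succ 0 / a)) 0 (by simp) ?_
        intro i j
        refine Fin.cases ?_ (fun i => ?_) i
        · simp
        · refine Fin.cases ?_ (fun j => ?_) j
          · simp [← ha]; field_simp
          · simp [hD]; ring
      rw [h1, Matrix.det_succ_column_zero, Fin.sum_univ_succ]
      have h2 : ∀ i : Fin n, (Matrix.of (Fin.cons (P 0)
          (fun i : Fin n => Fin.cons 0 (D i))) : Matrix (Fin (n + 1)) (Fin (n + 1)) ℝ)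
            i.succ 0 = 0 := by intro i; simp
      simp only [h2, mul_zero, zero_mul, Finset.sum_const_zero, add_zero]
      have h3 : (Matrix.of (Fin.cons (P 0) (fun i : Fin n => Fin.cons 0 (D i))) :
          Matrix (Fin (n + 1)) (Fin (n + 1)) ℝ).submatrix (Fin.succAbove 0) Fin.succ = D := by
        ext i j; simp
      rw [h3]
      simp [← ha]
    obtain ⟨U', hU', hprod⟩ := hKP D hDs hDpos
    -- the size reduced basis
    set m : Fin n → ℤ := fun i => round ((∑ j, P 0 j.succ * (U' i j : ℝ)) / a) with hm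
    set U2 : Matrix (Fin (n + 1)) (Fin (n + 1)) ℤ :=
      Matrix.of (Fin.cons (Pi.single 0 1) (fun i : Fin n => Fin.cons (-m i) (U' i))) with hU2
    have hdetU2 : U2.det = U'.det := by
      rw [Matrix.det_succ_row_zero, Fin.sum_univ_succ]
      have h2 : ∀ i : Fin n, U2 0 i.succ = 0 := by intro i; simp [hU2]
      simp only [h2, mul_zero, zero_mul, Finset.sum_const_zero, add_zero]
      have h3 : U2.submatrix Fin.succ (Fin.succAbove 0) = U' := by
        ext i j; simp [hU2]
      rw [h3]; simp [hU2]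
    have hval0 : act U2 P 0 0 = a := by
      rw [act_diag]
      have : qv P (U2 0) = (Pi.single 0 1 : Fin (n + 1) → ℝ) ⬝ᵥ P.mulVec (Pi.single 0 1) := by
        unfold qv
        have : (fun i => ((U2 0 i : ℤ) : ℝ)) = (Pi.single 0 1 : Fin (n + 1) → ℝ) := by
          ext i
          refine Fin.cases ?_ (fun i => ?_) i <;> simp [hU2]
        rw [this]
      rw [this]
      simp [Matrix.mulVec_single, dotProduct_comm, ha]
    have e4 : ∀ i : Fin n, a ≤ act U2 P i.succ i.succ := by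
      intro i
      -- permute the rows
      have h5 := hmina (U2.submatrix (Equiv.swap 0 i.succ) id) (by
        rw [Matrix.det_permute, hdetU2]
        refine IsUnit.mul ?_ hU'
        exact Units.isUnit _)
      have h6 : (U2.submatrix (Equiv.swap 0 i.succ) id) 0 = U2 i.succ := by
        ext j
        rw [Matrix.submatrix_apply, Equiv.swap_apply_left]; rfl
      rw [act_diag, h6] at h5
      rw [act_diag]
      exact h5
    have hval : ∀ i : Fin n, act U2 P i.succ i.succ ≤ (4 / 3) * act U' D i i := by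
      intro i
      have e1 : act U2 P i.succ i.succ =
          a * (-(m i : ℝ) + (∑ j, P 0 j.succ * (U' i j : ℝ)) / a) ^ 2 + act U' D i i := by
        rw [act_diag, act_diag]
        unfold qv
        have : (fun j => ((U2 i.succ j : ℤ) : ℝ)) =
            (Fin.cons (-(m i : ℝ)) (fun j => (U' i j : ℝ)) : Fin (n + 1) → ℝ) := by
          ext j
          refine Fin.cases ?_ (fun j => ?_) j <;> simp [hU2]
        rw [this, hsq]
      have e2 : |(∑ j, P 0 j.succ * (U' i j : ℝ)) / a - (m i : ℝ)| ≤ 1 / 2 := by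
        rw [hm]; exact abs_sub_round _
      have e3 : (-(m i : ℝ) + (∑ j, P 0 j.succ * (U' i j : ℝ)) / a) ^ 2 ≤ 1 / 4 := by
        have := abs_le.1 e2
        nlinarith [this.1, this.2]
      have e5 := e4 i
      rw [e1] at e5 ⊢
      nlinarith [mul_le_mul_of_nonneg_left e3 ha0.le]
    refine ⟨U2 * U1, ?_, ?_⟩
    · rw [Matrix.det_mul, hdetU2]
      exact hU'.mul hU1
    · rw [← act_act, ← hP, Fin.prod_univ_succ, hval0, ← hdetP, hdetD]
      have h1 : ∏ i : Fin n, act U2 P i.succ i.succ ≤ ∏ i : Fin n, (4 / 3) * act U' D i i := by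
        exact Finset.prod_le_prod (fun i _ => ha0.le.trans (e4 i)) (fun i _ => hval i)
      rw [Finset.prod_mul_distrib, Finset.prod_const, Finset.card_univ, Fintype.card_fin] at h1
      calc a * ∏ i : Fin n, act U2 P i.succ i.succ
          ≤ a * ((4 / 3) ^ n * ∏ i, act U' D i i) := mul_le_mul_of_nonneg_left h1 ha0.le
        _ ≤ a * ((4 / 3) ^ n * (K * D.det)) := by
            apply mul_le_mul_of_nonneg_left _ ha0.le
            apply mul_le_mul_of_nonneg_left hprod (by positivity)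
        _ = (4 / 3) ^ n * K * (a * D.det) := by ring

lemma qv_neg {n : ℕ} (P : Matrix (Fin n) (Fin n) ℝ) (v : Fin n → ℤ) : qv P (-v) = qv P v := by
  unfold qv
  have : (fun i => (((-v) i : ℤ) : ℝ)) = -(fun i => (v i : ℝ)) := by
    ext i; simp
  rw [this, Matrix.mulVec_neg, neg_dotProduct_neg]

lemma act_symm {n : ℕ} (U : Matrix (Fin n) (Fin n) ℤ) (P : Matrix (Fin n) (Fin n) ℝ)
    (hs : Pᵀ = P) : (act U P)ᵀ = act U P := by
  unfold act
  rw [Matrix.transpose_mul, Matrix.transpose_mul, Matrix.transpose_transpose, hs,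
    Matrix.mul_assoc]

lemma det_map_int {n : ℕ} (U : Matrix (Fin n) (Fin n) ℤ) :
    (U.map (Int.castRingHom ℝ)).det = (U.det : ℝ) :=
  ((Int.castRingHom ℝ).map_det U).symm

lemma act_det {n : ℕ} (U : Matrix (Fin n) (Fin n) ℤ) (P : Matrix (Fin n) (Fin n) ℝ)
    (hU : IsUnit U.det) : (act U P).det = P.det := by
  unfold act
  rw [Matrix.det_mul, Matrix.det_mul, Matrix.det_transpose, det_map_int]
  rcases Int.isUnit_iff.1 hU with h | h <;> rw [h] <;> simp

lemma act_dot {n : ℕ} (U : Matrix (Fin n) (Fin n) ℤ) (P : Matrix (Fin n) (Fin n) ℝ)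
    (x : Fin n → ℝ) : x ⬝ᵥ (act U P).mulVec x =
      ((U.map (Int.castRingHom ℝ))ᵀ.mulVec x) ⬝ᵥ
          P.mulVec ((U.map (Int.castRingHom ℝ))ᵀ.mulVec x) := by
  unfold act
  rw [← Matrix.mulVec_mulVec, ← Matrix.mulVec_mulVec, Matrix.dotProduct_mulVec x,
    Matrix.mulVec_transpose]

lemma act_mulVec_ne {n : ℕ} (U : Matrix (Fin n) (Fin n) ℤ) (hU : IsUnit U.det)
    (x : Fin n → ℝ) (hx : x ≠ 0) : (U.map (Int.castRingHom ℝ))ᵀ.mulVec x ≠ 0 := by
  intro h0
  apply hx
  have hdet : IsUnit ((U.map (Int.castRingHom ℝ))ᵀ).det := by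
    rw [Matrix.det_transpose, det_map_int]
    exact hU.map (Int.castRingHom ℝ)
  have h2 := congrArg (fun y => ((U.map (Int.castRingHom ℝ))ᵀ)⁻¹.mulVec y) h0
  simpa only [Matrix.mulVec_mulVec, Matrix.nonsing_inv_mul _ hdet, Matrix.one_mulVec,
    Matrix.mulVec_zero] using h2

lemma posDef_iff' {n : ℕ} (P : Matrix (Fin n) (Fin n) ℝ) :
    P.PosDef ↔ Pᵀ = P ∧ ∀ x : Fin n → ℝ, x ≠ 0 → 0 < x ⬝ᵥ P.mulVec x := by
  rw [Matrix.posDef_iff_dotProduct_mulVec]
  constructor
  · rintro ⟨h1, h2⟩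
    refine ⟨?_, fun x hx => by simpa using h2 hx⟩
    have := h1.eq
    rwa [Matrix.conjTranspose_eq_transpose_of_trivial] at this
  · rintro ⟨h1, h2⟩
    refine ⟨?_, fun x hx => by simpa using h2 x hx⟩
    unfold Matrix.IsHermitian
    rwa [Matrix.conjTranspose_eq_transpose_of_trivial]

lemma act_posDef {n : ℕ} (U : Matrix (Fin n) (Fin n) ℤ) (P : Matrix (Fin n) (Fin n) ℝ)
    (hU : IsUnit U.det) (hP : P.PosDef) : (act U P).PosDef := by
  rw [posDef_iff'] at hP ⊢
  refine ⟨act_symm U P hP.1, fun x hx => ?_⟩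
  rw [act_dot]
  exact hP.2 _ (act_mulVec_ne U hU x hx)

/-- Hermite reduction: every positive definite real form of dimension `n` has, in a suitable
integral basis (with determinant one and the diagonal in increasing order), diagonal product at
most a constant times the determinant. -/
theorem red_basis_one (n : ℕ) : ∃ K : ℝ, 0 < K ∧ ∀ P : Matrix (Fin n) (Fin n) ℝ, P.PosDef →
    ∃ U : Matrix (Fin n) (Fin n) ℤ, U.det = 1 ∧ Monotone (fun i => act U P i i) ∧
      ∏ i, act U P i i ≤ K * P.det := by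
  obtain ⟨K, hK, h⟩ := red_basis_aux n
  refine ⟨K, hK, fun P hP => ?_⟩
  obtain ⟨hsymm, hpos⟩ := (posDef_iff' P).1 hP
  obtain ⟨U, hU, hprod⟩ := h P (fun i j => congrFun (congrFun hsymm j) i) hpos
  -- sort
  set σ := Tuple.sort (fun i => act U P i i) with hσ
  set U1 : Matrix (Fin n) (Fin n) ℤ := U.submatrix σ id with hU1
  have hU1d : IsUnit U1.det := by
    rw [hU1, Matrix.det_permute]
    exact (Units.isUnit _).mul hU
  have h1 : ∀ i, act U1 P i i = act U P (σ i) (σ i) := by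
    intro i
    rw [act_diag, act_diag]; rfl
  have hmono : Monotone (fun i => act U1 P i i) := by
    have h2 := Tuple.monotone_sort (fun i => act U P i i)
    have h3 : (fun i => act U1 P i i) = (fun i => act U P i i) ∘ σ := by
      ext i; rw [h1]; rfl
    rw [h3]; exact h2
  have hprod1 : ∏ i, act U1 P i i ≤ K * P.det := by
    rw [show ∏ i, act U1 P i i = ∏ i, act U P (σ i) (σ i) from
      Finset.prod_congr rfl fun i _ => h1 i,
      Equiv.prod_comp σ (fun i => act U P i i)]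
    exact hprod
  rcases Int.isUnit_iff.1 hU1d with hd | hd
  · exact ⟨U1, hd, hmono, hprod1⟩
  · -- change the sign of one row
    cases n with
    | zero => simp at hd
    | succ n =>
      refine ⟨U1.updateRow 0 (-(U1 0)), ?_, ?_⟩
      · rw [show -(U1 0) = (-1 : ℤ) • U1 0 by simp, Matrix.det_updateRow_smul,
          Matrix.updateRow_eq_self, hd]
        norm_num
      · have h4 : ∀ i, act (U1.updateRow 0 (-(U1 0))) P i i = act U1 P i i := by
          intro i
          rw [act_diag, act_diag]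
          by_cases hi : i = 0
          · subst hi
            rw [Matrix.updateRow_self, qv_neg]
          · rw [Matrix.updateRow_ne hi]
        simp only [h4]
        exact ⟨hmono, hprod1⟩

theorem red_basis (n : ℕ) : ∃ K : ℝ, 1 ≤ K ∧ ∀ P : Matrix (Fin n) (Fin n) ℝ, P.PosDef →
    ∃ U : Matrix (Fin n) (Fin n) ℤ, IsUnit U.det ∧
      (∀ i j, i ≤ j → (U.map (Int.cast : ℤ → ℝ) * P * (U.map (Int.cast : ℤ → ℝ))ᵀ) i i ≤
        (U.map (Int.cast : ℤ → ℝ) * P * (U.map (Int.cast : ℤ → ℝ))ᵀ) j j) ∧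
      ∏ i, (U.map (Int.cast : ℤ → ℝ) * P * (U.map (Int.cast : ℤ → ℝ))ᵀ) i i ≤ K * P.det := by
  obtain ⟨K, hK, h⟩ := red_basis_one n
  refine ⟨max K 1, le_max_right _ _, fun P hP => ?_⟩
  obtain ⟨U, hU, hmono, hprod⟩ := h P hP
  refine ⟨U, by rw [hU]; exact isUnit_one, fun i j hij => hmono hij, ?_⟩
  refine le_trans (le_of_eq rfl) (hprod.trans ?_)
  exact mul_le_mul_of_nonneg_right (le_max_left _ _) hP.det_pos.le

/-- Cauchy–Schwarz for the entries. -/
lemma posDef_entry_sq {n : ℕ} (P : Matrix (Fin n) (Fin n) ℝ) (hP : P.PosDef) (i j : Fin n) :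
    P i j ^ 2 ≤ P i i * P j j := by
  obtain ⟨hsymm, hpos⟩ := (posDef_iff' P).1 hP
  have hs : P j i = P i j := congrFun (congrFun hsymm i) j
  have hdiag : ∀ i, 0 < P i i := fun i => by
    have h1 := hpos (Pi.single i 1) (by simp)
    simpa [Matrix.mulVec_single, dotProduct_comm] using h1
  by_cases hij : i = j
  · subst hij; rw [pow_two]
  have h1 := hpos (P j j • Pi.single i 1 - P i j • Pi.single j 1) (by
    intro h0
    have := congrFun h0 i
    simp [hij] at this
    exact (hdiag j).ne' this)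
  have h2 : (P j j • Pi.single i (1 : ℝ) - P i j • Pi.single j 1) ⬝ᵥ
      P.mulVec (P j j • Pi.single i 1 - P i j • Pi.single j 1) =
      P j j * (P i i * P j j - P i j ^ 2) := by
    simp only [Matrix.mulVec_sub, Matrix.mulVec_smul, sub_dotProduct, dotProduct_sub,
      smul_dotProduct, dotProduct_smul, Matrix.mulVec_single_one, Matrix.col_apply, smul_eq_mul,
      single_one_dotProduct, hs]
    ring
  rw [h2] at h1
  have := (mul_pos_iff_of_pos_left (hdiag j)).1 h1
  linarith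

end Stoll308.BG
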