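import Pool.Agent.Work.MP_308fa9_nt.BG.DetEven

set_option autoImplicit false

/-!
`n` odd: a common isotropic subspace of dimension `(n - 1) / 2` makes the class trivial.
-/

namespace Stoll308.BG

open Polynomial Finset Matrix

namespace MidX

section lin

variable {K : Type*} [Field K]

/-- Linear algebra: `W` is the span of the first `m` rows of `G` (`G` invertible of size
`2 m + 1`), isotropic for `H`, and `W C` is orthogonal to `W`. Then some nonzero `u ∈ W` has
`u C ^ j ∈ W` for all `j < m`. -/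
lemma exists_vec {m : ℕ} (hm : 1 ≤ m) {V : Type*} [AddCommGroup V] [Module K V]
    [FiniteDimensional K V]
    (W P : Submodule K V) (hWP : W ≤ P) (hW : Module.finrank K W = m)
    (hP : Module.finrank K P = m + 1) (T : V →ₗ[K] V) (hT : ∀ w ∈ W, T w ∈ P) :
    ∃ u ∈ W, u ≠ 0 ∧ ∀ j < m, (T ^ j) u ∈ W := by
  -- a functional with kernel `W` on `P`
  obtain ⟨φ, hφ⟩ : ∃ φ : V →ₗ[K] K, ∀ x ∈ P, φ x = 0 → x ∈ W := by
    set W' : Submodule K P := W.comap P.subtype with hW'
    have hfW : Module.finrank K W' = m := by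
      rw [← hW]
      exact (Submodule.comapSubtypeEquivOfLe hWP).finrank_eq
    have hlt : W' < ⊤ := by
      rw [lt_top_iff_ne_top]
      intro h
      rw [h, finrank_top, hP] at hfW
      omega
    obtain ⟨f, hf, hle⟩ := Submodule.exists_le_ker_of_lt_top W' hlt
    have hker : Module.finrank K (LinearMap.ker f) = m := by
      have h1 := LinearMap.finrank_range_add_finrank_ker f
      have h2 : LinearMap.range f = ⊤ := LinearMap.range_eq_top.2 (LinearMap.surjective hf)
      rw [h2, finrank_top, Module.finrank_self, hP] at h1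
      omega
    have heq : W' = LinearMap.ker f :=
      Submodule.eq_of_le_of_finrank_eq hle (by rw [hfW, hker])
    obtain ⟨g, hg⟩ := LinearMap.exists_extend f
    refine ⟨g, fun x hx h0 => ?_⟩
    have h3 : f ⟨x, hx⟩ = 0 := by
      rw [← hg]
      exact h0
    have h4 : (⟨x, hx⟩ : P) ∈ W' := by rw [heq]; exact h3
    exact h4
  -- a nonzero vector
  set Φ : W →ₗ[K] (Fin (m - 1) → K) :=
    LinearMap.pi fun j => (φ ∘ₗ (T ^ ((j : ℕ) + 1))) ∘ₗ W.subtype with hΦ
  have hker : LinearMap.ker Φ ≠ ⊥ := by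
    apply LinearMap.ker_ne_bot_of_finrank_lt
    rw [hW, Module.finrank_fin_fun]
    omega
  obtain ⟨u, hu, hu0⟩ := (Submodule.ne_bot_iff _).1 hker
  refine ⟨u, u.2, fun h => hu0 (Subtype.ext h), ?_⟩
  intro j
  induction j with
  | zero => intro _; simp
  | succ j ih =>
    intro hj
    have h1 := ih (by omega)
    have h2 : (T ^ (j + 1)) (u : V) = T ((T ^ j) (u : V)) := by
      rw [pow_succ']; rfl
    have h3 : (T ^ (j + 1)) (u : V) ∈ P := by
      rw [h2]; exact hT _ h1
    apply hφ _ h3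
    have h4 := congrFun (LinearMap.mem_ker.1 hu) ⟨j, by omega⟩
    exact h4

/-- The rows of a matrix. -/
lemma exists_row {n m : ℕ} (hn : n = 2 * m + 1) (hm : 1 ≤ m) (G H Cm : Matrix (Fin n) (Fin n) K)
    (hG : G.det ≠ 0) (hH : H.det ≠ 0)
    (h1 : ∀ i j : Fin n, (i : ℕ) < m → (j : ℕ) < m → (G * H * Gᵀ) i j = 0)
    (h2 : ∀ i j : Fin n, (i : ℕ) < m → (j : ℕ) < m → (G * (Cm * H) * Gᵀ) i j = 0) :
    ∃ u : Fin n → K, u ≠ 0 ∧
      (∀ i < m, ∀ j < m, (u ᵥ* Cm ^ i) ᵥ* H ⬝ᵥ (u ᵥ* Cm ^ j) = 0) ∧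
      (∀ i < m, ∀ j < m, (u ᵥ* Cm ^ (i + 1)) ᵥ* H ⬝ᵥ (u ᵥ* Cm ^ j) = 0) := by
  classical
  have hA : (G * H * Gᵀ).det ≠ 0 := by
    rw [det_mul, det_mul, det_transpose]
    exact mul_ne_zero (mul_ne_zero hG hH) hG
  -- the space `W` in the coordinates of the rows of `G`
  have hGi : G⁻¹ * G = 1 := nonsing_inv_mul G (isUnit_iff_ne_zero.2 hG)
  have hGi' : G * G⁻¹ = 1 := mul_nonsing_inv G (isUnit_iff_ne_zero.2 hG)
  set D : Matrix (Fin n) (Fin n) K := G * Cm * G⁻¹ with hD
  set A := G * H * Gᵀ with hAd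
  have hDA : D * A = G * (Cm * H) * Gᵀ := by
    rw [hD, hAd]
    calc G * Cm * G⁻¹ * (G * H * Gᵀ) = G * Cm * (G⁻¹ * G) * H * Gᵀ := by
          simp only [Matrix.mul_assoc]
      _ = _ := by rw [hGi, Matrix.mul_one]; simp only [Matrix.mul_assoc]
  set hp : (Fin n → K) →ₗ[K] (Fin (m + 1) → K) :=
    LinearMap.funLeft K K (fun j : Fin (m + 1) => (⟨m + j, by omega⟩ : Fin n)) with hhp
  set gp : (Fin n → K) →ₗ[K] (Fin m → K) :=
    (LinearMap.funLeft K K (fun j : Fin m => (⟨j, by omega⟩ : Fin n))) ∘ₗ A.vecMulLinear with hgp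
  set W := LinearMap.ker hp with hW
  set P := LinearMap.ker gp with hP
  have memW : ∀ x, x ∈ W ↔ ∀ j : Fin n, m ≤ (j : ℕ) → x j = 0 := by
    intro x
    rw [hW, LinearMap.mem_ker]
    constructor
    · intro h j hj
      have := congrFun h ⟨(j : ℕ) - m, by omega⟩
      simp only [hhp, LinearMap.funLeft_apply, Pi.zero_apply] at this
      rw [← this]
      congr 1
      apply Fin.ext
      simp only
      omega
    · intro h
      funext j
      exact h _ (by simp)
  have memP : ∀ x, x ∈ P ↔ ∀ j : Fin n, (j : ℕ) < m → (x ᵥ* A) j = 0 := by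
    intro x
    rw [hP, LinearMap.mem_ker]
    constructor
    · intro h j hj
      exact congrFun h ⟨j, hj⟩
    · intro h
      funext j
      exact h _ (by simp)
  have hWP : W ≤ P := by
    intro x hx
    rw [memP]
    rw [memW] at hx
    intro j hj
    rw [vecMul, dotProduct]
    apply Finset.sum_eq_zero
    intro i _
    by_cases hi : (i : ℕ) < m
    · rw [h1 i j hi hj, mul_zero]
    · rw [hx i (by omega), zero_mul]
  have hT : ∀ w ∈ W, D.vecMulLinear w ∈ P := by
    intro x hx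
    rw [memP]
    rw [memW] at hx
    intro j hj
    have h3 : (D.vecMulLinear x) ᵥ* A = x ᵥ* (D * A) := by
      rw [vecMulLinear_apply, vecMul_vecMul]
    rw [h3, hDA, vecMul, dotProduct]
    apply Finset.sum_eq_zero
    intro i _
    by_cases hi : (i : ℕ) < m
    · rw [h2 i j hi hj, mul_zero]
    · rw [hx i (by omega), zero_mul]
  have hfW : Module.finrank K W = m := by
    have h3 := LinearMap.finrank_range_add_finrank_ker hp
    have h4 : LinearMap.range hp = ⊤ := by
      apply LinearMap.range_eq_top.2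
      apply LinearMap.funLeft_surjective_of_injective
      intro a b hab
      have := congrArg Fin.val hab
      simp only at this
      exact Fin.ext (by omega)
    rw [h4, finrank_top, Module.finrank_fin_fun, Module.finrank_fin_fun] at h3
    rw [hW]
    omega
  have hfP : Module.finrank K P = m + 1 := by
    have h3 := LinearMap.finrank_range_add_finrank_ker gp
    have h4 : LinearMap.range gp = ⊤ := by
      apply LinearMap.range_eq_top.2
      rw [hgp, LinearMap.coe_comp]
      apply Function.Surjective.comp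
      · apply LinearMap.funLeft_surjective_of_injective
        intro a b hab
        have := congrArg Fin.val hab
        simp only at this
        exact Fin.ext (by omega)
      · intro y
        refine ⟨y ᵥ* A⁻¹, ?_⟩
        rw [vecMulLinear_apply, vecMul_vecMul, nonsing_inv_mul A (isUnit_iff_ne_zero.2 hA),
          vecMul_one]
    rw [h4, finrank_top, Module.finrank_fin_fun, Module.finrank_fin_fun] at h3
    rw [hP]
    omega
  obtain ⟨x, hxW, hx0, hx⟩ := exists_vec hm W P hWP hfW hfP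
    D.vecMulLinear hT
  have hpow : ∀ j, (D.vecMulLinear ^ j) x = x ᵥ* D ^ j := by
    intro j
    induction j with
    | zero => simp
    | succ j ih =>
      rw [pow_succ', pow_succ, ← vecMul_vecMul, ← ih]
      rfl
  have hDpow : ∀ j, D ^ j * G = G * Cm ^ j := by
    intro j
    induction j with
    | zero => simp
    | succ j ih =>
      rw [pow_succ', Matrix.mul_assoc, ih, pow_succ', hD]
      calc G * Cm * G⁻¹ * (G * Cm ^ j) = G * Cm * (G⁻¹ * G) * Cm ^ j := by
            simp only [Matrix.mul_assoc]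
        _ = _ := by rw [hGi, Matrix.mul_one]; simp only [Matrix.mul_assoc]
  have hiso : ∀ (a b : Fin n → K), a ∈ W → b ∈ P → (b ᵥ* G) ᵥ* H ⬝ᵥ (a ᵥ* G) = 0 := by
    intro a b ha hb
    have h3 : (b ᵥ* G) ᵥ* H ⬝ᵥ (a ᵥ* G) = (b ᵥ* A) ⬝ᵥ a := by
      rw [hAd, ← vecMul_vecMul, ← vecMul_vecMul, ← mulVec_transpose G a, dotProduct_mulVec]
    rw [h3, dotProduct]
    rw [memW] at ha
    rw [memP] at hb
    apply Finset.sum_eq_zero
    intro i _
    by_cases hi : (i : ℕ) < m
    · rw [hb i hi, zero_mul]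
    · rw [ha i (by omega), mul_zero]
  have hrow : ∀ j, (x ᵥ* G) ᵥ* Cm ^ j = (x ᵥ* D ^ j) ᵥ* G := by
    intro j
    rw [vecMul_vecMul, vecMul_vecMul, hDpow]
  refine ⟨x ᵥ* G, ?_, ?_, ?_⟩
  · intro h0
    apply hx0
    have : (x ᵥ* G) ᵥ* G⁻¹ = x := by
      rw [vecMul_vecMul, hGi', vecMul_one]
    rw [← this, h0, zero_vecMul]
  · intro i hi j hj
    rw [hrow, hrow]
    apply hiso
    · rw [← hpow]; exact hx j hj
    · rw [← hpow]; exact hWP (hx i hi)
  · intro i hi j hj
    rw [hrow, hrow]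
    apply hiso
    · rw [← hpow]; exact hx j hj
    · rw [← hpow, pow_succ']
      exact hT _ (hx i hi)

end lin

section pol

variable {K : Type*} [Field K] {n : ℕ}

/-- The coefficient of `θ^(n-1)`, as a linear map. -/
noncomputable def tau (n : ℕ) (F : K[X]) : K[X] →ₗ[K] K :=
  (lcoeff K (n - 1)) ∘ₗ (modByMonicHom F)

lemma tau_apply (F μ : K[X]) : tau n F μ = (μ %ₘ F).coeff (n - 1) := rfl

lemma tau_congr (F : K[X]) (hF : F.Monic) {μ ν : K[X]} (h : F ∣ μ - ν) :
    tau n F μ = tau n F ν := by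
  rw [tau_apply, tau_apply]
  congr 1
  have h1 : (μ - ν) %ₘ F = 0 := (modByMonic_eq_zero_iff_dvd hF).2 h
  rw [sub_modByMonic] at h1
  exact sub_eq_zero.1 h1

/-- The polynomial with the coefficients `u`. -/
noncomputable def pv (u : Fin n → K) : K[X] := ∑ k : Fin n, C (u k) * X ^ (k : ℕ)

lemma pv_coeff (u : Fin n → K) (k : Fin n) : (pv u).coeff k = u k := by
  unfold pv
  rw [finsetSum_coeff]
  simp only [coeff_C_mul, coeff_X_pow]
  rw [Finset.sum_eq_single k]
  · simp
  · intro j _ hj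
    have : (k : ℕ) ≠ (j : ℕ) := fun h => hj (Fin.ext h.symm)
    simp [this]
  · simp

lemma pv_degree_lt (u : Fin n → K) : (pv u).degree < n := by
  unfold pv
  rw [← Polynomial.mem_degreeLT]
  apply Submodule.sum_mem
  intro k _
  rw [Polynomial.mem_degreeLT]
  calc (C (u k) * X ^ (k : ℕ)).degree ≤ ((k : ℕ) : WithBot ℕ) := degree_C_mul_X_pow_le _ _
    _ < n := by exact_mod_cast k.2

lemma pv_coeffs (P : K[X]) (hP : P.degree < n) : pv (fun k : Fin n => P.coeff k) = P := by
  ext j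
  by_cases hj : j < n
  · exact pv_coeff (fun k : Fin n => P.coeff k) ⟨j, hj⟩
  · rw [coeff_eq_zero_of_degree_lt, coeff_eq_zero_of_degree_lt]
    · exact lt_of_lt_of_le hP (by exact_mod_cast (not_lt.1 hj))
    · exact lt_of_lt_of_le (pv_degree_lt _) (by exact_mod_cast (not_lt.1 hj))

lemma hank_form (F δ : K[X]) (u v : Fin n → K) :
    (u ᵥ* Hank n F δ) ⬝ᵥ v = tau n F (δ * pv u * pv v) := by
  have h1 : δ * pv u * pv v = ∑ i : Fin n, ∑ j : Fin n,
      (u i * v j) • (δ * X ^ ((i : ℕ) + j)) := by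
    unfold pv
    rw [mul_assoc, Finset.sum_mul_sum, Finset.mul_sum]
    refine Finset.sum_congr rfl fun i _ => ?_
    rw [Finset.mul_sum]
    refine Finset.sum_congr rfl fun j _ => ?_
    rw [smul_eq_C_mul, C_mul]
    ring
  rw [h1, map_sum]
  simp only [map_sum, map_smul, smul_eq_mul]
  simp only [dotProduct, vecMul, Finset.sum_mul]
  rw [Finset.sum_comm]
  refine Finset.sum_congr rfl fun i _ => Finset.sum_congr rfl fun j _ => ?_
  rw [tau_apply]
  unfold Hank
  ring

lemma mulMat_row (F s : K[X]) (hF : F.Monic) (hn : F.natDegree = n) (i : Fin n) :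
    pv (mulMat n F s i) = (s * X ^ (i : ℕ)) %ₘ F := by
  apply pv_coeffs
  calc ((s * X ^ (i : ℕ)) %ₘ F).degree < F.degree := degree_modByMonic_lt _ hF
    _ = n := by rw [degree_eq_natDegree hF.ne_zero, hn]

lemma pv_vecMul (F s : K[X]) (hF : F.Monic) (hn : F.natDegree = n) (u : Fin n → K) :
    F ∣ s * pv u - pv (u ᵥ* mulMat n F s) := by
  have h1 : pv (u ᵥ* mulMat n F s) = ∑ i : Fin n, C (u i) * ((s * X ^ (i : ℕ)) %ₘ F) := by
    simp only [← mulMat_row F s hF hn]
    unfold pv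
    simp only [Finset.mul_sum]
    rw [Finset.sum_comm]
    refine Finset.sum_congr rfl fun k _ => ?_
    simp only [vecMul, dotProduct, map_sum, Finset.sum_mul]
    refine Finset.sum_congr rfl fun i _ => ?_
    rw [C_mul]; ring
  have h2 : s * pv u = ∑ i : Fin n, C (u i) * (s * X ^ (i : ℕ)) := by
    unfold pv
    rw [Finset.mul_sum]
    refine Finset.sum_congr rfl fun i _ => ?_
    ring
  rw [h1, h2, ← Finset.sum_sub_distrib]
  apply Finset.dvd_sum
  intro i _
  rw [← mul_sub]
  apply Dvd.dvd.mul_left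
  refine ⟨(s * X ^ (i : ℕ)) /ₘ F, ?_⟩
  have := modByMonic_add_div (s * X ^ (i : ℕ)) F
  linear_combination (-1 : K[X]) * this

lemma hank_X (F δ : K[X]) (hF : F.Monic) (hn : F.natDegree = n) :
    Hank n F (X * δ) = mulMat n F X * Hank n F δ := by
  ext i j
  have h1 : (mulMat n F X * Hank n F δ) i j =
      (mulMat n F X i ᵥ* Hank n F δ) ⬝ᵥ (Pi.single j 1) := by
    rw [dotProduct_single, mul_one]
    rfl
  rw [h1, hank_form, mulMat_row F X hF hn]
  have h2 : pv (Pi.single j (1 : K)) = X ^ (j : ℕ) := by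
    unfold pv
    rw [Finset.sum_eq_single j]
    · simp
    · intro k _ hk
      rw [Pi.single_eq_of_ne hk]; simp
    · simp
  rw [h2]
  change tau n F (X * δ * X ^ ((i : ℕ) + j)) = _
  apply tau_congr F hF
  have h3 : F ∣ X * X ^ (i : ℕ) - (X * X ^ (i : ℕ)) %ₘ F := by
    refine ⟨(X * X ^ (i : ℕ)) /ₘ F, ?_⟩
    have := modByMonic_add_div (X * X ^ (i : ℕ)) F
    linear_combination (-1 : K[X]) * this
  have h4 : X * δ * X ^ ((i : ℕ) + j) - δ * ((X * X ^ (i : ℕ)) %ₘ F) * X ^ (j : ℕ) =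
      δ * X ^ (j : ℕ) * (X * X ^ (i : ℕ) - (X * X ^ (i : ℕ)) %ₘ F) := by
    rw [pow_add]; ring
  rw [h4]
  exact Dvd.dvd.mul_left h3 _

/-- `μ` is constant if `tau (μ X^k) = 0` for `k ≤ n - 2`. -/
lemma const_of_tau (F μ : K[X]) (hF : F.Monic) (hn : F.natDegree = n) (hn1 : 1 ≤ n)
    (h : ∀ k, k + 2 ≤ n → tau n F (μ * X ^ k) = 0) : ∃ r : K, F ∣ μ - C r := by
  set ρ := μ %ₘ F with hρ
  have hdeg : ρ.degree < n := by
    calc ρ.degree < F.degree := degree_modByMonic_lt _ hF
      _ = n := by rw [degree_eq_natDegree hF.ne_zero, hn]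
  have hdvd : F ∣ μ - ρ := by
    refine ⟨μ /ₘ F, ?_⟩
    have := modByMonic_add_div μ F
    linear_combination (-1 : K[X]) * this
  have key : ∀ k, k + 2 ≤ n → ∀ j ≤ k, ρ.coeff (n - 1 - j) = 0 := by
    intro k
    induction k with
    | zero =>
      intro hk j hj
      have hj0 : j = 0 := by omega
      subst hj0
      have := h 0 hk
      rw [pow_zero, mul_one, tau_apply] at this
      simpa using this
    | succ k ih =>
      intro hk j hj
      rcases Nat.lt_or_ge j (k + 1) with hlt | hge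
      · exact ih (by omega) j (by omega)
      have hj' : j = k + 1 := by omega
      subst hj'
      have hd : ρ.degree < ((n - 1 - k : ℕ) : WithBot ℕ) := by
        rw [degree_lt_iff_coeff_zero]
        intro i hi
        by_cases hin : i < n
        · have := ih (by omega) (n - 1 - i) (by omega)
          have h5 : n - 1 - (n - 1 - i) = i := by omega
          rwa [h5] at this
        · exact coeff_eq_zero_of_degree_lt (lt_of_lt_of_le hdeg (by exact_mod_cast (not_lt.1 hin)))
      have h1 := h (k + 1) hk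
      have h2 : tau n F (μ * X ^ (k + 1)) = tau n F (ρ * X ^ (k + 1)) := by
        apply tau_congr F hF
        rw [← sub_mul]
        exact Dvd.dvd.mul_right hdvd _
      rw [h2, tau_apply] at h1
      have h3 : (ρ * X ^ (k + 1)) %ₘ F = ρ * X ^ (k + 1) := by
        rw [modByMonic_eq_self_iff hF]
        rw [degree_eq_natDegree hF.ne_zero, hn]
        by_cases hρ0 : ρ = 0
        · rw [hρ0, zero_mul, degree_zero]
          exact WithBot.bot_lt_coe n
        rw [degree_mul, degree_X_pow, degree_eq_natDegree hρ0]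
        rw [degree_eq_natDegree hρ0] at hd
        have hd' : ρ.natDegree < n - 1 - k := by exact_mod_cast hd
        have : ρ.natDegree + (k + 1) < n := by omega
        exact_mod_cast this
      rw [h3] at h1
      have h4 : n - 1 = (n - 1 - (k + 1)) + (k + 1) := by omega
      rw [h4, coeff_mul_X_pow] at h1
      exact h1
  refine ⟨ρ.coeff 0, ?_⟩
  have h6 : ρ = C (ρ.coeff 0) := by
    ext i
    rw [coeff_C]
    by_cases hi : i = 0
    · rw [if_pos hi, hi]
    · rw [if_neg hi]
      by_cases hin : i < n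
      · have := key (n - 1 - i) (by omega) (n - 1 - i) le_rfl
        have h5 : n - 1 - (n - 1 - i) = i := by omega
        rwa [h5] at this
      · exact coeff_eq_zero_of_degree_lt (lt_of_lt_of_le hdeg (by exact_mod_cast (not_lt.1 hin)))
  rw [← h6]
  exact hdvd

end pol

end MidX

/-- `n` odd: a common isotropic subspace of dimension `(n - 1) / 2` makes the class trivial. -/
theorem mid_odd {n : ℕ} (hn : 2 ≤ n) (ho : Odd n) (κ : ℤ) (hκ : κ ≠ 0) (c : Fin n → ℤ)
    (hF : Irreducible (FZ ℚ c)) (δ : ℚ[X]) (hδ : IsCoprime δ (FZ ℚ c))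
    (hloc : ∀ (p : ℕ) [Fact p.Prime], MLoc κ c δ ℚ_[p]) (hR : MLoc κ c δ ℝ)
    (A B : Matrix (Fin n) (Fin n) ℤ) (h : IsPair c δ A B) (ht : ¬ Triv c δ) :
    ∃ i j : Fin n, (i : ℕ) < n / 2 ∧ (j : ℕ) < n / 2 ∧ (A i j ≠ 0 ∨ B i j ≠ 0) := by
  by_contra hcon
  push Not at hcon
  apply ht
  have hcls := det_class hn κ hκ c δ hδ hloc hR A B h
  obtain ⟨m, hm⟩ := ho
  have hm2 : n / 2 = m := by omega
  have hm1 : 1 ≤ m := by omega
  rw [hm2] at hcon
  obtain ⟨G, hG, hA, hB⟩ := h
  set F := FZ ℚ c with hFdef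
  have hmon : F.Monic := FZ_monic c
  have hdeg : F.natDegree = n := FZ_natDegree c
  set H := Hank n F δ with hH
  have hH0 : H.det ≠ 0 := hank_det_ne_zero F δ hmon hdeg hδ
  obtain ⟨u, hu0, hu1, hu2⟩ := MidX.exists_row hm hm1 G H (mulMat n F X) hG hH0 (by
      intro i j hi hj
      rw [← hA, map_apply, (hcon i j hi hj).1, Int.cast_zero]) (by
      intro i j hi hj
      rw [← MidX.hank_X F δ hmon hdeg, ← hB, map_apply, (hcon i j hi hj).2, Int.cast_zero])
  set w := MidX.pv u with hw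
  have hpow : ∀ k, F ∣ X ^ k * w - MidX.pv (u ᵥ* (mulMat n F X) ^ k) := by
    intro k
    induction k with
    | zero => simp [hw]
    | succ k ih =>
      have h1 := MidX.pv_vecMul F X hmon hdeg (u ᵥ* (mulMat n F X) ^ k)
      rw [vecMul_vecMul, ← pow_succ] at h1
      have h2 : X ^ (k + 1) * w - MidX.pv (u ᵥ* (mulMat n F X) ^ (k + 1)) =
          X * (X ^ k * w - MidX.pv (u ᵥ* (mulMat n F X) ^ k)) +
          (X * MidX.pv (u ᵥ* (mulMat n F X) ^ k) - MidX.pv (u ᵥ* (mulMat n F X) ^ (k + 1))) := by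
        ring
      rw [h2]
      exact dvd_add (Dvd.dvd.mul_left ih _) h1
  have hform : ∀ i j, (u ᵥ* (mulMat n F X) ^ i) ᵥ* H ⬝ᵥ (u ᵥ* (mulMat n F X) ^ j) =
      MidX.tau n F (δ * w ^ 2 * X ^ (i + j)) := by
    intro i j
    rw [MidX.hank_form]
    apply MidX.tau_congr F hmon
    obtain ⟨q1, hq1⟩ := hpow i
    obtain ⟨q2, hq2⟩ := hpow j
    refine ⟨-(δ * (q1 * MidX.pv (u ᵥ* (mulMat n F X) ^ j) + X ^ i * w * q2)), ?_⟩
    rw [pow_add]
    linear_combination (-(δ * MidX.pv (u ᵥ* (mulMat n F X) ^ j))) * hq1 -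
      (δ * X ^ i * w) * hq2
  obtain ⟨r, hr⟩ := MidX.const_of_tau F (δ * w ^ 2) hmon hdeg (by omega) (by
    intro k hk
    by_cases hk2 : k ≤ 2 * (m - 1)
    · have h1 := hu1 (k / 2) (by omega) (k - k / 2) (by omega)
      rw [hform] at h1
      have h2 : k / 2 + (k - k / 2) = k := by omega
      rwa [h2] at h1
    · have h1 := hu2 (m - 1) (by omega) (m - 1) (by omega)
      rw [hform] at h1
      have h2 : m - 1 + 1 + (m - 1) = k := by omega
      rwa [h2] at h1)
  -- `w` is invertible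
  have hw0 : ¬ F ∣ w := by
    intro hdvd
    apply hu0
    have h1 : w = 0 := by
      apply eq_zero_of_dvd_of_degree_lt hdvd
      rw [degree_eq_natDegree hmon.ne_zero, hdeg]
      exact MidX.pv_degree_lt u
    funext k
    rw [← MidX.pv_coeff u k, ← hw, h1]
    simp
  have hcop : IsCoprime w F := ((hF.coprime_iff_not_dvd.2 hw0)).symm
  -- the determinants
  have h1 : Hank n F (C r) = mulMat n F w * H * (mulMat n F w)ᵀ := by
    rw [← hank_mul_sq F δ w hmon hdeg]
    exact hank_congr _ _ _ hmon ((dvd_sub_comm).1 hr)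
  have hone : Hank n F (C r) = r • Hank n F 1 := by
    ext i j
    rw [Matrix.smul_apply, smul_eq_mul]
    change MidX.tau n F _ = r * MidX.tau n F _
    have h2 : (C r * X ^ ((i : ℕ) + j) : ℚ[X]) = r • ((1 : ℚ[X]) * X ^ ((i : ℕ) + j)) := by
      rw [smul_eq_C_mul, one_mul]
    rw [h2, map_smul, smul_eq_mul]
  have hdet1 : (Hank n F 1).det = (-1) ^ (n * (n - 1) / 2) := by
    have h2 := hank_char (n := n) F 1 hmon hdeg
    have h3 := congrArg (eval (0 : ℚ)) h2
    have h4 := hank_lin_det (n := n) F hmon hdeg (0 : ℚ)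
    have h5 : ((X : ℚ[X]) • (Hank n F 1).map C - (Hank n F (X * 1)).map C).det.eval 0 =
        (Hank n F (C 0 - X)).det := by
      rw [← coe_evalRingHom, RingHom.map_det]
      congr 1
      ext i j
      simp only [RingHom.mapMatrix_apply, map_apply, Matrix.sub_apply, Matrix.smul_apply, smul_eq_mul,
        coe_evalRingHom, eval_sub, eval_mul, eval_X, eval_C, zero_mul, zero_sub, mul_one]
      change - MidX.tau n F _ = MidX.tau n F _
      rw [← map_neg]
      congr 1
      rw [C_0]; ring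
    rw [h5, h4, eval_mul, eval_C] at h3
    have h6 : F.eval 0 ≠ 0 := by
      intro h0
      have h7 : (X - C (0 : ℚ)) ∣ F := dvd_iff_isRoot.2 h0
      have h8 := hF.isUnit_or_isUnit h7.choose_spec
      rcases h8 with h8 | h8
      · exact not_isUnit_X_sub_C 0 h8
      · have h9 : F.natDegree = 1 := by
          rw [h7.choose_spec, natDegree_mul (X_sub_C_ne_zero 0) h8.ne_zero, natDegree_X_sub_C,
            natDegree_eq_zero_of_isUnit h8]
        omega
    exact (mul_right_cancel₀ h6 h3).symm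
  have h2 := congrArg Matrix.det h1
  rw [hone, det_smul, Fintype.card_fin, hdet1, det_mul, det_mul, det_transpose] at h2
  -- the class
  obtain ⟨t, ht⟩ := hcls
  have hD : ((A.det : ℤ) : ℚ) = G.det ^ 2 * H.det := by
    have h3 := congrArg Matrix.det hA
    rw [det_mul, det_mul, det_transpose] at h3
    have h4 : (A.map (Int.cast : ℤ → ℚ)).det = ((A.det : ℤ) : ℚ) := by
      have := RingHom.map_det (Int.castRingHom ℚ) A
      simpa using this.symm
    rw [← h4, h3]; ring
  have ht' : ((-1 : ℚ) ^ (n * (n - 1) / 2)) * (κ : ℚ) ^ (n - 1) * (G.det ^ 2 * H.det) = t * t := by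
    rw [← hD]
    exact_mod_cast ht
  have hs1 : ((-1 : ℚ) ^ (n * (n - 1) / 2)) * ((-1 : ℚ) ^ (n * (n - 1) / 2)) = 1 := by
    rw [← mul_pow]; norm_num
  have hrn : IsSquare (r ^ n) := by
    set M := (mulMat n F w).det with hM
    refine ⟨t * M / ((κ : ℚ) ^ m * G.det), ?_⟩
    have hκq : (κ : ℚ) ≠ 0 := by exact_mod_cast hκ
    have h3 : ((κ : ℚ) ^ m * G.det) ≠ 0 := mul_ne_zero (pow_ne_zero _ hκq) hG
    rw [div_mul_div_comm, eq_div_iff (mul_ne_zero h3 h3)]
    generalize (-1 : ℚ) ^ (n * (n - 1) / 2) = e at *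
    have h4 : (κ : ℚ) ^ (n - 1) = (κ : ℚ) ^ m * (κ : ℚ) ^ m := by
      rw [← pow_add]; congr 1; omega
    rw [h4] at ht'
    generalize (κ : ℚ) ^ m = k at *
    linear_combination (-(r ^ n * k ^ 2 * G.det ^ 2)) * hs1 + (e * k ^ 2 * G.det ^ 2) * h2 +
      M ^ 2 * ht'
  have hr0 : r ≠ 0 := by
    rintro rfl
    rw [zero_pow (by omega : n ≠ 0), zero_mul] at h2
    exact mul_ne_zero (mul_ne_zero (mulMat_det_ne_zero F w hmon hdeg hcop) hH0)
      (mulMat_det_ne_zero F w hmon hdeg hcop) h2.symm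
  have hrs : IsSquare r := by
    obtain ⟨z, hz⟩ := hrn
    refine ⟨z / r ^ m, ?_⟩
    rw [div_mul_div_comm, eq_div_iff (mul_ne_zero (pow_ne_zero _ hr0) (pow_ne_zero _ hr0)), ← hz,
      hm]
    ring
  obtain ⟨z, hz⟩ := hrs
  -- inverse of `w`
  obtain ⟨a, b, hab⟩ := hcop
  refine ⟨C z * a, ?_⟩
  obtain ⟨q, hq⟩ := hr
  have hCz : (C r : ℚ[X]) = C z * C z := by rw [hz, C_mul]
  refine ⟨a ^ 2 * q + δ * b * (1 + a * w), ?_⟩
  linear_combination a ^ 2 * hq + a ^ 2 * hCz - δ * (1 + a * w) * hab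

end Stoll308.BG
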