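import Pool.Agent.Work.MP_308fa9_nt.BG.HankL
import Pool.Agent.Work.MP_308fa9_nt.BG.LCond2

set_option autoImplicit false

/-!
The local condition at a prime dividing the constant coefficient exactly once.
-/

namespace Stoll308.BG

open Polynomial Finset Matrix

namespace LCond

/-- The constant and the linear coefficient of the characteristic polynomial. -/
lemma char_coeffs {n : ℕ} (c : Fin n → ℤ) (A B : Matrix (Fin n) (Fin n) ℤ) (h : HasChar c A B) :
    (-1) ^ n * B.det = A.det * (FZ ℤ c).eval 0 ∧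
      (-1) ^ (n - 1) * (B.adjugate * A).trace = A.det * (derivative (FZ ℤ c)).eval 0 := by
  obtain ⟨-, hc⟩ := h
  have h8 : (((X : ℤ[X]) • A.map C - B.map C).map (evalRingHom (0 : ℤ))) = (-1 : ℤ) • B := by
    ext a b
    simp [Matrix.map_apply, Matrix.sub_apply, Matrix.smul_apply]
  have h9 : (A.map (C : ℤ →+* ℤ[X])).map (evalRingHom (0 : ℤ)) = A := by
    ext a b
    simp
  constructor
  · have h1 := congrArg (evalRingHom (0 : ℤ)) hc
    rw [RingHom.map_det, RingHom.mapMatrix_apply, h8, Matrix.det_smul, Fintype.card_fin,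
      map_mul] at h1
    simpa using h1
  · have h5 := derivative_det ((X : ℤ[X]) • A.map C - B.map C)
    rw [hc, derivative_C_mul] at h5
    have h6 : ((X : ℤ[X]) • A.map C - B.map C).map (fun q => derivative q) = A.map C := by
      ext a b
      simp [Matrix.map_apply, Matrix.sub_apply, Matrix.smul_apply, derivative_mul]
    rw [h6] at h5
    have h7 := congrArg (Polynomial.eval (0 : ℤ)) h5
    rw [eval_mul, eval_C] at h7
    rw [h7]
    have h10 : eval (0 : ℤ) (((X : ℤ[X]) • A.map C - B.map C).adjugate * A.map C).trace =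
        ((((X : ℤ[X]) • A.map C - B.map C).adjugate * A.map C).map (evalRingHom (0 : ℤ))).trace := by
      simp only [Matrix.trace, Matrix.diag_apply, eval_finsetSum, Matrix.map_apply,
        coe_evalRingHom]
    have h11 : (((X : ℤ[X]) • A.map C - B.map C).adjugate).map (evalRingHom (0 : ℤ)) =
        (((X : ℤ[X]) • A.map C - B.map C).map (evalRingHom (0 : ℤ))).adjugate :=
      RingHom.map_adjugate (evalRingHom (0 : ℤ)) _
    rw [h10, Matrix.map_mul, h9, h11, h8, Matrix.adjugate_smul, Fintype.card_fin,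
      Matrix.smul_mul, Matrix.trace_smul, smul_eq_mul]

end LCond

open LCond

theorem lcond {n : ℕ} (hn : 2 ≤ n) (κ : ℤ) (c : Fin n → ℤ) (δ : ℚ[X])
    (hδ : IsCoprime δ (FZ ℚ c)) (l : ℕ) [hl : Fact l.Prime] (h2 : l ≠ 2) (hκ : ¬ (l : ℤ) ∣ κ)
    (hloc : MLoc κ c δ ℚ_[l]) (A B : Matrix (Fin n) (Fin n) ℤ) (h : IsPair c δ A B)
    (hdet : A.det ∣ κ ^ (n - 1)) : ¬ Bad κ l A B := by
  rintro ⟨hB1, hB2, htr, hl', i, hi⟩
  have hlp : Prime (l : ℤ) := Nat.prime_iff_prime_int.mp hl.out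
  obtain ⟨hc1, hc2⟩ := char_coeffs c A B (h.hasChar hδ)
  have hdetl : ¬ (l : ℤ) ∣ A.det := fun hd => hκ (hlp.dvd_of_dvd_pow (hd.trans hdet))
  have h1 : (l : ℤ) ∣ (FZ ℤ c).eval 0 := by
    have h5 : (l : ℤ) ∣ A.det * (FZ ℤ c).eval 0 := by
      rw [← hc1]
      exact Dvd.dvd.mul_left hB1 _
    exact (hlp.dvd_or_dvd h5).resolve_left hdetl
  have h3 : ¬ (l : ℤ) ^ 2 ∣ (FZ ℤ c).eval 0 := by
    intro h5
    apply hB2
    have h6 : (l : ℤ) ^ 2 ∣ (-1) ^ n * B.det := by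
      rw [hc1]
      exact Dvd.dvd.mul_left h5 _
    have h7 : (l : ℤ) ^ 2 ∣ (-1) ^ n * ((-1) ^ n * B.det) := Dvd.dvd.mul_left h6 _
    rw [← mul_assoc, ← mul_pow] at h7
    simpa using h7
  have h4 : ¬ (l : ℤ) ∣ (derivative (FZ ℤ c)).eval 0 := by
    intro h5
    apply htr
    have h6 : (l : ℤ) ∣ (-1) ^ (n - 1) * (B.adjugate * A).trace := by
      rw [hc2]
      exact Dvd.dvd.mul_left h5 _
    have h7 : (l : ℤ) ∣ (-1) ^ (n - 1) * ((-1) ^ (n - 1) * (B.adjugate * A).trace) :=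
      Dvd.dvd.mul_left h6 _
    rw [← mul_assoc, ← mul_pow] at h7
    simpa using h7
  obtain ⟨θ, hθn, hθ, hθd, w, hw0, hw⟩ := local_core κ c δ l h2 hκ hloc h1 h3 h4
  obtain ⟨G, hG, hA, hB⟩ := h
  -- over `ℚ_l`
  set φ : ℚ →+* ℚ_[l] := algebraMap ℚ ℚ_[l] with hφ
  have hFm : (FZ ℚ c).Monic := FZ_monic c
  have hmapF : (FZ ℚ c).map φ = FZ ℚ_[l] c := FZ_map φ c
  have hA' : A.map (Int.cast : ℤ → ℚ_[l]) =
      G.map φ * Hank n (FZ ℚ_[l] c) (δ.map φ) * (G.map φ)ᵀ := by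
    have h5 : A.map (Int.cast : ℤ → ℚ_[l]) = (A.map (Int.cast : ℤ → ℚ)).map φ := by
      ext a b
      simp
    rw [h5, hA, Matrix.map_mul, Matrix.map_mul, ← hmapF, hank_map φ _ _ hFm,
      Matrix.transpose_map]
  have hB' : B.map (Int.cast : ℤ → ℚ_[l]) =
      G.map φ * Hank n (FZ ℚ_[l] c) (X * δ.map φ) * (G.map φ)ᵀ := by
    have h5 : B.map (Int.cast : ℤ → ℚ_[l]) = (B.map (Int.cast : ℤ → ℚ)).map φ := by
      ext a b
      simp
    have h6 : X * δ.map φ = (X * δ).map φ := by simp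
    rw [h5, hB, Matrix.map_mul, Matrix.map_mul, ← hmapF, h6, hank_map φ _ _ hFm,
      Matrix.transpose_map]
  have hGd : (G.map φ).det ≠ 0 := by
    rw [← RingHom.mapMatrix_apply, ← RingHom.map_det]
    exact (map_ne_zero φ).mpr hG
  obtain ⟨r, hr⟩ := adj_square (FZ ℚ_[l] c) (δ.map φ) (FZ_monic c) (FZ_natDegree c) (θ : ℚ_[l])
    hθ hθd (G.map φ) hGd _ _ hA' hB' i
  have hδ0 : (δ.map φ).eval (θ : ℚ_[l]) ≠ 0 := by
    intro h0
    rw [h0, mul_zero] at hw
    exact pow_ne_zero 2 hw0 hw.symm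
  -- the integral element
  set N : Matrix (Fin n) (Fin n) ℤ_[l] := θ • A.map (Int.cast : ℤ → ℤ_[l]) -
    B.map (Int.cast : ℤ → ℤ_[l]) with hN
  have hNc : ((N.adjugate i i * ((A.det : ℤ) : ℤ_[l]) * ((κ : ℤ) : ℤ_[l]) : ℤ_[l]) : ℚ_[l]) =
      ((θ : ℚ_[l]) • A.map (Int.cast : ℤ → ℚ_[l]) - B.map (Int.cast : ℤ → ℚ_[l])).adjugate i i *
        (A.map (Int.cast : ℤ → ℚ_[l])).det * κ := by
    have h5 : N.map (PadicInt.Coe.ringHom (p := l)) =
        (θ : ℚ_[l]) • A.map (Int.cast : ℤ → ℚ_[l]) - B.map (Int.cast : ℤ → ℚ_[l]) := by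
      ext a b
      rw [hN]
      simp only [Matrix.map_apply, Matrix.sub_apply, Matrix.smul_apply, smul_eq_mul, map_sub,
        map_mul, map_intCast]
      rfl
    have h6 : (A.map (Int.cast : ℤ → ℚ_[l])).det = ((A.det : ℤ) : ℚ_[l]) := by
      have h7 := RingHom.map_det (Int.castRingHom ℚ_[l]) A
      rw [RingHom.mapMatrix_apply] at h7
      exact h7.symm
    rw [← h5, h6, ← RingHom.mapMatrix_apply, ← RingHom.map_adjugate, RingHom.mapMatrix_apply,
      Matrix.map_apply]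
    simp only [PadicInt.coe_mul, PadicInt.coe_intCast]
    rfl
  have hsq : IsSquare ((N.adjugate i i * ((A.det : ℤ) : ℤ_[l]) * ((κ : ℤ) : ℤ_[l]) : ℤ_[l]) :
      ℚ_[l]) := by
    rw [hNc]
    refine ⟨r * w / (δ.map φ).eval (θ : ℚ_[l]), ?_⟩
    have h5 : r * w / (δ.map φ).eval (θ : ℚ_[l]) * (r * w / (δ.map φ).eval (θ : ℚ_[l])) =
        (r * r) * w ^ 2 / ((δ.map φ).eval (θ : ℚ_[l])) ^ 2 := by
      field_simp
    rw [h5, ← hr, ← hw, eq_div_iff (pow_ne_zero 2 hδ0)]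
    ring
  apply not_neg_one l ((-1) ^ (n - 1) * B.adjugate i i * A.det * κ) _ hsq _ hi
  have hθ0 : PadicInt.toZMod θ = 0 := by
    rw [← RingHom.mem_ker, PadicInt.ker_toZMod]
    rw [IsLocalRing.mem_maximalIdeal, mem_nonunits_iff, PadicInt.isUnit_iff]
    exact ne_of_lt hθn
  have h5 : N.map (PadicInt.toZMod (p := l)) = ((-1 : ℤ) • B).map (Int.castRingHom (ZMod l)) := by
    ext a b
    rw [hN]
    simp only [Matrix.map_apply, Matrix.sub_apply, Matrix.smul_apply, smul_eq_mul, map_sub,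
      map_mul, map_intCast, hθ0, zero_mul, zero_sub]
    simp
  have h6 : PadicInt.toZMod (N.adjugate i i) =
      (((-1 : ℤ) • B).adjugate i i : ℤ) := by
    have h7 : PadicInt.toZMod (N.adjugate i i) = (N.map (PadicInt.toZMod (p := l))).adjugate i i := by
      rw [← RingHom.mapMatrix_apply, ← RingHom.map_adjugate, RingHom.mapMatrix_apply,
        Matrix.map_apply]
    rw [h7, h5, ← RingHom.mapMatrix_apply, ← RingHom.map_adjugate, RingHom.mapMatrix_apply,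
      Matrix.map_apply]
    rfl
  rw [map_mul, map_mul, h6, Matrix.adjugate_smul, Fintype.card_fin, map_intCast, map_intCast]
  simp only [Matrix.smul_apply, smul_eq_mul]
  push_cast
  ring

/-- The condition for the trivial class; `c i` is the constant coefficient, `c j` the coefficient of
`T`. -/
theorem lcond_triv {n : ℕ} (hn : 2 ≤ n) (κ : ℤ) (c : Fin n → ℤ) (δ : ℚ[X])
    (hδ : IsCoprime δ (FZ ℚ c)) (l : ℕ) [hl : Fact l.Prime] (h2 : l ≠ 2) (hκ : ¬ (l : ℤ) ∣ κ)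
    (hloc : MLoc κ c δ ℚ_[l]) (ht : Triv c δ) (i j : Fin n) (hi : (i : ℕ) + 1 = n)
    (hj : (j : ℕ) + 2 = n) (h1 : (l : ℤ) ∣ c i) (h3 : ¬ (l : ℤ) ^ 2 ∣ c i)
    (h4 : ¬ (l : ℤ) ∣ c j) : legendreSym l κ ≠ -1 := by
  have e0 : (FZ ℤ c).eval 0 = c i := by
    rw [← coeff_zero_eq_eval_zero, ← FZ_coeff c i]
    congr 1
    omega
  have e1 : (derivative (FZ ℤ c)).eval 0 = c j := by
    rw [← coeff_zero_eq_eval_zero, coeff_derivative, ← FZ_coeff c j]
    have h5 : n - 1 - (j : ℕ) = 0 + 1 := by omega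
    rw [h5]
    simp
  obtain ⟨θ, hθn, hθ, hθd, w, hw0, hw⟩ := local_core κ c δ l h2 hκ hloc (by rw [e0]; exact h1)
    (by rw [e0]; exact h3) (by rw [e1]; exact h4)
  obtain ⟨s, q, hq⟩ := ht
  set φ : ℚ →+* ℚ_[l] := algebraMap ℚ ℚ_[l] with hφ
  have h5 : (δ.map φ).eval (θ : ℚ_[l]) = (s.map φ).eval (θ : ℚ_[l]) ^ 2 := by
    have h6 := congrArg (fun p : ℚ[X] => (p.map φ).eval (θ : ℚ_[l])) hq
    simp only [Polynomial.map_sub, Polynomial.map_mul, Polynomial.map_pow, eval_sub, eval_mul,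
      eval_pow] at h6
    rw [FZ_map φ c, hθ, zero_mul] at h6
    exact sub_eq_zero.mp h6
  have h0 : (s.map φ).eval (θ : ℚ_[l]) ≠ 0 := by
    intro h0
    rw [h5, h0] at hw
    exact pow_ne_zero 2 hw0 (by rw [← hw]; ring)
  refine not_neg_one l κ ((κ : ℤ) : ℤ_[l]) ?_ (by simp)
  refine ⟨w / (s.map φ).eval (θ : ℚ_[l]), ?_⟩
  rw [div_mul_div_comm, eq_div_iff (mul_ne_zero h0 h0)]
  rw [h5] at hw
  push_cast
  linear_combination hw

end Stoll308.BG
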