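import Pool.Agent.Work.MP_308fa9_nt.BG.PairEx
import Pool.Agent.Work.MP_308fa9_nt.BG.DetCls
import Pool.Agent.Work.MP_308fa9_nt.BG.LCond
import Pool.Agent.Work.MP_308fa9_nt.BG.Major
import Pool.Agent.Work.MP_308fa9_nt.BG.RedBasis

set_option autoImplicit false

/-!
A class which is locally everywhere the class of a point is either trivial or the class of a
reduced pair which satisfies all the local conditions.
-/

namespace Stoll308.BG

open Polynomial Finset Matrix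

lemma rep_conj_apply {R : Type*} [CommRing R] {n : ℕ} (U A : Matrix (Fin n) (Fin n) R)
    (i j : Fin n) : (U * A * Uᵀ) i j = U i ⬝ᵥ A *ᵥ U j := by
  rw [Matrix.mul_assoc, Matrix.mul_apply]
  simp only [dotProduct, mulVec, Matrix.mul_apply, transpose_apply]

lemma rep_row_ne {n : ℕ} (U : Matrix (Fin n) (Fin n) ℤ) (hU : IsUnit U.det) (i : Fin n) :
    (fun j => ((U i j : ℤ) : ℝ)) ≠ 0 := by
  intro h
  have h1 : U.det = 0 := by
    apply Matrix.det_eq_zero_of_row_eq_zero i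
    intro j
    have h2 : ((U i j : ℤ) : ℝ) = 0 := congrFun h j
    exact_mod_cast h2
  rw [h1] at hU
  exact not_isUnit_zero hU

theorem red_of_mloc {n : ℕ} (hn : 3 ≤ n) (κ : ℤ) (hκ : ¬ IsSquare κ) : ∃ K : ℝ, 1 ≤ K ∧
    ∀ c : Fin n → ℤ, Irreducible (FZ ℚ c) → ∀ M : ℝ, 0 ≤ M →
      (∀ θ : ℂ, (FZ ℂ c).eval θ = 0 → ‖θ‖ ≤ M) → ∀ δ : ℚ[X], IsCoprime δ (FZ ℚ c) →
      (∀ (p : ℕ) [Fact p.Prime], MLoc κ c δ ℚ_[p]) → MLoc κ c δ ℝ →
      (∀ (l : ℕ) (_ : Fact l.Prime), l ≠ 2 → ¬ (l : ℤ) ∣ κ → ∀ i j : Fin n, (i : ℕ) + 1 = n →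
        (j : ℕ) + 2 = n → (l : ℤ) ∣ c i → ¬ (l : ℤ) ^ 2 ∣ c i → ¬ (l : ℤ) ∣ c j →
          legendreSym l κ ≠ -1) ∨
      ∃ (A B : Matrix (Fin n) (Fin n) ℤ) (t : Fin n → ℝ), RPair K M c A B t ∧
        A.det ∣ κ ^ (n - 1) ∧ ∀ l : ℕ, l ≠ 2 → ¬ (l : ℤ) ∣ κ → ¬ Bad κ l A B := by
  have hκ0 : κ ≠ 0 := by
    rintro rfl
    exact hκ ⟨0, by simp⟩
  have hκ1 : (1 : ℝ) ≤ |(κ : ℝ)| := by
    have := Int.one_le_abs hκ0
    exact_mod_cast this
  obtain ⟨K₀, hK₀, hred⟩ := red_basis n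
  have hKκ : 1 ≤ K₀ * |(κ : ℝ)| ^ (n - 1) := one_le_mul_of_one_le_of_one_le hK₀ (one_le_pow₀ hκ1)
  refine ⟨√(K₀ * |(κ : ℝ)| ^ (n - 1)), Real.one_le_sqrt.2 hKκ, ?_⟩
  intro c hF M hM0 hM δ hδ hloc hR
  by_cases htriv : Triv c δ
  · left
    intro l hl h2 hlκ i j hi hj h1 h3 h4
    exact lcond_triv (by omega) κ c δ hδ l h2 hlκ (hloc l) htriv i j hi hj h1 h3 h4
  right
  obtain ⟨A₀, B₀, hpair, hdet⟩ := exists_pair (by omega) κ hκ0 c δ hδ hloc
  obtain ⟨P, hP, hPdet, hPA, hPB⟩ := majorant (by omega) c hF δ hδ A₀ B₀ hpair M hM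
  obtain ⟨U, hU, hsort, hprod⟩ := hred P hP
  have hpair' := hpair.conj hU
  set Q := U.map (Int.cast : ℤ → ℝ) * P * (U.map (Int.cast : ℤ → ℝ))ᵀ with hQ
  have hQii : ∀ i, Q i i = (fun j => ((U i j : ℤ) : ℝ)) ⬝ᵥ P *ᵥ (fun j => ((U i j : ℤ) : ℝ)) := by
    intro i
    rw [hQ, rep_conj_apply]
    rfl
  have hQpos : ∀ i, 0 < Q i i := by
    intro i
    rw [hQii]
    have h1 := hP.dotProduct_mulVec_pos (rep_row_ne U hU i)
    simpa using h1
  have hdetA : (U * A₀ * Uᵀ).det = A₀.det := by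
    rw [det_mul, det_mul, det_transpose]
    have h1 : U.det * U.det = 1 := by
      rcases Int.isUnit_iff.1 hU with h | h <;> rw [h] <;> norm_num
    calc U.det * A₀.det * U.det = U.det * U.det * A₀.det := by ring
      _ = A₀.det := by rw [h1, one_mul]
  have hcastA : ∀ (A' : Matrix (Fin n) (Fin n) ℤ) (i j : Fin n),
      (((U * A' * Uᵀ) i j : ℤ) : ℝ) = (fun j => ((U i j : ℤ) : ℝ)) ⬝ᵥ
        (A'.map (Int.cast : ℤ → ℝ)) *ᵥ (fun k => ((U j k : ℤ) : ℝ)) := by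
    intro A' i j
    rw [rep_conj_apply]
    simp only [dotProduct, mulVec, Matrix.map_apply]
    push_cast
    rfl
  have hdetκ : |(A₀.det : ℝ)| ≤ |(κ : ℝ)| ^ (n - 1) := by
    have h1 : |A₀.det| ≤ |κ ^ (n - 1)| :=
      Int.le_of_dvd (abs_pos.2 (pow_ne_zero _ hκ0)) ((abs_dvd_abs _ _).2 hdet)
    rw [abs_pow] at h1
    exact_mod_cast h1
  refine ⟨U * A₀ * Uᵀ, U * B₀ * Uᵀ, fun i => √(Q i i), ?_, ?_, ?_⟩
  · refine ⟨hpair'.symmA, hpair'.symmB, hpair'.hasChar hδ, fun i => Real.sqrt_pos.2 (hQpos i),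
      ?_, ?_, ?_, ?_, ?_, ?_⟩
    · intro i j
      rw [hcastA, ← Real.sqrt_mul (hQpos i).le]
      apply Real.abs_le_sqrt
      rw [hQii i, hQii j]
      exact hPA _ _
    · intro i j
      rw [hcastA, ← Real.sqrt_mul (hQpos i).le]
      have h1 : M * √(Q i i * Q j j) = √(M ^ 2 * (Q i i * Q j j)) := by
        rw [Real.sqrt_mul (sq_nonneg M), Real.sqrt_sq hM0]
      rw [h1]
      apply Real.abs_le_sqrt
      rw [hQii i, hQii j]
      exact hPB _ _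
    · intro i j hij
      exact Real.sqrt_le_sqrt (hsort i j hij)
    · rw [← Real.sqrt_prod _ (fun i _ => (hQpos i).le)]
      apply Real.sqrt_le_sqrt
      refine hprod.trans ?_
      rw [hPdet]
      gcongr
    · intro ho
      exact mid_odd (by omega) ho κ hκ0 c hF δ hδ hloc hR _ _ hpair' htriv
    · intro he
      exact mid_even (by omega) he κ hκ c δ hδ hloc hR _ _ hpair'
  · rw [hdetA]
    exact hdet
  · intro l h2 hlκ hbad
    obtain ⟨_, _, _, hl, _⟩ := id hbad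
    have := hl
    exact lcond (by omega) κ c δ hδ l h2 hlκ (hloc l) _ _ hpair' (by rw [hdetA]; exact hdet) hbad

end Stoll308.BG
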