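import Pool.Agent.Work.MP_308fa9_nt.BG.Basic

set_option autoImplicit false

/-!
Symmetric matrices over `ℤ/l` whose determinant is in a given nonzero square class: a lower bound
for their number. The corner entry (index `0`) is chosen last.
-/

namespace Stoll308.BG

open Finset Matrix

namespace BadSym

variable {R : Type*} {m : ℕ}

/-- The bordered matrix `[[x, wᵀ], [w, M]]`. -/
def bord (x : R) (w : Fin m → R) (M : Matrix (Fin m) (Fin m) R) :
    Matrix (Fin (m + 1)) (Fin (m + 1)) R :=
  fun i j => Fin.cases (Fin.cases x w j) (fun i' => Fin.cases (w i') (M i') j) i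

@[simp] lemma bord_zero_zero (x : R) (w : Fin m → R) (M : Matrix (Fin m) (Fin m) R) :
    bord x w M 0 0 = x := rfl

@[simp] lemma bord_zero_succ (x : R) (w : Fin m → R) (M : Matrix (Fin m) (Fin m) R) (j : Fin m) :
    bord x w M 0 j.succ = w j := rfl

@[simp] lemma bord_succ_zero (x : R) (w : Fin m → R) (M : Matrix (Fin m) (Fin m) R) (i : Fin m) :
    bord x w M i.succ 0 = w i := rfl

@[simp] lemma bord_succ_succ (x : R) (w : Fin m → R) (M : Matrix (Fin m) (Fin m) R)
    (i j : Fin m) : bord x w M i.succ j.succ = M i j := rfl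

lemma symM_comm (v : Ix m → R) (i j : Fin m) : symM v i j = symM v j i := by
  unfold symM
  simp only [min_comm i j, max_comm i j]

lemma symM_isSymm (v : Ix m → R) : (symM v).IsSymm := by
  ext i j
  exact symM_comm v j i

lemma symM_of_le (v : Ix m → R) (p : Ix m) : symM v p.1.1 p.1.2 = v p := by
  obtain ⟨⟨i, j⟩, h⟩ := p
  simp only [symM, min_eq_left h, max_eq_right h]

lemma bord_comm (x : R) (w : Fin m → R) (v : Ix m → R) (i j : Fin (m + 1)) :
    bord x w (symM v) i j = bord x w (symM v) j i := by
  refine Fin.cases ?_ (fun i' => ?_) i <;> refine Fin.cases ?_ (fun j' => ?_) j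
  · rfl
  · rfl
  · rfl
  · exact symM_comm v i' j'

/-- The entries of the bordered symmetric matrix. -/
def ext (x : R) (w : Fin m → R) (v : Ix m → R) : Ix (m + 1) → R :=
  fun p => bord x w (symM v) p.1.1 p.1.2

lemma symM_ext (x : R) (w : Fin m → R) (v : Ix m → R) :
    symM (ext x w v) = bord x w (symM v) := by
  funext i j
  simp only [symM, ext]
  rcases le_total i j with h | h
  · rw [min_eq_left h, max_eq_right h]
  · rw [min_eq_right h, max_eq_left h]
    exact bord_comm x w v j i

lemma ext_inj {x x' : R} {w w' : Fin m → R} {v v' : Ix m → R} (h : ext x w v = ext x' w' v') :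
    x = x' ∧ w = w' ∧ v = v' := by
  have hs : bord x w (symM v) = bord x' w' (symM v') := by
    rw [← symM_ext, ← symM_ext, h]
  refine ⟨?_, ?_, ?_⟩
  · exact congrFun (congrFun hs 0) 0
  · funext j
    exact congrFun (congrFun hs 0) j.succ
  · funext p
    have := congrFun (congrFun hs p.1.1.succ) p.1.2.succ
    rw [bord_succ_succ, bord_succ_succ, symM_of_le, symM_of_le] at this
    exact this

lemma det_bord [CommRing R] (x : R) (w : Fin m → R) (M : Matrix (Fin m) (Fin m) R) :
    (bord x w M).det = x * M.det + (bord 0 w M).det := by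
  rw [Matrix.det_succ_row_zero, Matrix.det_succ_row_zero (bord 0 w M), Fin.sum_univ_succ,
    Fin.sum_univ_succ (n := m)]
  have h0 : (bord x w M).submatrix Fin.succ (Fin.succAbove 0) = M := by
    ext i j
    simp [Matrix.submatrix_apply]
  have h1 : ∀ j : Fin m, (bord x w M).submatrix Fin.succ (Fin.succAbove j.succ)
      = (bord 0 w M).submatrix Fin.succ (Fin.succAbove j.succ) := by
    intro j
    ext i k
    rfl
  rw [h0]
  simp only [bord_zero_zero, bord_zero_succ, h1]
  simp

section Count

variable {l : ℕ} [hl : Fact l.Prime]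

/-- The corner entry is chosen last. -/
lemma step (S : Finset (ZMod l)) :
    (univ.filter fun v : Ix m → ZMod l => (symM v).det ≠ 0).card * (l ^ m * S.card)
      ≤ (univ.filter fun v : Ix (m + 1) → ZMod l => (symM v).det ∈ S).card := by
  classical
  have hcard : ((univ.filter fun v : Ix m → ZMod l => (symM v).det ≠ 0) ×ˢ
      ((univ : Finset (Fin m → ZMod l)) ×ˢ S)).card
      = (univ.filter fun v : Ix m → ZMod l => (symM v).det ≠ 0).card * (l ^ m * S.card) := by
    rw [Finset.card_product, Finset.card_product, Finset.card_univ, Fintype.card_fun, ZMod.card,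
      Fintype.card_fin]
  rw [← hcard]
  refine Finset.card_le_card_of_injOn
    (fun q => ext ((q.2.2 - (bord 0 q.2.1 (symM q.1)).det) / (symM q.1).det) q.2.1 q.1) ?_ ?_
  · rintro ⟨v, w, s⟩ hq
    simp only [coe_product, Set.mem_prod, coe_filter, mem_univ, true_and, coe_univ,
      Set.mem_ofPred_eq, Finset.mem_coe, Set.mem_univ] at hq ⊢
    rw [symM_ext, det_bord, div_mul_cancel₀ _ hq.1, sub_add_cancel]
    exact hq.2
  · rintro ⟨v, w, s⟩ hq ⟨v', w', s'⟩ hq' h
    simp only [coe_product, Set.mem_prod, coe_filter, mem_univ, true_and, coe_univ,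
      Set.mem_ofPred_eq, Finset.mem_coe, Set.mem_univ] at hq hq' h
    obtain ⟨h1, h2, h3⟩ := ext_inj h
    subst h2 h3
    have h4 := (div_left_inj' hq.1).1 h1
    have h5 := sub_left_inj.1 h4
    rw [h5]

lemma card_ne_zero : (univ.filter fun y : ZMod l => y ≠ 0).card = l - 1 := by
  rw [Finset.filter_ne', Finset.card_erase_of_mem (mem_univ _), Finset.card_univ, ZMod.card]

lemma card_nonres (h2 : l ≠ 2) {κ : ZMod l} (hκ : κ ≠ 0) :
    l - 1 ≤ 2 * (univ.filter fun y : ZMod l => quadraticChar (ZMod l) (κ * y) = -1).card := by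
  obtain ⟨a, ha⟩ : ∃ a : ZMod l, quadraticChar (ZMod l) a = -1 := by
    obtain ⟨a, ha⟩ := FiniteField.exists_nonsquare (F := ZMod l) (by rwa [ZMod.ringChar_zmod_n])
    exact ⟨a, quadraticChar_neg_one_iff_not_isSquare.2 ha⟩
  have ha0 : a ≠ 0 := by
    rintro rfl
    simp at ha
  have h3 : (univ.filter fun y : ZMod l => quadraticChar (ZMod l) (κ * y) = 1).card
      ≤ (univ.filter fun y : ZMod l => quadraticChar (ZMod l) (κ * y) = -1).card := by
    refine Finset.card_le_card_of_injOn (fun y => a * y) ?_ ?_
    · intro y hy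
      simp only [coe_filter, mem_univ, true_and, Set.mem_ofPred_eq] at hy ⊢
      rw [mul_left_comm, map_mul, ha, hy]; norm_num
    · intro x _ y _ hxy
      exact mul_left_cancel₀ ha0 hxy
  have h4 : (univ.filter fun y : ZMod l => y ≠ 0) ⊆
      (univ.filter fun y : ZMod l => quadraticChar (ZMod l) (κ * y) = 1) ∪
        (univ.filter fun y : ZMod l => quadraticChar (ZMod l) (κ * y) = -1) := by
    intro y hy
    simp only [mem_filter, mem_univ, true_and, mem_union] at hy ⊢
    exact quadraticChar_dichotomy (mul_ne_zero hκ hy)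
  have h5 := (Finset.card_le_card h4).trans (Finset.card_union_le _ _)
  rw [card_ne_zero] at h5
  omega

/-- The number of nonsingular symmetric matrices. -/
theorem card_nonsing (m : ℕ) : (l - 1) ^ m * l ^ (m * (m - 1) / 2) ≤
    (univ.filter fun v : Ix m → ZMod l => (symM v).det ≠ 0).card := by
  induction m with
  | zero =>
    have h : (univ.filter fun v : Ix 0 → ZMod l => (symM v).det ≠ 0)
        = (univ : Finset (Ix 0 → ZMod l)) := by
      refine Finset.filter_true_of_mem fun v _ => ?_
      rw [Matrix.det_isEmpty]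
      exact one_ne_zero
    rw [h]
    have : IsEmpty (Ix 0) := ⟨fun p => p.1.1.elim0⟩
    simp
  | succ m ih =>
    have h := step (m := m) (univ.filter fun y : ZMod l => y ≠ 0)
    rw [card_ne_zero] at h
    have h' : (univ.filter fun v : Ix (m + 1) → ZMod l => (symM v).det ∈
        (univ.filter fun y : ZMod l => y ≠ 0))
        = univ.filter fun v : Ix (m + 1) → ZMod l => (symM v).det ≠ 0 := by
      refine Finset.filter_congr fun v _ => ?_
      simp
    rw [h'] at h
    refine le_trans ?_ h
    have hexp : (m + 1) * (m + 1 - 1) / 2 = m * (m - 1) / 2 + m := by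
      rcases m with _ | k
      · rfl
      · have e1 : (k + 1 + 1) * (k + 1 + 1 - 1) = (k + 1) * (k + 1 - 1) + (k + 1) * 2 := by
          simp only [Nat.add_sub_cancel]; ring
        rw [e1, Nat.add_mul_div_right _ _ (by norm_num)]
    rw [hexp]
    calc (l - 1) ^ (m + 1) * l ^ (m * (m - 1) / 2 + m)
        = ((l - 1) ^ m * l ^ (m * (m - 1) / 2)) * (l ^ m * (l - 1)) := by ring
      _ ≤ _ := Nat.mul_le_mul_right _ ih

/-- The number of symmetric matrices whose determinant is in a given nonzero square class. -/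
theorem sym_count (h2 : l ≠ 2) (m : ℕ) (hm : 1 ≤ m) {c : ZMod l} (hc : c ≠ 0) :
    (l - 1) ^ m * l ^ (m * (m - 1) / 2) ≤
      2 * (univ.filter fun v : Ix m → ZMod l =>
        quadraticChar (ZMod l) (c * (symM v).det) = -1).card := by
  obtain ⟨k, rfl⟩ : ∃ k, m = k + 1 := ⟨m - 1, by omega⟩
  have h := step (m := k) (univ.filter fun y : ZMod l => quadraticChar (ZMod l) (c * y) = -1)
  have h' : (univ.filter fun v : Ix (k + 1) → ZMod l => (symM v).det ∈
      (univ.filter fun y : ZMod l => quadraticChar (ZMod l) (c * y) = -1))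
      = univ.filter fun v : Ix (k + 1) → ZMod l =>
        quadraticChar (ZMod l) (c * (symM v).det) = -1 := by
    refine Finset.filter_congr fun v _ => ?_
    simp
  rw [h'] at h
  have h3 := card_nonres h2 hc
  have h4 := card_nonsing (l := l) k
  have hexp : (k + 1) * (k + 1 - 1) / 2 = k * (k - 1) / 2 + k := by
    rcases k with _ | k
    · rfl
    · have e1 : (k + 1 + 1) * (k + 1 + 1 - 1) = (k + 1) * (k + 1 - 1) + (k + 1) * 2 := by
        simp only [Nat.add_sub_cancel]; ring
      rw [e1, Nat.add_mul_div_right _ _ (by norm_num)]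
  rw [hexp]
  calc (l - 1) ^ (k + 1) * l ^ (k * (k - 1) / 2 + k)
      = ((l - 1) ^ k * l ^ (k * (k - 1) / 2)) * (l ^ k * (l - 1)) := by ring
    _ ≤ (univ.filter fun v : Ix k → ZMod l => (symM v).det ≠ 0).card *
        (l ^ k * (2 * (univ.filter fun y : ZMod l =>
          quadraticChar (ZMod l) (c * y) = -1).card)) :=
        Nat.mul_le_mul h4 (Nat.mul_le_mul_left _ h3)
    _ = 2 * ((univ.filter fun v : Ix k → ZMod l => (symM v).det ≠ 0).card *
        (l ^ k * (univ.filter fun y : ZMod l =>
          quadraticChar (ZMod l) (c * y) = -1).card)) := by ring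
    _ ≤ _ := Nat.mul_le_mul_left _ h

end Count

end BadSym

end Stoll308.BG
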