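import Pool.Agent.Work.MP_308fa9_nt.BG.CuspCell

set_option autoImplicit false

/-!
Few polynomials come from reduced pairs with a short vector.
-/

namespace Stoll308.BG

open Polynomial Finset Matrix

namespace Cusp

lemma sqrt_pow_nat {x : ℝ} (hx : 0 ≤ x) (k : ℕ) : √(x ^ k) = √x ^ k := by
  induction k with
  | zero => simp
  | succ k ih => rw [pow_succ, pow_succ, Real.sqrt_mul (pow_nonneg hx k), ih]

/-- the tail of the geometric part -/
lemma part1 (Q n : ℕ) {δ : ℝ} (hδ : 0 < δ) : ∃ R : ℕ, ∀ b : ℕ,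
    ∑ r ∈ Ico R b, (((Q : ℝ) + 1) * (r + 1)) ^ n * (√2)⁻¹ ^ r ≤ δ := by
  set q : ℝ := (√2)⁻¹ with hq
  have h2 : (1 : ℝ) < √2 := by
    rw [Real.lt_sqrt (by norm_num)]
    norm_num
  have hq0 : 0 < q := by positivity
  have hq1 : q < 1 := inv_lt_one_of_one_lt₀ h2
  have hs1 : Summable fun r : ℕ => (r : ℝ) ^ n * q ^ r :=
    summable_pow_mul_geometric_of_norm_lt_one n (by rw [Real.norm_of_nonneg hq0.le]; exact hq1)
  have hs2 : Summable fun r : ℕ => ((r + 1 : ℕ) : ℝ) ^ n * q ^ (r + 1) :=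
    (summable_nat_add_iff (f := fun r : ℕ => (r : ℝ) ^ n * q ^ r) 1).mpr hs1
  have hs : Summable fun r : ℕ => (((Q : ℝ) + 1) * (r + 1)) ^ n * q ^ r := by
    have h3 := hs2.mul_left (((Q : ℝ) + 1) ^ n * q⁻¹)
    refine h3.congr fun r => ?_
    push_cast
    rw [mul_pow, pow_succ q r]
    field_simp
  have h0 : ∀ r : ℕ, 0 ≤ (((Q : ℝ) + 1) * (r + 1)) ^ n * q ^ r := fun r => by positivity
  have ht := tendsto_sum_nat_add fun r : ℕ => (((Q : ℝ) + 1) * (r + 1)) ^ n * q ^ r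
  obtain ⟨R, hR⟩ := ((ht.eventually (gt_mem_nhds hδ)).exists)
  refine ⟨R, fun b => ?_⟩
  rw [Finset.sum_Ico_eq_sum_range]
  have hsR : Summable fun k : ℕ => (((Q : ℝ) + 1) * ((k + R : ℕ) + 1)) ^ n * q ^ (k + R) :=
    (summable_nat_add_iff (f := fun r : ℕ => (((Q : ℝ) + 1) * (r + 1)) ^ n * q ^ r) R).mpr hs
  have h4 := hsR.sum_le_tsum (Finset.range (b - R)) fun k _ => h0 (k + R)
  refine le_trans (le_of_eq ?_) (h4.trans hR.le)
  refine Finset.sum_congr rfl fun k _ => ?_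
  rw [add_comm R k]

/-- the part coming from `1 / M` -/
lemma part2 (Q n : ℕ) {C δ : ℝ} (hC : 0 < C) (hδ : 0 < δ) : ∃ M₀ : ℝ, 1 ≤ M₀ ∧ ∀ M : ℝ, M₀ ≤ M →
    ((⌊Real.logb 2 (C * M ^ Q)⌋₊ + 1 : ℕ) : ℝ) *
      (((Q : ℝ) + 1) * ((⌊Real.logb 2 (C * M ^ Q)⌋₊ + 1 : ℕ) : ℝ)) ^ n * √(1 / M) ≤ δ := by
  set β : ℝ := |Real.logb 2 C| + 2 * Q + 1 with hβ
  have hβ0 : 0 < β := by positivity
  set γ : ℝ := β ^ (n + 1) * ((Q : ℝ) + 1) ^ n with hγ
  have hγ0 : 0 < γ := by positivity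
  have h1 : ∀ᶠ x : ℝ in Filter.atTop, Real.log x ^ ((n + 1 : ℕ) : ℝ) ≤ (δ / γ) * x ^ (1 / 2 : ℝ) := by
    have h3 := (isLittleO_log_rpow_rpow_atTop ((n + 1 : ℕ) : ℝ)
      (show (0 : ℝ) < 1 / 2 by norm_num)).bound (show (0 : ℝ) < δ / γ by positivity)
    filter_upwards [h3, Filter.eventually_ge_atTop (1 : ℝ)] with x hx hx1
    rwa [Real.norm_of_nonneg (Real.rpow_nonneg (Real.log_nonneg hx1) _),
      Real.norm_of_nonneg (by positivity)] at hx
  obtain ⟨M₁, hM₁⟩ := Filter.eventually_atTop.mp h1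
  refine ⟨max M₁ 3, by linarith [le_max_right M₁ 3], fun M hM => ?_⟩
  have hM3 : 3 ≤ M := (le_max_right _ _).trans hM
  have hM0 : 0 < M := by linarith
  have hMl := hM₁ M ((le_max_left _ _).trans hM)
  rw [Real.rpow_natCast] at hMl
  have hlog1 : 1 ≤ Real.log M := by
    rw [Real.le_log_iff_exp_le hM0]
    have := Real.exp_one_lt_d9
    linarith
  have hlog2 := Real.log_two_gt_d9
  set b : ℝ := ((⌊Real.logb 2 (C * M ^ Q)⌋₊ + 1 : ℕ) : ℝ) with hb
  have hb0 : 0 ≤ b := Nat.cast_nonneg _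
  have hbβ : b ≤ β * Real.log M := by
    have h4 : Real.logb 2 (C * M ^ Q) = Real.logb 2 C + Q * (Real.log M / Real.log 2) := by
      rw [Real.logb_mul hC.ne' (by positivity), Real.logb_pow]
      rfl
    have h5 : Real.log M / Real.log 2 ≤ 2 * Real.log M := by
      rw [div_le_iff₀ (by linarith)]
      nlinarith
    have h6 : Real.logb 2 (C * M ^ Q) ≤ |Real.logb 2 C| + Q * (2 * Real.log M) := by
      rw [h4]
      have := le_abs_self (Real.logb 2 C)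
      have := mul_le_mul_of_nonneg_left h5 (Nat.cast_nonneg Q : (0 : ℝ) ≤ Q)
      linarith
    have h7 : (⌊Real.logb 2 (C * M ^ Q)⌋₊ : ℝ) ≤ |Real.logb 2 C| + Q * (2 * Real.log M) := by
      have h8 : 0 ≤ |Real.logb 2 C| + Q * (2 * Real.log M) := by positivity
      rcases le_total 0 (Real.logb 2 (C * M ^ Q)) with h | h
      · exact (Nat.floor_le h).trans h6
      · rw [Nat.floor_of_nonpos h]
        simpa using h8
    have h9 : |Real.logb 2 C| ≤ |Real.logb 2 C| * Real.log M :=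
      le_mul_of_one_le_right (abs_nonneg _) hlog1
    rw [hb, hβ]
    push_cast
    linarith
  have hsq : √(1 / M) * M ^ (1 / 2 : ℝ) = 1 := by
    rw [← Real.sqrt_eq_rpow, ← Real.sqrt_mul (by positivity), one_div_mul_cancel hM0.ne',
      Real.sqrt_one]
  calc b * (((Q : ℝ) + 1) * b) ^ n * √(1 / M)
      = b ^ (n + 1) * ((Q : ℝ) + 1) ^ n * √(1 / M) := by rw [mul_pow, pow_succ b n]; ring
    _ ≤ (β * Real.log M) ^ (n + 1) * ((Q : ℝ) + 1) ^ n * √(1 / M) := by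
        gcongr
    _ = γ * (Real.log M ^ (n + 1) * √(1 / M)) := by rw [mul_pow, hγ]; ring
    _ ≤ γ * ((δ / γ * M ^ (1 / 2 : ℝ)) * √(1 / M)) := by
        gcongr
    _ = γ * (δ / γ) * (√(1 / M) * M ^ (1 / 2 : ℝ)) := by ring
    _ = δ := by rw [hsq]; field_simp

/-- the sum over the cells -/
lemma cells {n : ℕ} (h0 : 0 < n) {C : ℝ} (Q : ℕ) (hC : 0 < C) {ε : ℝ} (hε : 0 < ε) :
    ∃ (R : ℕ) (M₀ : ℝ), 1 ≤ M₀ ∧ ∀ M : ℝ, M₀ ≤ M → ∀ {α : Type} (T : Finset α)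
      (f : α → Fin n → ℤ) (V : ℝ), 0 ≤ V → (∀ c ∈ T, f c ⟨0, h0⟩ ≤ -R) →
      (∀ c ∈ T, ∀ i, f c ⟨0, h0⟩ ≤ f c i) → (∀ c ∈ T, ∀ i, f c i ≤ Q * (1 + |f c ⟨0, h0⟩|)) →
      (∀ c ∈ T, (2 : ℝ) ^ (-f c ⟨0, h0⟩) ≤ C * M ^ Q) →
      (∀ c ∈ T, ∀ S ⊆ T, (∀ c' ∈ S, f c' = f c) →
        (S.card : ℝ) ≤ C * V * √(max ((2 : ℝ) ^ (f c ⟨0, h0⟩)) (1 / M))) →
      (T.card : ℝ) ≤ ε * V := by
  classical
  obtain ⟨R, hR⟩ := part1 Q n (δ := ε / (2 * C)) (by positivity)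
  obtain ⟨M₀, hM₀1, hM₀⟩ := part2 Q n hC (δ := ε / (2 * C)) (by positivity)
  refine ⟨R, M₀, hM₀1, ?_⟩
  intro M hM α T f V hV hfR hmin hmax hpow hcell
  have hM1 : 1 ≤ M := hM₀1.trans hM
  have hM0 : 0 < M := by linarith
  set b : ℕ := ⌊Real.logb 2 (C * M ^ Q)⌋₊ + 1 with hb
  -- the index `r` of a cell
  set ρ : (Fin n → ℤ) → ℕ := fun τ => (-τ ⟨0, h0⟩).toNat with hρ
  set W : ℕ → ℝ := fun r => C * V * ((√2)⁻¹ ^ r + √(1 / M)) with hW
  have hW0 : ∀ r, 0 ≤ W r := fun r => by rw [hW]; positivity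
  have hρc : ∀ c ∈ T, (ρ (f c) : ℤ) = -f c ⟨0, h0⟩ := by
    intro c hc
    have := hfR c hc
    rw [hρ]
    simp only
    rw [Int.toNat_of_nonneg]
    have : (0 : ℤ) ≤ R := Int.natCast_nonneg R
    linarith
  have hρR : ∀ c ∈ T, ρ (f c) ∈ Ico R b := by
    intro c hc
    rw [Finset.mem_Ico]
    constructor
    · have h1 := hρc c hc
      have h2 := hfR c hc
      have : (R : ℤ) ≤ ρ (f c) := by linarith
      exact_mod_cast this
    · rw [hb, Nat.lt_succ_iff]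
      apply Nat.le_floor
      rw [Real.le_logb_iff_rpow_le (by norm_num) (by positivity), Real.rpow_natCast]
      have h1 := hpow c hc
      rw [← hρc c hc, zpow_natCast] at h1
      exact h1
  -- the bound of one cell
  have hone : ∀ τ ∈ T.image f, ((T.filter fun c => f c = τ).card : ℝ) ≤ W (ρ τ) := by
    intro τ hτ
    rw [Finset.mem_image] at hτ
    obtain ⟨c, hc, rfl⟩ := hτ
    refine (hcell c hc _ (Finset.filter_subset _ _)
      (fun c' hc' => (Finset.mem_filter.mp hc').2)).trans ?_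
    rw [hW]
    refine mul_le_mul_of_nonneg_left ?_ (by positivity)
    have h1 : (2 : ℝ) ^ (f c ⟨0, h0⟩) = (2⁻¹ : ℝ) ^ (ρ (f c)) := by
      have h2 : f c ⟨0, h0⟩ = -(ρ (f c) : ℤ) := by rw [hρc c hc]; ring
      rw [h2, _root_.zpow_neg, zpow_natCast, inv_pow]
    have h3 : √((2⁻¹ : ℝ) ^ (ρ (f c))) = (√2)⁻¹ ^ (ρ (f c)) := by
      rw [← Real.sqrt_inv, sqrt_pow_nat (by norm_num)]
    rw [h1, ← h3]
    rcases le_total ((2⁻¹ : ℝ) ^ (ρ (f c))) (1 / M) with h | h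
    · rw [max_eq_right h]
      linarith [Real.sqrt_nonneg ((2⁻¹ : ℝ) ^ (ρ (f c)))]
    · rw [max_eq_left h]
      linarith [Real.sqrt_nonneg (1 / M)]
  -- the number of cells
  have hcount : ∀ r, (((T.image f).filter fun τ => ρ τ = r).card : ℝ) ≤
      (((Q : ℝ) + 1) * (r + 1)) ^ n := by
    intro r
    have h1 : (T.image f).filter (fun τ => ρ τ = r) ⊆
        Fintype.piFinset fun _ : Fin n => Finset.Icc (-(r : ℤ)) (Q * (1 + r)) := by
      intro τ hτ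
      rw [Finset.mem_filter, Finset.mem_image] at hτ
      obtain ⟨⟨c, hc, rfl⟩, hr⟩ := hτ
      rw [Fintype.mem_piFinset]
      intro i
      rw [Finset.mem_Icc]
      have h2 := hρc c hc
      rw [hr] at h2
      have h3 := hmin c hc i
      have h4 := hmax c hc i
      have h5 : |f c ⟨0, h0⟩| = r := by
        have : f c ⟨0, h0⟩ = -(r : ℤ) := by rw [h2]; ring
        rw [this, abs_neg]
        exact abs_of_nonneg (Int.natCast_nonneg r)
      rw [h5] at h4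
      exact ⟨by linarith, h4⟩
    have h2 := Finset.card_le_card h1
    rw [Fintype.card_piFinset] at h2
    simp only [Int.card_Icc, Finset.prod_const, Finset.card_univ, Fintype.card_fin] at h2
    have h3 : ((Q : ℤ) * (1 + r) + 1 - -(r : ℤ)).toNat = (Q + 1) * (r + 1) := by
      have : ((Q : ℤ) * (1 + r) + 1 - -(r : ℤ)) = (((Q + 1) * (r + 1) : ℕ) : ℤ) := by
        push_cast
        ring
      rw [this, Int.toNat_natCast]
    rw [h3] at h2
    calc (((T.image f).filter fun τ => ρ τ = r).card : ℝ) ≤ (((Q + 1) * (r + 1)) ^ n : ℕ) := by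
          exact_mod_cast h2
      _ = (((Q : ℝ) + 1) * (r + 1)) ^ n := by push_cast; ring
  -- summation
  have hTsum : (T.card : ℝ) = ∑ τ ∈ T.image f, ((T.filter fun c => f c = τ).card : ℝ) := by
    rw [Finset.card_eq_sum_card_image f T]
    push_cast
    rfl
  have hmaps : ∀ τ ∈ T.image f, ρ τ ∈ Ico R b := by
    intro τ hτ
    rw [Finset.mem_image] at hτ
    obtain ⟨c, hc, rfl⟩ := hτ
    exact hρR c hc
  calc (T.card : ℝ) = ∑ τ ∈ T.image f, ((T.filter fun c => f c = τ).card : ℝ) := hTsum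
    _ ≤ ∑ τ ∈ T.image f, W (ρ τ) := Finset.sum_le_sum hone
    _ = ∑ r ∈ Ico R b, ∑ τ ∈ (T.image f).filter (fun τ => ρ τ = r), W (ρ τ) :=
        (Finset.sum_fiberwise_of_maps_to hmaps _).symm
    _ = ∑ r ∈ Ico R b, (((T.image f).filter fun τ => ρ τ = r).card : ℝ) * W r := by
        refine Finset.sum_congr rfl fun r _ => ?_
        rw [Finset.sum_congr rfl fun τ hτ => by rw [(Finset.mem_filter.mp hτ).2],
          Finset.sum_const, nsmul_eq_mul]
    _ ≤ ∑ r ∈ Ico R b, (((Q : ℝ) + 1) * (r + 1)) ^ n * W r :=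
        Finset.sum_le_sum fun r _ => mul_le_mul_of_nonneg_right (hcount r) (hW0 r)
    _ = C * V * (∑ r ∈ Ico R b, (((Q : ℝ) + 1) * (r + 1)) ^ n * (√2)⁻¹ ^ r) +
          C * V * ((∑ r ∈ Ico R b, (((Q : ℝ) + 1) * (r + 1)) ^ n) * √(1 / M)) := by
        rw [Finset.sum_mul, Finset.mul_sum, Finset.mul_sum, ← Finset.sum_add_distrib]
        refine Finset.sum_congr rfl fun r _ => ?_
        rw [hW]
        ring
    _ ≤ C * V * (ε / (2 * C)) + C * V * (ε / (2 * C)) := by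
        refine add_le_add (mul_le_mul_of_nonneg_left (hR b) (by positivity))
          (mul_le_mul_of_nonneg_left ?_ (by positivity))
        refine le_trans (mul_le_mul_of_nonneg_right ?_ (Real.sqrt_nonneg _)) (hM₀ M hM)
        calc ∑ r ∈ Ico R b, (((Q : ℝ) + 1) * (r + 1)) ^ n
            ≤ ∑ r ∈ Ico R b, (((Q : ℝ) + 1) * (b : ℝ)) ^ n := by
              refine Finset.sum_le_sum fun r hr => ?_
              have h1 : (r : ℝ) + 1 ≤ b := by
                have := (Finset.mem_Ico.mp hr).2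
                exact_mod_cast this
              gcongr
          _ = ((b - R : ℕ) : ℝ) * (((Q : ℝ) + 1) * (b : ℝ)) ^ n := by
              rw [Finset.sum_const, Nat.card_Ico, nsmul_eq_mul]
          _ ≤ (b : ℝ) * (((Q : ℝ) + 1) * (b : ℝ)) ^ n := by
              refine mul_le_mul_of_nonneg_right ?_ (by positivity)
              exact_mod_cast Nat.sub_le b R
    _ = ε * V := by field_simp; ring

end Cusp

theorem cusp (n : ℕ) (hn : 3 ≤ n) (K : ℝ) (hK : 1 ≤ K) (ε : ℝ) (hε : 0 < ε) :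
    ∃ τ₀ M₀ : ℝ, 0 < τ₀ ∧ ∀ M : ℝ, M₀ ≤ M → ∀ T : Finset (Fin n → ℤ),
      (∀ c ∈ T, Irreducible (FZ ℚ c) ∧ ∃ (A B : Matrix (Fin n) (Fin n) ℤ) (t : Fin n → ℝ),
        RPair K M c A B t ∧ ∃ i, t i ≤ τ₀) →
      (T.card : ℝ) ≤ ε * M ^ (n * (n + 1) / 2) := by
  classical
  obtain ⟨C, Q, hC, hcell⟩ := cell n hn K hK
  obtain ⟨R, M₀, hM₀1, hcells⟩ := Cusp.cells (by omega : 0 < n) Q hC hε
  refine ⟨(2 : ℝ) ^ (-(R : ℤ)), M₀, by positivity, fun M hM T hT => ?_⟩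
  have hM1 : 1 ≤ M := hM₀1.trans hM
  have hirr : ∀ c ∈ T, Irreducible (FZ ℚ c) := fun c hc => (hT c hc).1
  have hex : ∀ c ∈ T, ∃ (A B : Matrix (Fin n) (Fin n) ℤ) (t : Fin n → ℝ),
      RPair K M c A B t ∧ ∃ i, t i ≤ (2 : ℝ) ^ (-(R : ℤ)) := fun c hc => (hT c hc).2
  choose! A B t hR hi using hex
  set f : (Fin n → ℤ) → Fin n → ℤ := fun c i => Int.log 2 (t c i) with hf
  have hbox : ∀ c ∈ T, ∀ i, (2 : ℝ) ^ (f c i) ≤ t c i ∧ t c i < (2 : ℝ) ^ (f c i + 1) := by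
    intro c hc i
    have hpos := (hR c hc).pos i
    have h1 := Int.zpow_log_le_self (b := 2) (by norm_num) hpos
    have h2 := Int.lt_zpow_succ_log_self (b := 2) (by norm_num) (t c i)
    exact ⟨by exact_mod_cast h1, by exact_mod_cast h2⟩
  have hc1 : ∀ c ∈ T, ∀ S ⊆ T, S.Nonempty → (∀ c' ∈ S, f c' = f c) →
      (∀ i, f c ⟨0, by omega⟩ ≤ f c i) ∧ (∀ i, f c i ≤ Q * (1 + |f c ⟨0, by omega⟩|)) ∧
      (2 : ℝ) ^ (-f c ⟨0, by omega⟩) ≤ C * M ^ Q ∧
      (S.card : ℝ) ≤ C * M ^ (n * (n + 1) / 2) *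
        √(max ((2 : ℝ) ^ (f c ⟨0, by omega⟩)) (1 / M)) := by
    intro c hc S hS hSne hSf
    refine hcell M (f c) hM1 S hSne ?_
    intro c' hc'
    refine ⟨hirr c' (hS hc'), A c', B c', t c', hR c' (hS hc'), fun i => ?_⟩
    have := hbox c' (hS hc') i
    rwa [hSf c' hc'] at this
  have hself : ∀ c ∈ T, _ := fun c hc => hc1 c hc {c} (Finset.singleton_subset_iff.mpr hc)
    (Finset.singleton_nonempty c) (fun c' hc' => by rw [Finset.mem_singleton.mp hc'])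
  refine hcells M hM T f (M ^ (n * (n + 1) / 2)) (by positivity) ?_
    (fun c hc => (hself c hc).1) (fun c hc => (hself c hc).2.1)
    (fun c hc => (hself c hc).2.2.1) ?_
  · intro c hc
    obtain ⟨i, hi1⟩ := hi c hc
    have h1 := (hbox c hc i).1.trans hi1
    have h2 : f c i ≤ -(R : ℤ) := (zpow_le_zpow_iff_right₀ (by norm_num : (1 : ℝ) < 2)).mp h1
    exact ((hself c hc).1 i).trans h2
  · intro c hc S hS hSf
    rcases S.eq_empty_or_nonempty with rfl | hne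
    · rw [Finset.card_empty]
      push_cast
      positivity
    · exact (hc1 c hc S hS hne hSf).2.2.2

end Stoll308.BG
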