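import Pool.Agent.Work.MP_308fa9_nt.BG.Unip
import Pool.Agent.Work.MP_308fa9_nt.BG.Expo
import Pool.Agent.Work.MP_308fa9_nt.BG.Irr

set_option autoImplicit false

/-!
The number of polynomials which come from the reduced pairs of one dyadic cell.
-/

namespace Stoll308.BG

open Polynomial Finset Matrix

namespace CuspCell

lemma fpol_coeff {R : Type*} [CommRing R] {n : ℕ} (a : R) (b : Fin n → R) (i : Fin n) :
    (fpol a b).coeff (n - 1 - (i : ℕ)) = b i := by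
  unfold fpol
  rw [coeff_add, finsetSum_coeff, coeff_C_mul, coeff_X_pow, if_neg (by omega), mul_zero, zero_add,
    Finset.sum_eq_single i]
  · rw [coeff_C_mul, coeff_X_pow, if_pos rfl, mul_one]
  · intro j _ hj
    rw [coeff_C_mul, coeff_X_pow, if_neg, mul_zero]
    intro h
    apply hj
    ext
    omega
  · intro h
    exact absurd (mem_univ i) h

lemma fpol_inj {R : Type*} [CommRing R] {n : ℕ} {a : R} {b b' : Fin n → R}
    (h : fpol a b = fpol a b') : b = b' := by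
  funext i
  rw [← fpol_coeff a b i, ← fpol_coeff a b' i, h]

/-- The pair determines the polynomial. -/
lemma char_inj {n : ℕ} {c c' : Fin n → ℤ} {A B : Matrix (Fin n) (Fin n) ℤ}
    (h : HasChar c A B) (h' : HasChar c' A B) : c = c' := by
  have h1 : C A.det * FZ ℤ c = C A.det * FZ ℤ c' := by rw [← h.2, ← h'.2]
  have h2 : (C A.det : ℤ[X]) ≠ 0 := C_ne_zero.2 h.1
  have h3 := mul_left_cancel₀ h2 h1
  simpa using fpol_inj h3

/-- Unimodular changes of the basis. -/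
lemma char_congr {n : ℕ} {c : Fin n → ℤ} {A B W : Matrix (Fin n) (Fin n) ℤ} (hW : W.det = 1)
    (h : HasChar c A B) : HasChar c (W * A * Wᵀ) (W * B * Wᵀ) := by
  obtain ⟨h1, h2⟩ := h
  have hd : (W * A * Wᵀ).det = A.det := by
    rw [det_mul, det_mul, det_transpose, hW, one_mul, mul_one]
  refine ⟨by rw [hd]; exact h1, ?_⟩
  have e : (X : ℤ[X]) • (W * A * Wᵀ).map C - (W * B * Wᵀ).map C =
      W.map C * ((X : ℤ[X]) • A.map C - B.map C) * (W.map C)ᵀ := by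
    rw [Matrix.map_mul, Matrix.map_mul, Matrix.map_mul, Matrix.map_mul, Matrix.mul_sub,
      Matrix.sub_mul, Matrix.mul_smul, Matrix.smul_mul, transpose_map]
  have hWC : (W.map (C : ℤ → ℤ[X])).det = 1 := by
    have := RingHom.map_det (C : ℤ →+* ℤ[X]) W
    rw [hW, map_one] at this
    exact this.symm
  rw [e, det_mul, det_mul, det_transpose, hWC, one_mul, mul_one, h2, hd]

/-- A matrix with a large zero block is singular. -/
lemma zero_block {n : ℕ} {A : Matrix (Fin n) (Fin n) ℤ} (hA : A.det ≠ 0) (i : Fin n) :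
    ∃ i' j' : Fin n, i' ≤ i ∧ j' ≤ Fin.rev i ∧ A i' j' ≠ 0 := by
  by_contra hcon
  push Not at hcon
  apply hA
  rw [det_apply]
  refine Finset.sum_eq_zero fun σ _ => ?_
  -- some column `k ≤ rev i` is sent to a row `≤ i`
  obtain ⟨k, hk1, hk2⟩ : ∃ k : Fin n, k ≤ Fin.rev i ∧ σ k ≤ i := by
    by_contra hno
    push Not at hno
    have hsub : (Finset.Iic (Fin.rev i)).image σ ⊆ Finset.Ioi i := by
      intro x hx
      rw [Finset.mem_image] at hx
      obtain ⟨k, hk, rfl⟩ := hx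
      rw [Finset.mem_Iic] at hk
      rw [Finset.mem_Ioi]
      exact hno k hk
    have h1 := Finset.card_le_card hsub
    rw [Finset.card_image_of_injective _ σ.injective, Fin.card_Iic, Fin.card_Ioi, Fin.val_rev] at h1
    have := i.2
    omega
  have h0 : A (σ k) k = 0 := hcon (σ k) k hk2 hk1
  have hp : ∏ x, A (σ x) x = 0 := Finset.prod_eq_zero (mem_univ k) h0
  rw [hp, smul_zero]

lemma one_le_abs_cast {z : ℤ} (h : z ≠ 0) : (1 : ℝ) ≤ |(z : ℝ)| := by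
  have := Int.one_le_abs h
  exact_mod_cast this

/-- The conditions for the scale of a nonempty cell. -/
lemma conds {n : ℕ} (hn : 3 ≤ n) {K M : ℝ} (hM : 1 ≤ M) {c : Fin n → ℤ}
    (hF : Irreducible (FZ ℚ c)) {A B : Matrix (Fin n) (Fin n) ℤ} {t : Fin n → ℝ}
    (h : RPair K M c A B t) {τ : Fin n → ℤ}
    (ht : ∀ i, (2 : ℝ) ^ (τ i) ≤ t i ∧ t i < (2 : ℝ) ^ (τ i + 1)) (s : Fin n → ℝ)
    (hs : ∀ i, s i = (2 : ℝ) ^ (τ i + 1)) :
    (∀ i j, i ≤ j → s i ≤ s j) ∧ (∏ i, s i ≤ 2 ^ n * K) ∧ (∀ i, 1 ≤ s i * s (Fin.rev i)) ∧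
      (∀ i j : Fin n, (i : ℕ) + j = n - 2 → 1 ≤ M * (s i * s j)) ∧
      (Odd n → ∀ i : Fin n, (i : ℕ) + 1 = n / 2 → 1 ≤ M * s i ^ 2) ∧
      (Even n → ∀ i : Fin n, (i : ℕ) + 1 = n / 2 → 1 ≤ s i) := by
  have hts : ∀ i, t i ≤ s i := fun i => by rw [hs]; exact (ht i).2.le
  have hst : ∀ i, s i ≤ 2 * t i := fun i => by
    rw [hs, zpow_add_one₀ two_ne_zero, mul_comm]
    exact mul_le_mul_of_nonneg_left (ht i).1 zero_le_two
  have hs0 : ∀ i, 0 < s i := fun i => (h.pos i).trans_le (hts i)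
  have hτ : ∀ i j, i ≤ j → τ i ≤ τ j := by
    intro i j hij
    have h1 : (2 : ℝ) ^ (τ i) < (2 : ℝ) ^ (τ j + 1) :=
      lt_of_le_of_lt (ht i).1 (lt_of_le_of_lt (h.mono i j hij) (ht j).2)
    have h2 := (zpow_lt_zpow_iff_right₀ (one_lt_two (α := ℝ))).1 h1
    omega
  have hmono : ∀ i j, i ≤ j → s i ≤ s j := by
    intro i j hij
    rw [hs, hs]
    exact zpow_le_zpow_right₀ (one_le_two (α := ℝ)) (by have := hτ i j hij; omega)
  have hM0 : 0 < M := by linarith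
  -- nonzero entries
  have hAe : ∀ i j i' j' : Fin n, i' ≤ i → j' ≤ j → A i' j' ≠ 0 → 1 ≤ s i * s j := by
    intro i j i' j' hi hj hne
    calc (1 : ℝ) ≤ |(A i' j' : ℝ)| := one_le_abs_cast hne
      _ ≤ t i' * t j' := h.hA i' j'
      _ ≤ s i' * s j' := mul_le_mul (hts _) (hts _) (h.pos _).le (hs0 _).le
      _ ≤ s i * s j := mul_le_mul (hmono _ _ hi) (hmono _ _ hj) (hs0 _).le (hs0 _).le
  have hBe : ∀ i j i' j' : Fin n, i' ≤ i → j' ≤ j → B i' j' ≠ 0 → 1 ≤ M * (s i * s j) := by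
    intro i j i' j' hi hj hne
    calc (1 : ℝ) ≤ |(B i' j' : ℝ)| := one_le_abs_cast hne
      _ ≤ M * (t i' * t j') := h.hB i' j'
      _ ≤ M * (s i' * s j') := by
          apply mul_le_mul_of_nonneg_left _ hM0.le
          exact mul_le_mul (hts _) (hts _) (h.pos _).le (hs0 _).le
      _ ≤ M * (s i * s j) := by
          apply mul_le_mul_of_nonneg_left _ hM0.le
          exact mul_le_mul (hmono _ _ hi) (hmono _ _ hj) (hs0 _).le (hs0 _).le
  have hABe : ∀ i j i' j' : Fin n, i' ≤ i → j' ≤ j → (A i' j' ≠ 0 ∨ B i' j' ≠ 0) →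
      1 ≤ M * (s i * s j) := by
    intro i j i' j' hi hj hne
    rcases hne with hne | hne
    · have h1 := hAe i j i' j' hi hj hne
      nlinarith
    · exact hBe i j i' j' hi hj hne
  refine ⟨hmono, ?_, ?_, ?_, ?_, ?_⟩
  · calc ∏ i, s i ≤ ∏ i, (2 * t i) :=
          Finset.prod_le_prod (fun i _ => (hs0 i).le) fun i _ => hst i
      _ = 2 ^ n * ∏ i, t i := by
          rw [Finset.prod_mul_distrib, Finset.prod_const, Finset.card_univ, Fintype.card_fin]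
      _ ≤ 2 ^ n * K := mul_le_mul_of_nonneg_left h.prod (by positivity)
  · intro i
    obtain ⟨i', j', hi, hj, hne⟩ := zero_block h.char.1 i
    exact hAe i (Fin.rev i) i' j' hi hj hne
  · intro i j hij
    obtain ⟨i', j', hi, hj, hne⟩ := block_ne c hF A B h.char ((i : ℕ) + 1) (by omega) (by omega)
    refine hABe i j i' j' (Fin.le_def.2 (by omega)) (Fin.le_def.2 (by omega)) hne
  · intro hodd i hi
    obtain ⟨i', j', hi', hj', hne⟩ := h.odd hodd
    have := hABe i i i' j' (Fin.le_def.2 (by omega)) (Fin.le_def.2 (by omega)) hne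
    rwa [pow_two]
  · intro heven i hi
    obtain ⟨i', j', hi', hj', hne⟩ := h.even heven
    have h1 := hAe i i i' j' (Fin.le_def.2 (by omega)) (Fin.le_def.2 (by omega)) hne
    by_contra hlt
    push Not at hlt
    have := hs0 i
    nlinarith

/-- Products of opposite lengths are bounded. -/
lemma pair_le {n : ℕ} {K : ℝ} {s : Fin n → ℝ}
    (hs0 : ∀ i, 0 < s i) (hprod : ∏ i, s i ≤ K)
    (hrev : ∀ i, 1 ≤ s i * s (Fin.rev i)) (i : Fin n) : s i * s (Fin.rev i) ≤ K ^ 2 := by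
  have hP0 : 0 ≤ ∏ i, s i := Finset.prod_nonneg fun i _ => (hs0 i).le
  have hsq : ∏ i, (s i * s (Fin.rev i)) ≤ K ^ 2 := by
    rw [Finset.prod_mul_distrib]
    have e : ∏ i, s (Fin.rev i) = ∏ i, s i := Equiv.prod_comp Fin.revPerm (fun i => s i)
    rw [e, pow_two]
    exact mul_le_mul hprod hprod hP0 (hP0.trans hprod)
  refine le_trans ?_ hsq
  rw [← Finset.mul_prod_erase univ (fun i => s i * s (Fin.rev i)) (mem_univ i)]
  have h1 : (1 : ℝ) ≤ ∏ j ∈ univ.erase i, (s j * s (Fin.rev j)) := by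
    refine Finset.induction_on (univ.erase i) ?_ ?_
    · simp
    · intro a S ha ih
      rw [Finset.prod_insert ha]
      exact one_le_mul_of_one_le_of_one_le (hrev a) ih
  have h2 : 0 < s i * s (Fin.rev i) := mul_pos (hs0 _) (hs0 _)
  nlinarith

/-- The lower bound for the lengths. -/
lemma chain {n : ℕ} (hn : 3 ≤ n) {K M : ℝ} (hK : 1 ≤ K) (hM : 1 ≤ M) {s : Fin n → ℝ}
    (hs0 : ∀ i, 0 < s i) (hmono : ∀ i j, i ≤ j → s i ≤ s j) (hprod : ∏ i, s i ≤ K)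
    (hrev : ∀ i, 1 ≤ s i * s (Fin.rev i))
    (h3 : ∀ i j : Fin n, (i : ℕ) + j = n - 2 → 1 ≤ M * (s i * s j)) :
    ∀ (d : ℕ) (i : Fin n), (i : ℕ) + d = n - 1 → 1 ≤ (K ^ 2 * M) ^ d * s i := by
  have hK0 : 0 < K := by linarith
  have hM0 : 0 < M := by linarith
  intro d
  induction d with
  | zero =>
    intro i hi
    rw [pow_zero, one_mul]
    have h1 := hrev i
    have h2 : s (Fin.rev i) ≤ s i := hmono _ _ (by rw [Fin.le_def, Fin.val_rev]; omega)
    by_contra hlt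
    push Not at hlt
    have := hs0 i
    have := hs0 (Fin.rev i)
    nlinarith
  | succ d ih =>
    intro i hi
    have hi1 : (i : ℕ) + 1 < n := by omega
    obtain ⟨j, hj⟩ : ∃ j : Fin n, (j : ℕ) = (i : ℕ) + 1 := ⟨⟨(i : ℕ) + 1, hi1⟩, rfl⟩
    have h1 := ih j (by omega)
    have h2 := h3 i (Fin.rev j) (by rw [Fin.val_rev]; omega)
    have h4 := pair_le hs0 hprod hrev j
    have h5 := hs0 i
    have h6 := hs0 j
    have h7 := hs0 (Fin.rev j)
    have h8 : s j ≤ K ^ 2 * M * s i := by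
      have h9 : s j * 1 ≤ s j * (M * (s i * s (Fin.rev j))) := mul_le_mul_of_nonneg_left h2 h6.le
      have h10 : M * s i * (s j * s (Fin.rev j)) ≤ M * s i * K ^ 2 :=
        mul_le_mul_of_nonneg_left h4 (mul_pos hM0 h5).le
      nlinarith
    calc (1 : ℝ) ≤ (K ^ 2 * M) ^ d * s j := h1
      _ ≤ (K ^ 2 * M) ^ d * (K ^ 2 * M * s i) := mul_le_mul_of_nonneg_left h8 (by positivity)
      _ = (K ^ 2 * M) ^ (d + 1) * s i := by ring

/-- The number of the polynomials of a cell. -/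
lemma count {n : ℕ} (hn : 3 ≤ n) {K M : ℝ} (hM : 1 ≤ M) {s : Fin n → ℝ}
    (hs0 : ∀ i, 0 < s i) (T : Finset (Fin n → ℤ))
    (hT : ∀ c ∈ T, Irreducible (FZ ℚ c) ∧ ∃ (A B : Matrix (Fin n) (Fin n) ℤ) (t : Fin n → ℝ),
        RPair K M c A B t ∧ ∀ i, t i ≤ s i) :
    (T.card : ℝ) * ∏ i, ∏ j ∈ univ.filter (· < i), (s i / s j) ≤
      (3 * (n : ℝ) ^ 2) ^ (2 * Fintype.card (Ix n)) *
      ((∏ p : Ix n, max 1 (s p.1.1 * s p.1.2)) *
        (∏ p : Ix n, max 1 (M * (s p.1.1 * s p.1.2)))) := by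
  classical
  have hM0 : 0 < M := by linarith
  have hT' : ∀ c : Fin n → ℤ, ∃ p : Matrix (Fin n) (Fin n) ℤ × Matrix (Fin n) (Fin n) ℤ,
      c ∈ T → Irreducible (FZ ℚ c) ∧ HasChar c p.1 p.2 ∧ p.1.IsSymm ∧ p.2.IsSymm ∧
        (∀ i j, |(p.1 i j : ℝ)| ≤ 1 * (s i * s j)) ∧
        ∀ i j, |(p.2 i j : ℝ)| ≤ M * (s i * s j) := by
    intro c
    by_cases hc : c ∈ T
    · obtain ⟨hF, A, B, t, h, ht⟩ := hT c hc
      refine ⟨(A, B), fun _ => ⟨hF, h.char, h.symA, h.symB, fun i j => ?_, fun i j => ?_⟩⟩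
      · rw [one_mul]
        exact (h.hA i j).trans (mul_le_mul (ht _) (ht _) (h.pos _).le (hs0 _).le)
      · refine (h.hB i j).trans (mul_le_mul_of_nonneg_left ?_ hM0.le)
        exact mul_le_mul (ht _) (ht _) (h.pos _).le (hs0 _).le
    · exact ⟨(0, 0), fun h => absurd h hc⟩
  choose P hP using hT'
  have hinj : Set.InjOn P T := by
    intro c hc c' hc' he
    have h1 := (hP c hc).2.1
    have h2 := (hP c' hc').2.1
    rw [← he] at h2
    exact char_inj h1 h2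
  have hcount := unip_count s hs0 1 M zero_le_one hM0.le (T.image P) (by
      intro p hp
      rw [Finset.mem_image] at hp
      obtain ⟨c, hc, rfl⟩ := hp
      exact (hP c hc).2.2) (by
      intro p hp q hq W hW1 hW2 hA hB
      rw [Finset.mem_image] at hp hq
      obtain ⟨c, hc, rfl⟩ := hp
      obtain ⟨c', hc', rfl⟩ := hq
      have hdet : W.det = 1 := Unip.LU.det ⟨hW1, hW2⟩
      have h1 := char_congr hdet (hP c hc).2.1
      rw [hA, hB] at h1
      have h2 := char_inj h1 (hP c' hc').2.1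
      subst h2
      exact ⟨rfl, stab c (hP c hc).1 _ _ W (hP c hc).2.1 hW1 hW2 hA hB⟩)
  rw [Finset.card_image_of_injOn hinj] at hcount
  refine hcount.trans ?_
  have hn1 : (1 : ℝ) ≤ (n : ℝ) ^ 2 := by
    have : (1 : ℝ) ≤ n := by exact_mod_cast (by omega : 1 ≤ n)
    exact one_le_pow₀ this
  have hfac : ∀ x : ℝ, 2 * (n : ℝ) ^ 2 * x + 1 ≤ 3 * (n : ℝ) ^ 2 * max 1 x := by
    intro x
    have h1 : x ≤ max 1 x := le_max_right _ _
    have h2 : 1 ≤ max 1 x := le_max_left _ _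
    nlinarith
  have hprod : ∀ (a : ℝ), 0 ≤ a → ∏ p : Ix n, (2 * (n : ℝ) ^ 2 * a * (s p.1.1 * s p.1.2) + 1) ≤
      (3 * (n : ℝ) ^ 2) ^ Fintype.card (Ix n) * ∏ p : Ix n, max 1 (a * (s p.1.1 * s p.1.2)) := by
    intro a ha
    calc ∏ p : Ix n, (2 * (n : ℝ) ^ 2 * a * (s p.1.1 * s p.1.2) + 1)
        ≤ ∏ p : Ix n, (3 * (n : ℝ) ^ 2 * max 1 (a * (s p.1.1 * s p.1.2))) := by
          refine Finset.prod_le_prod (fun p _ => ?_) (fun p _ => ?_)
          · have := mul_pos (hs0 p.1.1) (hs0 p.1.2)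
            positivity
          · have := hfac (a * (s p.1.1 * s p.1.2))
            linarith
      _ = _ := by rw [Finset.prod_mul_distrib, Finset.prod_const, Finset.card_univ]
  have h1 := hprod 1 zero_le_one
  have h2 := hprod M hM0.le
  simp only [one_mul] at h1
  have e1 : ∏ p : Ix n, (2 * (n : ℝ) ^ 2 * 1 * (s p.1.1 * s p.1.2) + 1) ≤
      (3 * (n : ℝ) ^ 2) ^ Fintype.card (Ix n) * ∏ p : Ix n, max 1 (s p.1.1 * s p.1.2) := h1
  have hQ0 : ∀ a : ℝ, (0:ℝ) ≤ ∏ p : Ix n, max 1 (a * (s p.1.1 * s p.1.2)) := fun a =>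
    Finset.prod_nonneg fun p _ => zero_le_one.trans (le_max_left _ _)
  have hQ1 : (0:ℝ) ≤ ∏ p : Ix n, max 1 (s p.1.1 * s p.1.2) :=
    Finset.prod_nonneg fun p _ => zero_le_one.trans (le_max_left _ _)
  calc _ ≤ ((3 * (n : ℝ) ^ 2) ^ Fintype.card (Ix n) * ∏ p : Ix n, max 1 (s p.1.1 * s p.1.2)) *
      ((3 * (n : ℝ) ^ 2) ^ Fintype.card (Ix n) *
        ∏ p : Ix n, max 1 (M * (s p.1.1 * s p.1.2))) := by
        refine mul_le_mul e1 h2 (Finset.prod_nonneg fun p _ => ?_) (by positivity)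
        have := mul_pos (hs0 p.1.1) (hs0 p.1.2)
        positivity
    _ = _ := by ring

end CuspCell

open CuspCell in
theorem cell (n : ℕ) (hn : 3 ≤ n) (K : ℝ) (hK : 1 ≤ K) :
    ∃ (C : ℝ) (Q : ℕ), 0 < C ∧ ∀ (M : ℝ) (τ : Fin n → ℤ), 1 ≤ M → ∀ T : Finset (Fin n → ℤ),
      T.Nonempty →
      (∀ c ∈ T, Irreducible (FZ ℚ c) ∧ ∃ (A B : Matrix (Fin n) (Fin n) ℤ) (t : Fin n → ℝ),
        RPair K M c A B t ∧ ∀ i, (2 : ℝ) ^ (τ i) ≤ t i ∧ t i < (2 : ℝ) ^ (τ i + 1)) →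
      (∀ i, τ ⟨0, by omega⟩ ≤ τ i) ∧ (∀ i, τ i ≤ Q * (1 + |τ ⟨0, by omega⟩|)) ∧
      (2 : ℝ) ^ (-τ ⟨0, by omega⟩) ≤ C * M ^ Q ∧
      (T.card : ℝ) ≤ C * M ^ (n * (n + 1) / 2) *
        √(max ((2 : ℝ) ^ (τ ⟨0, by omega⟩)) (1 / M)) := by
  obtain ⟨K', hK'⟩ : ∃ K' : ℝ, K' = 2 ^ n * K := ⟨_, rfl⟩
  have hK'1 : 1 ≤ K' := by
    rw [hK']
    exact one_le_mul_of_one_le_of_one_le (one_le_pow₀ one_le_two) hK
  have hK'0 : 0 < K' := by linarith
  obtain ⟨C₀, hC₀, hexpo⟩ := expo n hn K' hK'1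
  obtain ⟨q, hq⟩ : ∃ q : ℕ, K' ^ 2 < 2 ^ q := pow_unbounded_of_one_lt _ one_lt_two
  have h0n : 0 < n := by omega
  obtain ⟨z, hz⟩ : ∃ z : Fin n, z = ⟨0, h0n⟩ := ⟨_, rfl⟩
  obtain ⟨D, hD⟩ : ∃ D : ℝ, D = (3 * (n : ℝ) ^ 2) ^ (2 * Fintype.card (Ix n)) := ⟨_, rfl⟩
  have hD0 : 0 < D := by
    rw [hD]
    have : (0 : ℝ) < n := by exact_mod_cast h0n
    positivity
  refine ⟨2 * (K' ^ 2) ^ (n - 1) + 2 * D * C₀, q + n, by positivity, ?_⟩
  intro M τ hM T hTne hT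
  rw [← hz]
  have hM0 : 0 < M := by linarith
  obtain ⟨s, hs⟩ : ∃ s : Fin n → ℝ, ∀ i, s i = (2 : ℝ) ^ (τ i + 1) := ⟨_, fun _ => rfl⟩
  have hs0 : ∀ i, 0 < s i := fun i => by rw [hs]; positivity
  obtain ⟨c₀, hc₀⟩ := hTne
  obtain ⟨hF₀, A₀, B₀, t₀, hR₀, ht₀⟩ := hT c₀ hc₀
  obtain ⟨hmono, hprod, hrev, h3, h4, h5⟩ := conds hn hM hF₀ hR₀ ht₀ s hs
  rw [← hK'] at hprod
  have hsz : s z = 2 * (2 : ℝ) ^ (τ z) := by
    rw [hs, zpow_add_one₀ two_ne_zero, mul_comm]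
  have hchain := chain hn hK'1 hM hs0 hmono hprod hrev h3 (n - 1) z (by rw [hz]; simp)
  refine ⟨fun i => ?_, fun i => ?_, ?_, ?_⟩
  · have h1 := hmono z i (by rw [hz, Fin.le_def]; simp)
    rw [hs, hs, zpow_le_zpow_iff_right₀ (one_lt_two (α := ℝ))] at h1
    omega
  · have h1 := pair_le hs0 hprod hrev z
    have h2 : s i ≤ s (Fin.rev z) := hmono _ _ (by
      rw [Fin.le_def, Fin.val_rev, hz]
      have := i.2
      simp only
      omega)
    have h6 : s z * s i < 2 ^ q :=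
      lt_of_le_of_lt ((mul_le_mul_of_nonneg_left h2 (hs0 z).le).trans h1) hq
    rw [hs, hs, ← zpow_add₀ two_ne_zero, ← zpow_natCast,
      zpow_lt_zpow_iff_right₀ (one_lt_two (α := ℝ))] at h6
    have h7 := neg_abs_le (τ z)
    have h8 : (0 : ℤ) ≤ |τ z| := abs_nonneg _
    have h9 : ((q + n : ℕ) : ℤ) * (1 + |τ z|) = q + n + (q + n) * |τ z| := by push_cast; ring
    rw [h9]
    have h10 : (3 : ℤ) ≤ n := by exact_mod_cast hn
    have h11 : (0 : ℤ) ≤ q := by positivity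
    nlinarith
  · have h1 : (2 : ℝ) ^ (-τ z) * (2 : ℝ) ^ (τ z) = 1 := by
      rw [← zpow_add₀ two_ne_zero]; simp
    have h2 : (0 : ℝ) < (2 : ℝ) ^ (-τ z) := by positivity
    have h6 : (2 : ℝ) ^ (-τ z) ≤ 2 * (K' ^ 2 * M) ^ (n - 1) := by
      rw [hsz] at hchain
      calc (2 : ℝ) ^ (-τ z) = (2 : ℝ) ^ (-τ z) * 1 := (mul_one _).symm
        _ ≤ (2 : ℝ) ^ (-τ z) * ((K' ^ 2 * M) ^ (n - 1) * (2 * (2 : ℝ) ^ (τ z))) :=
            mul_le_mul_of_nonneg_left hchain h2.le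
        _ = ((2 : ℝ) ^ (-τ z) * (2 : ℝ) ^ (τ z)) * (2 * (K' ^ 2 * M) ^ (n - 1)) := by ring
        _ = _ := by rw [h1, one_mul]
    calc (2 : ℝ) ^ (-τ z) ≤ 2 * (K' ^ 2 * M) ^ (n - 1) := h6
      _ = 2 * (K' ^ 2) ^ (n - 1) * M ^ (n - 1) := by rw [mul_pow]; ring
      _ ≤ (2 * (K' ^ 2) ^ (n - 1) + 2 * D * C₀) * M ^ (q + n) := by
          refine mul_le_mul ?_ (pow_le_pow_right₀ hM (by omega)) (by positivity) (by positivity)
          have : 0 < 2 * D * C₀ := by positivity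
          linarith
  · have hcount := count hn hM hs0 T (fun c hc => by
      obtain ⟨hF, A, B, t, h, ht⟩ := hT c hc
      exact ⟨hF, A, B, t, h, fun i => by rw [hs]; exact (ht i).2.le⟩)
    rw [← hD] at hcount
    have hKM : ∀ x : ℝ, 0 ≤ x → 1 ≤ M * x → 1 ≤ K' * M * x := by
      intro x hx h
      have : M * x ≤ K' * (M * x) := le_mul_of_one_le_left (by positivity) hK'1
      rw [mul_assoc]
      linarith
    have hexp := hexpo M s hM hs0 hmono hprod hrev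
      (fun i j hij => hKM _ (mul_pos (hs0 i) (hs0 j)).le (h3 i j hij))
      (fun ho i hi => hKM _ (sq_nonneg _) (h4 ho i hi))
      h5
    rw [← hz] at hexp
    obtain ⟨V, hV⟩ : ∃ V : ℝ, V = ∏ i, ∏ j ∈ univ.filter (· < i), (s i / s j) := ⟨_, rfl⟩
    have hV0 : 0 < V := by
      rw [hV]
      exact Finset.prod_pos fun i _ => Finset.prod_pos fun j _ => div_pos (hs0 i) (hs0 j)
    rw [← hV] at hcount hexp
    have hsqrt : √(max (s z) (1 / M)) ≤ 2 * √(max ((2 : ℝ) ^ (τ z)) (1 / M)) := by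
      have h1 : max (s z) (1 / M) ≤ 2 ^ 2 * max ((2 : ℝ) ^ (τ z)) (1 / M) := by
        have h2 : (2 : ℝ) ^ (τ z) ≤ max ((2 : ℝ) ^ (τ z)) (1 / M) := le_max_left _ _
        have h3 : 1 / M ≤ max ((2 : ℝ) ^ (τ z)) (1 / M) := le_max_right _ _
        have h4 : 0 < 1 / M := by positivity
        rw [hsz]
        refine max_le ?_ ?_
        · linarith
        · linarith
      calc √(max (s z) (1 / M)) ≤ √(2 ^ 2 * max ((2 : ℝ) ^ (τ z)) (1 / M)) :=
            Real.sqrt_le_sqrt h1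
        _ = 2 * √(max ((2 : ℝ) ^ (τ z)) (1 / M)) := by
            rw [Real.sqrt_mul (by norm_num), Real.sqrt_sq (by norm_num)]
    have h6 : (T.card : ℝ) * V ≤ (2 * D * C₀ * M ^ (n * (n + 1) / 2) *
        √(max ((2 : ℝ) ^ (τ z)) (1 / M))) * V := by
      calc (T.card : ℝ) * V ≤ D * (C₀ * M ^ (n * (n + 1) / 2) * V * √(max (s z) (1 / M))) :=
            hcount.trans (mul_le_mul_of_nonneg_left hexp hD0.le)
        _ ≤ D * (C₀ * M ^ (n * (n + 1) / 2) * V * (2 * √(max ((2 : ℝ) ^ (τ z)) (1 / M)))) := by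
            refine mul_le_mul_of_nonneg_left (mul_le_mul_of_nonneg_left hsqrt ?_) hD0.le
            positivity
        _ = _ := by ring
    have h7 := le_of_mul_le_mul_right h6 hV0
    refine h7.trans ?_
    refine mul_le_mul_of_nonneg_right (mul_le_mul_of_nonneg_right ?_ (by positivity))
      (Real.sqrt_nonneg _)
    have : 0 < 2 * (K' ^ 2) ^ (n - 1) := by positivity
    linarith

end Stoll308.BG
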