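import Mathlib

set_option autoImplicit false

/-!
The curves `y² = f(x^(2k))`, `f = α T^n + b₁ T^(n-1) + ... + bₙ`: local solubility and the Selmer
set of the classes of `x^(2k) - θ`. Definitions of the statement.
-/

namespace Stoll308.BG

open Polynomial Finset

/-- The polynomial `a T^n + b₀ T^(n-1) + ... + b_(n-1)`. -/
noncomputable def fpol {R : Type*} [CommRing R] {n : ℕ} (a : R) (b : Fin n → R) : R[X] :=
  C a * X ^ n + ∑ i : Fin n, C (b i) * X ^ (n - 1 - (i : ℕ))

/-- The smooth projective curve with the affine equation `y² = f(x^(2k))`,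
`f = α T^n + b₀ T^(n-1) + ... + b_(n-1)`, has a point over the field `K`: an affine one, or one of
the two points at infinity, which are defined over `K` if and only if `α` is a square in `K`. -/
def HasPoint {n : ℕ} (k : ℕ) (α : ℤ) (b : Fin n → ℤ) (K : Type*) [Field K] : Prop :=
  (∃ x y : K, y ^ 2 = (fpol (α : K) (fun i => (b i : K))).eval (x ^ (2 * k))) ∨ IsSquare (α : K)

/-- The curve has points over all completions of `ℚ`. -/
def ELS {n : ℕ} (k : ℕ) (α : ℤ) (b : Fin n → ℤ) : Prop :=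
  (∀ (p : ℕ) [Fact p.Prime], HasPoint k α b ℚ_[p]) ∧ HasPoint k α b ℝ

/-- There is an affine point `(x, y)`, `y ≠ 0`, of the curve over the field `K ⊇ ℚ` such that
`x^(2k) - θ` is `δ` times a square in `K[θ] = K[T]/(f)`, where `θ` is the class of `T`. -/
def LocalImage {n : ℕ} (k : ℕ) (α : ℤ) (b : Fin n → ℤ) (δ : ℚ[X]) (K : Type*) [Field K]
    [Algebra ℚ K] : Prop :=
  ∃ (x y : K) (s : K[X]), y ≠ 0 ∧
    y ^ 2 = (fpol (α : K) (fun i => (b i : K))).eval (x ^ (2 * k)) ∧
    fpol (α : K) (fun i => (b i : K)) ∣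
      (C (x ^ (2 * k)) - X) - δ.map (algebraMap ℚ K) * s ^ 2

/-- The Selmer set is nonempty: some `δ ∈ ℚ[θ]ˣ` is in the image of the local points at all places
of `ℚ`. -/
def Sel {n : ℕ} (k : ℕ) (α : ℤ) (b : Fin n → ℤ) : Prop :=
  ∃ δ : ℚ[X], IsCoprime δ (fpol (α : ℚ) (fun i => (b i : ℚ))) ∧
    (∀ (p : ℕ) [Fact p.Prime], LocalImage k α b δ ℚ_[p]) ∧ LocalImage k α b δ ℝ

open Classical in
/-- The number of vectors `b = (b₀, ..., b_(n-1))` of integers with `|b_i| ≤ X^(i+1)` which have the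
property `P`. -/
noncomputable def cnt (n : ℕ) (P : (Fin n → ℤ) → Prop) (X : ℕ) : ℕ :=
  ((Fintype.piFinset fun i : Fin n =>
    Icc (-(X : ℤ) ^ ((i : ℕ) + 1)) ((X : ℤ) ^ ((i : ℕ) + 1))).filter P).card

end Stoll308.BG
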