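import Pool.Agent.Work.MP_308fa9_nt.BG.HankL

set_option autoImplicit false

/-!
The square class of `det A`; consequences for isotropic subspaces.
-/

namespace Stoll308.BG

open Polynomial Finset Matrix

namespace DetCls

/-- An integer which is a square in `ℝ` and in all the `ℚ_p` is a square. -/
lemma int_sq (A : ℤ) (hR : ∃ w : ℝ, (A : ℝ) = w ^ 2)
    (hp : ∀ (p : ℕ) [Fact p.Prime], ∃ w : ℚ_[p], (A : ℚ_[p]) = w ^ 2) : ∃ r : ℤ, A = r ^ 2 := by
  by_cases hA : A = 0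
  · exact ⟨0, by rw [hA]; norm_num⟩
  have hA0 : 0 ≤ A := by
    obtain ⟨w, hw⟩ := hR
    have : (0 : ℝ) ≤ (A : ℝ) := by rw [hw]; positivity
    exact_mod_cast this
  obtain ⟨n, rfl⟩ := Int.eq_ofNat_of_zero_le hA0
  have hn : n ≠ 0 := by
    rintro rfl
    exact hA rfl
  obtain ⟨a, b, hab, hsf⟩ := Nat.sq_mul_squarefree n
  have ha1 : a = 1 := by
    by_contra hne
    obtain ⟨p, hpp, hpa⟩ := Nat.exists_prime_and_dvd hne
    have : Fact p.Prime := ⟨hpp⟩
    obtain ⟨w, hw⟩ := hp p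
    have hv : ((n : ℕ) : ℚ_[p]).valuation = padicValNat p n := Padic.valuation_natCast n
    have hw' : ((n : ℕ) : ℚ_[p]) = w ^ 2 := by
      rw [← hw]
      push_cast
      rfl
    rw [hw', Padic.valuation_pow] at hv
    have ha0 : a ≠ 0 := by
      rintro rfl
      simp at hab
      exact hn hab.symm
    have hb0 : b ≠ 0 := by
      rintro rfl
      simp at hab
      exact hn hab.symm
    rw [← hab, padicValNat.mul (pow_ne_zero _ hb0) ha0, padicValNat.pow] at hv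
    have hva : padicValNat p a = 1 := by
      apply le_antisymm
      · by_contra hcon
        push Not at hcon
        have h1 : p ^ 2 ∣ a := (padicValNat_dvd_iff_le ha0).2 hcon
        have h2 := hsf p (by rw [← sq]; exact h1)
        exact hpp.one_lt.ne' (Nat.isUnit_iff.1 h2)
      · exact one_le_padicValNat_of_dvd ha0 hpa
    rw [hva] at hv
    push_cast at hv
    omega
  refine ⟨b, ?_⟩
  rw [← hab, ha1]
  push_cast
  ring

/-- Over a completion, `(-1)^ε κ^(n-1) det (G Hank δ Gᵀ)` is a square. -/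
lemma loc_sq {n : ℕ} (κ : ℤ) (hκ : κ ≠ 0) (c : Fin n → ℤ) (δ : ℚ[X]) (K : Type) [Field K]
    [Algebra ℚ K] (h : MLoc κ c δ K) (g : ℚ) (D : ℚ) (hD : D = g ^ 2 * (Hank n (FZ ℚ c) δ).det) :
    ∃ w : K, algebraMap ℚ K ((-1) ^ (n * (n - 1) / 2) * (κ : ℚ) ^ (n - 1) * D) = w ^ 2 := by
  obtain ⟨x, y, s, hy, hxy, hs⟩ := h
  have hch : CharZero K := algebraRat.charZero K
  have hκK : (κ : K) ≠ 0 := by exact_mod_cast hκ
  have hmon : (FZ K c).Monic := FZ_monic c
  have hdeg : (FZ K c).natDegree = n := FZ_natDegree c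
  have h1 : Hank n (FZ K c) (C (κ * x ^ 2) - X) =
      mulMat n (FZ K c) s * Hank n (FZ K c) (δ.map (algebraMap ℚ K)) *
        (mulMat n (FZ K c) s)ᵀ := by
    rw [← hank_mul_sq _ _ _ hmon hdeg]
    exact hank_congr _ _ _ hmon hs
  have h2 : (Hank n (FZ K c) (δ.map (algebraMap ℚ K))).det =
      algebraMap ℚ K (Hank n (FZ ℚ c) δ).det := by
    rw [← FZ_map (algebraMap ℚ K) c, hank_map _ _ _ (FZ_monic c), RingHom.map_det]
    rfl
  have h3 := congrArg Matrix.det h1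
  rw [hank_lin_det _ hmon hdeg, ← hxy, det_mul, det_mul, det_transpose, h2] at h3
  set M := (mulMat n (FZ K c) s).det with hM
  set H := (Hank n (FZ ℚ c) δ).det with hH
  have hM0 : M ≠ 0 := by
    intro h0
    rw [h0, zero_mul, zero_mul] at h3
    have h4 : ((-1 : K) ^ (n * (n - 1) / 2)) ≠ 0 := pow_ne_zero _ (neg_ne_zero.2 one_ne_zero)
    have h5 : (κ : K) ^ (n - 1) * y ^ 2 ≠ 0 := mul_ne_zero (pow_ne_zero _ hκK) (pow_ne_zero _ hy)
    exact (mul_ne_zero h4 h5) h3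
  refine ⟨algebraMap ℚ K g * (κ : K) ^ (n - 1) * y / M, ?_⟩
  rw [hD]
  simp only [map_mul, map_pow, map_neg, map_one, map_intCast]
  have h6 : ((-1 : K) ^ (n * (n - 1) / 2)) * ((-1 : K) ^ (n * (n - 1) / 2)) = 1 := by
    rw [← mul_pow]; norm_num
  rw [div_pow, eq_div_iff (pow_ne_zero _ hM0)]
  generalize (-1 : K) ^ (n * (n - 1) / 2) = e at *
  generalize algebraMap ℚ K H = HK at *
  generalize algebraMap ℚ K g = gK at *
  generalize (κ : K) ^ (n - 1) = k1 at *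
  linear_combination (-(e * k1 * gK ^ 2)) * h3 + (k1 ^ 2 * gK ^ 2 * y ^ 2) * h6

/-- The determinant of a symmetric matrix with a zero block of half the size. -/
lemma det_half {m : ℕ} (C D : Matrix (Fin m) (Fin m) ℤ) :
    (fromBlocks 0 C Cᵀ D).det = (-1) ^ m * C.det ^ 2 := by
  set I : Matrix (Fin m) (Fin m) ℤ := 1 with hI
  set Z : Matrix (Fin m) (Fin m) ℤ := 0 with hZ
  have hJ : (fromBlocks Z I I Z).det = (-1) ^ m := by
    have h1 : fromBlocks Z I I Z * fromBlocks I Z I I = fromBlocks I I I Z := by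
      rw [fromBlocks_multiply]; simp [hI, hZ]
    have h2 := congrArg Matrix.det h1
    rw [det_mul, det_fromBlocks_zero₁₂, det_fromBlocks_one₁₁] at h2
    simpa [hI, hZ, det_neg] using h2
  have h1 : fromBlocks Z C Cᵀ D * fromBlocks Z I I Z = fromBlocks C Z D Cᵀ := by
    rw [fromBlocks_multiply]; simp [hI, hZ]
  have h2 := congrArg Matrix.det h1
  rw [det_mul, hJ, hZ, det_fromBlocks_zero₁₂, det_transpose] at h2
  have h3 : ((-1 : ℤ) ^ m) * ((-1) ^ m) = 1 := by rw [← mul_pow]; norm_num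
  calc (fromBlocks 0 C Cᵀ D).det = (fromBlocks 0 C Cᵀ D).det * (((-1 : ℤ) ^ m) * ((-1) ^ m)) := by
        rw [h3, mul_one]
    _ = ((fromBlocks 0 C Cᵀ D).det * ((-1 : ℤ) ^ m)) * ((-1) ^ m) := by ring
    _ = _ := by rw [h2]; ring

end DetCls

theorem det_class {n : ℕ} (hn : 2 ≤ n) (κ : ℤ) (hκ : κ ≠ 0) (c : Fin n → ℤ) (δ : ℚ[X])
    (hδ : IsCoprime δ (FZ ℚ c)) (hloc : ∀ (p : ℕ) [Fact p.Prime], MLoc κ c δ ℚ_[p])
    (hR : MLoc κ c δ ℝ) (A B : Matrix (Fin n) (Fin n) ℤ) (h : IsPair c δ A B) :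
    IsSquare ((-1) ^ (n * (n - 1) / 2) * κ ^ (n - 1) * A.det) := by
  obtain ⟨G, hG, hA, hB⟩ := h
  have hD : ((A.det : ℤ) : ℚ) = G.det ^ 2 * (Hank n (FZ ℚ c) δ).det := by
    have h1 := congrArg Matrix.det hA
    rw [det_mul, det_mul, det_transpose] at h1
    have h2 : (A.map (Int.cast : ℤ → ℚ)).det = ((A.det : ℤ) : ℚ) := by
      have := RingHom.map_det (Int.castRingHom ℚ) A
      simpa using this.symm
    rw [← h2, h1]; ring
  obtain ⟨r, hr⟩ := DetCls.int_sq ((-1) ^ (n * (n - 1) / 2) * κ ^ (n - 1) * A.det) (by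
      obtain ⟨w, hw⟩ := DetCls.loc_sq κ hκ c δ ℝ hR G.det _ hD
      refine ⟨w, ?_⟩
      rw [← hw]
      simp) (by
      intro p hp
      obtain ⟨w, hw⟩ := DetCls.loc_sq κ hκ c δ ℚ_[p] (hloc p) G.det _ hD
      refine ⟨w, ?_⟩
      rw [← hw]
      simp)
  exact ⟨r, by rw [hr, sq]⟩

/-- `n` even: no isotropic subspace of dimension `n / 2`. -/
theorem mid_even {n : ℕ} (hn : 2 ≤ n) (he : Even n) (κ : ℤ) (hκ : ¬ IsSquare κ) (c : Fin n → ℤ)
    (δ : ℚ[X]) (hδ : IsCoprime δ (FZ ℚ c)) (hloc : ∀ (p : ℕ) [Fact p.Prime], MLoc κ c δ ℚ_[p])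
    (hR : MLoc κ c δ ℝ) (A B : Matrix (Fin n) (Fin n) ℤ) (h : IsPair c δ A B) :
    ∃ i j : Fin n, (i : ℕ) < n / 2 ∧ (j : ℕ) < n / 2 ∧ A i j ≠ 0 := by
  by_contra hcon
  push Not at hcon
  have hκ0 : κ ≠ 0 := by
    rintro rfl
    exact hκ ⟨0, by simp⟩
  have hsq := det_class hn κ hκ0 c δ hδ hloc hR A B h
  have hsym : A.IsSymm := h.symmA
  have hA0 : A.det ≠ 0 := (h.hasChar hδ).1
  obtain ⟨m, rfl⟩ := he
  have hm : (m + m) / 2 = m := by omega
  rw [hm] at hcon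
  set e := finSumFinEquiv (m := m) (n := m) with he
  set C' : Matrix (Fin m) (Fin m) ℤ := fun i j => A (e (Sum.inl i)) (e (Sum.inr j)) with hC'
  set D' : Matrix (Fin m) (Fin m) ℤ := fun i j => A (e (Sum.inr i)) (e (Sum.inr j)) with hD'
  have hblock : A.submatrix e e = fromBlocks 0 C' C'ᵀ D' := by
    ext i j
    rcases i with i | i <;> rcases j with j | j
    · simp only [submatrix_apply, fromBlocks_apply₁₁, Matrix.zero_apply]
      apply hcon
      · simp [he]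
      · simp [he]
    · rfl
    · simp only [submatrix_apply, fromBlocks_apply₂₁, transpose_apply, hC']
      exact hsym.apply _ _
    · rfl
  have hdet : A.det = (-1) ^ m * C'.det ^ 2 := by
    rw [← det_submatrix_equiv_self e A, hblock, DetCls.det_half]
  have hC0 : C'.det ≠ 0 := by
    intro h0
    apply hA0
    rw [hdet, h0]; simp
  obtain ⟨r, hr⟩ := hsq
  have hexp : (m + m) * (m + m - 1) / 2 = m * (m + m - 1) := by
    have : (m + m) * (m + m - 1) = 2 * (m * (m + m - 1)) := by ring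
    rw [this, Nat.mul_div_cancel_left _ (by norm_num)]
  have hm1 : 1 ≤ m := by omega
  obtain ⟨k, rfl⟩ : ∃ k, m = k + 1 := ⟨m - 1, by omega⟩
  have hs1 : k + 1 + (k + 1) - 1 = 2 * k + 1 := by omega
  rw [hexp, hs1, hdet] at hr
  have hsign : ((-1 : ℤ) ^ ((k + 1) * (2 * k + 1))) * (-1) ^ (k + 1) = 1 := by
    rw [← pow_add]
    have : (k + 1) * (2 * k + 1) + (k + 1) = 2 * ((k + 1) * (k + 1)) := by ring
    rw [this, pow_mul]; simp
  have hr2 : κ * (κ ^ k * C'.det) ^ 2 = r * r := by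
    generalize (-1 : ℤ) ^ ((k + 1) * (2 * k + 1)) = a at hr hsign
    generalize (-1 : ℤ) ^ (k + 1) = b at hr hsign
    generalize C'.det = z at hr
    linear_combination hr - (κ ^ (2 * k + 1) * z ^ 2) * hsign
  have hne : κ ^ k * C'.det ≠ 0 := mul_ne_zero (pow_ne_zero _ hκ0) hC0
  have hdvd : κ ^ k * C'.det ∣ r := by
    rw [← Int.pow_dvd_pow_iff (n := 2) (by norm_num)]
    exact ⟨κ, by rw [sq r, ← hr2]; ring⟩
  obtain ⟨t, rfl⟩ := hdvd
  apply hκ
  refine ⟨t, ?_⟩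
  have h7 : (κ ^ k * C'.det) ^ 2 * κ = (κ ^ k * C'.det) ^ 2 * (t * t) := by
    linear_combination hr2
  exact mul_left_cancel₀ (pow_ne_zero 2 hne) h7

end Stoll308.BG
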