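import Pool.Agent.Work.MP_308fa9_nt.BG.ElsPoly

set_option autoImplicit false

/-!
The bad reductions of `y² = g(x^(2k))`: `g(x^(2k))` a constant times a square.
-/

namespace Stoll308.BG.Els

open Finset Polynomial

/-- The scaled coefficients of the square root of `g/α`. -/
def U {R : Type*} [CommRing R] (α : R) (β : ℕ → R) : ℕ → R
  | 0 => 0
  | (j + 1) => (4 * α) ^ j * β (j + 1) - ∑ i : Fin j, U α β (i + 1) * U α β (j - i)
decreasing_by
  · have := i.2; omega
  · omega

lemma U_succ {R : Type*} [CommRing R] (α : R) (β : ℕ → R) (j : ℕ) :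
    U α β (j + 1) = (4 * α) ^ j * β (j + 1) - ∑ i : Fin j, U α β (i + 1) * U α β (j - i) := by
  rw [U]

lemma U_map {R S : Type*} [CommRing R] [CommRing S] (φ : R →+* S) (α : R) (β : ℕ → R) (j : ℕ) :
    φ (U α β j) = U (φ α) (fun i => φ (β i)) j := by
  induction j using Nat.strong_induction_on with
  | _ j ih =>
  cases j with
  | zero => rw [U, U, map_zero]
  | succ j =>
    rw [U_succ, U_succ, map_sub, map_mul, map_pow, map_mul, map_ofNat, map_sum]
    congr 1
    refine sum_congr rfl fun i _ => ?_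
    rw [map_mul, ih (i + 1) (by have := i.2; omega), ih (j - i) (by omega)]

lemma U_congr {R : Type*} [CommRing R] (α : R) {β β' : ℕ → R} (j : ℕ)
    (h : ∀ i, 1 ≤ i → i ≤ j → β i = β' i) : U α β j = U α β' j := by
  induction j using Nat.strong_induction_on with
  | _ j ih =>
  cases j with
  | zero => rw [U, U]
  | succ j =>
    rw [U_succ, U_succ, h (j + 1) (by omega) le_rfl]
    congr 1
    refine sum_congr rfl fun i _ => ?_
    have hi := i.2
    rw [ih (i + 1) (by omega) (fun l h1 h2 => h l h1 (by omega)),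
      ih (j - i) (by omega) (fun l h1 h2 => h l h1 (by omega))]

/-- Bounds. -/
lemma U_bound (α : ℤ) (j : ℕ) : ∃ A : ℝ, 0 ≤ A ∧ ∀ (X : ℝ), 1 ≤ X → ∀ β : ℕ → ℤ,
    (∀ i, 1 ≤ i → i ≤ j → |(β i : ℝ)| ≤ X ^ i) → |((U α β j : ℤ) : ℝ)| ≤ A * X ^ j := by
  induction j using Nat.strong_induction_on with
  | _ j ih =>
  cases j with
  | zero =>
    refine ⟨0, le_rfl, ?_⟩
    intro X _ β _
    rw [U]
    simp
  | succ j =>
    choose! A hA0 hA using ih
    refine ⟨|(4 * α : ℝ)| ^ j + ∑ i : Fin j, A (i + 1) * A (j - i), ?_, ?_⟩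
    · apply add_nonneg (by positivity)
      apply sum_nonneg
      intro i _
      exact mul_nonneg (hA0 _ (by have := i.2; omega)) (hA0 _ (by omega))
    · intro X hX β hβ
      have hcast : ((U α β (j + 1) : ℤ) : ℝ) = (4 * (α : ℝ)) ^ j * (β (j + 1) : ℝ) -
          ∑ i : Fin j, ((U α β ((i : ℕ) + 1) : ℤ) : ℝ) * ((U α β (j - (i : ℕ)) : ℤ) : ℝ) := by
        rw [U_succ]
        push_cast
        ring
      rw [hcast]
      calc |(4 * (α : ℝ)) ^ j * (β (j + 1) : ℝ) -
            ∑ i : Fin j, ((U α β ((i : ℕ) + 1) : ℤ) : ℝ) * ((U α β (j - (i : ℕ)) : ℤ) : ℝ)|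
          ≤ |(4 * (α : ℝ)) ^ j * (β (j + 1) : ℝ)| +
            |∑ i : Fin j, ((U α β ((i : ℕ) + 1) : ℤ) : ℝ) * ((U α β (j - (i : ℕ)) : ℤ) : ℝ)| :=
              abs_sub _ _
        _ ≤ |(4 * α : ℝ)| ^ j * X ^ (j + 1) +
            ∑ i : Fin j, A (i + 1) * A (j - i) * X ^ (j + 1) := by
            apply add_le_add
            · rw [abs_mul, abs_pow]
              exact mul_le_mul_of_nonneg_left (hβ (j + 1) (by omega) le_rfl) (by positivity)
            · refine (abs_sum_le_sum_abs _ _).trans (sum_le_sum fun i _ => ?_)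
              have hi := i.2
              rw [abs_mul]
              have h1 := hA (i + 1) (by omega) X hX β (fun l h1 h2 => hβ l h1 (by omega))
              have h2 := hA (j - i) (by omega) X hX β (fun l h1 h2 => hβ l h1 (by omega))
              calc |((U α β ((i : ℕ) + 1) : ℤ) : ℝ)| * |((U α β (j - (i : ℕ)) : ℤ) : ℝ)|
                  ≤ (A (i + 1) * X ^ ((i : ℕ) + 1)) * (A (j - i) * X ^ (j - (i : ℕ))) := by
                    apply mul_le_mul h1 h2 (abs_nonneg _)
                    exact (abs_nonneg _).trans h1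
                _ = A (i + 1) * A (j - i) * X ^ (((i : ℕ) + 1) + (j - (i : ℕ))) := by
                    rw [pow_add]
                    ring
                _ = A (i + 1) * A (j - i) * X ^ (j + 1) := by
                    rw [show ((i : ℕ) + 1) + (j - (i : ℕ)) = j + 1 by omega]
        _ = (|(4 * α : ℝ)| ^ j + ∑ i : Fin j, A (i + 1) * A (j - i)) * X ^ (j + 1) := by
            rw [add_mul, sum_mul]

section field

variable {K : Type*} [Field K]

lemma coeff_sq {α : K} {m : ℕ} {g h : K[X]} (hd : h.natDegree = m)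
    (hg : g = C α * h ^ 2) {j : ℕ} (hj : j ≤ m) :
    g.coeff (2 * m - j) = α * ∑ i ∈ range (j + 1), h.coeff (m - i) * h.coeff (m - (j - i)) := by
  have h1 : (h ^ 2).natDegree = 2 * m := by rw [natDegree_pow, hd]
  have h2 : (h ^ 2).reverse = h.reverse * h.reverse := by
    rw [sq, reverse_mul_of_domain]
  have h3 : (h ^ 2).reverse.coeff j = (h.reverse * h.reverse).coeff j := by rw [h2]
  rw [coeff_reverse, h1, revAt_le (by omega), coeff_mul,
    Finset.Nat.sum_antidiagonal_eq_sum_range_succ (fun a b => h.reverse.coeff a * h.reverse.coeff b)]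
    at h3
  rw [hg, coeff_C_mul, h3]
  congr 1
  refine sum_congr rfl fun i hi => ?_
  rw [mem_range] at hi
  rw [coeff_reverse, coeff_reverse, hd, revAt_le (by omega), revAt_le (by omega)]

lemma four_pow (n : ℕ) : (4 : K) ^ n = 2 ^ (2 * n) := by
  rw [pow_mul]
  norm_num

lemma term_eq (α a b : K) {i l j : ℕ} (h : j = i + l + 1) :
    2 ^ (2 * i + 1) * α ^ (i + 1) * a * (2 ^ (2 * l + 1) * α ^ (l + 1) * b) =
      (4 * α) ^ j * (α * (a * b)) := by
  subst h
  rw [mul_pow, four_pow]
  ring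

lemma U_eq {α : K} {m : ℕ} {g h : K[X]} (hh : h.Monic) (hd : h.natDegree = m)
    (hg : g = C α * h ^ 2) : ∀ j, j + 1 ≤ m →
      U α (fun i => g.coeff (2 * m - i)) (j + 1) = 2 ^ (2 * j + 1) * α ^ (j + 1) *
        h.coeff (m - (j + 1)) := by
  intro j
  induction j using Nat.strong_induction_on with
  | _ j ih =>
  intro hj
  rw [U_succ, coeff_sq hd hg hj, sum_range_succ, sum_range_succ']
  have h0 : h.coeff (m - 0) = 1 := by
    rw [Nat.sub_zero, ← hd]
    exact hh
  rw [Nat.sub_zero, Nat.sub_self, h0]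
  have hs : ∑ i : Fin j, U α (fun i => g.coeff (2 * m - i)) (i + 1) *
      U α (fun i => g.coeff (2 * m - i)) (j - i) =
      ∑ i ∈ range j, (4 * α) ^ j * (α * (h.coeff (m - (i + 1)) * h.coeff (m - (j + 1 - (i + 1))))) := by
    rw [← Fin.sum_univ_eq_sum_range
      (fun i => (4 * α) ^ j * (α * (h.coeff (m - (i + 1)) * h.coeff (m - (j + 1 - (i + 1)))))) j]
    refine sum_congr rfl fun i _ => ?_
    have hi := i.2
    obtain ⟨l, hl⟩ : ∃ l, j - (i : ℕ) = l + 1 := ⟨j - i - 1, by omega⟩
    rw [ih i (by omega) (by omega), hl, ih l (by omega) (by omega)]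
    rw [show m - (j + 1 - ((i : ℕ) + 1)) = m - (l + 1) by omega]
    exact term_eq α _ _ (by omega)
  rw [hs, ← mul_sum, ← mul_sum, mul_pow, four_pow, Nat.sub_zero, show h.coeff m = 1 by
    rw [← h0, Nat.sub_zero]]
  ring

/-- The relation between the last coefficient and the others, `n = 2m`. -/
lemma even_rel {α : K} {m : ℕ} (hm : 1 ≤ m) {g h : K[X]} (hh : h.Monic) (hd : h.natDegree = m)
    (hg : g = C α * h ^ 2) :
    (4 * α) ^ (2 * m - 1) * g.coeff 0 = (U α (fun i => g.coeff (2 * m - i)) m) ^ 2 := by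
  obtain ⟨j, rfl⟩ : ∃ j, m = j + 1 := ⟨m - 1, by omega⟩
  rw [U_eq hh hd hg j le_rfl, Nat.sub_self]
  have h0 : g.coeff 0 = α * h.coeff 0 ^ 2 := by
    rw [hg, coeff_C_mul, sq, mul_coeff_zero, sq]
  rw [h0, show 2 * (j + 1) - 1 = 2 * j + 1 by omega, mul_pow, four_pow]
  ring

/-- `g(x^(2k)) = c s²`, `deg g` even: `g` is a constant times a square. -/
lemma even_struct (h2 : (2 : K) ≠ 0) {k m : ℕ} (hk : 1 ≤ k) (hm : 1 ≤ m) {g : K[X]}
    (hd : g.natDegree = 2 * m) {c : K} {s : K[X]} (h : expand K (2 * k) g = C c * s ^ 2) :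
    ∃ t : K[X], t.Monic ∧ t.natDegree = m ∧ g = C g.leadingCoeff * t ^ 2 := by
  have hk2 : 0 < 2 * k := by omega
  have hg : g ≠ 0 := by
    rintro rfl
    simp at hd
    omega
  have he : expand K (2 * k) g ≠ 0 := (expand_ne_zero hk2).2 hg
  obtain ⟨t, ht, e⟩ := normal_sq he h
  have hlc : (expand K (2 * k) g).leadingCoeff = g.leadingCoeff := by
    unfold leadingCoeff
    rw [natDegree_expand, coeff_expand_mul hk2]
  rw [hlc] at e
  set a := g.leadingCoeff with ha
  have ha0 : a ≠ 0 := leadingCoeff_ne_zero.2 hg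
  have hdt : t.natDegree = m * (2 * k) := by
    have := congrArg natDegree e
    rw [natDegree_expand, natDegree_C_mul ha0, natDegree_pow, hd] at this
    have h3 : 2 * t.natDegree = 2 * (m * (2 * k)) := by rw [← this]; ring
    omega
  have hsq : ∀ j, a * (t ^ 2).coeff j = (expand K (2 * k) g).coeff j := by
    intro j
    rw [e, coeff_C_mul]
  have hsupp := BE.supp_of_sq h2 ht.ne_zero (2 * k) (by rw [hdt]; exact ⟨2 * m, by ring⟩) (by
    intro j hj
    have h1 := hsq j
    rw [coeff_expand hk2, if_neg hj] at h1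
    exact (mul_eq_zero.1 h1).resolve_left ha0)
  rw [hdt] at hsupp
  have hexp : expand K (2 * k) (contract (2 * k) t) = t := by
    ext j
    rw [coeff_expand hk2]
    split_ifs with hj
    · rw [coeff_contract hk2.ne', Nat.div_mul_cancel hj]
    · by_cases hjd : j ≤ m * (2 * k)
      · have h1 := hsupp (m * (2 * k) - j) (by omega) (by
          intro hcon
          apply hj
          have h3 : 2 * k ∣ m * (2 * k) := ⟨m, by ring⟩
          have h4 := Nat.dvd_sub h3 hcon
          rwa [show m * (2 * k) - (m * (2 * k) - j) = j by omega] at h4)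
        rw [show m * (2 * k) - (m * (2 * k) - j) = j by omega] at h1
        exact h1.symm
      · rw [coeff_eq_zero_of_natDegree_lt (by rw [hdt]; omega)]
  have hcd : (contract (2 * k) t).natDegree = m := by
    have h3 := congrArg natDegree hexp
    rw [natDegree_expand, hdt] at h3
    exact Nat.eq_of_mul_eq_mul_right hk2 h3
  refine ⟨contract (2 * k) t, ?_, hcd, ?_⟩
  · rw [Monic, leadingCoeff, hcd, coeff_contract hk2.ne', ← hdt]
    exact ht
  · apply expand_injective hk2
    show expand K (2 * k) g = expand K (2 * k) _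
    rw [map_mul, map_pow, hexp, expand_C]
    exact e

/-- `g(x^(2k)) = c s²`, `deg g` odd: `g(0) = 0`. -/
lemma odd_struct (h2 : (2 : K) ≠ 0) {k n : ℕ} (hk : 1 ≤ k) (hn : ¬ 2 ∣ n) {g : K[X]}
    (hd : g.natDegree = n) {c : K} {s : K[X]} (h : expand K (2 * k) g = C c * s ^ 2) :
    g.coeff 0 = 0 := by
  have hk2 : 0 < 2 * k := by omega
  have hg : g ≠ 0 := by
    rintro rfl
    simp at hd
    omega
  have he : expand K (2 * k) g ≠ 0 := (expand_ne_zero hk2).2 hg
  obtain ⟨t, ht, e⟩ := normal_sq he h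
  set a := (expand K (2 * k) g).leadingCoeff with ha
  have ha0 : a ≠ 0 := leadingCoeff_ne_zero.2 he
  have hdt : t.natDegree = k * n := by
    have := congrArg natDegree e
    rw [natDegree_expand, natDegree_C_mul ha0, natDegree_pow, hd] at this
    have h3 : 2 * t.natDegree = 2 * (k * n) := by rw [← this]; ring
    omega
  have hsupp := BE.supp_of_sq h2 ht.ne_zero (2 * k) (by rw [hdt]; exact ⟨n, by ring⟩) (by
    intro j hj
    have h1 : (expand K (2 * k) g).coeff j = (C a * t ^ 2).coeff j := by rw [← e]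
    rw [coeff_expand hk2, if_neg hj, coeff_C_mul] at h1
    exact (mul_eq_zero.1 h1.symm).resolve_left ha0) t.natDegree le_rfl (by
      rw [hdt]
      rintro ⟨l, hl⟩
      apply hn
      refine ⟨l, ?_⟩
      have h3 : k * n = k * (2 * l) := by rw [hl]; ring
      exact Nat.eq_of_mul_eq_mul_left (by omega) h3)
  rw [Nat.sub_self] at hsupp
  have h1 : (expand K (2 * k) g).coeff 0 = (C a * t ^ 2).coeff 0 := by rw [← e]
  rw [coeff_expand hk2, if_pos (dvd_zero _), Nat.zero_div, coeff_C_mul, sq, mul_coeff_zero, hsupp,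
    mul_zero, mul_zero] at h1
  exact h1

end field

end Stoll308.BG.Els
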