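import Pool.Agent.Work.MP_308fa9_nt.BG.ElsBad
import Pool.Agent.Work.MP_308fa9_nt.Local

set_option autoImplicit false

/-!
The primes at which the reduction of the curve is bad, and local points elsewhere.
-/

namespace Stoll308.BG.Els

open Finset Polynomial PadicInt

/-- The coefficients as a sequence. -/
def bet {R : Type*} [Zero R] {n : ℕ} (b : Fin n → R) (i : ℕ) : R :=
  if h : i - 1 < n then b ⟨i - 1, h⟩ else 0

lemma bet_eq {R : Type*} [Zero R] {n : ℕ} (b : Fin n → R) (i : Fin n) :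
    bet b ((i : ℕ) + 1) = b i := by
  unfold bet
  rw [dif_pos (by have := i.2; omega)]
  rfl

/-- The reduction of `g(x^(2k))` is a constant times a square. -/
def SqRed (k : ℕ) {n : ℕ} (α : ℤ) (b : Fin n → ℤ) (p : ℕ) : Prop :=
  ∃ (c : ZMod p) (s : (ZMod p)[X]),
    expand (ZMod p) (2 * k) (fpol (α : ZMod p) (fun i => (b i : ZMod p))) = C c * s ^ 2

/-- An integer which is divisible by the bad primes. -/
def NN {n : ℕ} (α : ℤ) (b : Fin n → ℤ) : ℤ :=
  if 2 ∣ n then (4 * α) ^ (n - 1) * bet b n - (U α (bet b) (n / 2)) ^ 2 else bet b n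

lemma gp_coeff_zero {R : Type*} [CommRing R] {n : ℕ} (hn : 1 ≤ n) (α : R) (b : Fin n → R) :
    (fpol α b).coeff 0 = b ⟨n - 1, by omega⟩ := by
  rw [gp_coeff_lt α b (by omega : 0 < n)]
  rfl

section

variable {p : ℕ} [hp : Fact p.Prime]

lemma two_ne (hp2 : p ≠ 2) : (2 : ZMod p) ≠ 0 := by
  intro h0
  have h1 : ((2 : ℕ) : ZMod p) = 0 := by exact_mod_cast h0
  rw [ZMod.natCast_eq_zero_iff] at h1
  exact hp2 ((Nat.prime_dvd_prime_iff_eq hp.out Nat.prime_two).1 h1)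

lemma bad_dvd {k n : ℕ} (hk : 1 ≤ k) (hn : 1 ≤ n) (hp2 : p ≠ 2) {α : ℤ} (hα : (α : ZMod p) ≠ 0)
    {b : Fin n → ℤ} (h : SqRed k α b p) : (p : ℤ) ∣ NN α b := by
  obtain ⟨c, s, h⟩ := h
  rw [← ZMod.intCast_zmod_eq_zero_iff_dvd]
  have h2 := two_ne (p := p) hp2
  have hd := gp_natDegree hα (fun i => (b i : ZMod p))
  have hbn : ((bet b n : ℤ) : ZMod p) = (b ⟨n - 1, by omega⟩ : ZMod p) := by
    unfold bet
    rw [dif_pos (by omega)]
  unfold NN
  split_ifs with h2n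
  · obtain ⟨m, rfl⟩ := h2n
    have hm : 1 ≤ m := by omega
    obtain ⟨t, ht, htd, hg⟩ := even_struct h2 hk hm hd h
    have hl : (fpol (α : ZMod p) (fun i => (b i : ZMod p))).leadingCoeff = α := by
      rw [leadingCoeff, hd, gp_coeff_top]
    rw [hl] at hg
    have hr := even_rel hm ht htd hg
    rw [gp_coeff_zero (by omega)] at hr
    rw [Nat.mul_div_cancel_left m two_pos]
    push_cast
    rw [hbn, hr, sub_eq_zero]
    congr 1
    have h3 := U_map (Int.castRingHom (ZMod p)) α (bet b) m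
    rw [eq_intCast, eq_intCast] at h3
    rw [h3]
    apply U_congr
    intro i hi1 him
    rw [gp_coeff_lt _ _ (by omega : 2 * m - i < 2 * m), eq_intCast]
    obtain ⟨i, rfl⟩ : ∃ j, i = j + 1 := ⟨i - 1, by omega⟩
    have h4 := bet_eq b ⟨i, by omega⟩
    simp only at h4
    rw [h4]
    congr 2
    apply Fin.ext
    simp only
    omega
  · rw [hbn, ← gp_coeff_zero (by omega) (α : ZMod p) (fun i => (b i : ZMod p))]
    exact odd_struct h2 hk h2n hd h

lemma bad_uniq {k n : ℕ} (hk : 1 ≤ k) (hn : 3 ≤ n) (hp2 : p ≠ 2) {α : ℤ} (hα : (α : ZMod p) ≠ 0)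
    {b b' : Fin n → ℤ} (h : SqRed k α b p) (h' : SqRed k α b' p)
    (hbb : ∀ i : Fin n, (i : ℕ) + 2 < n → b i = b' i) (i : Fin n) :
    (p : ℤ) ∣ b i - b' i := by
  obtain ⟨c, s, h⟩ := h
  obtain ⟨c', s', h'⟩ := h'
  have h2 := two_ne (p := p) hp2
  have hd := gp_natDegree hα (fun i => (b i : ZMod p))
  have hd' := gp_natDegree hα (fun i => (b' i : ZMod p))
  have hl : (fpol (α : ZMod p) (fun i => (b i : ZMod p))).leadingCoeff = α := by
    rw [leadingCoeff, hd, gp_coeff_top]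
  have hl' : (fpol (α : ZMod p) (fun i => (b' i : ZMod p))).leadingCoeff = α := by
    rw [leadingCoeff, hd', gp_coeff_top]
  have key := uniq_sq h2 hk hn hd hd' (by rw [hl, hl']) (by
    rw [natDegree_le_iff_coeff_eq_zero]
    intro N hN
    rw [coeff_sub, sub_eq_zero]
    rcases lt_trichotomy N n with hlt | rfl | hgt
    · rw [gp_coeff_lt _ _ hlt, gp_coeff_lt _ _ hlt]
      congr 1
      apply hbb
      simp only
      omega
    · rw [gp_coeff_top, gp_coeff_top]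
    · rw [gp_coeff_gt _ _ hgt, gp_coeff_gt _ _ hgt]) h h'
  have h3 : (fpol (α : ZMod p) (fun i => (b i : ZMod p))).coeff (n - 1 - i) =
    (fpol (α : ZMod p) (fun i => (b' i : ZMod p))).coeff (n - 1 - i) := by rw [key]
  have hi := i.2
  rw [gp_coeff_lt _ _ (by omega : n - 1 - (i : ℕ) < n),
    gp_coeff_lt _ _ (by omega : n - 1 - (i : ℕ) < n)] at h3
  have hidx : (⟨n - 1 - (n - 1 - (i : ℕ)), by omega⟩ : Fin n) = i := by
    apply Fin.ext
    simp only
    omega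
  rw [hidx] at h3
  rw [← ZMod.intCast_zmod_eq_zero_iff_dvd]
  push_cast
  rw [h3, sub_self]

/-- Points at a large good prime. -/
lemma point_good {k n : ℕ} (hk : 1 ≤ k) (hn : 1 ≤ n) {α : ℤ} (hα : (α : ZMod p) ≠ 0)
    (hbig : (n * (2 * k) + 2) ^ 2 ≤ p) {b : Fin n → ℤ} (h : ¬ SqRed k α b p) :
    HasPoint k α b ℚ_[p] := by
  have hp2 : p ≠ 2 := by
    rintro rfl
    have : (1 * (2 * 1) + 2) ^ 2 ≤ (n * (2 * k) + 2) ^ 2 := by gcongr
    omega
  have hk2 : 0 < 2 * k := by omega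
  set g := fpol (α : ZMod p) (fun i => (b i : ZMod p)) with hg
  have hd : g.natDegree = n := gp_natDegree hα _
  have hg0 : g ≠ 0 := by
    intro h0
    rw [h0] at hd
    simp at hd
    omega
  obtain ⟨x, y, hy, hxy⟩ := BE.exists_sq_value hp2 (expand (ZMod p) (2 * k) g)
    ((expand_ne_zero hk2).2 hg0) (by rw [natDegree_expand, hd]; exact hbig) (by
      intro e s hes
      exact h ⟨e, s, hes⟩)
  rw [expand_eval, hg, gp_eval] at hxy
  obtain ⟨a, ha⟩ := ZMod.ringHom_surjective (toZMod : ℤ_[p] →+* ZMod p) x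
  set V : ℤ_[p] := α * (a ^ (2 * k)) ^ n +
      ∑ i : Fin n, (b i : ℤ_[p]) * (a ^ (2 * k)) ^ (n - 1 - (i : ℕ)) with hV
  have hVm : toZMod V = y ^ 2 := by
    rw [hV, hxy]
    simp only [map_add, map_mul, map_pow, map_intCast, ha, map_sum]
  have hVu : ‖V‖ = 1 := norm_eq_one_iff_toZMod.2 (by rw [hVm]; exact pow_ne_zero _ hy)
  obtain ⟨w, -, hw⟩ := sq_of_residue hp2 hVu (by rw [hVm]; exact ⟨y, sq y⟩)
  left
  refine ⟨a, w, ?_⟩
  have h1 : ((w ^ 2 : ℤ_[p]) : ℚ_[p]) = (V : ℚ_[p]) := by rw [hw]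
  rw [hV] at h1
  push_cast [PadicInt.coe_sum] at h1
  rw [gp_eval]
  exact h1

/-- A `p`-adic square. -/
lemma isSquare_padic {d : ℤ} (hd : ((8 * p : ℕ) : ℤ) ∣ d - 1) : ∃ w : ℚ_[p], w ^ 2 = d := by
  have hp : p.Prime := Fact.out
  have hsq : ∃ w : ℤ_[p], w ^ 2 = (d : ℤ_[p]) := by
    by_cases hp2 : p = 2
    · subst hp2
      have h8 : ((2 : ℕ) : ℤ) ^ 4 ∣ d - 1 := by
        have : (((8 * 2 : ℕ) : ℕ) : ℤ) = ((2 : ℕ) : ℤ) ^ 4 := by norm_num
        rw [← this]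
        exact hd
      have hn : ‖((d - 1 : ℤ) : ℤ_[2])‖ ≤ ((2 : ℕ) : ℝ) ^ (-(4 : ℕ) : ℤ) :=
        PadicInt.norm_int_le_pow_iff_dvd.2 (by exact_mod_cast h8)
      have h2n : ‖(2 : ℤ_[2])‖ = 2⁻¹ := by
        have := PadicInt.norm_p (p := 2)
        exact_mod_cast this
      obtain ⟨z, hz, -⟩ := hensels_lemma
        (F := (Polynomial.X ^ 2 - Polynomial.C (d : ℤ_[2]) : Polynomial ℤ_[2]))
        (a := (1 : ℤ_[2])) (by
          simp only [map_sub, map_pow, Polynomial.aeval_X, Polynomial.aeval_C,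
            Polynomial.derivative_C, sub_zero,
            Polynomial.derivative_X_pow, map_mul, Algebra.algebraMap_self, RingHom.id_apply]
          simp only [Nat.cast_ofNat, Nat.add_one_sub_one, pow_one, mul_one]
          have h3 : (1 : ℤ_[2]) ^ 2 - (d : ℤ_[2]) = -((d - 1 : ℤ) : ℤ_[2]) := by push_cast; ring
          rw [h3, norm_neg, h2n]
          refine lt_of_le_of_lt hn ?_
          norm_num)
      simp only [map_sub, map_pow, Polynomial.aeval_X, Polynomial.aeval_C, Algebra.algebraMap_self,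
        RingHom.id_apply, sub_eq_zero] at hz
      exact ⟨z, hz⟩
    · have hpd : (p : ℤ) ∣ d - 1 := dvd_trans ⟨8, by push_cast; ring⟩ hd
      have h1 : toZMod (d : ℤ_[p]) = 1 := by
        rw [map_intCast]
        have h2 := (ZMod.intCast_zmod_eq_zero_iff_dvd (d - 1) p).2 hpd
        push_cast at h2
        exact sub_eq_zero.1 h2
      obtain ⟨w, -, hw⟩ := sq_of_residue (e := (d : ℤ_[p])) hp2
        (norm_eq_one_iff_toZMod.2 (by rw [h1]; exact one_ne_zero)) (by rw [h1]; exact ⟨1, by ring⟩)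
      exact ⟨w, hw.symm⟩
  obtain ⟨w, hw⟩ := hsq
  refine ⟨w, ?_⟩
  have h1 : ((w ^ 2 : ℤ_[p]) : ℚ_[p]) = ((d : ℤ_[p]) : ℚ_[p]) := by rw [hw]
  push_cast at h1
  exact h1

end

/-- The value at `x = 0`. -/
lemma val_zero {K : Type*} [Field K] {k n : ℕ} (hk : 1 ≤ k) (hn : 1 ≤ n) (α : ℤ) (b : Fin n → ℤ) :
    (α : K) * ((0 : K) ^ (2 * k)) ^ n +
      ∑ i : Fin n, (b i : K) * ((0 : K) ^ (2 * k)) ^ (n - 1 - (i : ℕ)) =
    b ⟨n - 1, by omega⟩ := by
  rw [zero_pow (by omega), zero_pow (by omega), mul_zero, zero_add,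
    sum_eq_single (⟨n - 1, by omega⟩ : Fin n)]
  · simp
  · intro i _ hi
    rw [zero_pow, mul_zero]
    intro h
    apply hi
    apply Fin.ext
    simp only
    have := i.2
    omega
  · intro h
    exact absurd (mem_univ _) h

/-- A bound for `NN`. -/
lemma NN_bound (n : ℕ) (hn : 1 ≤ n) (α : ℤ) : ∃ A : ℕ, 1 ≤ A ∧ ∀ (X : ℕ), 1 ≤ X →
    ∀ b : Fin n → ℤ, (∀ i : Fin n, |b i| ≤ (X : ℤ) ^ ((i : ℕ) + 1)) →
      (NN α b).natAbs ≤ A * X ^ n := by
  obtain ⟨A, hA0, hA⟩ := U_bound α (n / 2)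
  obtain ⟨B, hB⟩ := exists_nat_ge (|(4 * α : ℝ)| ^ (n - 1) + A ^ 2)
  refine ⟨B + 1, by omega, ?_⟩
  intro X hX b hb
  have hX1 : (1 : ℝ) ≤ X := by exact_mod_cast hX
  have hbet : ∀ i, 1 ≤ i → i ≤ n → |((bet b i : ℤ) : ℝ)| ≤ (X : ℝ) ^ i := by
    intro i h1 h2
    obtain ⟨j, rfl⟩ : ∃ j, i = j + 1 := ⟨i - 1, by omega⟩
    have h3 := bet_eq b ⟨j, by omega⟩
    simp only at h3
    rw [h3]
    have h4 := hb ⟨j, by omega⟩
    simp only at h4
    have h5 : ((|b ⟨j, by omega⟩| : ℤ) : ℝ) ≤ (((X : ℤ) ^ (j + 1) : ℤ) : ℝ) := by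
      exact_mod_cast h4
    push_cast at h5
    exact h5
  have hmain : |((NN α b : ℤ) : ℝ)| ≤ ((B : ℝ) + 1) * X ^ n := by
    unfold NN
    split_ifs with h2n
    · push_cast
      have hU := hA X hX1 (bet b) (fun i h1 h2 => hbet i h1 (by omega))
      have hU2 : |((U α (bet b) (n / 2) : ℤ) : ℝ) ^ 2| ≤ A ^ 2 * X ^ n := by
        rw [abs_pow]
        calc |((U α (bet b) (n / 2) : ℤ) : ℝ)| ^ 2 ≤ (A * (X : ℝ) ^ (n / 2)) ^ 2 := by
              gcongr
          _ = A ^ 2 * X ^ (n / 2 * 2) := by rw [mul_pow, ← pow_mul]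
          _ = A ^ 2 * X ^ n := by rw [Nat.div_mul_cancel h2n]
      have h1 : |(4 * (α : ℝ)) ^ (n - 1) * ((bet b n : ℤ) : ℝ)| ≤
          |(4 * α : ℝ)| ^ (n - 1) * X ^ n := by
        rw [abs_mul, abs_pow]
        exact mul_le_mul_of_nonneg_left (hbet n hn le_rfl) (by positivity)
      calc |(4 * (α : ℝ)) ^ (n - 1) * ((bet b n : ℤ) : ℝ) -
            ((U α (bet b) (n / 2) : ℤ) : ℝ) ^ 2|
          ≤ |(4 * (α : ℝ)) ^ (n - 1) * ((bet b n : ℤ) : ℝ)| +
            |((U α (bet b) (n / 2) : ℤ) : ℝ) ^ 2| := abs_sub _ _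
        _ ≤ |(4 * α : ℝ)| ^ (n - 1) * X ^ n + A ^ 2 * X ^ n := add_le_add h1 hU2
        _ = (|(4 * α : ℝ)| ^ (n - 1) + A ^ 2) * X ^ n := by ring
        _ ≤ ((B : ℝ) + 1) * X ^ n :=
            mul_le_mul_of_nonneg_right (hB.trans (by linarith)) (by positivity)
    · calc |((bet b n : ℤ) : ℝ)| ≤ 1 * (X : ℝ) ^ n := by rw [one_mul]; exact hbet n hn le_rfl
        _ ≤ ((B : ℝ) + 1) * X ^ n := by
            gcongr
            have : (0 : ℝ) ≤ B := Nat.cast_nonneg _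
            linarith
  have h6 : (((NN α b).natAbs : ℕ) : ℝ) ≤ (((B + 1) * X ^ n : ℕ) : ℝ) := by
    rw [Nat.cast_natAbs]
    push_cast
    exact hmain
  exact_mod_cast h6

lemma NN_inj {n : ℕ} (hn : 2 ≤ n) {α : ℤ} (hα : α ≠ 0) {b b' : Fin n → ℤ} (h : NN α b = 0)
    (h' : NN α b' = 0) (hbb : ∀ i : Fin n, (i : ℕ) + 1 < n → b i = b' i) : b = b' := by
  have hlast : b ⟨n - 1, by omega⟩ = b' ⟨n - 1, by omega⟩ := by
    have e1 : ∀ c : Fin n → ℤ, bet c n = c ⟨n - 1, by omega⟩ := by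
      intro c
      unfold bet
      rw [dif_pos (by omega)]
    unfold NN at h h'
    split_ifs at h h' with h2n
    · have h3 : U α (bet b) (n / 2) = U α (bet b') (n / 2) := by
        apply U_congr
        intro i hi1 hi2
        obtain ⟨j, rfl⟩ : ∃ j, i = j + 1 := ⟨i - 1, by omega⟩
        have h4 := bet_eq b ⟨j, by omega⟩
        have h5 := bet_eq b' ⟨j, by omega⟩
        simp only at h4 h5
        rw [h4, h5]
        apply hbb
        simp only
        omega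
      rw [← h3, e1] at h'
      rw [e1] at h
      have h6 : (4 * α) ^ (n - 1) * b ⟨n - 1, by omega⟩ =
          (4 * α) ^ (n - 1) * b' ⟨n - 1, by omega⟩ := by linarith
      exact mul_left_cancel₀ (pow_ne_zero _ (by omega)) h6
    · rw [e1] at h h'
      rw [h, h']
  funext i
  by_cases hi : (i : ℕ) + 1 < n
  · exact hbb i hi
  · have h3 : i = ⟨n - 1, by omega⟩ := by
      apply Fin.ext
      simp only
      have := i.2
      omega
    rw [h3]
    exact hlast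

end Stoll308.BG.Els

namespace Stoll308.BG

open Polynomial Finset

theorem point_large (n : ℕ) (hn : 1 ≤ n) (α : ℤ) (hα : α ≠ 0) (k : ℕ) (hk : 1 ≤ k) :
    ∃ P₀ : ℕ, ∀ (p : ℕ) [Fact p.Prime], P₀ ≤ p → ∀ b : Fin n → ℤ, ¬ Els.SqRed k α b p →
      HasPoint k α b ℚ_[p] := by
  refine ⟨(n * (2 * k) + 2) ^ 2 + α.natAbs + 1, ?_⟩
  intro p hp hbig b hbad
  have hαp : (α : ZMod p) ≠ 0 := by
    intro h0
    rw [ZMod.intCast_zmod_eq_zero_iff_dvd] at h0
    have h1 := Int.natAbs_dvd_natAbs.2 h0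
    rw [Int.natAbs_natCast] at h1
    have h2 := Nat.le_of_dvd (Int.natAbs_pos.2 hα) h1
    omega
  exact Els.point_good hk hn hαp (by omega) hbad

theorem point_small {n : ℕ} (α : ℤ) (b : Fin n → ℤ) (k : ℕ) (hk : 1 ≤ k) (i : Fin n)
    (hi : (i : ℕ) + 1 = n) (p : ℕ) [Fact p.Prime] (hd : ((8 * p : ℕ) : ℤ) ∣ b i - 1) :
    HasPoint k α b ℚ_[p] := by
  obtain ⟨w, hw⟩ := Els.isSquare_padic (p := p) hd
  left
  refine ⟨0, w, ?_⟩
  rw [Els.gp_eval, Els.val_zero hk (by omega), hw]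
  congr 2
  apply Fin.ext
  simp only
  omega

theorem point_real {n : ℕ} (α : ℤ) (b : Fin n → ℤ) (k : ℕ) (hk : 1 ≤ k) (i : Fin n)
    (hi : (i : ℕ) + 1 = n) (hd : 0 < b i) : HasPoint k α b ℝ := by
  left
  refine ⟨0, Real.sqrt (b i), ?_⟩
  rw [Real.sq_sqrt (by exact_mod_cast hd.le), Els.gp_eval, Els.val_zero hk (by omega)]
  congr 2
  apply Fin.ext
  simp only
  omega

end Stoll308.BG
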