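import Pool.Agent.Work.MP_308fa9_nt.BE.ElsPoly
import Pool.Agent.Work.MP_308fa9_nt.BG.Defs

set_option autoImplicit false

/-!
Points of `y² = α x^(2kn) + b_1 x^(2k(n-1)) + … + b_n` modulo large primes.
-/

namespace Stoll308.BG.Els

open Finset Polynomial

section fpol

variable {R : Type*} [CommRing R] {n : ℕ}

lemma gp_eval (α : R) (b : Fin n → R) (x : R) :
    (fpol α b).eval x = α * x ^ n + ∑ i : Fin n, b i * x ^ (n - 1 - (i : ℕ)) := by
  unfold fpol
  rw [eval_add, eval_finsetSum]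
  simp

lemma gp_coeff_lt (α : R) (b : Fin n → R) {j : ℕ} (hj : j < n) :
    (fpol α b).coeff j = b ⟨n - 1 - j, by omega⟩ := by
  unfold fpol
  rw [coeff_add, finsetSum_coeff, coeff_C_mul, coeff_X_pow, if_neg (by omega), mul_zero, zero_add,
    sum_eq_single (⟨n - 1 - j, by omega⟩ : Fin n)]
  · rw [coeff_C_mul, coeff_X_pow, if_pos (by simp only; omega), mul_one]
  · intro i _ hi
    rw [coeff_C_mul, coeff_X_pow, if_neg, mul_zero]
    intro h
    apply hi
    apply Fin.ext
    simp only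
    have := i.2
    omega
  · intro h
    exact absurd (mem_univ _) h

lemma gp_coeff_top (α : R) (b : Fin n → R) : (fpol α b).coeff n = α := by
  unfold fpol
  rw [coeff_add, finsetSum_coeff, coeff_C_mul, coeff_X_pow, if_pos rfl, mul_one,
    sum_eq_zero, add_zero]
  intro i _
  rw [coeff_C_mul, coeff_X_pow, if_neg, mul_zero]
  have := i.2
  omega

lemma gp_coeff_gt (α : R) (b : Fin n → R) {j : ℕ} (hj : n < j) : (fpol α b).coeff j = 0 := by
  unfold fpol
  rw [coeff_add, finsetSum_coeff, coeff_C_mul, coeff_X_pow, if_neg (by omega), mul_zero, zero_add,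
    sum_eq_zero]
  intro i _
  rw [coeff_C_mul, coeff_X_pow, if_neg, mul_zero]
  have := i.2
  omega

lemma gp_natDegree {α : R} (hα : α ≠ 0) (b : Fin n → R) : (fpol α b).natDegree = n := by
  apply natDegree_eq_of_le_of_coeff_ne_zero
  · rw [natDegree_le_iff_coeff_eq_zero]
    intro N hN
    exact gp_coeff_gt α b hN
  · rw [gp_coeff_top]
    exact hα

lemma gp_map {S : Type*} [CommRing S] (φ : R →+* S) (α : R) (b : Fin n → R) :
    (fpol α b).map φ = fpol (φ α) (fun i => φ (b i)) := by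
  unfold fpol
  simp [Polynomial.map_sum]

end fpol

section field

variable {K : Type*} [Field K]

/-- A nonzero constant times a square, in normal form. -/
lemma normal_sq {f s : K[X]} {c : K} (hf : f ≠ 0) (h : f = C c * s ^ 2) :
    ∃ t : K[X], t.Monic ∧ f = C f.leadingCoeff * t ^ 2 := by
  have hs0 : s ≠ 0 := by
    rintro rfl
    rw [zero_pow two_ne_zero, mul_zero] at h
    exact hf h
  have hl : s.leadingCoeff ≠ 0 := leadingCoeff_ne_zero.2 hs0
  refine ⟨C s.leadingCoeff⁻¹ * s, ?_, ?_⟩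
  · rw [Monic, leadingCoeff_mul, leadingCoeff_C, inv_mul_cancel₀ hl]
  · have h1 : f.leadingCoeff = c * s.leadingCoeff ^ 2 := by
      rw [h, leadingCoeff_mul, leadingCoeff_C, leadingCoeff_pow]
    rw [h1]
    have h2 : C (c * s.leadingCoeff ^ 2) * (C s.leadingCoeff⁻¹ * s) ^ 2 =
        C c * (C s.leadingCoeff * C s.leadingCoeff⁻¹) ^ 2 * s ^ 2 := by
      rw [C_mul, C_pow]
      ring
    rw [h2, ← C_mul, mul_inv_cancel₀ hl, C_1, one_pow, mul_one]
    exact h

/-- Two polynomials `g(x^(2k))` which are constants times squares, of the same degree `n ≥ 3` and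
leading coefficient, are equal if their difference has degree at most one in `x^(2k)`. -/
lemma uniq_sq (h2 : (2 : K) ≠ 0) {k n : ℕ} (hk : 1 ≤ k) (hn : 3 ≤ n) {g₁ g₂ : K[X]}
    (hd₁ : g₁.natDegree = n) (hd₂ : g₂.natDegree = n) (hl : g₁.leadingCoeff = g₂.leadingCoeff)
    (hdiff : (g₁ - g₂).natDegree ≤ 1) {c₁ c₂ : K} {s₁ s₂ : K[X]}
    (h₁ : expand K (2 * k) g₁ = C c₁ * s₁ ^ 2) (h₂ : expand K (2 * k) g₂ = C c₂ * s₂ ^ 2) :
    g₁ = g₂ := by
  have hk2 : 0 < 2 * k := by omega
  have hg₁ : g₁ ≠ 0 := by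
    rintro rfl
    simp at hd₁
    omega
  have hg₂ : g₂ ≠ 0 := by
    rintro rfl
    simp at hd₂
    omega
  have he₁ : expand K (2 * k) g₁ ≠ 0 := (expand_ne_zero hk2).2 hg₁
  have he₂ : expand K (2 * k) g₂ ≠ 0 := (expand_ne_zero hk2).2 hg₂
  obtain ⟨t₁, ht₁, e₁⟩ := normal_sq he₁ h₁
  obtain ⟨t₂, ht₂, e₂⟩ := normal_sq he₂ h₂
  have hlc : ∀ g : K[X], (expand K (2 * k) g).leadingCoeff = g.leadingCoeff := by
    intro g
    unfold leadingCoeff
    rw [natDegree_expand, coeff_expand_mul hk2]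
  rw [hlc] at e₁ e₂
  rw [← hl] at e₂
  set a := g₁.leadingCoeff with ha
  have ha0 : a ≠ 0 := leadingCoeff_ne_zero.2 hg₁
  have hdt₁ : t₁.natDegree = k * n := by
    have := congrArg natDegree e₁
    rw [natDegree_expand, natDegree_C_mul ha0, natDegree_pow, hd₁] at this
    have h3 : 2 * t₁.natDegree = 2 * (k * n) := by rw [← this]; ring
    omega
  have hdt₂ : t₂.natDegree = k * n := by
    have := congrArg natDegree e₂
    rw [natDegree_expand, natDegree_C_mul ha0, natDegree_pow, hd₂] at this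
    have h3 : 2 * t₂.natDegree = 2 * (k * n) := by rw [← this]; ring
    omega
  have hsub : expand K (2 * k) (g₁ - g₂) = C a * ((t₁ - t₂) * (t₁ + t₂)) := by
    rw [map_sub, e₁, e₂]
    ring
  have htt : t₁ = t₂ := by
    by_contra hne
    have hd0 : t₁ - t₂ ≠ 0 := sub_ne_zero.2 hne
    have hsum : (t₁ + t₂).coeff (k * n) = 2 := by
      rw [coeff_add]
      have h3 : t₁.coeff (k * n) = 1 := by rw [← hdt₁]; exact ht₁
      have h4 : t₂.coeff (k * n) = 1 := by rw [← hdt₂]; exact ht₂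
      rw [h3, h4]
      norm_num
    have hs0 : t₁ + t₂ ≠ 0 := by
      intro h0
      rw [h0, coeff_zero] at hsum
      exact h2 hsum.symm
    have hdeg : k * n ≤ (t₁ + t₂).natDegree := by
      apply le_natDegree_of_ne_zero
      rw [hsum]
      exact h2
    have h5 := congrArg natDegree hsub
    rw [natDegree_expand, natDegree_C_mul ha0, natDegree_mul hd0 hs0] at h5
    have h6 : (g₁ - g₂).natDegree * (2 * k) ≤ 1 * (2 * k) := Nat.mul_le_mul_right _ hdiff
    have h7 : k * 3 ≤ k * n := Nat.mul_le_mul_left _ hn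
    omega
  apply expand_injective hk2
  show expand K (2 * k) g₁ = expand K (2 * k) g₂
  rw [e₁, e₂, htt]

end field

end Stoll308.BG.Els
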