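import Pool.Agent.Work.MP_308fa9_nt.BG.HankL

set_option autoImplicit false

namespace Stoll308.BG.LCond

open Polynomial Finset Matrix

section general

variable {K : Type*} [CommRing K] {n : ℕ}

/-- Jacobi's formula. -/
lemma derivative_det (M : Matrix (Fin n) (Fin n) K[X]) :
    derivative M.det = (M.adjugate * M.map (fun q => derivative q)).trace := by
  have h1 : ∀ i, (M.adjugate * M.map (fun q => derivative q)) i i =
      (M.updateCol i (fun k => derivative (M k i))).det := by
    intro i
    rw [← Matrix.cramer_apply, Matrix.cramer_eq_adjugate_mulVec]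
    rfl
  rw [Matrix.trace]
  simp only [Matrix.diag_apply, h1, Matrix.det_apply']
  rw [Finset.sum_comm, derivative_sum]
  refine Finset.sum_congr rfl fun σ _ => ?_
  rw [derivative_intCast_mul, derivative_prod_finset, Finset.mul_sum]
  refine Finset.sum_congr rfl fun i _ => ?_
  rw [← Finset.mul_prod_erase univ _ (Finset.mem_univ i), Matrix.updateCol_self]
  have h2 : ∏ j ∈ univ.erase i, M.updateCol i (fun k => derivative (M k i)) (σ j) j =
      ∏ j ∈ univ.erase i, M (σ j) j := by
    refine Finset.prod_congr rfl fun j hj => ?_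
    rw [Matrix.updateCol_ne (Finset.ne_of_mem_erase hj)]
  rw [h2]
  ring

end general

section field

variable {K : Type*} [Field K] {n : ℕ}

/-- The adjugate of a singular symmetric matrix is a multiple of `v vᵀ`, `v` in the kernel. -/
lemma adjugate_rank_one (N : Matrix (Fin n) (Fin n) K) (hN : N.IsSymm) (v : Fin n → K)
    (hv : v ≠ 0) (h : N *ᵥ v = 0) : ∃ ρ : K, ∀ i j, N.adjugate i j = ρ * v i * v j := by
  have hdet : N.det = 0 := Matrix.exists_mulVec_eq_zero_iff.mp ⟨v, hv, h⟩
  -- a kernel vector vanishing at `i` kills the entries `adj i j`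
  have key : ∀ (z : Fin n → K) (i j : Fin n), N *ᵥ z = 0 → z i = 0 → N.adjugate i j ≠ 0 →
      z = 0 := by
    intro z i j hz hzi hne
    by_contra hz0
    apply hne
    rw [Matrix.adjugate_apply]
    apply Matrix.exists_mulVec_eq_zero_iff.mp
    refine ⟨z, hz0, ?_⟩
    funext k
    by_cases hk : k = j
    · subst hk
      simp [Matrix.mulVec, Matrix.updateRow_self, single_dotProduct, hzi]
    · simp only [Matrix.mulVec, Matrix.updateRow_ne hk]
      exact congrFun hz k
  by_cases hadj : ∃ k l, N.adjugate k l ≠ 0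
  · obtain ⟨k, l, hkl⟩ := hadj
    have hvk : v k ≠ 0 := fun h0 => hv (key v k l h h0 hkl)
    -- every column is a multiple of `v`
    have hcol : ∀ j m, N.adjugate j m = N.adjugate k m / v k * v j := by
      intro j m
      have h1 : N *ᵥ (fun i => N.adjugate i m) = 0 := by
        funext i
        have h2 := congrFun (congrFun (Matrix.mul_adjugate N) i) m
        rw [hdet] at h2
        simpa [Matrix.mul_apply, Matrix.mulVec, dotProduct] using h2
      have h3 : (fun i => N.adjugate i m) - (N.adjugate k m / v k) • v = 0 := by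
        apply key _ k l _ _ hkl
        · rw [Matrix.mulVec_sub, Matrix.mulVec_smul, h1, h, smul_zero, sub_zero]
        · simp only [Pi.sub_apply, Pi.smul_apply, smul_eq_mul]
          field_simp
          ring
      have h4 := congrFun h3 j
      simp only [Pi.sub_apply, Pi.smul_apply, smul_eq_mul, Pi.zero_apply] at h4
      exact sub_eq_zero.mp h4
    have hsymm : ∀ i j, N.adjugate i j = N.adjugate j i := by
      intro i j
      have h5 : N.adjugateᵀ = N.adjugate := by
        rw [Matrix.adjugate_transpose, hN]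
      rw [← Matrix.transpose_apply N.adjugate, h5]
    refine ⟨N.adjugate k k / v k ^ 2, fun i j => ?_⟩
    rw [hcol i j, hsymm k j, hcol j k]
    field_simp
  · refine ⟨0, fun i j => ?_⟩
    by_contra hne
    exact hadj ⟨i, j, by simpa using hne⟩

end field

section hank

variable {K : Type*} [Field K] {n : ℕ}

/-- The coefficient functional. -/
noncomputable def tau (n : ℕ) (F : K[X]) (q : K[X]) : K := (q %ₘ F).coeff (n - 1)

lemma tau_add (F q r : K[X]) : tau n F (q + r) = tau n F q + tau n F r := by
  unfold tau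
  rw [Polynomial.add_modByMonic, coeff_add]

lemma tau_C_mul (F q : K[X]) (a : K) : tau n F (C a * q) = a * tau n F q := by
  unfold tau
  rw [← Polynomial.smul_eq_C_mul, Polynomial.smul_modByMonic, coeff_smul, smul_eq_mul]

lemma tau_sum {ι : Type*} (s : Finset ι) (F : K[X]) (q : ι → K[X]) :
    tau n F (∑ i ∈ s, q i) = ∑ i ∈ s, tau n F (q i) := by
  classical
  induction s using Finset.induction_on with
  | empty => simp [tau]
  | insert a s ha ih => rw [Finset.sum_insert ha, Finset.sum_insert ha, tau_add, ih]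

lemma tau_mul_self (F q : K[X]) (hF : F.Monic) : tau n F (F * q) = 0 := by
  unfold tau
  rw [Polynomial.self_mul_modByMonic hF, coeff_zero]

/-- Evaluating the functional on multiples of a polynomial of degree `< n`. -/
lemma tau_mul (F q g : K[X]) (hg : g.natDegree < n) :
    tau n F (q * g) = ∑ j : Fin n, tau n F (q * X ^ (j : ℕ)) * g.coeff j := by
  have h1 : g = ∑ j ∈ range n, C (g.coeff j) * X ^ j := g.as_sum_range_C_mul_X_pow' hg
  have h2 : q * g = ∑ j ∈ range n, C (g.coeff j) * (q * X ^ j) := by
    conv_lhs => rw [h1]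
    rw [Finset.mul_sum]
    refine Finset.sum_congr rfl fun j _ => by ring
  rw [h2, tau_sum, ← Fin.sum_univ_eq_sum_range (fun j => tau n F (C (g.coeff j) * (q * X ^ j))) n]
  refine Finset.sum_congr rfl fun j _ => ?_
  rw [tau_C_mul, mul_comm]

lemma hank_apply (F δ : K[X]) (i j : Fin n) :
    Hank n F δ i j = tau n F (δ * X ^ ((i : ℕ) + j)) := rfl

/-- The square class of the diagonal entries of the adjugate at a simple root. -/
lemma adj_square (F δ : K[X]) (hF : F.Monic) (hn : F.natDegree = n) (θ : K)
    (hθ : F.eval θ = 0) (hd : (derivative F).eval θ ≠ 0) (G : Matrix (Fin n) (Fin n) K)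
    (hG : G.det ≠ 0) (A B : Matrix (Fin n) (Fin n) K) (hA : A = G * Hank n F δ * Gᵀ)
    (hB : B = G * Hank n F (X * δ) * Gᵀ) (i : Fin n) :
    IsSquare ((θ • A - B).adjugate i i * A.det * δ.eval θ) := by
  set G0 := F /ₘ (X - C θ) with hG0
  have hfac : (X - C θ) * G0 = F := mul_divByMonic_eq_iff_isRoot.mpr hθ
  have hn1 : 1 ≤ n := by
    rw [← hn]
    by_contra h0
    have h1 : F.natDegree = 0 := by omega
    rw [eq_one_of_monic_natDegree_zero hF h1] at hθ
    simp at hθ
  have hG0m : G0.Monic := by
    have h1 : ((X - C θ) * G0).Monic := by rw [hfac]; exact hF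
    exact (monic_X_sub_C θ).of_mul_monic_left h1
  have hG0d : G0.natDegree = n - 1 := by
    have h1 : ((X - C θ) * G0).natDegree = n := by rw [hfac]; exact hn
    rw [(monic_X_sub_C θ).natDegree_mul hG0m, natDegree_X_sub_C] at h1
    omega
  have hG0lt : G0.natDegree < n := by omega
  have hG0c : G0.coeff (n - 1) = 1 := by rw [← hG0d]; exact hG0m
  have hderiv : (derivative F).eval θ = G0.eval θ := by
    rw [← hfac, derivative_mul, eval_add, eval_mul, eval_mul]
    simp
  -- multiplication by a polynomial on `G0`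
  have hmul : ∀ q : K[X], tau n F (q * G0) = q.eval θ := by
    intro q
    obtain ⟨r, hr⟩ : (X - C θ) ∣ q - C (q.eval θ) := by
      rw [dvd_iff_isRoot]; simp
    have h1 : q * G0 = C (q.eval θ) * G0 + F * r := by
      rw [← hfac]
      linear_combination G0 * hr
    rw [h1, tau_add, tau_C_mul, tau_mul_self F r hF, add_zero]
    unfold tau
    rw [(modByMonic_eq_self_iff hF).mpr, hG0c, mul_one]
    rw [degree_eq_natDegree hG0m.ne_zero, degree_eq_natDegree hF.ne_zero, hn]
    exact_mod_cast hG0lt
  set w : Fin n → K := fun j => G0.coeff j with hw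
  have hHw : ∀ (η : K[X]) (i : Fin n), (Hank n F η *ᵥ w) i = (η * X ^ (i : ℕ)).eval θ := by
    intro η i
    rw [← hmul, tau_mul F (η * X ^ (i : ℕ)) G0 hG0lt]
    simp only [Matrix.mulVec, dotProduct, hank_apply]
    refine Finset.sum_congr rfl fun j _ => ?_
    rw [pow_add, ← mul_assoc]
  have hMw : (θ • Hank n F δ - Hank n F (X * δ)) *ᵥ w = 0 := by
    funext i
    rw [Matrix.sub_mulVec, Matrix.smul_mulVec, Pi.sub_apply, Pi.smul_apply, hHw, hHw]
    simp only [eval_mul, eval_pow, eval_X, smul_eq_mul, Pi.zero_apply]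
    ring
  have hw0 : w ≠ 0 := by
    intro h0
    have h1 := congrFun h0 ⟨n - 1, by omega⟩
    simp only [hw, hG0c, Pi.zero_apply] at h1
    exact one_ne_zero h1
  -- the vector `v`
  have hGt : IsUnit (Gᵀ).det := by rw [Matrix.det_transpose]; exact isUnit_iff_ne_zero.mpr hG
  set v : Fin n → K := (Gᵀ)⁻¹ *ᵥ w with hv
  have hGv : Gᵀ *ᵥ v = w := by
    rw [hv, Matrix.mulVec_mulVec, Matrix.mul_nonsing_inv _ hGt, Matrix.one_mulVec]
  have hv0 : v ≠ 0 := by
    intro h0
    apply hw0
    rw [← hGv, h0, Matrix.mulVec_zero]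
  have hN : θ • A - B = G * (θ • Hank n F δ - Hank n F (X * δ)) * Gᵀ := by
    rw [hA, hB, Matrix.mul_sub, Matrix.sub_mul, Matrix.mul_smul, Matrix.smul_mul]
  have hNv : (θ • A - B) *ᵥ v = 0 := by
    rw [hN, ← Matrix.mulVec_mulVec, hGv, ← Matrix.mulVec_mulVec, hMw, Matrix.mulVec_zero]
  have hsymm : (θ • A - B).IsSymm := by
    rw [hN]
    have h1 : (θ • Hank n F δ - Hank n F (X * δ)).IsSymm := by
      have h2 := hank_isSymm (n := n) F δ
      have h3 := hank_isSymm (n := n) F (X * δ)
      unfold Matrix.IsSymm at *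
      rw [Matrix.transpose_sub, Matrix.transpose_smul, h2, h3]
    unfold Matrix.IsSymm at *
    rw [Matrix.transpose_mul, Matrix.transpose_mul, Matrix.transpose_transpose, h1,
      Matrix.mul_assoc]
  obtain ⟨ρ, hρ⟩ := adjugate_rank_one _ hsymm v hv0 hNv
  -- the trace
  have htr : ((θ • A - B).adjugate * A).trace = A.det * G0.eval θ := by
    have h1 : ((X : K[X]) • A.map C - B.map C).det = C A.det * F := by
      have h2 : (X : K[X]) • A.map C - B.map C =
          G.map C * ((X : K[X]) • (Hank n F δ).map C - (Hank n F (X * δ)).map C) * (Gᵀ).map C := by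
        rw [hA, hB, Matrix.mul_sub, Matrix.sub_mul, Matrix.mul_smul, Matrix.smul_mul]
        simp only [Matrix.map_mul]
      rw [h2, Matrix.det_mul, Matrix.det_mul, hank_char F δ hF hn]
      have h3 : (G.map (C : K →+* K[X])).det = C G.det := by
        rw [← RingHom.mapMatrix_apply, ← RingHom.map_det]
      have h4 : ((Gᵀ).map (C : K →+* K[X])).det = C G.det := by
        rw [← RingHom.mapMatrix_apply, ← RingHom.map_det, Matrix.det_transpose]
      rw [h3, h4, hA, Matrix.det_mul, Matrix.det_mul, Matrix.det_transpose]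
      simp only [map_mul]
      ring
    have h5 := derivative_det ((X : K[X]) • A.map C - B.map C)
    rw [h1, derivative_C_mul] at h5
    have h6 : ((X : K[X]) • A.map C - B.map C).map (fun q => derivative q) = A.map C := by
      ext a b
      simp [Matrix.map_apply, Matrix.sub_apply, Matrix.smul_apply, derivative_mul]
    rw [h6] at h5
    have h7 := congrArg (Polynomial.eval θ) h5
    rw [eval_mul, eval_C, hderiv] at h7
    rw [h7]
    have h8 : (((X : K[X]) • A.map C - B.map C).map (evalRingHom θ)) = θ • A - B := by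
      ext a b
      simp [Matrix.map_apply, Matrix.sub_apply, Matrix.smul_apply]
      try ring
    have h9 : (A.map (C : K →+* K[X])).map (evalRingHom θ) = A := by
      ext a b
      simp
    have h10 : eval θ (((X : K[X]) • A.map C - B.map C).adjugate * A.map C).trace =
        ((((X : K[X]) • A.map C - B.map C).adjugate * A.map C).map (evalRingHom θ)).trace := by
      simp only [Matrix.trace, Matrix.diag_apply, eval_finsetSum, Matrix.map_apply,
        coe_evalRingHom]
    have h11 : (((X : K[X]) • A.map C - B.map C).adjugate).map (evalRingHom θ) =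
        (((X : K[X]) • A.map C - B.map C).map (evalRingHom θ)).adjugate :=
      RingHom.map_adjugate (evalRingHom θ) _
    rw [h10, Matrix.map_mul, h9, h11, h8]
  -- `vᵀ A v`
  have hvAv : v ⬝ᵥ (A *ᵥ v) = δ.eval θ * G0.eval θ := by
    have h1 : v ⬝ᵥ (A *ᵥ v) = w ⬝ᵥ (Hank n F δ *ᵥ w) := by
      rw [hA, ← Matrix.mulVec_mulVec, hGv, ← Matrix.mulVec_mulVec, Matrix.dotProduct_mulVec v G,
        ← Matrix.mulVec_transpose, hGv]
    rw [h1, dotProduct]
    simp only [hHw, eval_mul, eval_pow, eval_X]
    have h2 : G0.eval θ = ∑ j : Fin n, G0.coeff j * θ ^ (j : ℕ) := by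
      rw [eval_eq_sum_range' hG0lt, ← Fin.sum_univ_eq_sum_range (fun j => G0.coeff j * θ ^ j) n]
    rw [h2, Finset.mul_sum]
    refine Finset.sum_congr rfl fun j _ => ?_
    simp only [hw]
    ring
  have htr2 : ((θ • A - B).adjugate * A).trace = ρ * (v ⬝ᵥ (A *ᵥ v)) := by
    rw [Matrix.trace, dotProduct, Finset.mul_sum]
    refine Finset.sum_congr rfl fun a _ => ?_
    rw [Matrix.diag_apply, Matrix.mul_apply, Matrix.mulVec, dotProduct]
    have hAs : ∀ a b, A a b = A b a := by
      intro a b
      have h1 : Aᵀ = A := by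
        rw [hA, Matrix.transpose_mul, Matrix.transpose_mul, Matrix.transpose_transpose,
          hank_isSymm (n := n) F δ, Matrix.mul_assoc]
      rw [← Matrix.transpose_apply A, h1]
    rw [Finset.mul_sum, Finset.mul_sum]
    refine Finset.sum_congr rfl fun b _ => ?_
    rw [hρ a b, hAs b a]
    ring
  have hfin : ρ * δ.eval θ = A.det := by
    have h1 : ρ * (δ.eval θ * G0.eval θ) = A.det * G0.eval θ := by
      rw [← hvAv, ← htr2, htr]
    have h2 : G0.eval θ ≠ 0 := by rw [← hderiv]; exact hd
    apply mul_right_cancel₀ h2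
    linear_combination h1
  refine ⟨ρ * δ.eval θ * v i, ?_⟩
  rw [hρ i i, ← hfin]
  ring

end hank

end Stoll308.BG.LCond
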