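import Pool.Agent.Work.MP_308fa9_nt.BG.Basic
import Pool.Agent.Work.MP_308fa9_nt.BE.Sieve
import Pool.Agent.Work.MP_308fa9_nt.BE.TrivC

set_option autoImplicit false

/-!
The trivial class survives for few vectors of coefficients.
-/

namespace Stoll308.BG

open Finset

namespace TrivC

/-- the excluded event at `l` -/
def Ev {m : ℕ} (l : ℕ) (t : Fin (m + 2) → ℤ) : Prop :=
  (l : ℤ) ∣ t (Fin.last (m + 1)) ∧ ¬ (l : ℤ) ^ 2 ∣ t (Fin.last (m + 1)) ∧
    ¬ (l : ℤ) ∣ t (Fin.last m).castSucc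

lemma ev_congr {m : ℕ} (l : ℕ) (t t' : Fin (m + 2) → ℤ)
    (h : ∀ i, ((l ^ 2 : ℕ) : ℤ) ∣ t i - t' i) : Ev l t ↔ Ev l t' := by
  have h2 : ∀ i, (l : ℤ) ^ 2 ∣ t i - t' i := fun i => by
    have := h i
    rwa [Nat.cast_pow] at this
  have h1 : ∀ i, (l : ℤ) ∣ t i - t' i := fun i => (dvd_pow_self (l : ℤ) two_ne_zero).trans (h2 i)
  unfold Ev
  rw [dvd_iff_dvd_of_dvd_sub (h1 (Fin.last (m + 1))), dvd_iff_dvd_of_dvd_sub (h2 (Fin.last (m + 1))),
    dvd_iff_dvd_of_dvd_sub (h1 (Fin.last m).castSucc)]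

open Classical in
lemma ev_count (m l : ℕ) (hl : 2 ≤ l) : (l ^ 2) ^ m * (l * ((l - 1) * (l - 1))) ≤
    (univ.filter fun t : Fin (m + 2) → Fin (l ^ 2) => Ev l (fun i => ((t i : ℕ) : ℤ))).card := by
  have hc : ∀ (i : Fin l) (j : Fin (l - 1)), l * (i : ℕ) + ((j : ℕ) + 1) < l ^ 2 := by
    intro i j
    have h1 : l * (i : ℕ) + l ≤ l * l := by
      have := Nat.mul_le_mul_left l (Nat.succ_le_of_lt i.2)
      rw [Nat.succ_eq_add_one, mul_add, mul_one] at this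
      exact this
    have h2 := j.2
    rw [pow_two]
    omega
  have hd : ∀ e : Fin (l - 1), l * ((e : ℕ) + 1) < l ^ 2 := by
    intro e
    rw [pow_two]
    have := e.2
    exact Nat.mul_lt_mul_of_pos_left (by omega) (by omega)
  have key := card_le_card_of_injOn
    (s := (univ : Finset ((Fin m → Fin (l ^ 2)) × Fin l × Fin (l - 1) × Fin (l - 1))))
    (t := univ.filter fun t : Fin (m + 2) → Fin (l ^ 2) => Ev l (fun i => ((t i : ℕ) : ℤ)))
    (fun x => Fin.snoc (α := fun _ => Fin (l ^ 2)) (Fin.snoc (α := fun _ => Fin (l ^ 2)) x.1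
      ⟨l * (x.2.1 : ℕ) + ((x.2.2.1 : ℕ) + 1), hc _ _⟩) ⟨l * ((x.2.2.2 : ℕ) + 1), hd _⟩) ?_ ?_
  · rw [card_univ, Fintype.card_prod, Fintype.card_prod, Fintype.card_prod, Fintype.card_fin,
      Fintype.card_fin, Fintype.card_fun, Fintype.card_fin, Fintype.card_fin] at key
    exact key
  · rintro ⟨b, i, j, e⟩ -
    rw [mem_coe, mem_filter]
    refine ⟨mem_univ _, ?_⟩
    unfold Ev
    simp only [Fin.snoc_last, Fin.snoc_castSucc]
    refine ⟨?_, ?_, ?_⟩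
    · rw [Int.natCast_dvd_natCast]
      exact dvd_mul_right _ _
    · rw [← Nat.cast_pow, Int.natCast_dvd_natCast]
      intro h
      have := Nat.le_of_dvd (by positivity) h
      exact absurd (hd e) (not_lt.mpr this)
    · rw [Int.natCast_dvd_natCast]
      intro h
      rw [Nat.dvd_add_right (dvd_mul_right _ _)] at h
      have h1 := Nat.le_of_dvd (by omega) h
      have := j.2
      omega
  · rintro ⟨b, i, j, e⟩ - ⟨b', i', j', e'⟩ - h
    simp only at h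
    obtain ⟨h01, h2⟩ := Fin.snoc_inj.1 h
    obtain ⟨h0, h1⟩ := Fin.snoc_inj.1 h01
    simp only [Fin.mk.injEq] at h1 h2
    have hl0 : 0 < l := by omega
    have h2' : (e : ℕ) + 1 = (e' : ℕ) + 1 := Nat.eq_of_mul_eq_mul_left hl0 h2
    have hj : ((j : ℕ) + 1) = ((j' : ℕ) + 1) := by
      have := congrArg (· % l) h1
      simp only [Nat.mul_add_mod] at this
      have hj1 := j.2
      have hj2 := j'.2
      rwa [Nat.mod_eq_of_lt (by omega), Nat.mod_eq_of_lt (by omega)] at this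
    have hi : (i : ℕ) = (i' : ℕ) := Nat.eq_of_mul_eq_mul_left hl0 (by omega)
    simp only [Prod.mk.injEq]
    exact ⟨h0, Fin.ext hi, Fin.ext (by omega), Fin.ext (by omega)⟩

/-- the vectors of the box -/
lemma cnt_le_box {n : ℕ} (P : (Fin n → ℤ) → Prop) (X : ℕ) (Q : (Fin n → ℤ) → Prop)
    [DecidablePred Q] (h : ∀ b, P b → Q b) : cnt n P X ≤
      ((Fintype.piFinset fun i : Fin n => Ico (-(X : ℤ) ^ ((i : ℕ) + 1))
        (-(X : ℤ) ^ ((i : ℕ) + 1) + ((2 * X ^ ((i : ℕ) + 1) + 1 : ℕ) : ℤ))).filter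
      fun t => Q t).card := by
  classical
  unfold cnt
  refine card_le_card fun t ht => ?_
  obtain ⟨ht1, hall⟩ := mem_filter.mp ht
  rw [Fintype.mem_piFinset] at ht1
  rw [mem_filter, Fintype.mem_piFinset]
  refine ⟨fun i => ?_, h _ hall⟩
  have hi := mem_Icc.1 (ht1 i)
  rw [mem_Ico]
  push_cast
  constructor <;> linarith [hi.1, hi.2]

lemma prod_pow_box (n : ℕ) (X : ℝ) : ∏ i : Fin n, X ^ ((i : ℕ) + 1) = X ^ (n * (n + 1) / 2) := by
  rw [prod_pow_eq_pow_sum]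
  congr 1
  rw [Fin.sum_univ_eq_sum_range (fun i => i + 1) n]
  have h := Finset.sum_range_id_mul_two (n + 1)
  rw [Finset.sum_range_succ', add_zero, Nat.add_sub_cancel] at h
  rw [Nat.mul_comm n (n + 1)]
  omega

end TrivC

open TrivC BE.TrivC in
theorem triv_small (n : ℕ) (hn : 2 ≤ n) (α : ℤ) (hα : ¬ IsSquare α) (ε : ℝ) (hε : 0 < ε) :
    ∃ z X₀ : ℕ, ∀ X : ℕ, X₀ ≤ X →
      (cnt n (fun b => ∀ l ∈ Icc 3 z, ¬ (l : ℤ) ∣ α →
        (∃ _h : Fact l.Prime, legendreSym l α = -1) → ∀ i j : Fin n, (i : ℕ) + 1 = n →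
          (j : ℕ) + 2 = n → ¬ ((l : ℤ) ∣ b i ∧ ¬ (l : ℤ) ^ 2 ∣ b i ∧ ¬ (l : ℤ) ∣ b j)) X : ℝ) ≤
        ε * X ^ (n * (n + 1) / 2) := by
  classical
  obtain ⟨m, rfl⟩ : ∃ m, n = m + 2 := ⟨n - 2, by omega⟩
  obtain ⟨z, hz⟩ := sum_PS α hα (9 / 4 * (-Real.log (ε / 4 ^ (m + 2))))
  set S := PS α z with hS
  set M : ℕ := ∏ l ∈ S, l ^ 2 with hM
  have hprod : ∏ l ∈ S, (1 - 4 / (9 * (l : ℝ))) ≤ ε / 4 ^ (m + 2) := by
    have h1 : ∏ l ∈ S, (1 - 4 / (9 * (l : ℝ))) ≤ ∏ l ∈ S, Real.exp (-(4 / (9 * (l : ℝ)))) := by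
      refine prod_le_prod (fun l hl => ?_) fun l hl => ?_
      · have h2 : (3 : ℝ) ≤ l := by exact_mod_cast (PS_prime hl).2
        rw [sub_nonneg, div_le_one (by linarith)]
        linarith
      · have := Real.add_one_le_exp (-(4 / (9 * (l : ℝ))))
        linarith
    refine h1.trans ?_
    rw [← Real.exp_sum, ← Real.le_log_iff_exp_le (by positivity)]
    have h2 : ∑ l ∈ S, -(4 / (9 * (l : ℝ))) = -(4 / 9 * ∑ l ∈ S, 1 / (l : ℝ)) := by
      rw [mul_sum, ← sum_neg_distrib]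
      refine sum_congr rfl fun l _ => ?_
      rw [neg_inj]
      ring
    rw [h2]
    linarith
  refine ⟨z, M + 1, fun X hX => ?_⟩
  have hbox := BE.sieve_box (n := m + 2) S (fun l => l ^ 2)
    (fun l hl => by have := (PS_prime hl).2; positivity)
    (fun l hl l' hl' hne => by
      refine Nat.Coprime.pow 2 2 ?_
      exact (Nat.coprime_primes (PS_prime hl).1 (PS_prime hl').1).2 hne)
    (fun l t => TrivC.Ev l t) (fun l hl t t' h => TrivC.ev_congr l t t' h)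
    (fun l => 4 / (9 * (l : ℝ)))
    (fun l hl => by
      have h2 : (3 : ℝ) ≤ l := by exact_mod_cast (PS_prime hl).2
      rw [div_le_one (by linarith)]
      linarith)
    (fun l hl => by
      have h2 : 3 ≤ l := (PS_prime hl).2
      have h3 : (3 : ℝ) ≤ l := by exact_mod_cast h2
      have h4 := TrivC.ev_count m l (by omega)
      have h5 : (((l ^ 2) ^ m * (l * ((l - 1) * (l - 1))) : ℕ) : ℝ) =
          ((l : ℝ) ^ 2) ^ m * (l * ((l : ℝ) - 1) ^ 2) := by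
        push_cast [Nat.cast_sub (show 1 ≤ l by omega)]
        ring
      have h6 : (((l ^ 2) ^ m * (l * ((l - 1) * (l - 1))) : ℕ) : ℝ) ≤ _ := Nat.cast_le.mpr h4
      rw [h5] at h6
      refine le_trans ?_ h6
      have h7 : 4 / (9 * (l : ℝ)) * (((l ^ 2 : ℕ) : ℝ)) ^ (m + 2) =
          ((l : ℝ) ^ 2) ^ m * (l * (4 / 9 * (l : ℝ) ^ 2)) := by
        push_cast
        rw [pow_add]
        field_simp
      rw [h7]
      refine mul_le_mul_of_nonneg_left ?_ (by positivity)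
      refine mul_le_mul_of_nonneg_left ?_ (by positivity)
      nlinarith)
    (fun i => -(X : ℤ) ^ ((i : ℕ) + 1)) (fun i => 2 * X ^ ((i : ℕ) + 1) + 1)
  refine le_trans (Nat.cast_le.mpr (TrivC.cnt_le_box _ X (fun t => ∀ l ∈ S, ¬ TrivC.Ev l t) ?_))
    (hbox.trans ?_)
  · intro b h l hl hE
    rw [hS] at hl
    unfold PS at hl
    rw [mem_filter] at hl
    exact h l hl.1 hl.2.1 hl.2.2 (Fin.last (m + 1)) (Fin.last m).castSucc (by simp) (by simp) hE
  have hX1 : (1 : ℝ) ≤ X := by exact_mod_cast (by omega : 1 ≤ X)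
  have hMX : (M : ℝ) ≤ X := by exact_mod_cast (by omega : M ≤ X)
  have hMc : ∏ l ∈ S, (((l ^ 2 : ℕ) : ℕ) : ℝ) = (M : ℝ) := by
    rw [hM, Nat.cast_prod]
  rw [hMc]
  have hp0 : 0 ≤ ∏ l ∈ S, (1 - 4 / (9 * (l : ℝ))) := by
    refine prod_nonneg fun l hl => ?_
    have h2 : (3 : ℝ) ≤ l := by exact_mod_cast (PS_prime hl).2
    rw [sub_nonneg, div_le_one (by linarith)]
    linarith
  have hD : ∏ i : Fin (m + 2), (((2 * X ^ ((i : ℕ) + 1) + 1 : ℕ) : ℝ) + M) ≤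
      4 ^ (m + 2) * (X : ℝ) ^ ((m + 2) * (m + 2 + 1) / 2) := by
    calc ∏ i : Fin (m + 2), (((2 * X ^ ((i : ℕ) + 1) + 1 : ℕ) : ℝ) + M)
        ≤ ∏ i : Fin (m + 2), (4 * (X : ℝ) ^ ((i : ℕ) + 1)) := by
          refine prod_le_prod (fun i _ => by positivity) fun i _ => ?_
          have h1 : (X : ℝ) ≤ (X : ℝ) ^ ((i : ℕ) + 1) := le_self_pow₀ hX1 (by omega)
          push_cast
          linarith
      _ = _ := by
          rw [prod_mul_distrib, prod_pow_box, prod_const, card_univ, Fintype.card_fin]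
  calc (∏ i : Fin (m + 2), (((2 * X ^ ((i : ℕ) + 1) + 1 : ℕ) : ℝ) + M)) *
        ∏ l ∈ S, (1 - 4 / (9 * (l : ℝ)))
      ≤ (4 ^ (m + 2) * (X : ℝ) ^ ((m + 2) * (m + 2 + 1) / 2)) * (ε / 4 ^ (m + 2)) := by
        gcongr
    _ = ε * (X : ℝ) ^ ((m + 2) * (m + 2 + 1) / 2) := by
        field_simp

end Stoll308.BG
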