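import Pool.Agent.Work.MP_308fa9_nt.BG.Defs

set_option autoImplicit false

/-!
The curves `y² = f(ψ(x)²)`, `f = α T^n + b₀ T^(n-1) + ... + b_(n-1)`, for a fixed polynomial `ψ`:
local solubility and the Selmer set of the classes of `ψ(x)² - θ`. Definitions of the statement.
-/

namespace Stoll308.BG

open Polynomial Finset

/-- The smooth projective curve with the affine equation `y² = f(ψ(x)²)`,
`f = α T^n + b₀ T^(n-1) + ... + b_(n-1)`, has a point over the field `K`: an affine one, or one of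
the two points at infinity, which are defined over `K` if and only if `α` is a square in `K`. -/
def HasPointP {n : ℕ} (ψ : ℤ[X]) (α : ℤ) (b : Fin n → ℤ) (K : Type*) [Field K] : Prop :=
  (∃ x y : K, y ^ 2 = (fpol (α : K) (fun i => (b i : K))).eval ((aeval x ψ) ^ 2)) ∨
    IsSquare (α : K)

/-- The curve has points over all completions of `ℚ`. -/
def ELSP {n : ℕ} (ψ : ℤ[X]) (α : ℤ) (b : Fin n → ℤ) : Prop :=
  (∀ (p : ℕ) [Fact p.Prime], HasPointP ψ α b ℚ_[p]) ∧ HasPointP ψ α b ℝ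

/-- The affine curve `y² = f(ψ(x)²)` is smooth: its right hand side has no multiple factor. -/
def SmoothP {n : ℕ} (ψ : ℤ[X]) (α : ℤ) (b : Fin n → ℤ) : Prop :=
  Squarefree ((fpol (α : ℚ) (fun i => (b i : ℚ))).comp ((ψ.map (Int.castRingHom ℚ)) ^ 2))

/-- There is an affine point `(x, y)`, `y ≠ 0`, of the curve over the field `K ⊇ ℚ` such that
`ψ(x)² - θ` is `δ` times a square in `K[θ] = K[T]/(f)`, where `θ` is the class of `T`. -/
def LocalImageP {n : ℕ} (ψ : ℤ[X]) (α : ℤ) (b : Fin n → ℤ) (δ : ℚ[X]) (K : Type*) [Field K]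
    [Algebra ℚ K] : Prop :=
  ∃ (x y : K) (s : K[X]), y ≠ 0 ∧
    y ^ 2 = (fpol (α : K) (fun i => (b i : K))).eval ((aeval x ψ) ^ 2) ∧
    fpol (α : K) (fun i => (b i : K)) ∣
      (C ((aeval x ψ) ^ 2) - X) - δ.map (algebraMap ℚ K) * s ^ 2

/-- The Selmer set is nonempty: some `δ ∈ ℚ[θ]ˣ` is in the image of the local points at all places
of `ℚ`. -/
def SelP {n : ℕ} (ψ : ℤ[X]) (α : ℤ) (b : Fin n → ℤ) : Prop :=
  ∃ δ : ℚ[X], IsCoprime δ (fpol (α : ℚ) (fun i => (b i : ℚ))) ∧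
    (∀ (p : ℕ) [Fact p.Prime], LocalImageP ψ α b δ ℚ_[p]) ∧ LocalImageP ψ α b δ ℝ

end Stoll308.BG
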