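import Pool.Agent.Work.MP_308fa9_nt.BG.PDefs
import Pool.Agent.Work.MP_308fa9_nt.BG.Transfer

set_option autoImplicit false

/-!
From the Selmer set of the curve to the monic polynomial; rational points (general `ψ`).
-/

namespace Stoll308.BG

open Polynomial Finset

lemma localP_to_mloc {K : Type*} [Field K] [Algebra ℚ K] {n : ℕ} (hn : 1 ≤ n) (ψ : ℤ[X]) (α : ℤ)
    (b : Fin n → ℤ) (hα : α ≠ 0) (δ : ℚ[X]) (h : LocalImageP ψ α b δ K) :
    MLoc α (fun i => α ^ (i : ℕ) * b i) (C (α : ℚ) * δ.comp (C (α : ℚ)⁻¹ * X)) K := by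
  have hc : CharZero K := algebraRat.charZero K
  have hα' : (α : K) ≠ 0 := by exact_mod_cast hα
  obtain ⟨x, y, s, hy, hxy, t, ht⟩ := h
  refine ⟨aeval x ψ, y, s.comp (C (α : K)⁻¹ * X), hy, ?_, ?_⟩
  · rw [Transfer.FZ_cast, Transfer.eval_scale hn, hxy]
  · have h2 := congrArg (fun q : K[X] => q.comp (C (α : K)⁻¹ * X)) ht
    simp only [sub_comp, mul_comp, C_comp, X_comp, pow_comp] at h2
    have h3 := Transfer.comp_fpol hn (α : K) (fun i => (b i : K)) hα'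
    rw [h3] at h2
    have hα2 : (α : K) * (α : K)⁻¹ = 1 := mul_inv_cancel₀ hα'
    have hα3 : (C (α : K) : K[X]) * C (α : K)⁻¹ = 1 := by rw [← C_mul, hα2, C_1]
    refine ⟨C (α : K) * C ((α : K) ^ (n - 1))⁻¹ * t.comp (C (α : K)⁻¹ * X), ?_⟩
    have h5 : Polynomial.map (algebraMap ℚ K) (C (α : ℚ) * δ.comp (C (α : ℚ)⁻¹ * X)) =
        C (α : K) * (Polynomial.map (algebraMap ℚ K) δ).comp (C (α : K)⁻¹ * X) := by
      rw [Polynomial.map_mul, Polynomial.map_comp, Polynomial.map_mul, map_X, map_C, map_C,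
        map_inv₀, map_intCast]
    have h6 : (C (α * (aeval x ψ) ^ 2) : K[X]) = C (α : K) * C ((aeval x ψ) ^ 2) := C_mul
    rw [h5, h6, Transfer.FZ_cast]
    linear_combination (C (α : K)) * h2 + X * hα3

theorem selP_to_mloc {n : ℕ} (hn : 1 ≤ n) (ψ : ℤ[X]) (α : ℤ) (b : Fin n → ℤ) (hα : α ≠ 0)
    (h : SelP ψ α b) :
    ∃ δ : ℚ[X], IsCoprime δ (FZ ℚ fun i => α ^ (i : ℕ) * b i) ∧
      (∀ (p : ℕ) [Fact p.Prime], MLoc α (fun i => α ^ (i : ℕ) * b i) δ ℚ_[p]) ∧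
      MLoc α (fun i => α ^ (i : ℕ) * b i) δ ℝ := by
  obtain ⟨δ, h1, h2, h3⟩ := h
  have hα' : (α : ℚ) ≠ 0 := by exact_mod_cast hα
  refine ⟨C (α : ℚ) * δ.comp (C (α : ℚ)⁻¹ * X), ?_, ?_, ?_⟩
  · have h4 : IsCoprime (δ.comp (C (α : ℚ)⁻¹ * X))
        ((fpol (α : ℚ) (fun i => (b i : ℚ))).comp (C (α : ℚ)⁻¹ * X)) := by
      simpa using h1.map (compRingHom (C (α : ℚ)⁻¹ * X))
    rw [Transfer.comp_fpol hn (α : ℚ) _ hα'] at h4
    have h5 := h4.of_mul_right_right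
    have hu : IsUnit (C (α : ℚ)) := isUnit_C.mpr (isUnit_iff_ne_zero.mpr hα')
    have h6 := (isCoprime_mul_unit_left_left hu (δ.comp (C (α : ℚ)⁻¹ * X)) _).mpr h5
    rw [Transfer.FZ_cast]
    exact h6
  · intro p hp
    exact localP_to_mloc hn ψ α b hα δ (h2 p)
  · exact localP_to_mloc hn ψ α b hα δ h3

theorem selP_of_point {n : ℕ} (hn : 2 ≤ n) (ψ : ℤ[X]) (α : ℤ) (b : Fin n → ℤ) (hα : ¬ IsSquare α)
    (hF : Irreducible (FZ ℚ fun i => α ^ (i : ℕ) * b i)) (h : HasPointP ψ α b ℚ) :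
    SelP ψ α b := by
  have hα0 : α ≠ 0 := by
    rintro rfl
    exact hα ⟨0, rfl⟩
  have hα' : (α : ℚ) ≠ 0 := by exact_mod_cast hα0
  obtain ⟨x, y, hxy⟩ | hsq := h
  swap
  · exact absurd (Rat.isSquare_intCast_iff.mp hsq) hα
  have hdeg : (FZ ℚ fun i => α ^ (i : ℕ) * b i).natDegree = n := by
    have h1 : (∑ i : Fin n, C (((α ^ (i : ℕ) * b i : ℤ) : ℚ)) *
        (X : ℚ[X]) ^ (n - 1 - (i : ℕ))).natDegree ≤ n - 1 := by
      refine natDegree_sum_le_of_forall_le _ _ fun i _ => ?_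
      exact (natDegree_C_mul_X_pow_le _ _).trans (by omega)
    unfold FZ fpol
    rw [map_one, one_mul, natDegree_add_eq_left_of_natDegree_lt, natDegree_X_pow]
    rw [natDegree_X_pow]
    exact lt_of_le_of_lt h1 (by omega)
  have hy : y ≠ 0 := by
    rintro rfl
    have h1 : (FZ ℚ fun i => α ^ (i : ℕ) * b i).IsRoot (α * (aeval x ψ) ^ 2) := by
      rw [IsRoot, Transfer.FZ_cast, Transfer.eval_scale (by omega), ← hxy]
      ring
    have h2 : (FZ ℚ fun i => α ^ (i : ℕ) * b i).natDegree = 1 :=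
      natDegree_eq_of_degree_eq_some (degree_eq_one_of_irreducible_of_root hF h1)
    rw [hdeg] at h2
    omega
  set G : ℚ[X] := fpol (α : ℚ) (fun i => (b i : ℚ)) with hG
  have hGe : G.eval ((aeval x ψ) ^ 2) = y ^ 2 := hxy.symm
  have key : ∀ (K : Type) [Field K] [Algebra ℚ K],
      LocalImageP ψ α b (C ((aeval x ψ) ^ 2) - X) K := by
    intro K _ _
    have hψ : aeval (algebraMap ℚ K x) ψ = algebraMap ℚ K (aeval x ψ) := by
      rw [aeval_def, aeval_def, hom_eval₂]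
      congr 1
      exact RingHom.ext_int _ _
    refine ⟨algebraMap ℚ K x, algebraMap ℚ K y, 1, ?_, ?_, ?_⟩
    · exact (map_ne_zero (algebraMap ℚ K)).mpr hy
    · have h1 := congrArg (algebraMap ℚ K) hxy
      rw [hψ]
      rw [Transfer.eval_fpol] at h1 ⊢
      simp only [map_add, map_mul, map_pow, map_sum, map_intCast] at h1
      exact h1
    · rw [hψ]
      simp
  refine ⟨C ((aeval x ψ) ^ 2) - X, ?_, fun p hp => key ℚ_[p], key ℝ⟩
  obtain ⟨q, hq⟩ := X_sub_C_dvd_sub_C_eval (a := (aeval x ψ) ^ 2) (p := G)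
  rw [hGe] at hq
  have hy2 : (C (y ^ 2)⁻¹ : ℚ[X]) * C (y ^ 2) = 1 := by
    rw [← C_mul, inv_mul_cancel₀ (pow_ne_zero 2 hy), C_1]
  refine ⟨C (y ^ 2)⁻¹ * q, C (y ^ 2)⁻¹, ?_⟩
  linear_combination (C (y ^ 2)⁻¹) * hq + hy2

end Stoll308.BG
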