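import Pool.Agent.Work.MP_308fa9_nt.BG.Main
import Pool.Agent.Work.MP_308fa9_nt.BG.PTransfer
import Pool.Agent.Work.MP_308fa9_nt.BG.PEls
import Pool.Agent.Work.MP_308fa9_nt.BG.PSmooth

set_option autoImplicit false

/-!
The theorem for a general `ψ`.
-/

namespace Stoll308.BG

open Polynomial Finset Matrix

theorem selP_small (n : ℕ) (hn : 3 ≤ n) (α : ℤ) (hα : ¬ IsSquare α) (ψ : ℤ[X]) (ε : ℝ) (hε : 0 < ε) :
    ∃ X₀ : ℕ, ∀ X : ℕ, X₀ ≤ X →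
      (cnt n (fun b => SelP ψ α b ∨ HasPointP ψ α b ℚ) X : ℝ) ≤ ε * X ^ (n * (n + 1) / 2) := by
  have hα0 : α ≠ 0 := by
    rintro rfl
    exact hα ⟨0, by simp⟩
  have hα1 : (1 : ℝ) ≤ |(α : ℝ)| := by
    have := Int.one_le_abs hα0
    exact_mod_cast this
  set N := n * (n + 1) / 2 with hN
  set a : ℝ := 2 * |(α : ℝ)| with ha
  have ha0 : 0 < a := by positivity
  obtain ⟨K, hK, hred⟩ := red_of_mloc hn α hα
  obtain ⟨X₁, h1⟩ := reducible_small n (by omega) α hα0 (ε / 4) (by positivity)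
  obtain ⟨z, X₂, h2⟩ := triv_small n (by omega) α hα (ε / 4) (by positivity)
  obtain ⟨τ₀, M₀, hτ₀, h3⟩ := cusp n hn K hK (ε / 4 / a ^ N) (by positivity)
  obtain ⟨M₁, h4⟩ := large_t hn α hα0 K τ₀ hτ₀ (ε / 4 / a ^ N) (by positivity)
  refine ⟨X₁ + X₂ + ⌈|M₀|⌉₊ + ⌈|M₁|⌉₊ + 1, ?_⟩
  intro X hX
  have g1 := h1 X (by omega)
  have g2 := h2 X (by omega)
  have hX1 : 1 ≤ X := by omega
  have hXr : (1 : ℝ) ≤ X := by exact_mod_cast hX1
  have hM₀ : M₀ ≤ a * X := by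
    have e1 : |M₀| ≤ ⌈|M₀|⌉₊ := Nat.le_ceil _
    have e2 : ((⌈|M₀|⌉₊ : ℕ) : ℝ) ≤ X := by
      have : ⌈|M₀|⌉₊ ≤ X := by omega
      exact_mod_cast this
    have e3 : (X : ℝ) ≤ a * X := le_mul_of_one_le_left (by positivity) (by rw [ha]; linarith)
    linarith [le_abs_self M₀]
  have hM₁ : M₁ ≤ a * X := by
    have e1 : |M₁| ≤ ⌈|M₁|⌉₊ := Nat.le_ceil _
    have e2 : ((⌈|M₁|⌉₊ : ℕ) : ℝ) ≤ X := by
      have : ⌈|M₁|⌉₊ ≤ X := by omega
      exact_mod_cast this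
    have e3 : (X : ℝ) ≤ a * X := le_mul_of_one_le_left (by positivity) (by rw [ha]; linarith)
    linarith [le_abs_self M₁]
  have h3' := h3 (a * X) hM₀
  have h4' := h4 (a * X) hM₁
  have hsc : ε / 4 / a ^ N * (a * X) ^ N = ε / 4 * X ^ N := main_scale _ _ _ ha0 N
  rw [hsc] at h3' h4'
  set P3 : (Fin n → ℤ) → Prop := fun c => Irreducible (FZ ℚ c) ∧
    ∃ (A B : Matrix (Fin n) (Fin n) ℤ) (t : Fin n → ℝ), RPair K (a * X) c A B t ∧
      ∃ i, t i ≤ τ₀ with hP3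
  set P4 : (Fin n → ℤ) → Prop := fun c =>
    ∃ (A B : Matrix (Fin n) (Fin n) ℤ) (t : Fin n → ℝ), RPair K (a * X) c A B t ∧
        (∀ i, τ₀ < t i) ∧ A.det ∣ α ^ (n - 1) ∧
        ∀ l : ℕ, l ≠ 2 → ¬ (l : ℤ) ∣ α → ¬ Bad α l A B with hP4
  have g3 := cnt_le_of_card α hα0 P3 X _ h3'
  have g4 := cnt_le_of_card α hα0 P4 X _ h4'
  set P1 : (Fin n → ℤ) → Prop := fun b => ¬ Irreducible (FZ ℚ fun i => α ^ (i : ℕ) * b i) with hP1
  set P2 : (Fin n → ℤ) → Prop := fun b => ∀ l ∈ Icc 3 z, ¬ (l : ℤ) ∣ α →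
        (∃ _h : Fact l.Prime, legendreSym l α = -1) → ∀ i j : Fin n, (i : ℕ) + 1 = n →
          (j : ℕ) + 2 = n → ¬ ((l : ℤ) ∣ b i ∧ ¬ (l : ℤ) ^ 2 ∣ b i ∧ ¬ (l : ℤ) ∣ b j) with hP2
  have hle : cnt n (fun b => SelP ψ α b ∨ HasPointP ψ α b ℚ) X ≤
      cnt n P1 X + (cnt n P2 X + (cnt n (fun b => P3 fun i => α ^ (i : ℕ) * b i) X +
        cnt n (fun b => P4 fun i => α ^ (i : ℕ) * b i) X)) := by
    refine le_trans (cnt_mono (Q := fun b => P1 b ∨ P2 b ∨ (P3 fun i => α ^ (i : ℕ) * b i) ∨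
      (P4 fun i => α ^ (i : ℕ) * b i)) X ?_) ?_
    · intro b hb h
      by_cases hF : Irreducible (FZ ℚ fun i => α ^ (i : ℕ) * b i)
      swap
      · exact Or.inl hF
      right
      have hSel : SelP ψ α b := by
        rcases h with h | h
        · exact h
        · exact selP_of_point (by omega) ψ α b hα hF h
      obtain ⟨δ, hδ, hl, hR⟩ := selP_to_mloc (by omega) ψ α b hα0 hSel
      rcases hred (fun i => α ^ (i : ℕ) * b i) hF (a * X) (by positivity)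
        (fun θ hθ => root_bound α hα0 b X hX1 hb θ hθ) δ hδ hl hR with
          h5 | ⟨A, B, t, h5, h6, h7⟩
      · left
        rintro l hl hlα ⟨hlp, hleg⟩ i j hi hj ⟨e1, e2, e3⟩
        rw [mem_Icc] at hl
        have hp : Prime (l : ℤ) := Nat.prime_iff_prime_int.1 hlp.out
        have hco : IsCoprime (l : ℤ) α := (Prime.coprime_iff_not_dvd hp).2 hlα
        refine h5 l hlp (by omega) hlα i j hi hj (e1.mul_left _) ?_ ?_ hleg
        · intro e4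
          apply e2
          exact (IsCoprime.pow hco).dvd_of_dvd_mul_left e4
        · intro e4
          apply e3
          exact (IsCoprime.pow_right hco).dvd_of_dvd_mul_left e4
      · right
        by_cases ht : ∃ i, t i ≤ τ₀
        · exact Or.inl ⟨hF, A, B, t, h5, ht⟩
        · push Not at ht
          exact Or.inr ⟨A, B, t, h5, ht, h6, h7⟩
    · refine (cnt_or _ _ X).trans ?_
      gcongr
      refine (cnt_or _ _ X).trans ?_
      gcongr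
      exact cnt_or _ _ X
  calc ((cnt n (fun b => SelP ψ α b ∨ HasPointP ψ α b ℚ) X : ℕ) : ℝ)
      ≤ ((cnt n P1 X + (cnt n P2 X + (cnt n (fun b => P3 fun i => α ^ (i : ℕ) * b i) X +
        cnt n (fun b => P4 fun i => α ^ (i : ℕ) * b i) X)) : ℕ) : ℝ) := by exact_mod_cast hle
    _ ≤ ε * X ^ N := by
        push_cast
        linarith

theorem main (n : ℕ) (hn : 3 ≤ n) (α : ℤ) (hα : ¬ IsSquare α) (ψ : ℤ[X])
    (hψ : 1 ≤ ψ.natDegree) :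
    (∃ c₀ : ℝ, 0 < c₀ ∧ ∃ X₀ : ℕ, ∀ X : ℕ, X₀ ≤ X →
      c₀ * X ^ (n * (n + 1) / 2) ≤ (cnt n (fun b => ELSP ψ α b ∧ SmoothP ψ α b) X : ℝ)) ∧
    ∀ ε : ℝ, 0 < ε → ∃ X₀ : ℕ, ∀ X : ℕ, X₀ ≤ X →
      (cnt n (fun b => SelP ψ α b ∨ HasPointP ψ α b ℚ) X : ℝ) ≤ ε * X ^ (n * (n + 1) / 2) := by
  have hα0 : α ≠ 0 := by
    rintro rfl
    exact hα ⟨0, by simp⟩
  refine ⟨?_, fun ε hε => selP_small n hn α hα ψ ε hε⟩
  obtain ⟨c, hc, X₁, h1⟩ := elsP_many n hn α hα0 ψ hψ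
  obtain ⟨X₂, h2⟩ := singular_small n (by omega) α hα0 ψ hψ (c / 2) (by positivity)
  refine ⟨c / 2, by positivity, X₁ + X₂, ?_⟩
  intro X hX
  have g1 := h1 X (by omega)
  have g2 := h2 X (by omega)
  have h3 : cnt n (ELSP ψ α) X ≤ cnt n (fun b => ELSP ψ α b ∧ SmoothP ψ α b) X +
      cnt n (fun b => ¬ SmoothP ψ α b) X := by
    refine le_trans (cnt_mono (Q := fun b => (ELSP ψ α b ∧ SmoothP ψ α b) ∨
      ¬ SmoothP ψ α b) X ?_) (cnt_or _ _ X)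
    intro b _ hb
    by_cases h : SmoothP ψ α b
    · exact Or.inl ⟨hb, h⟩
    · exact Or.inr h
  have h4 : (cnt n (ELSP ψ α) X : ℝ) ≤ cnt n (fun b => ELSP ψ α b ∧ SmoothP ψ α b) X +
      cnt n (fun b => ¬ SmoothP ψ α b) X := by exact_mod_cast h3
  linarith

end Stoll308.BG
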