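import Pool.Agent.Work.MP_308fa9_nt.BG.LocLat
import Pool.Agent.Work.MP_308fa9_nt.BG.Glue

set_option autoImplicit false

/-!
Existence of an integral pair of forms in a class which is locally everywhere the class of a point.
-/

namespace Stoll308.BG

open Polynomial Finset Matrix

namespace PairEx

/-- A rational number which is integral at all primes is an integer. -/
lemma int_of_norm_le_one (q : ℚ)
    (h : ∀ (p : ℕ) [Fact p.Prime], ‖algebraMap ℚ ℚ_[p] q‖ ≤ 1) : ∃ z : ℤ, (z : ℚ) = q := by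
  refine ⟨q.num, ?_⟩
  rw [← Rat.den_eq_one_iff]
  by_contra hd
  obtain ⟨p, hp, hpd⟩ := Nat.exists_prime_and_dvd hd
  have : Fact p.Prime := ⟨hp⟩
  have h1 := h p
  rw [eq_ratCast] at h1
  have h2 : (q : ℚ_[p]) * (q.den : ℚ_[p]) = (q.num : ℚ_[p]) := by
    have := Rat.mul_den_eq_num q
    exact_mod_cast congrArg (fun x : ℚ => (x : ℚ_[p])) this
  have h3 : ‖(q.den : ℚ_[p])‖ < 1 := Padic.norm_natCast_lt_one_iff.2 hpd
  have h4 : ‖(q.num : ℚ_[p])‖ < 1 := by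
    rw [← h2, norm_mul]
    calc ‖(q : ℚ_[p])‖ * ‖(q.den : ℚ_[p])‖ ≤ 1 * ‖(q.den : ℚ_[p])‖ :=
          mul_le_mul_of_nonneg_right h1 (norm_nonneg _)
      _ < 1 := by rw [one_mul]; exact h3
  have h5 : (p : ℤ) ∣ q.num := Padic.norm_intCast_lt_one_iff.1 h4
  have h6 : p ∣ q.num.natAbs := Int.natCast_dvd.1 h5
  have h7 := Nat.dvd_gcd h6 hpd
  rw [Nat.Coprime.gcd_eq_one q.reduced] at h7
  exact hp.one_lt.ne' (Nat.dvd_one.1 h7)

/-- Entries of a product of integral matrices. -/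
lemma norm_mul_le_one {n : ℕ} {p : ℕ} [Fact p.Prime] {U V : Matrix (Fin n) (Fin n) ℚ_[p]}
    (hU : ∀ i j, ‖U i j‖ ≤ 1) (hV : ∀ i j, ‖V i j‖ ≤ 1) (i j : Fin n) : ‖(U * V) i j‖ ≤ 1 := by
  rw [mul_apply]
  refine IsUltrametricDist.norm_sum_le_of_forall_le_of_nonneg zero_le_one fun k _ => ?_
  rw [norm_mul]
  exact mul_le_one₀ (hU i k) (norm_nonneg _) (hV k j)

lemma norm_congr_le_one {n : ℕ} {p : ℕ} [Fact p.Prime] {U V : Matrix (Fin n) (Fin n) ℚ_[p]}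
    (hU : ∀ i j, ‖U i j‖ ≤ 1) (hV : ∀ i j, ‖V i j‖ ≤ 1) (i j : Fin n) :
    ‖(U * V * Uᵀ) i j‖ ≤ 1 :=
  norm_mul_le_one (norm_mul_le_one hU hV) (fun i j => hU j i) i j

lemma norm_congr_det {n : ℕ} {p : ℕ} [Fact p.Prime] {U V : Matrix (Fin n) (Fin n) ℚ_[p]}
    (hU : ‖U.det‖ = 1) : ‖(U * V * Uᵀ).det‖ = ‖V.det‖ := by
  rw [det_mul, det_mul, det_transpose, norm_mul, norm_mul, hU]; ring

/-- The primes at which the identity does not work. -/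
lemma exists_finset {n : ℕ} (κ : ℤ) (H H1 : Matrix (Fin n) (Fin n) ℚ) (hH : H.det ≠ 0) :
    ∃ S : Finset ℕ, ∀ (p : ℕ) [Fact p.Prime], p ∉ S →
      (∀ i j, ‖(H.map (algebraMap ℚ ℚ_[p])) i j‖ ≤ 1) ∧
      (∀ i j, ‖(H1.map (algebraMap ℚ ℚ_[p])) i j‖ ≤ 1) ∧
      ‖((κ : ℚ_[p]) ^ (n - 1))‖ ≤ ‖(H.map (algebraMap ℚ ℚ_[p])).det‖ := by
  obtain ⟨N, hN⟩ : ∃ N : ℕ, N = (∏ i, ∏ j, (H i j).den) * (∏ i, ∏ j, (H1 i j).den) *
    H.det.num.natAbs := ⟨_, rfl⟩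
  have hN0 : N ≠ 0 := by
    rw [hN]
    refine mul_ne_zero (mul_ne_zero ?_ ?_) ?_
    · exact Finset.prod_ne_zero_iff.2 fun i _ => Finset.prod_ne_zero_iff.2 fun j _ =>
        (H i j).den_nz
    · exact Finset.prod_ne_zero_iff.2 fun i _ => Finset.prod_ne_zero_iff.2 fun j _ =>
        (H1 i j).den_nz
    · exact Int.natAbs_ne_zero.2 (Rat.num_ne_zero.2 hH)
  refine ⟨N.primeFactors, ?_⟩
  intro p hp hpN
  have hpN' : ¬ p ∣ N := fun h => hpN (Nat.mem_primeFactors.2 ⟨hp.out, h, hN0⟩)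
  rw [hN] at hpN'
  refine ⟨fun i j => ?_, fun i j => ?_, ?_⟩
  · rw [map_apply, eq_ratCast]
    refine Padic.norm_rat_le_one fun h => hpN' ?_
    refine Dvd.dvd.mul_right (Dvd.dvd.mul_right (h.trans ?_) _) _
    exact (Finset.dvd_prod_of_mem (fun j => (H i j).den) (mem_univ j)).trans
      (Finset.dvd_prod_of_mem (fun i => ∏ j, (H i j).den) (mem_univ i))
  · rw [map_apply, eq_ratCast]
    refine Padic.norm_rat_le_one fun h => hpN' ?_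
    refine Dvd.dvd.mul_right (Dvd.dvd.mul_left (h.trans ?_) _) _
    exact (Finset.dvd_prod_of_mem (fun j => (H1 i j).den) (mem_univ j)).trans
      (Finset.dvd_prod_of_mem (fun i => ∏ j, (H1 i j).den) (mem_univ i))
  · have h1 : ‖((κ : ℚ_[p]) ^ (n - 1))‖ ≤ 1 := by
      rw [norm_pow]
      exact pow_le_one₀ (norm_nonneg _) (Padic.norm_int_le_one κ)
    refine h1.trans ?_
    have h2 : (H.map (algebraMap ℚ ℚ_[p])).det = ((H.det : ℚ) : ℚ_[p]) := by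
      rw [← RingHom.mapMatrix_apply, ← RingHom.map_det, eq_ratCast]
    rw [h2]
    have h3 : ((H.det : ℚ) : ℚ_[p]) * (H.det.den : ℚ_[p]) = (H.det.num : ℚ_[p]) := by
      exact_mod_cast congrArg (fun x : ℚ => (x : ℚ_[p])) (Rat.mul_den_eq_num H.det)
    have h4 : ‖(H.det.num : ℚ_[p])‖ = 1 := by
      refine le_antisymm (Padic.norm_int_le_one _) ?_
      by_contra h
      rw [not_le] at h
      have h5 : (p : ℤ) ∣ H.det.num := Padic.norm_intCast_lt_one_iff.1 h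
      exact hpN' (Dvd.dvd.mul_left (Int.natCast_dvd.1 h5) _)
    rw [← h4, ← h3, norm_mul]
    have h6 : ‖(H.det.den : ℚ_[p])‖ ≤ 1 := by
      have := Padic.norm_int_le_one (p := p) (H.det.den : ℤ)
      rwa [Int.cast_natCast] at this
    exact mul_le_of_le_one_right (norm_nonneg _) h6

end PairEx

open PairEx in
theorem exists_pair {n : ℕ} (hn : 2 ≤ n) (κ : ℤ) (hκ : κ ≠ 0) (c : Fin n → ℤ) (δ : ℚ[X])
    (hδ : IsCoprime δ (FZ ℚ c)) (hloc : ∀ (p : ℕ) [Fact p.Prime], MLoc κ c δ ℚ_[p]) :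
    ∃ A B : Matrix (Fin n) (Fin n) ℤ, IsPair c δ A B ∧ A.det ∣ κ ^ (n - 1) := by
  obtain ⟨H, hHdef⟩ : ∃ H, H = Hank n (FZ ℚ c) δ := ⟨_, rfl⟩
  obtain ⟨H1, hH1def⟩ : ∃ H, H = Hank n (FZ ℚ c) (X * δ) := ⟨_, rfl⟩
  have hH : H.det ≠ 0 := by
    rw [hHdef]
    exact hank_det_ne_zero _ _ (FZ_monic c) (FZ_natDegree c) hδ
  have hHp : ∀ (p : ℕ) [Fact p.Prime], H.map (algebraMap ℚ ℚ_[p]) =
      Hank n (FZ ℚ_[p] c) (δ.map (algebraMap ℚ ℚ_[p])) := by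
    intro p hp
    rw [hHdef, ← hank_map _ _ _ (FZ_monic c), FZ_map]
  have hH1p : ∀ (p : ℕ) [Fact p.Prime], H1.map (algebraMap ℚ ℚ_[p]) =
      Hank n (FZ ℚ_[p] c) (X * δ.map (algebraMap ℚ ℚ_[p])) := by
    intro p hp
    rw [hH1def, ← hank_map _ _ _ (FZ_monic c), FZ_map, Polynomial.map_mul, Polynomial.map_X]
  obtain ⟨S, hS⟩ := exists_finset κ H H1 hH
  have hl : ∀ (p : ℕ) [Fact p.Prime], ∃ g : Matrix (Fin n) (Fin n) ℚ_[p], g.det ≠ 0 ∧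
      (∀ i j, ‖(g * H.map (algebraMap ℚ ℚ_[p]) * gᵀ) i j‖ ≤ 1) ∧
      (∀ i j, ‖(g * H1.map (algebraMap ℚ ℚ_[p]) * gᵀ) i j‖ ≤ 1) ∧
      ‖((κ : ℚ_[p]) ^ (n - 1))‖ ≤ ‖(g * H.map (algebraMap ℚ ℚ_[p]) * gᵀ).det‖ := by
    intro p hp
    obtain ⟨g, h1, h2, h3, h4⟩ := loc_lattice hn κ hκ c δ p (hloc p)
    rw [← hHp p] at h2 h4
    rw [← hH1p p] at h3
    exact ⟨g, h1, h2, h3, h4⟩
  choose g hg1 hg2 hg3 hg4 using hl
  obtain ⟨G, hG, hGS, hGN⟩ := glue S (fun p _ => g p) (fun p _ _ => hg1 p)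
  -- the transformed matrices at each prime
  have key : ∀ (p : ℕ) [Fact p.Prime],
      (∀ i j, ‖((G * H * Gᵀ).map (algebraMap ℚ ℚ_[p])) i j‖ ≤ 1) ∧
      (∀ i j, ‖((G * H1 * Gᵀ).map (algebraMap ℚ ℚ_[p])) i j‖ ≤ 1) ∧
      ‖((κ : ℚ_[p]) ^ (n - 1))‖ ≤ ‖((G * H * Gᵀ).map (algebraMap ℚ ℚ_[p])).det‖ := by
    intro p hp
    have hm : ∀ H : Matrix (Fin n) (Fin n) ℚ, (G * H * Gᵀ).map (algebraMap ℚ ℚ_[p]) =
        G.map (algebraMap ℚ ℚ_[p]) * H.map (algebraMap ℚ ℚ_[p]) *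
          (G.map (algebraMap ℚ ℚ_[p]))ᵀ := by
      intro H
      rw [Matrix.map_mul, Matrix.map_mul, Matrix.transpose_map]
    rw [hm, hm]
    by_cases hpS : p ∈ S
    · obtain ⟨hU1, hU2⟩ := hGS p hpS
      obtain ⟨U, hU⟩ : ∃ U, U = G.map (algebraMap ℚ ℚ_[p]) * (g p)⁻¹ := ⟨_, rfl⟩
      rw [← hU] at hU1 hU2
      have hUg : G.map (algebraMap ℚ ℚ_[p]) = U * g p := by
        rw [hU, Matrix.mul_assoc, nonsing_inv_mul _ (isUnit_iff_ne_zero.2 (hg1 p)),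
          Matrix.mul_one]
      have he : ∀ V : Matrix (Fin n) (Fin n) ℚ_[p], (U * g p) * V * (U * g p)ᵀ =
          U * (g p * V * (g p)ᵀ) * Uᵀ := by
        intro V
        rw [transpose_mul]
        simp only [Matrix.mul_assoc]
      rw [hUg, he, he]
      exact ⟨norm_congr_le_one hU1 (hg2 p), norm_congr_le_one hU1 (hg3 p), by
        rw [norm_congr_det hU2]; exact hg4 p⟩
    · obtain ⟨hU1, hU2⟩ := hGN p hpS
      obtain ⟨h1, h2, h3⟩ := hS p hpS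
      exact ⟨norm_congr_le_one hU1 h1, norm_congr_le_one hU1 h2, by
        rw [norm_congr_det hU2]; exact h3⟩
  have hA : ∀ i j, ∃ z : ℤ, (z : ℚ) = (G * H * Gᵀ) i j := fun i j =>
    int_of_norm_le_one _ fun p _ => (key p).1 i j
  have hB : ∀ i j, ∃ z : ℤ, (z : ℚ) = (G * H1 * Gᵀ) i j := fun i j =>
    int_of_norm_le_one _ fun p _ => (key p).2.1 i j
  choose A hA using hA
  choose B hB using hB
  have hAm : (Matrix.of A).map (Int.cast : ℤ → ℚ) = G * H * Gᵀ := by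
    ext i j; exact hA i j
  have hBm : (Matrix.of B).map (Int.cast : ℤ → ℚ) = G * H1 * Gᵀ := by
    ext i j; exact hB i j
  refine ⟨Matrix.of A, Matrix.of B, ⟨G, hG, by rw [hAm, hHdef], by rw [hBm, hH1def]⟩, ?_⟩
  have hdet : (((Matrix.of A).det : ℤ) : ℚ) = (G * H * Gᵀ).det := by
    rw [← hAm]
    exact (Int.castRingHom ℚ).map_det (Matrix.of A)
  have hdet0 : (((Matrix.of A).det : ℤ) : ℚ) ≠ 0 := by
    rw [hdet, det_mul, det_mul, det_transpose]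
    exact mul_ne_zero (mul_ne_zero hG hH) hG
  obtain ⟨z, hz⟩ := int_of_norm_le_one ((κ : ℚ) ^ (n - 1) / ((Matrix.of A).det : ℤ)) (by
    intro p hp
    have h := (key p).2.2
    have e : ((G * H * Gᵀ).map (algebraMap ℚ ℚ_[p])).det =
        algebraMap ℚ ℚ_[p] (((Matrix.of A).det : ℤ) : ℚ) := by
      rw [hdet, ← RingHom.mapMatrix_apply, ← RingHom.map_det]
    rw [e] at h
    rw [map_div₀, norm_div, div_le_one (norm_pos_iff.2 (by
      rw [Ne, map_eq_zero]; exact hdet0)), map_pow, map_intCast]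
    exact h)
  refine ⟨z, ?_⟩
  rw [eq_div_iff hdet0] at hz
  have : ((κ ^ (n - 1) : ℤ) : ℚ) = (((Matrix.of A).det * z : ℤ) : ℚ) := by
    rw [Int.cast_pow, Int.cast_mul, ← hz, mul_comm]
  exact Int.cast_injective this

end Stoll308.BG
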