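import Pool.Agent.Work.MP_308fa9_nt.BG.Basic

set_option autoImplicit false

/-!
Double counting with the lower unitriangular matrices.
-/

namespace Stoll308.BG

open Finset Matrix

namespace Unip

/-- Lower unitriangular. -/
def LU {n : ℕ} (W : Matrix (Fin n) (Fin n) ℤ) : Prop :=
  (∀ i, W i i = 1) ∧ ∀ i j, i < j → W i j = 0

lemma LU.block {n : ℕ} {W : Matrix (Fin n) (Fin n) ℤ} (h : LU W) :
    W.BlockTriangular OrderDual.toDual := by
  intro i j hij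
  exact h.2 i j (OrderDual.toDual_lt_toDual.1 hij)

lemma LU.det {n : ℕ} {W : Matrix (Fin n) (Fin n) ℤ} (h : LU W) : W.det = 1 := by
  rw [det_of_isLowerTriangular W h.block]
  exact Finset.prod_eq_one fun i _ => h.1 i

/-- Diagonal of a product of lower triangular matrices. -/
lemma diag_mul {n : ℕ} (V W : Matrix (Fin n) (Fin n) ℤ) (hV : ∀ i j, i < j → V i j = 0)
    (hW : ∀ i j, i < j → W i j = 0) (i : Fin n) : (V * W) i i = V i i * W i i := by
  rw [mul_apply]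
  refine Finset.sum_eq_single i (fun k _ hk => ?_) (fun h => absurd (mem_univ i) h)
  rcases lt_or_gt_of_ne hk with h | h
  · rw [hW k i h, mul_zero]
  · rw [hV i k h, zero_mul]

lemma LU.inv_mul {n : ℕ} {V W : Matrix (Fin n) (Fin n) ℤ} (hV : LU V) (hW : LU W) :
    ∃ U : Matrix (Fin n) (Fin n) ℤ, LU U ∧ V * U = W := by
  have hdet : IsUnit V.det := by rw [hV.det]; exact isUnit_one
  have hVu : V * V⁻¹ = 1 := mul_nonsing_inv V hdet
  have hVu' : V⁻¹ * V = 1 := nonsing_inv_mul V hdet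
  let _ : Invertible V := invertibleOfIsUnitDet V hdet
  have hinv : (V⁻¹).BlockTriangular OrderDual.toDual :=
    blockTriangular_inv_of_blockTriangular hV.block
  have hinv' : ∀ i j, i < j → V⁻¹ i j = 0 := fun i j hij =>
    hinv (OrderDual.toDual_lt_toDual.2 hij)
  have hdiag : ∀ i, V⁻¹ i i = 1 := by
    intro i
    have h := diag_mul V⁻¹ V hinv' hV.2 i
    rw [hVu', one_apply_eq, hV.1 i, mul_one] at h
    exact h.symm
  refine ⟨V⁻¹ * W, ⟨fun i => ?_, fun i j hij => ?_⟩, ?_⟩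
  · rw [diag_mul _ _ hinv' hW.2, hdiag, hW.1, mul_one]
  · exact (hinv.mul hW.block) (OrderDual.toDual_lt_toDual.2 hij)
  · rw [← Matrix.mul_assoc, hVu, Matrix.one_mul]

/-- Cancellation of an invertible congruence. -/
lemma congr_cancel {n : ℕ} {V U A A' : Matrix (Fin n) (Fin n) ℤ} (hV : LU V)
    (h : (V * U) * A * (V * U)ᵀ = V * A' * Vᵀ) : U * A * Uᵀ = A' := by
  have hdet : IsUnit V.det := by rw [hV.det]; exact isUnit_one
  have hVu' : V⁻¹ * V = 1 := nonsing_inv_mul V hdet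
  have hT : Vᵀ * (V⁻¹)ᵀ = 1 := by rw [← transpose_mul, hVu', transpose_one]
  have e1 : V⁻¹ * ((V * U) * A * (V * U)ᵀ) * (V⁻¹)ᵀ = U * A * Uᵀ := by
    rw [transpose_mul]
    calc V⁻¹ * ((V * U) * A * (Uᵀ * Vᵀ)) * (V⁻¹)ᵀ
        = (V⁻¹ * V) * (U * A * Uᵀ) * (Vᵀ * (V⁻¹)ᵀ) := by simp only [Matrix.mul_assoc]
      _ = U * A * Uᵀ := by rw [hVu', hT, Matrix.one_mul, Matrix.mul_one]
  have e2 : V⁻¹ * (V * A' * Vᵀ) * (V⁻¹)ᵀ = A' := by
    calc V⁻¹ * (V * A' * Vᵀ) * (V⁻¹)ᵀ = (V⁻¹ * V) * A' * (Vᵀ * (V⁻¹)ᵀ) := by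
          simp only [Matrix.mul_assoc]
      _ = A' := by rw [hVu', hT, Matrix.one_mul, Matrix.mul_one]
  rw [← e1, h, e2]

/-- The lower unitriangular matrices of the box. -/
noncomputable def Wset {n : ℕ} (s : Fin n → ℝ) : Finset (Fin n → Fin n → ℤ) :=
  Fintype.piFinset fun i => Fintype.piFinset fun j =>
    if j < i then Icc (-⌊s i / s j⌋) ⌊s i / s j⌋ else if i = j then {1} else {0}

lemma mem_Wset {n : ℕ} {s : Fin n → ℝ} (hs : ∀ i, 0 < s i) {W : Matrix (Fin n) (Fin n) ℤ}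
    (hW : W ∈ Wset s) : LU W ∧ ∀ i j, |(W i j : ℝ)| ≤ s i / s j := by
  have hW : ∀ i j, W i j ∈
      (if j < i then Icc (-⌊s i / s j⌋) ⌊s i / s j⌋ else if i = j then {1} else {0}) :=
    fun i j => Fintype.mem_piFinset.1 (Fintype.mem_piFinset.1 hW i) j
  have h1 : ∀ i, W i i = 1 := by
    intro i
    have := hW i i
    simpa using this
  have h2 : ∀ i j, i < j → W i j = 0 := by
    intro i j hij
    have := hW i j
    rw [if_neg (not_lt.2 hij.le), if_neg hij.ne] at this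
    simpa using this
  refine ⟨⟨h1, h2⟩, fun i j => ?_⟩
  rcases lt_trichotomy i j with h | h | h
  · rw [h2 i j h]
    simpa using (div_pos (hs i) (hs j)).le
  · subst h
    rw [h1 i, div_self (hs i).ne']
    simp
  · have := hW i j
    rw [if_pos h, Finset.mem_Icc, ← abs_le] at this
    calc |(W i j : ℝ)| = ((|W i j| : ℤ) : ℝ) := by push_cast; rfl
      _ ≤ (⌊s i / s j⌋ : ℝ) := by exact_mod_cast this
      _ ≤ s i / s j := Int.floor_le _

lemma card_Wset {n : ℕ} {s : Fin n → ℝ} (hs : ∀ i, 0 < s i) :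
    ∏ i, ∏ j ∈ univ.filter (· < i), (s i / s j) ≤ ((Wset s).card : ℝ) := by
  rw [Wset, Fintype.card_piFinset, Nat.cast_prod]
  refine Finset.prod_le_prod (fun i _ => Finset.prod_nonneg fun j _ =>
    (div_pos (hs i) (hs j)).le) (fun i _ => ?_)
  rw [Fintype.card_piFinset, Nat.cast_prod, Finset.prod_filter]
  refine Finset.prod_le_prod (fun j _ => ?_) (fun j _ => ?_)
  · split_ifs
    · exact (div_pos (hs i) (hs j)).le
    · exact zero_le_one
  · by_cases h : j < i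
    · rw [if_pos h, if_pos h, Int.card_Icc]
      have h0 : 0 ≤ ⌊s i / s j⌋ := Int.floor_nonneg.2 (div_pos (hs i) (hs j)).le
      have h1 : (((⌊s i / s j⌋ + 1 - -⌊s i / s j⌋).toNat : ℕ) : ℤ) = 2 * ⌊s i / s j⌋ + 1 := by
        rw [Int.toNat_of_nonneg (by omega)]; ring
      have h2 : (((⌊s i / s j⌋ + 1 - -⌊s i / s j⌋).toNat : ℕ) : ℝ) =
          2 * (⌊s i / s j⌋ : ℝ) + 1 := by exact_mod_cast h1
      rw [h2]
      have h3 := Int.lt_floor_add_one (s i / s j)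
      have h4 : (0 : ℝ) ≤ (⌊s i / s j⌋ : ℝ) := by exact_mod_cast h0
      linarith
    · rw [if_neg h, if_neg h]
      split_ifs <;> simp

/-- The transformed matrix is in the larger box. -/
lemma box_mul {n : ℕ} {s : Fin n → ℝ} (hs : ∀ i, 0 < s i) {a : ℝ} (ha : 0 ≤ a)
    {W A : Matrix (Fin n) (Fin n) ℤ} (hW : ∀ i j, |(W i j : ℝ)| ≤ s i / s j)
    (hA : ∀ i j, |(A i j : ℝ)| ≤ a * (s i * s j)) (i j : Fin n) :
    |(((W * A * Wᵀ) i j : ℤ) : ℝ)| ≤ (n : ℝ) ^ 2 * a * (s i * s j) := by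
  have e : (((W * A * Wᵀ) i j : ℤ) : ℝ) =
      ∑ l, ∑ k, (W i k : ℝ) * (A k l : ℝ) * (W j l : ℝ) := by
    rw [mul_apply]
    push_cast
    refine Finset.sum_congr rfl fun l _ => ?_
    rw [mul_apply]
    push_cast
    rw [Finset.sum_mul]
    rfl
  rw [e]
  calc |∑ l, ∑ k, (W i k : ℝ) * (A k l : ℝ) * (W j l : ℝ)|
      ≤ ∑ l, ∑ k, |(W i k : ℝ) * (A k l : ℝ) * (W j l : ℝ)| :=
        (Finset.abs_sum_le_sum_abs _ _).trans
          (Finset.sum_le_sum fun l _ => Finset.abs_sum_le_sum_abs _ _)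
    _ ≤ ∑ _l : Fin n, ∑ _k : Fin n, a * (s i * s j) := by
        refine Finset.sum_le_sum fun l _ => Finset.sum_le_sum fun k _ => ?_
        rw [abs_mul, abs_mul]
        calc |(W i k : ℝ)| * |(A k l : ℝ)| * |(W j l : ℝ)|
            ≤ (s i / s k) * (a * (s k * s l)) * (s j / s l) := by
              have h1 : 0 ≤ s i / s k := (div_pos (hs i) (hs k)).le
              have h2 : 0 ≤ a * (s k * s l) := mul_nonneg ha (mul_pos (hs k) (hs l)).le
              exact mul_le_mul (mul_le_mul (hW i k) (hA k l) (abs_nonneg _) h1) (hW j l)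
                (abs_nonneg _) (mul_nonneg h1 h2)
          _ = a * (s i * s j) := by
              have h1 := (hs k).ne'
              have h2 := (hs l).ne'
              field_simp
    _ = (n : ℝ) ^ 2 * a * (s i * s j) := by
        simp only [Finset.sum_const, Finset.card_univ, Fintype.card_fin, nsmul_eq_mul]
        ring

/-- The integral points of a box. -/
noncomputable def Bset {ι : Type*} [Fintype ι] [DecidableEq ι] (Y : ι → ℝ) : Finset (ι → ℤ) :=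
  Fintype.piFinset fun p => Icc (-⌊Y p⌋) ⌊Y p⌋

lemma mem_Bset {ι : Type*} [Fintype ι] [DecidableEq ι] {Y : ι → ℝ} {v : ι → ℤ}
    (h : ∀ p, |(v p : ℝ)| ≤ Y p) : v ∈ Bset Y := by
  simp only [Bset, Fintype.mem_piFinset, Finset.mem_Icc]
  intro p
  rw [← abs_le]
  apply Int.le_floor.2
  rw [Int.cast_abs]
  exact h p

lemma card_Bset {ι : Type*} [Fintype ι] [DecidableEq ι] {Y : ι → ℝ} (hY : ∀ p, 0 ≤ Y p) :
    ((Bset Y).card : ℝ) ≤ ∏ p, (2 * Y p + 1) := by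
  rw [Bset, Fintype.card_piFinset, Nat.cast_prod]
  refine Finset.prod_le_prod (fun i _ => Nat.cast_nonneg _) (fun p _ => ?_)
  rw [Int.card_Icc]
  have h0 : 0 ≤ ⌊Y p⌋ := Int.floor_nonneg.2 (hY p)
  have h1 : (((⌊Y p⌋ + 1 - -⌊Y p⌋).toNat : ℕ) : ℤ) = 2 * ⌊Y p⌋ + 1 := by
    rw [Int.toNat_of_nonneg (by omega)]; ring
  have h2 : (((⌊Y p⌋ + 1 - -⌊Y p⌋).toNat : ℕ) : ℝ) = 2 * (⌊Y p⌋ : ℝ) + 1 := by
    exact_mod_cast h1
  rw [h2]
  have := Int.floor_le (Y p)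
  linarith

/-- A symmetric matrix is determined by its entries `i ≤ j`. -/
lemma symm_ext {n : ℕ} {A B : Matrix (Fin n) (Fin n) ℤ} (hA : A.IsSymm) (hB : B.IsSymm)
    (h : ∀ p : Ix n, A p.1.1 p.1.2 = B p.1.1 p.1.2) : A = B := by
  ext i j
  rcases le_total i j with hij | hij
  · exact h ⟨(i, j), hij⟩
  · rw [← hA.apply i j, ← hB.apply i j]
    exact h ⟨(j, i), hij⟩

lemma symm_congr {n : ℕ} {W A : Matrix (Fin n) (Fin n) ℤ} (hA : A.IsSymm) :
    (W * A * Wᵀ).IsSymm := by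
  unfold Matrix.IsSymm
  rw [transpose_mul, transpose_mul, transpose_transpose, hA, Matrix.mul_assoc]

end Unip

open Unip in
theorem unip_count {n : ℕ} (s : Fin n → ℝ) (hs : ∀ i, 0 < s i) (a b : ℝ) (ha : 0 ≤ a) (hb : 0 ≤ b)
    (T : Finset (Matrix (Fin n) (Fin n) ℤ × Matrix (Fin n) (Fin n) ℤ))
    (hbox : ∀ p ∈ T, p.1.IsSymm ∧ p.2.IsSymm ∧ (∀ i j, |(p.1 i j : ℝ)| ≤ a * (s i * s j)) ∧
      ∀ i j, |(p.2 i j : ℝ)| ≤ b * (s i * s j))
    (hfree : ∀ p ∈ T, ∀ q ∈ T, ∀ W : Matrix (Fin n) (Fin n) ℤ, (∀ i, W i i = 1) →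
      (∀ i j, i < j → W i j = 0) → W * p.1 * Wᵀ = q.1 → W * p.2 * Wᵀ = q.2 → p = q ∧ W = 1) :
    (T.card : ℝ) * ∏ i, ∏ j ∈ univ.filter (· < i), (s i / s j) ≤
      (∏ p : Ix n, (2 * (n : ℝ) ^ 2 * a * (s p.1.1 * s p.1.2) + 1)) *
        ∏ p : Ix n, (2 * (n : ℝ) ^ 2 * b * (s p.1.1 * s p.1.2) + 1) := by
  classical
  obtain ⟨Ya, hYa⟩ : ∃ Y : Ix n → ℝ, Y = fun p => (n : ℝ) ^ 2 * a * (s p.1.1 * s p.1.2) :=
    ⟨_, rfl⟩
  obtain ⟨Yb, hYb⟩ : ∃ Y : Ix n → ℝ, Y = fun p => (n : ℝ) ^ 2 * b * (s p.1.1 * s p.1.2) :=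
    ⟨_, rfl⟩
  have hYa0 : ∀ p, 0 ≤ Ya p := by
    intro p; rw [hYa]
    exact mul_nonneg (mul_nonneg (sq_nonneg _) ha) (mul_pos (hs _) (hs _)).le
  have hYb0 : ∀ p, 0 ≤ Yb p := by
    intro p; rw [hYb]
    exact mul_nonneg (mul_nonneg (sq_nonneg _) hb) (mul_pos (hs _) (hs _)).le
  have hcard : ((Wset s) ×ˢ T).card ≤ (Bset Ya ×ˢ Bset Yb).card := by
    refine Finset.card_le_card_of_injOn
      (fun x : (Fin n → Fin n → ℤ) × (Matrix (Fin n) (Fin n) ℤ × Matrix (Fin n) (Fin n) ℤ) =>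
        ((fun p : Ix n => ((Matrix.of x.1) * x.2.1 * (Matrix.of x.1)ᵀ) p.1.1 p.1.2),
          (fun p : Ix n => ((Matrix.of x.1) * x.2.2 * (Matrix.of x.1)ᵀ) p.1.1 p.1.2))) ?_ ?_
    · rintro ⟨W, p⟩ hx
      rw [Finset.mem_coe, Finset.mem_product] at hx
      obtain ⟨hW, hp⟩ := hx
      obtain ⟨-, hWb⟩ := mem_Wset (W := Matrix.of W) hs hW
      obtain ⟨-, -, hA, hB⟩ := hbox p hp
      rw [Finset.mem_coe, Finset.mem_product]
      refine ⟨mem_Bset fun q => ?_, mem_Bset fun q => ?_⟩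
      · rw [hYa]; exact box_mul hs ha hWb hA _ _
      · rw [hYb]; exact box_mul hs hb hWb hB _ _
    · rintro ⟨W, p⟩ hx ⟨W', p'⟩ hx' he
      rw [Finset.mem_coe, Finset.mem_product] at hx hx'
      obtain ⟨hW, hp⟩ := hx
      obtain ⟨hW', hp'⟩ := hx'
      obtain ⟨hLU, -⟩ := mem_Wset (W := Matrix.of W) hs hW
      obtain ⟨hLU', -⟩ := mem_Wset (W := Matrix.of W') hs hW'
      obtain ⟨hsA, hsB, -, -⟩ := hbox p hp
      obtain ⟨hsA', hsB', -, -⟩ := hbox p' hp'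
      simp only [Prod.mk.injEq] at he
      obtain ⟨he1, he2⟩ := he
      have h1 := symm_ext (symm_congr hsA) (symm_congr hsA') (fun q => congrFun he1 q)
      have h2 := symm_ext (symm_congr hsB) (symm_congr hsB') (fun q => congrFun he2 q)
      obtain ⟨U, hU, hUW⟩ := hLU'.inv_mul hLU
      rw [← hUW] at h1 h2
      obtain ⟨hpp, hU1⟩ := hfree p hp p' hp' U hU.1 hU.2 (congr_cancel hLU' h1)
        (congr_cancel hLU' h2)
      rw [hU1, Matrix.mul_one] at hUW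
      have : W' = W := hUW
      rw [this, hpp]
  rw [Finset.card_product, Finset.card_product] at hcard
  have hcard' : ((Wset s).card : ℝ) * (T.card : ℝ) ≤
      ((Bset Ya).card : ℝ) * ((Bset Yb).card : ℝ) := by exact_mod_cast hcard
  have eA : ∏ p : Ix n, (2 * (n : ℝ) ^ 2 * a * (s p.1.1 * s p.1.2) + 1) =
      ∏ p : Ix n, (2 * Ya p + 1) := by
    refine Finset.prod_congr rfl fun p _ => ?_
    rw [hYa]; ring
  have eB : ∏ p : Ix n, (2 * (n : ℝ) ^ 2 * b * (s p.1.1 * s p.1.2) + 1) =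
      ∏ p : Ix n, (2 * Yb p + 1) := by
    refine Finset.prod_congr rfl fun p _ => ?_
    rw [hYb]; ring
  rw [eA, eB]
  calc (T.card : ℝ) * ∏ i, ∏ j ∈ univ.filter (· < i), (s i / s j)
      ≤ (T.card : ℝ) * ((Wset s).card : ℝ) :=
        mul_le_mul_of_nonneg_left (card_Wset hs) (Nat.cast_nonneg _)
    _ = ((Wset s).card : ℝ) * (T.card : ℝ) := mul_comm _ _
    _ ≤ ((Bset Ya).card : ℝ) * ((Bset Yb).card : ℝ) := hcard'
    _ ≤ _ := mul_le_mul (card_Bset hYa0) (card_Bset hYb0) (Nat.cast_nonneg _)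
        (Finset.prod_nonneg fun p _ => by have := hYa0 p; linarith)

end Stoll308.BG
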